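import Pool.Agent.SSO.BTy

/-! # The bridge: the coded order is a linear order (package B1)

(problem MP_ceadec_lc, project SSO, part B)

* Clause 1 (`∀ x y, Val l x y → x ∈ L ∧ y ∈ L`): `F.brn` for `rn lt`: for `x = kn a`, `y = kn b` by `kn_sn` with `φ = ⊤` (`G.top`).
* Clause 2: `∀ x, ¬ Val l x x`: suppose some `NG G` has `Val l x x`; by clause 1 `x ∈ L`; so it is enough to show
  `∀ x ∈ L, ¬ Val l x x`: `F.bsn`, `val_rn`: `lt a a = ⊥` (`RO.ext'`, `h.irr`), `⊥ ∉ G.s` (`G.bot`).
* Clause 3: it is enough (clause 1) to treat `x, y, z ∈ L`: `F.bsn` three times, `F.imp`, `F.valr` and `h.tr`.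
* Clause 4: `F.bsn` twice: for `kn a`, `kn b`: if `a = b`: the middle alternative. Otherwise densely one of the outer alternatives by
  `h.tot` (`F.loc`, `F.valr`).

How to work with these statements (file `CPI/BTv.lean`, `SSO/Nam.lean`, `SSO/BTy.lean`; see the proofs in `DLN/BNlin.lean`,
`DLN/BSp.lean`, `DLN/BDL.lean`, `CPI/BNam.lean` for models; they are for `P : Type`, the names `kn`, `sn`, `rn` of this project are in
`SSO/Nam.lean` for `P : Type u`): `F p S` means that `S G` is true in all quotients `NG G` with `RO.up p ∈ G.s`. A statement `S G` for an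
arbitrary `G` is proved by `F.top fun p => ?_` (all statements about names have a truth value: class `TV`, found by instance
search; state the statement as a function of `G`). Quantifiers: `F.all`, `F.ex`, `F.bsn` (`∀ x ∈ sn φ`: it is enough to treat
`x = kn a` below conditions `q ∈ φ a`), `F.esn`, `F.bck`, `F.eck` (`∀/∃ x ∈ ω`; `om_eq` says that `IsOm` has only one element, `oN`),
`F.dest_sn`, `F.bsub`, `F.esub` (names of subsets of `sn φ`), `F.brn`, connectives: `F.imp`, `F.and`, `F.no`, `F.or`, `F.loc`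
(densely), `F.mono`, `F.const`, `F.not_false`, `F.of_not` (a true statement is forced by some condition). Atomic statements: `kn_eq`,
`kn_sn`, `kn_sn_chi`, `val_rn`, `val_iff`, `chi_mem`; forced forms: `F.sn`, `F.valr`, `F.kn_eq`, `F.mem`. To reorder the premises of a
statement (so that all quantifiers become bounded) prove the reordered statement and apply it. If `rw` does not find a
pattern, use `beta_reduce` or `show`. From `q ∈ φ a` and `RO.up q ∈ G.s` one gets `φ a ∈ G.s` by `G.up hG (RO.up_le.2 h)`;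
`q ∈ chi c ↔ c` is `RO.mem_chi`. -/

set_option autoImplicit false

universe u

namespace SSO

open STP STP.BSet CPI

variable {P : Type u} [PartialOrder P] {A : Type u} {lt : A → A → RO P}

theorem br_lo (h : TLO lt) (G : Ult (RO P)) :
    IsLO (EG G) (NG.mk G (pN A)) (NG.mk G (rn lt)) := by
  have top : ∀ (G : Ult (RO P)) (a : A), EG G (NG.mk G (kn a)) (NG.mk G (pN A)) := fun G a =>
    (kn_sn G).2 G.top
  have c1 : ∀ G : Ult (RO P), ∀ x y, Val (EG G) (NG.mk G (rn lt)) x y →
      EG G x (NG.mk G (pN A)) ∧ EG G y (NG.mk G (pN A)) :=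
    F.top fun p => F.brn.2 fun a c q _ _ G _ => ⟨top G a, top G c⟩
  have c2 : ∀ G : Ult (RO P), ∀ x, EG G x (NG.mk G (pN A)) →
      ¬ Val (EG G) (NG.mk G (rn lt)) x x :=
    F.top fun p => F.bsn.2 fun a q _ _ => F.no.2 fun r _ hr => h.irr r a (F.valr.1 hr)
  have c3 : ∀ G : Ult (RO P), ∀ x, EG G x (NG.mk G (pN A)) → ∀ y, EG G y (NG.mk G (pN A)) →
      ∀ z, EG G z (NG.mk G (pN A)) → Val (EG G) (NG.mk G (rn lt)) x y →
        Val (EG G) (NG.mk G (rn lt)) y z → Val (EG G) (NG.mk G (rn lt)) x z :=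
    F.top fun p => F.bsn.2 fun a q _ _ => F.bsn.2 fun b q' _ _ => F.bsn.2 fun c q'' _ _ =>
      F.imp.2 fun r _ h1 => F.imp.2 fun r' hr' h2 =>
        F.valr.2 (h.tr r' a b c (F.valr.1 (h1.mono hr')) (F.valr.1 h2))
  have c4 : ∀ G : Ult (RO P), ∀ x, EG G x (NG.mk G (pN A)) → ∀ y, EG G y (NG.mk G (pN A)) →
      Val (EG G) (NG.mk G (rn lt)) x y ∨ x = y ∨ Val (EG G) (NG.mk G (rn lt)) y x := by
    refine F.top fun p => F.bsn.2 fun a q _ _ => F.bsn.2 fun b q' _ _ => ?_
    by_cases hab : a = b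
    · subst hab
      exact fun G _ => Or.inr (Or.inl rfl)
    · refine F.loc fun r _ => ?_
      obtain ⟨r', hr', h1⟩ := h.tot r a b hab
      refine ⟨r', hr', fun G hG => ?_⟩
      rcases h1 with h1 | h1
      · exact Or.inl (F.valr.2 h1 G hG)
      · exact Or.inr (Or.inr (F.valr.2 h1 G hG))
  refine ⟨c1 G, fun x hx => c2 G x (c1 G x x hx).1 hx, fun x y z hxy hyz => ?_, fun x y hx hy =>
    c4 G x hx y hy⟩
  exact c3 G x (c1 G x y hxy).1 y (c1 G x y hxy).2 z (c1 G y z hyz).2 hxy hyz

end SSO
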