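import Pool.Agent.SSO.BTy

/-! # The bridge: small uncountable suborders are not strongly surjective (package B4)

(problem MP_ceadec_lc, project SSO, part B)

* `not_cnt`: suppose that `q` forces `Sub B (pN A)` and `¬ IsCnt B`, and let `C` be a countable ground model set. Then there are `r ≤ q` and
  `a ∉ C` with `r ∈ BSet.mem (kn a) B`. Otherwise `q` forces `∀ y ∈ B, ∃ n ∈ oN, Val (wN g) n y`, where `g : ℕ → BSet (RO P)` enumerates the names
  `kn a`, `a ∈ C` (if `C` is empty: `g = fun _ => ck 0`): by `F.bsub` with `Sub B (pN A)`; for `q' ≤ q` with `q' ∈ BSet.mem (kn a) B` we have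
  `a ∈ C`, so `a = e n`, `wN_val`. With `ck_om`, `wN_fun` this says that `q` forces `IsCnt B`, a contradiction (`F.no`, `F.not_false`).
* `br_neg`: by `F.top fun p => ?_`, `F.all`, `F.imp` three times: let `B` be a name and `q` force `Sub B (pN A)`, `¬ IsCnt B`, `Onto (HN S) B`.
  To show: `q` forces `¬ IsSS B (rn lt)`. By `F.no`: suppose `q' ≤ q` forces `IsSS B (rn lt)`. By `F.ex` there is a name `g` such that `q'` forces
  `IsFun g (HN S)` and `∀ y ∈ B, ∃ x ∈ HN S, Val g x y`. Put `Bt a := BSet.mem (kn a) B`, `ft k a := BSet.mem (opN (kn k) (kn a)) g`. The three premises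
  of `h q' Bt ft` hold: `not_cnt` (for `r ≤ q'`); functionality by `IsFun`, `F.kn_eq`; onto: for `r ∈ Bt a`: `r` forces `∃ x ∈ HN S, Val g x (kn a)`,
  `F.esn`, `RO.mem_chi`. So there are `r ≤ q'` and `T` with `T a ≤ Bt a`, `r ∈ T x` for some `x`, and no `TMono lt r' Bt T F` for `r' ≤ r`. The name
  `sn T` is forced to be a subset of `B` (`F.bsn`, `F.mem`) and not empty (`F.sn`), so by `IsSS`, `F.ex` there is a name `f` such that `r` forces
  `IsMo (rn lt) B (sn T) f`. Put `Ft a x := BSet.mem (opN (kn a) (kn x)) f`. Then `TMono lt r Bt T Ft`, a contradiction: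
  `dom`: for `r1 ≤ r`, `r1 ∈ Bt a`: `r1` forces `∃ y, Val f (kn a) y`, and `y ∈ sn T` (second clause of `IsMo`), so densely `y = kn x` (`F.dest_sn`).
  `un`: `IsFun`, `F.kn_eq`. `val`: second clause of `IsMo` and `F.sn`. `onto`: for `r1 ∈ T x`: `kn x ∈ sn T`, so `∃ z ∈ B, Val f z (kn x)`, and
  `B ⊆ pN A`: `F.esub`. `mono`: the last clause of `IsMo` with `F.valr`: `r1` forces `kn x = kn y ∨ Val (rn lt) (kn x) (kn y)`; if `x = y` done;
  otherwise the first alternative is false (`kn_eq`), so `r1` forces the second, `F.valr`.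

How to work with these statements (file `CPI/BTv.lean`, `SSO/Nam.lean`, `SSO/BTy.lean`; see the proofs in `DLN/BNlin.lean`,
`DLN/BSp.lean`, `DLN/BDL.lean`, `CPI/BNam.lean` for models; they are for `P : Type`, the names `kn`, `sn`, `rn` of this project are in
`SSO/Nam.lean` for `P : Type u`): `F p S` means that `S G` is true in all quotients `NG G` with `RO.up p ∈ G.s`. A statement `S G` for an
arbitrary `G` is proved by `F.top fun p => ?_` (all statements about names have a truth value: class `TV`, found by instance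
search; state the statement as a function of `G`). Quantifiers: `F.all`, `F.ex`, `F.bsn` (`∀ x ∈ sn φ`: it is enough to treat
`x = kn a` below conditions `q ∈ φ a`), `F.esn`, `F.bck`, `F.eck` (`∀/∃ x ∈ ω`; `om_eq` says that `IsOm` has only one element, `oN`),
`F.dest_sn`, `F.bsub`, `F.esub` (names of subsets of `sn φ`), `F.brn`, connectives: `F.imp`, `F.and`, `F.no`, `F.or`, `F.loc`
(densely), `F.mono`, `F.const`, `F.not_false`, `F.of_not` (a true statement is forced by some condition). Atomic statements: `kn_eq`,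
`kn_sn`, `kn_sn_chi`, `val_rn`, `val_iff`, `chi_mem`; forced forms: `F.sn`, `F.valr`, `F.kn_eq`, `F.mem`. To reorder the premises of a
statement (so that all quantifiers become bounded) prove the reordered statement and apply it. If `rw` does not find a
pattern, use `beta_reduce` or `show`. From `q ∈ φ a` and `RO.up q ∈ G.s` one gets `φ a ∈ G.s` by `G.up hG (RO.up_le.2 h)`;
`q ∈ chi c ↔ c` is `RO.mem_chi`. -/

set_option autoImplicit false

universe u

namespace SSO

open STP STP.BSet CPI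

variable {P : Type u} [PartialOrder P] {A : Type u} {lt : A → A → RO P}

theorem not_cnt {B : BSet (RO P)} {q : P}
    (hB : F q fun G => Sub (EG G) (NG.mk G B) (NG.mk G (pN A)))
    (hc : F q fun G => ¬ IsCnt (EG G) (NG.mk G B)) {C : Set A} (hC : C.Countable) :
    ∃ r ≤ q, ∃ a, a ∉ C ∧ r ∈ BSet.mem (kn a) B := by
  by_contra hcon
  push Not at hcon
  obtain ⟨g, hg⟩ : ∃ g : ℕ → BSet (RO P), ∀ a ∈ C, ∃ n, g n = kn a := by
    rcases C.eq_empty_or_nonempty with h | h
    · exact ⟨fun _ => ck 0, fun a ha => by rw [h] at ha; exact ha.elim⟩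
    · obtain ⟨e, he⟩ := hC.exists_eq_range h
      refine ⟨fun n => kn (e n), fun a ha => ?_⟩
      rw [he] at ha
      obtain ⟨n, hn⟩ := ha
      exact ⟨n, congrArg kn hn⟩
  have key : F q fun G => ∀ y, EG G y (NG.mk G B) →
      ∃ n, EG G n (NG.mk G oN) ∧ Val (EG G) (NG.mk G (wN g)) n y := by
    refine F.bsub hB fun a q' hq' h => ?_
    have h1 : a ∈ C := by
      by_contra h2
      exact hcon q' hq' a h2 (F.mem.1 h)
    obtain ⟨n, hn⟩ := hg a h1
    intro G _
    refine ⟨_, nn_mem G n, ?_⟩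
    have h2 := wN_val g n G
    rwa [hn] at h2
  exact F.not_false (p := q) fun G hG => hc G hG
    ⟨NG.mk G oN, NG.mk G (wN g), ck_om G, wN_fun g G, key G hG⟩

theorem br_neg {S : Set A} (h : TNeg lt S) (G : Ult (RO P)) :
    ∀ B, Sub (EG G) B (NG.mk G (pN A)) → ¬ IsCnt (EG G) B → Onto (EG G) (NG.mk G (HN S)) B →
      ¬ IsSS (EG G) B (NG.mk G (rn lt)) := by
  have key : ∀ G : Ult (RO P), ∀ B, Sub (EG G) B (NG.mk G (pN A)) → ¬ IsCnt (EG G) B →
      Onto (EG G) (NG.mk G (HN S)) B → ¬ IsSS (EG G) B (NG.mk G (rn lt)) := by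
    refine F.top fun p => ?_
    refine F.all.2 fun B => F.imp.2 fun q hq hB => F.imp.2 fun q1 hq1 hc =>
      F.imp.2 fun q2 hq2 hon => F.no.2 fun q3 hq3 hss => ?_
    unfold Onto at hon
    obtain ⟨g, hg⟩ := F.ex.1 hon
    have hB3 : F q3 fun G => Sub (EG G) (NG.mk G B) (NG.mk G (pN A)) :=
      hB.mono (hq3.trans (hq2.trans hq1))
    have hc3 : F q3 fun G => ¬ IsCnt (EG G) (NG.mk G B) := hc.mono (hq3.trans hq2)
    obtain ⟨r, hr, T, hT1, ⟨x0, hx0⟩, hT3⟩ := h q3 (fun a => BSet.mem (kn a) B)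
      (fun k a => BSet.mem (opN (kn k) (kn a)) g)
      (fun r hr C hC => not_cnt (hB3.mono hr) (hc3.mono hr) hC)
      (by
        intro r hr k _ a a' ha ha'
        rw [← F.mem] at ha ha'
        exact (F.kn_eq (p := r)).1 fun G hG => (hg G (up_mem (hr.trans hq3) hG)).1.2.2 _ _ _
          (val_iff.2 (ha G hG)) (val_iff.2 (ha' G hG)))
      (by
        intro r hr a ha
        have h1 : F r fun G => ∃ x, EG G x (NG.mk G (HN S)) ∧
            Val (EG G) (NG.mk G g) x (NG.mk G (kn a)) := fun G hG =>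
          (hg G (up_mem (hr.trans hq3) hG)).2 _ (F.mem.2 ha G hG)
        obtain ⟨r', hr', k, hk, h2⟩ := F.esn.1 h1 r le_rfl
        exact ⟨r', hr', k, RO.mem_chi.1 hk, F.mem.1 fun G hG => val_iff.1 (h2 G hG)⟩)
    have hsub : F r fun G => Sub (EG G) (NG.mk G (sn T)) (NG.mk G B) :=
      F.bsn.2 fun a q' _ ha => F.mem.2 (RO.le_def.1 (hT1 a) q' ha)
    have hex : F r fun G => ∃ f, IsMo (EG G) (NG.mk G (rn lt)) (NG.mk G B)
        (NG.mk G (sn T)) f := fun G hG =>
      hss G (up_mem hr hG) _ (hsub G hG) ⟨_, F.sn.2 hx0 G hG⟩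
    obtain ⟨f, hf⟩ := F.ex.1 hex
    refine hT3 r le_rfl (fun a x => BSet.mem (opN (kn a) (kn x)) f) ⟨?_, ?_, ?_, ?_, ?_⟩
    · intro r1 hr1 a ha
      have h1 : F r1 fun G => ∃ y, EG G y (NG.mk G (sn T)) ∧
          Val (EG G) (NG.mk G f) (NG.mk G (kn a)) y := fun G hG => by
        have h2 := hf G (up_mem hr1 hG)
        obtain ⟨y, hy⟩ := h2.1.2.1 _ (F.mem.2 ha G hG)
        exact ⟨y, h2.2.1 _ _ hy, hy⟩
      obtain ⟨r', hr', x, _, h2⟩ := F.esn.1 h1 r1 le_rfl
      exact ⟨r', hr', x, F.mem.1 fun G hG => val_iff.1 (h2 G hG)⟩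
    · intro r1 hr1 a x x' _ h1 h2
      rw [← F.mem] at h1 h2
      exact (F.kn_eq (p := r1)).1 fun G hG => (hf G (up_mem hr1 hG)).1.2.2 _ _ _
        (val_iff.2 (h1 G hG)) (val_iff.2 (h2 G hG))
    · intro r1 hr1 a x _ h1
      rw [← F.mem] at h1
      exact F.sn.1 fun G hG => (hf G (up_mem hr1 hG)).2.1 _ _ (val_iff.2 (h1 G hG))
    · intro r1 hr1 x hx
      have h1 : F r1 fun G => ∃ z, EG G z (NG.mk G B) ∧
          Val (EG G) (NG.mk G f) z (NG.mk G (kn x)) := fun G hG =>
        (hf G (up_mem hr1 hG)).2.2.1 _ (F.sn.2 hx G hG)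
      obtain ⟨r', hr', a, h2, h3⟩ := F.esub (hB3.mono (hr1.trans hr)) h1 r1 le_rfl
      exact ⟨r', hr', a, F.mem.1 h2, F.mem.1 fun G hG => val_iff.1 (h3 G hG)⟩
    · intro r1 hr1 a b x y _ _ h1 h2 h3
      rw [← F.mem] at h1 h2
      by_cases hxy : x = y
      · exact Or.inl hxy
      · refine Or.inr (F.valr.1 fun G hG => ?_)
        exact ((hf G (up_mem hr1 hG)).2.2.2 _ _ _ _ (F.valr.2 h3 G hG) (val_iff.2 (h1 G hG))
          (val_iff.2 (h2 G hG))).resolve_left fun h4 => hxy ((kn_eq G).1 h4)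
  exact key G

end SSO
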