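import Pool.Agent.SSO.BTy

/-! # The bridge: the coded order is strongly surjective (package B2)

(problem MP_ceadec_lc, project SSO, part B)

`F.top fun p => ?_`, `F.all`: let `T` be a name, `F.imp` twice: `q ≤ p` forces `Sub T (pN A)` and `∃ y, y ∈ T`. Let
`Tt a := BSet.mem (kn a) T : RO P` (`F.mem`). `F.loc`: let `q1 ≤ q`. As `q1` forces `∃ y ∈ T` and `T ⊆ pN A` there are `q2 ≤ q1` and `a` with
`q2 ∈ Tt a` (`F.esub` or `F.ex`, `F.dest_sn`). By `h q2 Tt` there are `r ≤ q2` and `f` with `TMono lt r (fun _ => ⊤) Tt f`. Claim: `r` forces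
`IsMo (rn lt) (pN A) T fN`, where `fN := rn f'` with `f' a x := f a x ⊓ RO.up r` (only pairs below `r`; or simply `f' = f`: then in `NG G` with
`up r ∈ G.s` the pairs `(kn a, kn x)` are in `fN` iff `f a x ∈ G.s`). Then `F.ex` (or directly: `∃ f` in every such `NG G`).
* `IsFun fN (pN A)`: every element of `fN` is a pair `(x, y)` with `x ∈ pN A`: elements of `rn f` (prove it by `F.all`, `F.imp`, `mem_rn`,
  `RO.mem_iSup`, as `F.elim_rn`; `opN_op`). Totality: `F.bsn`, and `h.dom` densely. Uniqueness `Val fN x y → Val fN x z → y = z`: `F.brn` for the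
  first, and then `F.elim_rn` for the second (`kn a = kn a'` by `F.kn_eq`, `F.loc`); below a common condition `t ≤ r` with
  `t ∈ f a x`, `t ∈ f a x'` we get `x = x'` from `un` (`RO.mem_top`).
* values in `T`: `F.brn` and `val`. Onto: `∀ y ∈ T, ∃ x ∈ pN A, Val fN x y`: `F.bsub` with `T ⊆ pN A`, and `onto` densely (`F.esn`).
* monotone: `∀ x x' y y'`, `Val (rn lt) x x' → Val fN x y → Val fN x' y' → y = y' ∨ Val (rn lt) y y'`: `F.brn` for the first premise
  (`x = kn a`, `x' = kn b`), then the others by `F.all`, `F.imp`, `F.elim_rn`; `mono`.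

How to work with these statements (file `CPI/BTv.lean`, `SSO/Nam.lean`, `SSO/BTy.lean`; see the proofs in `DLN/BNlin.lean`,
`DLN/BSp.lean`, `DLN/BDL.lean`, `CPI/BNam.lean` for models; they are for `P : Type`, the names `kn`, `sn`, `rn` of this project are in
`SSO/Nam.lean` for `P : Type u`): `F p S` means that `S G` is true in all quotients `NG G` with `RO.up p ∈ G.s`. A statement `S G` for an
arbitrary `G` is proved by `F.top fun p => ?_` (all statements about names have a truth value: class `TV`, found by instance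
search; state the statement as a function of `G`). Quantifiers: `F.all`, `F.ex`, `F.bsn` (`∀ x ∈ sn φ`: it is enough to treat
`x = kn a` below conditions `q ∈ φ a`), `F.esn`, `F.bck`, `F.eck` (`∀/∃ x ∈ ω`; `om_eq` says that `IsOm` has only one element, `oN`),
`F.dest_sn`, `F.bsub`, `F.esub` (names of subsets of `sn φ`), `F.brn`, connectives: `F.imp`, `F.and`, `F.no`, `F.or`, `F.loc`
(densely), `F.mono`, `F.const`, `F.not_false`, `F.of_not` (a true statement is forced by some condition). Atomic statements: `kn_eq`,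
`kn_sn`, `kn_sn_chi`, `val_rn`, `val_iff`, `chi_mem`; forced forms: `F.sn`, `F.valr`, `F.kn_eq`, `F.mem`. To reorder the premises of a
statement (so that all quantifiers become bounded) prove the reordered statement and apply it. If `rw` does not find a
pattern, use `beta_reduce` or `show`. From `q ∈ φ a` and `RO.up q ∈ G.s` one gets `φ a ∈ G.s` by `G.up hG (RO.up_le.2 h)`;
`q ∈ chi c ↔ c` is `RO.mem_chi`. -/

set_option autoImplicit false

universe u

namespace SSO

open STP STP.BSet CPI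

variable {P : Type u} [PartialOrder P] {A : Type u} {lt : A → A → RO P}

private theorem br_mo {T : BSet (RO P)} {r : P} {f : A → A → RO P}
    (hs : F r fun G => Sub (EG G) (NG.mk G T) (NG.mk G (pN A)))
    (hf : TMono lt r (fun _ => ⊤) (fun a => BSet.mem (kn a) T) f) :
    F r fun G => IsMo (EG G) (NG.mk G (rn lt)) (NG.mk G (pN A)) (NG.mk G T) (NG.mk G (rn f)) := by
  have k1 : F r fun G => ∀ p, EG G p (NG.mk G (rn f)) →
      ∃ x y, EG G x (NG.mk G (pN A)) ∧ IsOP (EG G) p x y := by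
    refine F.all.2 fun Z => F.imp.2 fun q hq hZ => ?_
    rw [F.mem, mem_rn, RO.mem_iSup] at hZ
    refine F.loc fun q' hq' => ?_
    obtain ⟨r', hr', z, h1, h2⟩ := hZ q' hq'
    refine ⟨r', hr', fun G hG => ⟨NG.mk G (kn z.1), NG.mk G (kn z.2), ?_,
      isOP_iff.2 (F.eq.2 h2 G hG)⟩⟩
    rw [kn_sn]
    exact G.top
  have k2 : F r fun G => ∀ x, EG G x (NG.mk G (pN A)) → ∃ y, Val (EG G) (NG.mk G (rn f)) x y := by
    refine F.bsn.2 fun a q hq _ => F.loc fun q' hq' => ?_
    obtain ⟨r', hr', x, hx⟩ := hf.dom q' (hq'.trans hq) a RO.mem_top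
    exact ⟨r', hr', fun G hG => ⟨_, F.valr.2 hx G hG⟩⟩
  have k3 : F r fun G => ∀ x y, Val (EG G) (NG.mk G (rn f)) x y →
      ∀ z, Val (EG G) (NG.mk G (rn f)) x z → y = z := by
    refine F.brn.2 fun a c q hq hac => F.all.2 fun Z => F.imp.2 fun q' hq' hZ => ?_
    refine F.elim_rn hZ fun r' hr' a' c' h1 h2 h3 => ?_
    have h4 : a = a' := F.kn_eq.1 h2
    subst h4
    have h5 : c = c' := hf.un r' (hr'.trans (hq'.trans hq)) a c c' RO.mem_top
      ((f a c).down (hr'.trans hq') hac) h1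
    subst h5
    exact fun G hG => (h3 G hG).symm
  have k4 : F r fun G => ∀ x y, Val (EG G) (NG.mk G (rn f)) x y → EG G y (NG.mk G T) :=
    F.brn.2 fun a c q hq hac => F.mem.2 (hf.val q hq a c RO.mem_top hac)
  have k5 : F r fun G => ∀ y, EG G y (NG.mk G T) →
      ∃ x, EG G x (NG.mk G (pN A)) ∧ Val (EG G) (NG.mk G (rn f)) x y := by
    refine F.bsub hs fun a q hq ha => F.esn.2 fun q' hq' => ?_
    obtain ⟨r', hr', b, -, hb⟩ := hf.onto q' (hq'.trans hq) a (F.mem.1 (ha.mono hq'))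
    exact ⟨r', hr', b, RO.mem_top, F.valr.2 hb⟩
  have k6 : F r fun G => ∀ x x', Val (EG G) (NG.mk G (rn lt)) x x' → ∀ y y',
      Val (EG G) (NG.mk G (rn f)) x y → Val (EG G) (NG.mk G (rn f)) x' y' →
      y = y' ∨ Val (EG G) (NG.mk G (rn lt)) y y' := by
    refine F.brn.2 fun a b q hq hab => F.all.2 fun Y => F.all.2 fun Y' =>
      F.imp.2 fun q1 h1 hY => F.imp.2 fun q2 h2 hY' => ?_
    refine F.elim_rn (hY.mono h2) fun r1 hr1 a1 c hc e1 e2 => ?_
    refine F.elim_rn (hY'.mono hr1) fun r2 hr2 b1 c' hc' e3 e4 => ?_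
    have e5 : a = a1 := F.kn_eq.1 e1
    have e6 : b = b1 := F.kn_eq.1 e3
    subst e5
    subst e6
    have h3 : r2 ≤ q := hr2.trans (hr1.trans (h2.trans h1))
    rcases hf.mono r2 (h3.trans hq) a b c c' RO.mem_top RO.mem_top ((f a c).down hr2 hc) hc'
      ((lt a b).down h3 hab) with h4 | h4
    · intro G hG
      left
      have e7 : NG.mk G Y = NG.mk G (kn c) := e2 G (up_mem hr2 hG)
      have e8 : NG.mk G Y' = NG.mk G (kn c') := e4 G hG
      rw [e7, e8, h4]
    · intro G hG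
      right
      have e7 : NG.mk G Y = NG.mk G (kn c) := e2 G (up_mem hr2 hG)
      have e8 : NG.mk G Y' = NG.mk G (kn c') := e4 G hG
      rw [e7, e8]
      exact F.valr.2 h4 G hG
  exact fun G hG => ⟨⟨k1 G hG, k2 G hG, fun x y z h1 h2 => k3 G hG x y h1 z h2⟩, k4 G hG, k5 G hG,
    fun x x' y y' h1 h2 h3 => k6 G hG x x' h1 y y' h2 h3⟩

theorem br_ss (h : TSS lt) (G : Ult (RO P)) :
    IsSS (EG G) (NG.mk G (pN A)) (NG.mk G (rn lt)) := by
  revert G
  refine F.top fun p => F.all.2 fun T => F.imp.2 fun q hq hs => F.imp.2 fun q' hq' hne =>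
    F.loc fun q1 hq1 => ?_
  obtain ⟨X, hX⟩ := F.ex.1 hne
  have hXp : F q1 fun G => EG G (NG.mk G X) (NG.mk G (pN A)) :=
    fun G hG => hs G (up_mem (hq1.trans hq') hG) _ (hX G (up_mem hq1 hG))
  obtain ⟨q2, hq2, a, -, ha⟩ := F.dest_sn hXp q1 le_rfl
  have haT : q2 ∈ BSet.mem (kn a) T := F.mem.1 fun G hG => by
    have h1 : NG.mk G X = NG.mk G (kn a) := ha G hG
    have h2 : EG G (NG.mk G X) (NG.mk G T) := hX G (up_mem (hq2.trans hq1) hG)
    rwa [h1] at h2
  obtain ⟨r, hr, f, hf⟩ := h q2 (fun a => BSet.mem (kn a) T) ⟨a, haT⟩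
  refine ⟨r, hr.trans hq2, F.ex.2 ⟨rn f, ?_⟩⟩
  have hsr : F r fun G => Sub (EG G) (NG.mk G T) (NG.mk G (pN A)) :=
    hs.mono (hr.trans (hq2.trans (hq1.trans hq')))
  exact br_mo hsr hf


end SSO
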