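import Pool.Agent.CPI.Lang

/-! # Strongly surjective linear orders inside a structure `(N, E)`

(problem MP_ceadec_lc, project SSO; definitions, no sorry in this file)

Every definition quantifies over the elements of `N` only. `Sub`, `Val`, `IsFun` are the notions of
`STP/Lang.lean`: inclusion, `(x, y) ∈ f`, `f` is a function with domain `a`; `IsCnt` is from `CPI/Lang.lean`:
some function with domain `ω` takes all elements of `x` as values. -/

set_option autoImplicit false

universe v

namespace SSO

open STP CPI

section

variable {N : Type v} (E : N → N → Prop)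

/-- `l` is a (strict) linear order of the set `L`; `(x, y) ∈ l` means `x < y` -/
def IsLO (L l : N) : Prop :=
  (∀ x y, Val E l x y → E x L ∧ E y L) ∧
  (∀ x, ¬ Val E l x x) ∧
  (∀ x y z, Val E l x y → Val E l y z → Val E l x z) ∧
  ∀ x y, E x L → E y L → Val E l x y ∨ x = y ∨ Val E l y x

/-- `f` is a function from `X` onto `T` with: `x < x'` implies `f(x) ≤ f(x')` -/
def IsMo (l X T f : N) : Prop :=
  IsFun E f X ∧ (∀ x y, Val E f x y → E y T) ∧ (∀ y, E y T → ∃ x, E x X ∧ Val E f x y) ∧
  ∀ x x' y y', Val E l x x' → Val E f x y → Val E f x' y' → y = y' ∨ Val E l y y'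

/-- the suborder `X` of the linear order `l` is strongly surjective: there is a weakly monotone
function from `X` onto every nonempty subset `T` of `X` -/
def IsSS (X l : N) : Prop :=
  ∀ T, Sub E T X → (∃ y, E y T) → ∃ f, IsMo E l X T f

/-- some function with domain `X` takes all elements of `Y` as values (for nonempty `Y`: `|Y| ≤ |X|`) -/
def Onto (X Y : N) : Prop :=
  ∃ f, IsFun E f X ∧ ∀ y, E y Y → ∃ x, E x X ∧ Val E f x y

/-- There are a strongly surjective linear order `(L, l)` and an uncountable subset `K` of `L` with
`|K| < |L|` such that no uncountable subset `B` of `L` with `|B| ≤ |K|` is strongly surjective. -/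
def NegSS : Prop :=
  ∃ L l K, IsLO E L l ∧ IsSS E L l ∧ Sub E K L ∧ ¬ IsCnt E K ∧ ¬ Onto E K L ∧
    ∀ B, Sub E B L → ¬ IsCnt E B → Onto E K B → ¬ IsSS E B l

end

end SSO
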