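import Pool.Agent.STP.RO

/-! # The typed statements

(problem MP_ceadec_lc, project SSO; definitions, no sorry in this file)

`P` is a poset, `A` the type of points of a linear order, `lt a b : RO P` the truth value of `a < b`.

* `TLO`: `lt` is a linear order of all of `A`.
* `TMono q X T f`: `q` forces that `f` (the truth values of `f(a) = x`) is a weakly monotone function from `X`
  onto `T` (for `a` not in `X` nothing is said).
* `TSS`: the linear order is strongly surjective.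
* `TUnc S`: the ground model set `S` is uncountable. `TNon S`: `S` cannot be mapped onto `A`.
* `TNeg S`: no uncountable `B` which is an image of `S` is strongly surjective. -/

set_option autoImplicit false

universe u

namespace SSO

open STP

section

variable {P : Type u} [PartialOrder P] {A : Type u} (lt : A → A → RO P)

/-- `lt` is a linear order of `A` -/
structure TLO : Prop where
  irr : ∀ (q : P) (a : A), q ∉ lt a a
  tr : ∀ (q : P) (a b c : A), q ∈ lt a b → q ∈ lt b c → q ∈ lt a c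
  tot : ∀ (q : P) (a b : A), a ≠ b → ∃ r ≤ q, r ∈ lt a b ∨ r ∈ lt b a

/-- `q` forces that `f` is a weakly monotone function from `X` onto `T` -/
structure TMono (q : P) (X T : A → RO P) (f : A → A → RO P) : Prop where
  dom : ∀ r ≤ q, ∀ a, r ∈ X a → ∃ r' ≤ r, ∃ x, r' ∈ f a x
  un : ∀ r ≤ q, ∀ a x x', r ∈ X a → r ∈ f a x → r ∈ f a x' → x = x'
  val : ∀ r ≤ q, ∀ a x, r ∈ X a → r ∈ f a x → r ∈ T x
  onto : ∀ r ≤ q, ∀ x, r ∈ T x → ∃ r' ≤ r, ∃ a, r' ∈ X a ∧ r' ∈ f a x
  mono : ∀ r ≤ q, ∀ a b x y, r ∈ X a → r ∈ X b → r ∈ f a x → r ∈ f b y → r ∈ lt a b →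
    x = y ∨ r ∈ lt x y

/-- the linear order is strongly surjective -/
def TSS : Prop :=
  ∀ (q : P) (T : A → RO P), (∃ x, q ∈ T x) → ∃ r ≤ q, ∃ f, TMono lt r (fun _ => ⊤) T f

variable (P) in
/-- the ground model set `S` is uncountable -/
def TUnc (S : Set A) : Prop :=
  ∀ (q : P) (f : ℕ → A → RO P),
    (∀ r ≤ q, ∀ n, ∀ a a', r ∈ f n a → r ∈ f n a' → a = a') →
      ∃ r ≤ q, ∃ a ∈ S, ∀ r' ≤ r, ∀ n, r' ∉ f n a

variable (P) in
/-- the ground model set `S` cannot be mapped onto `A` -/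
def TNon (S : Set A) : Prop :=
  ∀ (q : P) (f : A → A → RO P),
    (∀ r ≤ q, ∀ k ∈ S, ∀ a a', r ∈ f k a → r ∈ f k a' → a = a') →
      ∃ r ≤ q, ∃ a, ∀ r' ≤ r, ∀ k ∈ S, r' ∉ f k a

/-- no uncountable `B` which is an image of the ground model set `S` is strongly surjective -/
def TNeg (S : Set A) : Prop :=
  ∀ (q : P) (B : A → RO P) (f : A → A → RO P),
    (∀ r ≤ q, ∀ C : Set A, C.Countable → ∃ r' ≤ r, ∃ a, a ∉ C ∧ r' ∈ B a) →
    (∀ r ≤ q, ∀ k ∈ S, ∀ a a', r ∈ f k a → r ∈ f k a' → a = a') →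
    (∀ r ≤ q, ∀ a, r ∈ B a → ∃ r' ≤ r, ∃ k ∈ S, r' ∈ f k a) →
      ∃ r ≤ q, ∃ T : A → RO P, (∀ a, T a ≤ B a) ∧ (∃ x, r ∈ T x) ∧
        ∀ r' ≤ r, ∀ F, ¬ TMono lt r' B T F

/-- all typed statements -/
structure TDat (S : Set A) : Prop where
  lo : TLO lt
  ss : TSS lt
  unc : TUnc P S
  non : TNon P S
  neg : TNeg lt S

end

end SSO
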