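import Pool.Agent.SSO.Nam
import Pool.Agent.SSO.Typed
import Pool.Agent.SSO.Coded

/-! # Truth values of the coded statements

(problem MP_ceadec_lc, project SSO; no sorry in this file)

`pN A`: the set of (codes of) all elements of `A`. `HN S`: the set of the elements of `S : Set A`. The
order is the name `rn lt`. -/

set_option autoImplicit false

universe u

namespace SSO

open STP STP.BSet CPI

section

variable {P : Type u} [PartialOrder P]

/-- the name of the set of the codes of all elements of `A` -/
noncomputable abbrev pN (A : Type u) : BSet (RO P) := sn fun _ : A => (⊤ : RO P)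

/-- the name of the set of the codes of all elements of `S` -/
noncomputable abbrev HN {A : Type u} (S : Set A) : BSet (RO P) := sn fun a => (chi (a ∈ S) : RO P)

variable (L l X T f Y : BSet (RO P))

instance : TV fun G => IsLO (EG G) (NG.mk G L) (NG.mk G l) := by
  unfold IsLO
  infer_instance

instance : TV fun G => IsMo (EG G) (NG.mk G l) (NG.mk G X) (NG.mk G T) (NG.mk G f) := by
  unfold IsMo
  infer_instance

instance : TV fun G => IsSS (EG G) (NG.mk G X) (NG.mk G l) := by
  unfold IsSS
  infer_instance

instance : TV fun G => Onto (EG G) (NG.mk G X) (NG.mk G Y) := by
  unfold Onto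
  infer_instance

end

end SSO
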