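import Pool.Agent.SSO.BTy

/-! # The bridge: the ground model set `S` is uncountable, and cannot be mapped onto `A` (package B3)

(problem MP_ceadec_lc, project SSO, part B)

* `br_sub`: `sn_sub`.
* `br_unc`: as `DLN/BNlin.lean`. Suppose `IsCnt (HN S)` is true in `NG G`; `F.of_not`: some `p` forces it; `F.ex`: names `w`, `f` such that `p` forces
  `IsOm w`, `IsFun f w` and `∀ y ∈ HN S, ∃ n ∈ w, Val f n y`; `om_eq`: `w = oN`. The typed function `ft n a := BSet.mem (opN (nn n) (kn a)) f`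
  satisfies the premise of `h p ft` (`IsFun`, `F.kn_eq`, `val_iff`). We get `r ≤ p` and `a ∈ S`. `r` forces `∃ n ∈ oN, Val f n (kn a)`, so by `F.eck`
  there are `r' ≤ r` and `n` with `r' ∈ ft n a`. Contradiction.
* `br_non`: the same for `Onto (HN S) (pN A)`: names `f` with `p` forcing `IsFun f (HN S)`, `∀ y ∈ pN A, ∃ x ∈ HN S, Val f x y`;
  `ft k a := BSet.mem (opN (kn k) (kn a)) f`; `h p ft` gives `r ≤ p`, `a`; `r` forces `∃ x ∈ HN S, Val f x (kn a)`, so by `F.esn` there are `r' ≤ r`,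
  `k ∈ S` (`RO.mem_chi`) with `r' ∈ ft k a`. Contradiction.

How to work with these statements (file `CPI/BTv.lean`, `SSO/Nam.lean`, `SSO/BTy.lean`; see the proofs in `DLN/BNlin.lean`,
`DLN/BSp.lean`, `DLN/BDL.lean`, `CPI/BNam.lean` for models; they are for `P : Type`, the names `kn`, `sn`, `rn` of this project are in
`SSO/Nam.lean` for `P : Type u`): `F p S` means that `S G` is true in all quotients `NG G` with `RO.up p ∈ G.s`. A statement `S G` for an
arbitrary `G` is proved by `F.top fun p => ?_` (all statements about names have a truth value: class `TV`, found by instance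
search; state the statement as a function of `G`). Quantifiers: `F.all`, `F.ex`, `F.bsn` (`∀ x ∈ sn φ`: it is enough to treat
`x = kn a` below conditions `q ∈ φ a`), `F.esn`, `F.bck`, `F.eck` (`∀/∃ x ∈ ω`; `om_eq` says that `IsOm` has only one element, `oN`),
`F.dest_sn`, `F.bsub`, `F.esub` (names of subsets of `sn φ`), `F.brn`, connectives: `F.imp`, `F.and`, `F.no`, `F.or`, `F.loc`
(densely), `F.mono`, `F.const`, `F.not_false`, `F.of_not` (a true statement is forced by some condition). Atomic statements: `kn_eq`,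
`kn_sn`, `kn_sn_chi`, `val_rn`, `val_iff`, `chi_mem`; forced forms: `F.sn`, `F.valr`, `F.kn_eq`, `F.mem`. To reorder the premises of a
statement (so that all quantifiers become bounded) prove the reordered statement and apply it. If `rw` does not find a
pattern, use `beta_reduce` or `show`. From `q ∈ φ a` and `RO.up q ∈ G.s` one gets `φ a ∈ G.s` by `G.up hG (RO.up_le.2 h)`;
`q ∈ chi c ↔ c` is `RO.mem_chi`. -/

set_option autoImplicit false

universe u

namespace SSO

open STP STP.BSet CPI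

variable {P : Type u} [PartialOrder P] {A : Type u} {lt : A → A → RO P}

private theorem om_eq' (G : Ult (RO P)) {w : NG G} (h : IsOm (EG G) w) :
    w = NG.mk G oN := by
  refine NG_ext G _ _ fun x0 => ⟨fun hx0 => ?_, fun hx0 => om_sub G h x0 hx0⟩
  by_contra hx0'
  obtain ⟨D, hD⟩ := (NG_zfc G).separation (.no (.mem 0 1)) (fun _ => NG.mk G oN) w
  have hD' : ∀ z, EG G z D ↔ EG G z w ∧ ¬ EG G z (NG.mk G oN) := hD
  obtain ⟨x, hx, hx'⟩ := NG_found G D ⟨x0, (hD' x0).2 ⟨hx0, hx0'⟩⟩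
  obtain ⟨hxw, hxo⟩ := (hD' x).1 hx
  have hne : ∃ z, EG G z x := by
    by_contra hcon
    push Not at hcon
    have h1 : x = NG.mk G (nn 0) := by
      refine NG_ext G _ _ fun z => ⟨fun hz => absurd hz (hcon z), fun hz => ?_⟩
      have h2 : (nn 0 : BSet (RO P)) = ck 0 := by
        unfold nn
        rw [Nat.cast_zero]
      rw [h2] at hz
      exact absurd hz (ck_zero G z)
    exact hxo (h1 ▸ nn_mem G 0)
  obtain ⟨y, hy⟩ := h.2.2.2 x hxw hne
  have hyx : EG G y x := (hy y).2 (Or.inr rfl)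
  have hyw : EG G y w := h.1.1 x hxw y hyx
  have hyo : EG G y (NG.mk G oN) := by
    by_contra hcon
    exact hx' y ((hD' y).2 ⟨hyw, hcon⟩) hyx
  obtain ⟨s, hs, hs'⟩ := (ck_om G).2.2.1 y hyo
  have h3 : s = x := NG_ext G _ _ fun z => (hs' z).trans (hy z).symm
  exact hxo (h3 ▸ hs)

theorem br_sub (S : Set A) (G : Ult (RO P)) :
    Sub (EG G) (NG.mk G (HN S)) (NG.mk G (pN A)) := sn_sub (fun _ => le_top) G

theorem br_unc {S : Set A} (h : TUnc P S) (G : Ult (RO P)) :
    ¬ IsCnt (EG G) (NG.mk G (HN S)) := by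
  intro hG
  obtain ⟨p, hp⟩ := F.of_not (S := fun G => IsCnt (EG G) (NG.mk G (HN S))) hG
  unfold IsCnt at hp
  obtain ⟨w, hw⟩ := F.ex.1 hp
  obtain ⟨f, hf⟩ := F.ex.1 hw
  obtain ⟨r, hr, a, ha, h1⟩ := h p (fun n b => BSet.mem (opN (nn n) (kn b)) f) (by
    intro r hr n b b' hb hb'
    rw [← F.mem] at hb hb'
    exact (F.kn_eq (p := r)).1 fun G hG => (hf G (up_mem hr hG)).2.1.2.2 _ _ _
      (val_iff.2 (hb G hG)) (val_iff.2 (hb' G hG)))
  have h2 : F r fun G => ∃ n, EG G n (NG.mk G oN) ∧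
      Val (EG G) (NG.mk G f) n (NG.mk G (kn a)) := fun G hG => by
    obtain ⟨h3, -, h4⟩ := hf G (up_mem hr hG)
    rw [om_eq' G h3] at h4
    exact h4 _ ((kn_sn_chi G).2 ha)
  obtain ⟨r', hr', n, hn⟩ := F.eck.1 h2 r le_rfl
  exact h1 r' hr' n (F.mem.1 fun G hG => val_iff.1 (hn G hG))

theorem br_non {S : Set A} (h : TNon P S) (G : Ult (RO P)) :
    ¬ Onto (EG G) (NG.mk G (HN S)) (NG.mk G (pN A)) := by
  intro hG
  obtain ⟨p, hp⟩ := F.of_not (S := fun G => Onto (EG G) (NG.mk G (HN S)) (NG.mk G (pN A))) hG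
  unfold Onto at hp
  obtain ⟨f, hf⟩ := F.ex.1 hp
  obtain ⟨r, hr, a, h1⟩ := h p (fun k b => BSet.mem (opN (kn k) (kn b)) f) (by
    intro r hr k _ b b' hb hb'
    rw [← F.mem] at hb hb'
    exact (F.kn_eq (p := r)).1 fun G hG => (hf G (up_mem hr hG)).1.2.2 _ _ _
      (val_iff.2 (hb G hG)) (val_iff.2 (hb' G hG)))
  have h2 : F r fun G => ∃ x, EG G x (NG.mk G (HN S)) ∧
      Val (EG G) (NG.mk G f) x (NG.mk G (kn a)) := fun G hG =>
    (hf G (up_mem hr hG)).2 _ ((kn_sn (φ := fun _ : A => (⊤ : RO P)) G).2 G.top)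
  obtain ⟨r', hr', k, hk, hk'⟩ := F.esn.1 h2 r le_rfl
  exact h1 r' hr' k (RO.mem_chi.1 hk) (F.mem.1 fun G hG => val_iff.1 (hk' G hG))

end SSO
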