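import Pool.Agent.SSO.Gen

/-! # Abstract representations of finite sets of atoms (package D2)

(problem MP_ceadec_lc, project SSO, part D)

* `exists_rep`: `A := pts g`, `B := lbs g` are finite (`pts_finite`, `lbs_finite`). Let `φ : Fin m → X` be injective with the range
  `A` (`Finite.equivFin` or `Finset.equivFin`; `m = Nat.card A`), `ψ : Fin l → L` injective with the range `B`. Put
  `gs := Atom.map ψ φ ⁻¹' g`. Then `Atom.map ψ φ '' gs = g`: every atom of `g` has its points in `A` and its label in `B`, so it is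
  in the range of `Atom.map ψ φ`. `pts gs = univ`: `pts_map`, injectivity of `φ`. `gs` is finite: `Atom.map_inj`,
  `Set.Finite.preimage`.
* `Rp`: the type of abstract structures `(m, l, gs)` with `gs` finite is countable: `Atom (Fin l) (Fin m)` is countable (it injects in
  `(Fin m × ℚ × Bool) ⊕ (Fin l × Fin m × Bool) ⊕ (Fin l × (Fin m ⊕ ℚ) × Fin m)`), so the type of finite sets of atoms is countable
  (`Set.Finite.toFinset` is injective to `Finset`, `Finset.countable`/`Countable (Finset α)`), and a sigma type over `ℕ × ℕ` of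
  countable types is countable. -/

set_option autoImplicit false

namespace SSO

private theorem exists_enum {X : Type*} {A : Set X} (hA : A.Finite) :
    ∃ (m : ℕ) (φ : Fin m → X), Function.Injective φ ∧ Set.range φ = A := by
  have := hA.to_subtype
  obtain ⟨m, ⟨e⟩⟩ := Finite.exists_equiv_fin A
  refine ⟨m, fun i => (e.symm i : A), Subtype.val_injective.comp e.symm.injective, ?_⟩
  ext x
  constructor
  · rintro ⟨i, rfl⟩
    exact (e.symm i).2
  · intro hx
    exact ⟨e ⟨x, hx⟩, by simp⟩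

private theorem atom_countable (L X : Type*) [Countable L] [Countable X] :
    Countable (Atom L X) := by
  let f : Atom L X → (X × ℚ × Bool) ⊕ (L × X × Bool) ⊕ (L × (X ⊕ ℚ) × X)
    | .cut a q b => .inl (a, q, b)
    | .bit l x b => .inr (.inl (l, x, b))
    | .pc l t x => .inr (.inr (l, t, x))
  have hf : Function.Injective f := by
    rintro (⟨a, q, b⟩ | ⟨l, x, b⟩ | ⟨l, t, x⟩) (⟨a', q', b'⟩ | ⟨l', x', b'⟩ | ⟨l', t', x'⟩) h <;>
      simp_all [f]
  exact hf.countable

theorem exists_rep {L X : Type*} {g : Set (Atom L X)} (hg : g.Finite) :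
    ∃ (m l : ℕ) (gs : Set (Atom (Fin l) (Fin m))) (φ : Fin m → X) (ψ : Fin l → L),
      gs.Finite ∧ Function.Injective φ ∧ Function.Injective ψ ∧ Atom.map ψ φ '' gs = g ∧
      pts gs = Set.univ ∧ lbs gs = Set.univ := by
  obtain ⟨m, φ, hφ, hφr⟩ := exists_enum (pts_finite hg)
  obtain ⟨l, ψ, hψ, hψr⟩ := exists_enum (lbs_finite hg)
  have himg : Atom.map ψ φ '' (Atom.map ψ φ ⁻¹' g) = g := by
    apply Set.image_preimage_eq_of_subset
    intro α hα
    have hp : ∀ z ∈ α.pts, ∃ i, φ i = z := fun z hz => by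
      have h1 : z ∈ pts g := ⟨α, hα, hz⟩
      rw [← hφr] at h1
      exact h1
    have hl : ∀ z ∈ α.lbs, ∃ i, ψ i = z := fun z hz => by
      have h1 : z ∈ lbs g := ⟨α, hα, hz⟩
      rw [← hψr] at h1
      exact h1
    rcases α with ⟨a, q, b⟩ | ⟨c, x, b⟩ | ⟨c, t | q, x⟩
    · obtain ⟨i, rfl⟩ := hp a rfl
      exact ⟨.cut i q b, rfl⟩
    · obtain ⟨i, rfl⟩ := hp x rfl
      obtain ⟨j, rfl⟩ := hl c rfl
      exact ⟨.bit j i b, rfl⟩
    · obtain ⟨i, rfl⟩ := hp x (Or.inl rfl)
      obtain ⟨i', rfl⟩ := hp t (Or.inr rfl)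
      obtain ⟨j, rfl⟩ := hl c rfl
      exact ⟨.pc j (.inl i') i, rfl⟩
    · obtain ⟨i, rfl⟩ := hp x (Or.inl rfl)
      obtain ⟨j, rfl⟩ := hl c rfl
      exact ⟨.pc j (.inr q) i, rfl⟩
  refine ⟨m, l, Atom.map ψ φ ⁻¹' g, φ, ψ, hg.preimage (Atom.map_inj hψ hφ).injOn, hφ, hψ, himg,
    ?_, ?_⟩
  · have h1 := pts_map ψ φ (Atom.map ψ φ ⁻¹' g)
    rw [himg, ← hφr, ← Set.image_univ] at h1
    exact (hφ.image_injective h1).symm
  · have h1 := lbs_map ψ φ (Atom.map ψ φ ⁻¹' g)
    rw [himg, ← hψr, ← Set.image_univ] at h1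
    exact (hψ.image_injective h1).symm

/-- abstract structures -/
def Rp : Type := Σ p : ℕ × ℕ, {gs : Set (Atom (Fin p.2) (Fin p.1)) // gs.Finite}

instance Rp.countable : Countable Rp := by
  unfold Rp
  have h : ∀ p : ℕ × ℕ, Countable {gs : Set (Atom (Fin p.2) (Fin p.1)) // gs.Finite} := by
    intro p
    have := atom_countable (Fin p.2) (Fin p.1)
    have hi : Function.Injective
        fun gs : {gs : Set (Atom (Fin p.2) (Fin p.1)) // gs.Finite} => gs.2.toFinset := by
      intro s t hst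
      apply Subtype.ext
      exact Set.Finite.toFinset_inj.1 hst
    exact hi.countable
  infer_instance

end SSO
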