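import Mathlib

/-! # Delta-systems of finite sequences (package D1)

(problem MP_ceadec_lc, project SSO, part D; pure combinatorics)

* `pigeon`: `J = ⋃ c, {i ∈ J | f i = c}` is a countable union (`Set.countable_iUnion`).
* `indep`: let every `i ∈ J` have only countably many `r`-neighbours in `J` (`r` symmetric). A maximal subset `J'` of `J` which is
  independent (`¬ r i j` for different `i, j ∈ J'`) exists (`zorn_subset`; unions of chains of independent sets are independent). If `J'`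
  were countable then `J' ∪ {neighbours of elements of J'}` is countable, so there is `i ∈ J` outside, and `insert i J'` is
  independent, a contradiction to the maximality.
* `delta`: (1) by induction on `m'` (for the coordinates `k < m'`), or by finitely many applications of: for one coordinate `k`
  and an uncountable `J` there is an uncountable `J' ⊆ J` such that `i ↦ φ i k` is constant on `J'` or injective on `J'` (if some
  value is taken uncountably often: constant; otherwise `r i j := φ i k = φ j k` has countable neighbourhoods, use `indep`). So we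
  may assume this for all `k`, and let `R` be the set of all `k` for which `i ↦ φ i k` is constant on `J`.
  (2) For `k ∉ R`, `k' ∈ R`: `φ i k = φ j k'` =: `c` (constant) for at most one `i`; remove these finitely many `i` from `J`. (3) Then let `r i j`:
  there are `k ∉ R`, `k' ∉ R` with `φ i k = φ j k'` or `φ j k = φ i k'`. For fixed `i` there are finitely many such `j` (for each pair `k`, `k'` at most
  one, by the injectivity), so `indep` gives an uncountable `J'` without such pairs `i ≠ j`. -/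

set_option autoImplicit false

namespace SSO

theorem pigeon {I C : Type*} [Countable C] {J : Set I} (hJ : ¬ J.Countable) (f : I → C) :
    ∃ c, ¬ {i | i ∈ J ∧ f i = c}.Countable := by
  by_contra hcon
  push Not at hcon
  apply hJ
  have h1 : J ⊆ ⋃ c, {i | i ∈ J ∧ f i = c} := fun i hi => Set.mem_iUnion.2 ⟨f i, hi, rfl⟩
  exact (Set.countable_iUnion hcon).mono h1

theorem indep {I : Type*} {J : Set I} (hJ : ¬ J.Countable) (r : I → I → Prop)
    (hs : ∀ i j, r i j → r j i) (hr : ∀ i ∈ J, {j | j ∈ J ∧ r i j}.Countable) :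
    ∃ J' ⊆ J, ¬ J'.Countable ∧ ∀ i ∈ J', ∀ j ∈ J', r i j → i = j := by
  obtain ⟨M, hM⟩ := zorn_subset {A : Set I | A ⊆ J ∧ ∀ i ∈ A, ∀ j ∈ A, r i j → i = j} (by
    intro c hc hch
    refine ⟨⋃₀ c, ⟨Set.sUnion_subset fun s hs => (hc hs).1, ?_⟩,
      fun s hs => Set.subset_sUnion_of_mem hs⟩
    rintro i ⟨s, hs, his⟩ j ⟨t, ht, hjt⟩ hij
    rcases hch.total hs ht with h | h
    · exact (hc ht).2 i (h his) j hjt hij
    · exact (hc hs).2 i his j (h hjt) hij)
  refine ⟨M, hM.prop.1, fun hcnt => ?_, hM.prop.2⟩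
  apply hJ
  have h1 : (M ∪ ⋃ i ∈ M, {j | j ∈ J ∧ r i j}).Countable :=
    hcnt.union (hcnt.biUnion fun i hi => hr i (hM.prop.1 hi))
  refine h1.mono fun x hx => ?_
  by_contra hxn
  have h2 : x ∉ M := fun h => hxn (Or.inl h)
  have h3 : ∀ i ∈ M, ¬ r i x := fun i hi h =>
    hxn (Or.inr (Set.mem_biUnion hi ⟨hx, h⟩))
  have h4 : insert x M ∈ {A : Set I | A ⊆ J ∧ ∀ i ∈ A, ∀ j ∈ A, r i j → i = j} := by
    refine ⟨Set.insert_subset hx hM.prop.1, ?_⟩
    rintro i (rfl | hi) j (rfl | hj) hij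
    · rfl
    · exact absurd (hs _ _ hij) (h3 j hj)
    · exact absurd hij (h3 i hi)
    · exact hM.prop.2 i hi j hj hij
  exact h2 (hM.le_of_ge h4 (Set.subset_insert x M) (Set.mem_insert x M))

private theorem coord {I X : Type*} {J : Set I} (hJ : ¬ J.Countable) (g : I → X) :
    ∃ J' ⊆ J, ¬ J'.Countable ∧
      ((∀ i ∈ J', ∀ j ∈ J', g i = g j) ∨ ∀ i ∈ J', ∀ j ∈ J', g i = g j → i = j) := by
  by_cases h : ∃ c, ¬ {i | i ∈ J ∧ g i = c}.Countable
  · obtain ⟨c, hc⟩ := h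
    exact ⟨_, fun i hi => hi.1, hc, Or.inl fun i hi j hj => hi.2.trans hj.2.symm⟩
  · push Not at h
    obtain ⟨J', h1, h2, h3⟩ := indep hJ (fun i j => g i = g j) (fun _ _ h => h.symm)
      (fun i _ => by
        refine (h (g i)).mono ?_
        rintro j ⟨h1, h2⟩
        exact ⟨h1, h2.symm⟩)
    exact ⟨J', h1, h2, Or.inr h3⟩

private theorem coords {I X : Type*} {m : ℕ} {J : Set I} (hJ : ¬ J.Countable)
    (φ : I → Fin m → X) (s : Finset (Fin m)) :
    ∃ J' ⊆ J, ¬ J'.Countable ∧ ∀ k ∈ s,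
      ((∀ i ∈ J', ∀ j ∈ J', φ i k = φ j k) ∨ ∀ i ∈ J', ∀ j ∈ J', φ i k = φ j k → i = j) := by
  classical
  induction s using Finset.induction_on with
  | empty => exact ⟨J, subset_rfl, hJ, fun k hk => absurd hk (Finset.notMem_empty k)⟩
  | insert a s _ ih =>
    obtain ⟨J1, h1, h1c, h1k⟩ := ih
    obtain ⟨J2, h2, h2c, h2k⟩ := coord h1c fun i => φ i a
    refine ⟨J2, h2.trans h1, h2c, fun k hk => ?_⟩
    rcases Finset.mem_insert.1 hk with rfl | hk
    · exact h2k
    · rcases h1k k hk with h | h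
      · exact Or.inl fun i hi j hj => h i (h2 hi) j (h2 hj)
      · exact Or.inr fun i hi j hj => h i (h2 hi) j (h2 hj)

theorem delta {I X : Type*} {m : ℕ} {J : Set I} (hJ : ¬ J.Countable) (φ : I → Fin m → X) :
    ∃ J' ⊆ J, ¬ J'.Countable ∧ ∃ R : Set (Fin m),
      (∀ i ∈ J', ∀ j ∈ J', ∀ k ∈ R, φ i k = φ j k) ∧
      ∀ i ∈ J', ∀ j ∈ J', ∀ k k', k ∉ R → φ i k = φ j k' → i = j := by
  obtain ⟨J1, h1, h1c, h1k⟩ := coords hJ φ Finset.univ
  obtain ⟨R, hR⟩ : ∃ R : Set (Fin m), R = {k | ∀ i ∈ J1, ∀ j ∈ J1, φ i k = φ j k} := ⟨_, rfl⟩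
  have hinj : ∀ k, k ∉ R → ∀ i ∈ J1, ∀ j ∈ J1, φ i k = φ j k → i = j := by
    intro k hk
    rcases h1k k (Finset.mem_univ k) with h | h
    · exact absurd (by rw [hR]; exact h) hk
    · exact h
  have hcon : ∀ k ∈ R, ∀ i ∈ J1, ∀ j ∈ J1, φ i k = φ j k := by
    intro k hk
    rw [hR] at hk
    exact hk
  obtain ⟨B, hB⟩ : ∃ B : Set I, B = ⋃ k, ⋃ k',
      {i | i ∈ J1 ∧ k ∉ R ∧ k' ∈ R ∧ ∃ j ∈ J1, φ i k = φ j k'} := ⟨_, rfl⟩
  have hBc : B.Countable := by
    rw [hB]
    refine Set.countable_iUnion fun k => Set.countable_iUnion fun k' => Set.Subsingleton.countable ?_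
    rintro i ⟨hi, hk, hk', j, hj, hij⟩ i' ⟨hi', -, -, j', hj', hij'⟩
    exact hinj k hk i hi i' hi' (by rw [hij, hij', hcon k' hk' j hj j' hj'])
  have hJ2 : ¬ (J1 \ B).Countable := by
    intro h
    apply h1c
    refine (h.union hBc).mono fun x hx => ?_
    by_cases hxB : x ∈ B
    · exact Or.inr hxB
    · exact Or.inl ⟨hx, hxB⟩
  obtain ⟨J3, h3, h3c, h3r⟩ := indep hJ2
    (fun i j => ∃ k k', k ∉ R ∧ k' ∉ R ∧ (φ i k = φ j k' ∨ φ j k = φ i k'))
    (fun i j ⟨k, k', hk, hk', h⟩ => ⟨k, k', hk, hk', h.symm⟩) (by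
      intro i _
      have hsub : {j | j ∈ J1 \ B ∧ ∃ k k', k ∉ R ∧ k' ∉ R ∧ (φ i k = φ j k' ∨ φ j k = φ i k')} ⊆
          ⋃ k, ⋃ k', ({j | j ∈ J1 ∧ k' ∉ R ∧ φ i k = φ j k'} ∪
            {j | j ∈ J1 ∧ k ∉ R ∧ φ j k = φ i k'}) := by
        rintro j ⟨hj, k, k', hk, hk', h | h⟩
        · exact Set.mem_iUnion.2 ⟨k, Set.mem_iUnion.2 ⟨k', Or.inl ⟨hj.1, hk', h⟩⟩⟩
        · exact Set.mem_iUnion.2 ⟨k, Set.mem_iUnion.2 ⟨k', Or.inr ⟨hj.1, hk, h⟩⟩⟩
      refine Set.Countable.mono hsub (Set.countable_iUnion fun k => Set.countable_iUnion fun k' =>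
        Set.Countable.union (Set.Subsingleton.countable ?_) (Set.Subsingleton.countable ?_))
      · rintro a ⟨ha, hk', hia⟩ b ⟨hb, -, hib⟩
        exact hinj k' hk' a ha b hb (by rw [← hia, ← hib])
      · rintro a ⟨ha, hk, hia⟩ b ⟨hb, -, hib⟩
        exact hinj k hk a ha b hb (by rw [hia, hib]))
  refine ⟨J3, (h3.trans Set.sdiff_subset).trans h1, h3c, R,
    fun i hi j hj k hk => hcon k hk i (h3 hi).1 j (h3 hj).1, ?_⟩
  intro i hi j hj k k' hk hij
  by_cases hk' : k' ∈ R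
  · exact absurd (show i ∈ B by
      rw [hB]
      exact Set.mem_iUnion.2 ⟨k, Set.mem_iUnion.2 ⟨k', (h3 hi).1, hk, hk', j, (h3 hj).1, hij⟩⟩)
      (h3 hi).2
  · exact h3r i hi j hj ⟨k, k', hk, hk', Or.inl hij⟩

end SSO
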