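import Pool.Agent.SSO.WRec
import Pool.Agent.SSO.DRep
import Pool.Agent.SSO.DSys

/-! # Thinning out a sequence of finite sets of atoms (package K2)

(problem MP_ceadec_lc, project SSO, part K)

For every `i` choose `m i`, `l i`, `gs i`, `φ i`, `ψ i` by `exists_rep (hg i)`, and `kb i`, `kt i : Fin (m i)` with `φ i (kb i) = b i`,
`φ i (kt i) = t i` (`hb`, `pts_map`: `pts (g i) = φ i '' pts (gs i)`). The type of all `(m, l, gs, kb, kt)` is countable (`Σ p : Rp, Fin p.1.1 × Fin p.1.1`,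
`Rp.countable`), so by `pigeon` (for `J = univ`, `w1_unc`) there is an uncountable `J0` on which it is constant (transport `φ i`, `ψ i` to
`Fin m`, `Fin l` for `i ∈ J0`; it is convenient to state: for every `i` there are `p : Rp`, `k, k' : Fin p.1.1`, `φ : Fin p.1.1 → X`, `ψ : Fin p.1.2 → L`
with the properties; choose the index `(p, k, k')` first, then, after the pigeon hole principle, for every `i ∈ J0` the functions `φ`, `ψ` exist for
the fixed index; for `i ∉ J0` take anything: use `if`/`Classical.choice`, the case `J0` nonempty gives default functions). Then `delta` for `φ` on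
`J0` and `delta` for `ψ` on the result. -/

set_option autoImplicit false

namespace SSO

theorem thin_out {L X : Type*} {g : W1 → Set (Atom L X)} (hg : ∀ i, (g i).Finite) {b t : W1 → X}
    (hb : ∀ i, b i ∈ pts (g i)) (ht : ∀ i, t i ∈ pts (g i)) :
    ∃ (J : Set W1) (m l : ℕ) (gs : Set (Atom (Fin l) (Fin m))) (φ : W1 → Fin m → X)
      (ψ : W1 → Fin l → L) (R : Set (Fin m)) (F : Set (Fin l)) (kb kt : Fin m),
      ¬ J.Countable ∧ gs.Finite ∧ pts gs = Set.univ ∧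
      (∀ i ∈ J, Function.Injective (φ i) ∧ Function.Injective (ψ i) ∧
        Atom.map (ψ i) (φ i) '' gs = g i ∧ φ i kb = b i ∧ φ i kt = t i) ∧
      (∀ i ∈ J, ∀ j ∈ J, ∀ k ∈ R, φ i k = φ j k) ∧
      (∀ i ∈ J, ∀ j ∈ J, ∀ k k', k ∉ R → φ i k = φ j k' → i = j) ∧
      (∀ i ∈ J, ∀ j ∈ J, ∀ k ∈ F, ψ i k = ψ j k) ∧
      (∀ i ∈ J, ∀ j ∈ J, ∀ k k', k ∉ F → ψ i k = ψ j k' → i = j) := by
  have h : ∀ i, ∃ (s : Σ p : Rp, Fin p.1.1 × Fin p.1.1) (φ : Fin s.1.1.1 → X)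
      (ψ : Fin s.1.1.2 → L), Function.Injective φ ∧ Function.Injective ψ ∧
        Atom.map ψ φ '' s.1.2.1 = g i ∧ pts s.1.2.1 = Set.univ ∧ φ s.2.1 = b i ∧
        φ s.2.2 = t i := by
    intro i
    obtain ⟨m, l, gs, φ, ψ, h1, h2, h3, h4, h5, -⟩ := exists_rep (hg i)
    have h6 : pts (g i) = Set.range φ := by
      rw [← h4, pts_map, h5, Set.image_univ]
    have hb' := hb i
    have ht' := ht i
    rw [h6] at hb' ht'
    obtain ⟨kb, hkb⟩ := hb'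
    obtain ⟨kt, hkt⟩ := ht'
    exact ⟨⟨⟨(m, l), gs, h1⟩, kb, kt⟩, φ, ψ, h2, h3, h4, h5, hkb, hkt⟩
  choose s hs using h
  obtain ⟨c, hc⟩ := pigeon w1_unc s
  have key : ∀ i ∈ {i | i ∈ Set.univ ∧ s i = c}, ∃ (φ : Fin c.1.1.1 → X)
      (ψ : Fin c.1.1.2 → L), Function.Injective φ ∧ Function.Injective ψ ∧
        Atom.map ψ φ '' c.1.2.1 = g i ∧ pts c.1.2.1 = Set.univ ∧ φ c.2.1 = b i ∧
        φ c.2.2 = t i := by
    rintro i ⟨-, hi⟩
    have h1 := hs i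
    rw [hi] at h1
    exact h1
  obtain ⟨⟨⟨⟨m, l⟩, gs, hgs⟩, kb, kt⟩, rfl⟩ : ∃ c', c' = c := ⟨c, rfl⟩
  dsimp only at key
  have hne : {i | i ∈ Set.univ ∧ s i = ⟨⟨(m, l), gs, hgs⟩, kb, kt⟩}.Nonempty := by
    by_contra h0
    rw [Set.not_nonempty_iff_eq_empty] at h0
    exact hc (h0 ▸ Set.countable_empty)
  obtain ⟨i0, hi0⟩ := hne
  obtain ⟨φ0, ψ0, -, -, -, hpts, -, -⟩ := key i0 hi0
  have n1 : Nonempty (Fin m → X) := ⟨φ0⟩
  have n2 : Nonempty (Fin l → L) := ⟨ψ0⟩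
  choose! φ ψ hφ using key
  obtain ⟨J1, hJ1, hJ1c, R, hR1, hR2⟩ := delta hc φ
  obtain ⟨J2, hJ2, hJ2c, F, hF1, hF2⟩ := delta hJ1c ψ
  refine ⟨J2, m, l, gs, φ, ψ, R, F, kb, kt, hJ2c, hgs, hpts, fun i hi => ?_,
    fun i hi j hj => hR1 i (hJ2 hi) j (hJ2 hj), fun i hi j hj => hR2 i (hJ2 hi) j (hJ2 hj),
    hF1, hF2⟩
  obtain ⟨e1, e2, e3, -, e4, e5⟩ := hφ i (hJ1 (hJ2 hi))
  exact ⟨e1, e2, e3, e4, e5⟩

end SSO
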