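import Pool.Agent.SSO.Gr

/-! # Recursion of length `ω₁` (package D3)

(problem MP_ceadec_lc, project SSO, part D)

`W1` is a well-ordered set of type `ω₁`.
* `w1_unc`: `#W1 = ℵ₁` (`Cardinal.mk_ord_toType`), `Cardinal.mk_le_aleph0_iff`.
* `w1_iio`: `#(Set.Iio i) < ℵ₁` (`Cardinal.mk_Iio_ord_toType`), so `≤ ℵ₀`.
* `exists_seq`: well-founded recursion on `W1` (`WellFounded.fix`) with choice: `z i :=` some `z`
  with `R (z '' Set.Iio i) z` if there is one (otherwise anything).
  By strong induction on `i`: `R (z '' Set.Iio j) (z j)` for all `j < i`; `Set.Iio i` is countable,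
  so `z '' Set.Iio i` is countable, and `C` holds for it by `hC`, so `hstep` gives the existence. -/

set_option autoImplicit false

namespace SSO

open Cardinal

/-- a well-ordered set of type `ω₁` -/
abbrev W1 : Type := (ℵ_ 1 : Cardinal.{0}).ord.ToType

theorem w1_unc : ¬ (Set.univ : Set W1).Countable := by
  rw [Set.countable_univ_iff, ← Cardinal.mk_le_aleph0_iff, Cardinal.mk_ord_toType, not_le]
  exact Cardinal.aleph0_lt_aleph_one

theorem w1_iio (i : W1) : (Set.Iio i).Countable := by
  rw [← Set.countable_coe_iff, ← Cardinal.mk_le_aleph0_iff, ← Order.lt_succ_iff,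
    Cardinal.succ_aleph0]
  exact Cardinal.mk_Iio_toType_ord_lt i

/-- the recursion -/
private noncomputable def seq {Z : Type*} [Nonempty Z] (R : Set Z → Z → Prop) : W1 → Z :=
  WellFounded.fix (C := fun _ : W1 => Z) (wellFounded_lt : WellFounded ((· < ·) : W1 → W1 → Prop))
    fun i f => Classical.epsilon fun z => R {y | ∃ j, ∃ hj : j < i, f j hj = y} z

private theorem seq_eq {Z : Type*} [Nonempty Z] (R : Set Z → Z → Prop) (i : W1) :
    seq R i = Classical.epsilon fun z => R (seq R '' Set.Iio i) z := by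
  have h1 : seq R '' Set.Iio i = {y | ∃ j, ∃ _ : j < i, seq R j = y} := by
    ext y
    constructor
    · rintro ⟨j, hj, rfl⟩
      exact ⟨j, hj, rfl⟩
    · rintro ⟨j, hj, rfl⟩
      exact ⟨j, hj, rfl⟩
  rw [h1]
  unfold seq
  rw [WellFounded.fix_eq]

theorem exists_seq {Z : Type*} [Nonempty Z] (C : Set Z → Prop) (R : Set Z → Z → Prop)
    (hstep : ∀ s : Set Z, s.Countable → C s → ∃ z, R s z)
    (hC : ∀ (z : W1 → Z) (i : W1), (∀ j < i, R (z '' Set.Iio j) (z j)) → C (z '' Set.Iio i)) :
    ∃ z : W1 → Z, ∀ i, R (z '' Set.Iio i) (z i) := by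
  refine ⟨seq R, fun i => ?_⟩
  induction i using WellFoundedLT.induction with
  | ind i ih =>
    rw [seq_eq R i]
    exact Classical.epsilon_spec (hstep _ ((w1_iio i).image _) (hC _ i ih))

end SSO
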