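import Pool.Agent.SSO.Pos
import Pool.Agent.SSO.WRec

/-! # Chains of `y`-parts (package K1)

(problem MP_ceadec_lc, project SSO, part K)

* `yg_union`: `cnt`: countable union. `w`: clear. `fn`: two triples are in some `y i`, `y j`, so both in the larger one. `YLe (⋃ i, y i) (y i)`:
  let `ξ ≠ ζ` be in `dm (y i)`, `w` with `(ξ, x, w) ∈ y j`, `(ζ, x', w) ∈ y k`. Among `i, j, k` there is an index `m` with
  `YLe (y m) (y i)`, `YLe (y m) (y j)`, `YLe (y m) (y k)` (chain, `YLe.refl`, `YLe.trans`); so both triples are in `y m`, and the promise of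
  `YLe (y m) (y i)` gives the claim.
* `exists_ychain`: `exists_seq` with `Z := Ys × X`, `C s := (∀ z ∈ s, Yg z.1 ∧ YLe z.1 y0) ∧ ∀ z ∈ s, ∀ z' ∈ s, YLe z.1 z'.1 ∨ YLe z'.1 z.1`,
  `R' s z := Yg z.1 ∧ YLe z.1 y0 ∧ (∀ z' ∈ s, YLe z.1 z'.1) ∧ R s z.1 z.2`. `hstep`: let `s` be countable with `C s`; if `s` is empty put `y := y0`,
  otherwise `y := ⋃ z : s, z.1.1` (`yg_union`; `YLe y y0` by `YLe.trans`); apply `h s _ y` and `YLe.trans`. `hC`: the elements of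
  `z '' Set.Iio i` are the `z j`, `j < i`; for `j < j' < i` we have `YLe (z j').1 (z j).1` by `R'` for `j'`. -/

set_option autoImplicit false

namespace SSO

theorem yg_union {ι : Type*} [Countable ι] [Nonempty ι] {y : ι → Ys} (hy : ∀ i, Yg (y i))
    (hch : ∀ i j, YLe (y i) (y j) ∨ YLe (y j) (y i)) :
    Yg (⋃ i, y i) ∧ ∀ i, YLe (⋃ i, y i) (y i) := by
  have two : ∀ i j, ∃ m, YLe (y m) (y i) ∧ YLe (y m) (y j) := by
    intro i j
    rcases hch i j with h | h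
    · exact ⟨i, YLe.refl _, h⟩
    · exact ⟨j, h, YLe.refl _⟩
  refine ⟨⟨Set.countable_iUnion fun i => (hy i).cnt, ?_, ?_⟩, ?_⟩
  · intro ξ x w h
    obtain ⟨i, hi⟩ := Set.mem_iUnion.1 h
    exact (hy i).w ξ x w hi
  · intro ξ x w w' h h'
    obtain ⟨i, hi⟩ := Set.mem_iUnion.1 h
    obtain ⟨j, hj⟩ := Set.mem_iUnion.1 h'
    obtain ⟨m, h1, h2⟩ := two i j
    exact (hy m).fn ξ x w w' (h1.1 hi) (h2.1 hj)
  · intro i
    refine ⟨Set.subset_iUnion y i, ?_⟩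
    rintro ξ hξ ζ hζ hn w ⟨x, hx⟩ ⟨x', hx'⟩
    obtain ⟨j, hj⟩ := Set.mem_iUnion.1 hx
    obtain ⟨k, hk⟩ := Set.mem_iUnion.1 hx'
    obtain ⟨m, h1, h2⟩ := two j k
    obtain ⟨m', h3, h4⟩ := two m i
    exact h4.2 ξ hξ ζ hζ hn w ⟨x, h3.1 (h1.1 hj)⟩ ⟨x', h3.1 (h2.1 hk)⟩

theorem exists_ychain {y0 : Ys} (hy0 : Yg y0) {X : Type 1} (R : Set (Ys × X) → Ys → X → Prop)
    (h : ∀ s : Set (Ys × X), s.Countable → ∀ y, Yg y → YLe y y0 →
      ∃ y' x, Yg y' ∧ YLe y' y ∧ R s y' x) :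
    ∃ (Y : W1 → Ys) (x : W1 → X), (∀ i, Yg (Y i)) ∧ (∀ i, YLe (Y i) y0) ∧
      (∀ i j, j ≤ i → YLe (Y i) (Y j)) ∧
      ∀ i, R ((fun j => (Y j, x j)) '' Set.Iio i) (Y i) (x i) := by
  have hne : Nonempty (Ys × X) := by
    obtain ⟨y', x, -⟩ := h ∅ Set.countable_empty y0 hy0 (YLe.refl _)
    exact ⟨(y', x)⟩
  let C : Set (Ys × X) → Prop := fun s => (∀ z ∈ s, Yg z.1 ∧ YLe z.1 y0) ∧
    ∀ z ∈ s, ∀ z' ∈ s, YLe z.1 z'.1 ∨ YLe z'.1 z.1
  let R' : Set (Ys × X) → Ys × X → Prop := fun s z => Yg z.1 ∧ YLe z.1 y0 ∧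
    (∀ z' ∈ s, YLe z.1 z'.1) ∧ R s z.1 z.2
  have hstep : ∀ s : Set (Ys × X), s.Countable → C s → ∃ z, R' s z := by
    intro s hs hC
    rcases s.eq_empty_or_nonempty with he | he
    · obtain ⟨y', x, h1, h2, h3⟩ := h s hs y0 hy0 (YLe.refl _)
      refine ⟨(y', x), h1, h2, ?_, h3⟩
      intro z' hz'
      rw [he] at hz'
      exact hz'.elim
    · have i1 : Countable s := hs.to_subtype
      have i2 : Nonempty s := he.to_subtype
      obtain ⟨h4, h5⟩ := yg_union (y := fun z : s => z.1.1) (fun z => (hC.1 z.1 z.2).1)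
        (fun z z' => hC.2 z.1 z.2 z'.1 z'.2)
      obtain ⟨z0, hz0⟩ := he
      have h6 : YLe (⋃ z : s, z.1.1) y0 := (h5 ⟨z0, hz0⟩).trans (hC.1 z0 hz0).2
      obtain ⟨y', x, h1, h2, h3⟩ := h s hs _ h4 h6
      exact ⟨(y', x), h1, h2.trans h6, fun z' hz' => h2.trans (h5 ⟨z', hz'⟩), h3⟩
  have hC : ∀ (z : W1 → Ys × X) (i : W1), (∀ j < i, R' (z '' Set.Iio j) (z j)) →
      C (z '' Set.Iio i) := by
    intro z i hz
    constructor
    · rintro _ ⟨j, hj, rfl⟩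
      exact ⟨(hz j hj).1, (hz j hj).2.1⟩
    · rintro _ ⟨j, hj, rfl⟩ _ ⟨k, hk, rfl⟩
      rcases lt_trichotomy j k with hjk | hjk | hjk
      · exact Or.inr ((hz k hk).2.2.1 _ ⟨j, hjk, rfl⟩)
      · rw [hjk]
        exact Or.inl (YLe.refl _)
      · exact Or.inl ((hz j hj).2.2.1 _ ⟨k, hjk, rfl⟩)
  obtain ⟨z, hz⟩ := exists_seq C R' hstep hC
  refine ⟨fun i => (z i).1, fun i => (z i).2, fun i => (hz i).1, fun i => (hz i).2.1, ?_,
    fun i => (hz i).2.2.2⟩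
  intro i j hj
  rcases hj.lt_or_eq with hj | hj
  · exact (hz i).2.2.1 _ ⟨j, hj, rfl⟩
  · rw [hj]
    exact YLe.refl _

end SSO
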