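import Pool.Agent.SSO.DCopA
import Pool.Agent.SSO.YCh

/-! # Copies (package K3)

(problem MP_ceadec_lc, project SSO, part K)

Take the data of `thin_out` for `g i := (c i).1.g` (`(c i).1.fg`). Facts for `i ∈ J`, from `(c i).2` and `map_thin_mem`, `map_fat_mem` etc.:
(T) `pc a (inl z) x ∈ gs` gives `φ i x ∉ En (ψ i a)`, `(ψ i a, φ i x, (φ i z).1) ∈ (c i).1.y`; (E) `pc a (inr q) x ∈ gs` gives `φ i x ∈ En (ψ i a)`. For
`i, j ∈ J` both `y`-parts are subsets of the larger one (`hc`, `le_total`), which is functional (`Yg.fn`) and legal (`Yg.w`).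
* (K1) `a ∈ F`, `pc a (inl z) x ∈ gs`: `z ∈ R ↔ x ∈ R`. Let `ξ := ψ i a` (the same for all `i ∈ J`). If `x ∈ R`, `z ∉ R`: `(ξ, φ i x, (φ i z).1)` with the
  same `φ i x` for all `i ∈ J`, so by `fn` the same `(φ i z).1 = w`; `i ↦ φ i z` is injective on `J` (`z ∉ R`), with values in the countable
  set `{w} ×ˢ univ`, a contradiction (`Set.Countable` of `J` by `Set.InjOn`). If `z ∈ R`, `x ∉ R`: the same `w = (φ i z).1 ∈ W ξ (φ i x)` for all
  `i ∈ J`, so `φ i x = φ j x` by `wok.dis`, so `i = j` for all `i, j ∈ J`: `J` is countable, a contradiction.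
* (K2) `a ∈ F`, `pc a (inr q) x ∈ gs`: if `x ∉ R` then `i ↦ φ i x` is injective on `J` with values in the countable set `En ξ` (`Set.countable_range`).
* (K3) `a, a' ∈ F`, `z ∉ R`, `pc a (inl z) x`, `pc a' (inl z) x' ∈ gs`: suppose `a ≠ a'`. Let `ξ := ψ i a`, `ξ' := ψ i a'`, `ξ ≠ ξ'`, fix `i0 ∈ J`. Then
  `ξ, ξ' ∈ dm (c i0).1.y`. For `i ∈ J`, `i0 ≤ i`: `(φ i z).1 ∈ rg (c i).1.y ξ ∩ rg (c i).1.y ξ'`, so `(φ i z).1 ∈ rg (c i0).1.y ξ` (promise, `hc`), a
  countable set (image of the countable set `(c i0).1.y`). So `i ↦ φ i z` is an injective function from the uncountable set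
  `{i ∈ J | i0 ≤ i}` (`J` minus the countable set `Set.Iio i0`) to a countable set, a contradiction.
* Now let `f : ℕ → W1` be injective with values in `J` (`J` is infinite: `Set.Infinite.natEmbedding`, `Set.not_countable`/`Set.Infinite`), `y := ⋃ n, (c (f n)).1.y`
  (`yg_union`: chain by `hc` and `le_total`), `C.c n := (c (f n)).ye hy (...)` (`Cn.ye`, `Cn.ye_le`), `C.φ n := φ (f n)`, `C.ψ n := ψ (f n)`. `Fam`: from
  the above facts. `shp`: `Sharp.comap` for one `i ∈ J`. -/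

set_option autoImplicit false

namespace SSO

private theorem inj_cnt {m : ℕ} {J J' : Set W1} {φ : W1 → Fin m → Pt} {R : Set (Fin m)}
    (hnR : ∀ i ∈ J, ∀ j ∈ J, ∀ k k', k ∉ R → φ i k = φ j k' → i = j) (hJ' : J' ⊆ J)
    (hJ : ¬ J'.Countable) {k : Fin m} (hk : k ∉ R) {S : Set Pt} (hS : S.Countable)
    (h : ∀ i ∈ J', φ i k ∈ S) : False :=
  hJ (Set.MapsTo.countable_of_injOn (f := fun i => φ i k) h
    (fun i hi j hj hij => hnR i (hJ' hi) j (hJ' hj) k k hk hij) hS)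

theorem exists_cop {c : W1 → Cn} (hs : ∀ i, Sharp (c i).1.g)
    (hc : ∀ i j, j ≤ i → YLe (c i).1.y (c j).1.y) {b t : W1 → Pt}
    (hb : ∀ i, b i ∈ pts (c i).1.g) (ht : ∀ i, t i ∈ pts (c i).1.g) :
    ∃ (C : Cop) (f : ℕ → W1) (kb kt : Fin C.m), Function.Injective f ∧
      ∀ n, C.c n ≤ c (f n) ∧ (C.c n).1.g = (c (f n)).1.g ∧ C.φ n kb = b (f n) ∧
        C.φ n kt = t (f n) := by
  classical
  obtain ⟨J, m, l, gs, φ, ψ, R, F, kb, kt, hJ, hfg, hfull, hJ1, hR, hnR, hF, hnF⟩ :=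
    thin_out (g := fun i => (c i).1.g) (fun i => (c i).1.fg) hb ht
  have hne : J.Nonempty := by
    rw [Set.nonempty_iff_ne_empty]
    rintro rfl
    exact hJ Set.countable_empty
  obtain ⟨i0, hi0⟩ := hne
  have himg : ∀ i ∈ J, Atom.map (ψ i) (φ i) '' gs = (c i).1.g := fun i hi => (hJ1 i hi).2.2.1
  have hthin : ∀ i ∈ J, ∀ a z x, Atom.pc a (.inl z) x ∈ gs →
      φ i x ∉ En (ψ i a) ∧ (ψ i a, φ i x, (φ i z).1) ∈ (c i).1.y := by
    intro i hi a z x h
    refine (c i).2.thin (ψ i a) (φ i z) (φ i x) ?_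
    rw [← himg i hi]
    exact ⟨_, h, rfl⟩
  have hfat : ∀ i ∈ J, ∀ a q x, Atom.pc a (.inr q) x ∈ gs → φ i x ∈ En (ψ i a) := by
    intro i hi a q x h
    refine (c i).2.fat (ψ i a) q (φ i x) ?_
    rw [← himg i hi]
    exact ⟨_, h, rfl⟩
  have hfn : ∀ i j ξ x w w', (ξ, x, w) ∈ (c i).1.y → (ξ, x, w') ∈ (c j).1.y → w = w' := by
    intro i j ξ x w w' h h'
    rcases le_total i j with hij | hij
    · exact (c j).2.yg.fn ξ x w w' ((hc j i hij).1 h) h'
    · exact (c i).2.yg.fn ξ x w w' h ((hc i j hij).1 h')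
  have hk1 : ∀ a ∈ F, ∀ z x, Atom.pc a (.inl z) x ∈ gs → (z ∈ R ↔ x ∈ R) := by
    intro a ha z x h
    constructor
    · intro hz
      by_contra hx
      apply hJ
      refine (Set.countable_singleton i0).mono fun i hi => ?_
      have h1 := (hthin i hi a z x h).2
      have h2 := (hthin i0 hi0 a z x h).2
      rw [hF i hi i0 hi0 a ha, hR i hi i0 hi0 z hz] at h1
      have h3 := wok.dis _ _ _ _ ((c i).2.yg.w _ _ _ h1) ((c i0).2.yg.w _ _ _ h2)
      exact hnR i hi i0 hi0 x x hx h3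
    · intro hx
      by_contra hz
      refine inj_cnt hnR subset_rfl hJ hz (S := Set.range fun n : ℕ => ((φ i0 z).1, n))
        (Set.countable_range _) fun i hi => ?_
      have h1 := (hthin i hi a z x h).2
      have h2 := (hthin i0 hi0 a z x h).2
      rw [hF i hi i0 hi0 a ha, hR i hi i0 hi0 x hx] at h1
      have h3 := hfn i i0 _ _ _ _ h1 h2
      exact ⟨(φ i z).2, by rw [← h3]⟩
  have hk2 : ∀ a ∈ F, ∀ q x, Atom.pc a (.inr q) x ∈ gs → x ∈ R := by
    intro a ha q x h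
    by_contra hx
    refine inj_cnt hnR subset_rfl hJ hx (S := En (ψ i0 a)) (Set.countable_range _)
      fun i hi => ?_
    have h1 := hfat i hi a q x h
    rw [hF i hi i0 hi0 a ha] at h1
    exact h1
  have hk3 : ∀ a ∈ F, ∀ a' ∈ F, ∀ z x x', z ∉ R → Atom.pc a (.inl z) x ∈ gs →
      Atom.pc a' (.inl z) x' ∈ gs → a = a' := by
    intro a ha a' ha' z x x' hz h h'
    by_contra hne
    have hξ : ψ i0 a ≠ ψ i0 a' := fun he => hne ((hJ1 i0 hi0).2.1 he)
    have hd1 : ψ i0 a ∈ dm (c i0).1.y := ⟨_, _, (hthin i0 hi0 a z x h).2⟩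
    have hd2 : ψ i0 a' ∈ dm (c i0).1.y := ⟨_, _, (hthin i0 hi0 a' z x' h').2⟩
    have hJ2 : ¬ {i | i ∈ J ∧ i0 ≤ i}.Countable := by
      intro hcc
      apply hJ
      refine (hcc.union (w1_iio i0)).mono fun i hi => ?_
      rcases le_or_gt i0 i with h1 | h1
      · exact Or.inl ⟨hi, h1⟩
      · exact Or.inr h1
    have hcr : (rg (c i0).1.y (ψ i0 a)).Countable := by
      refine ((c i0).1.cy.image fun p => p.2.2).mono ?_
      rintro w ⟨x, hx⟩
      exact ⟨_, hx, rfl⟩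
    refine inj_cnt hnR (J' := {i | i ∈ J ∧ i0 ≤ i}) (fun i hi => hi.1) hJ2 hz
      (S := rg (c i0).1.y (ψ i0 a) ×ˢ Set.univ) (hcr.prod Set.countable_univ) fun i hi => ?_
    refine ⟨?_, trivial⟩
    have h1 := (hthin i hi.1 a z x h).2
    have h2 := (hthin i hi.1 a' z x' h').2
    rw [hF i hi.1 i0 hi0 a ha] at h1
    rw [hF i hi.1 i0 hi0 a' ha'] at h2
    exact ((hc i i0 hi.2).2 _ hd1 _ hd2 hξ (φ i z).1 ⟨_, h1⟩ ⟨_, h2⟩).1
  have hinf : J.Infinite := fun h => hJ h.countable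
  let e := hinf.natEmbedding
  let f : ℕ → W1 := fun n => (e n).1
  have hfJ : ∀ n, f n ∈ J := fun n => (e n).2
  have hfi : Function.Injective f := Subtype.val_injective.comp e.injective
  obtain ⟨hy1, hy2⟩ := yg_union (y := fun n => (c (f n)).1.y) (fun n => (c (f n)).2.yg) (by
    intro i j
    rcases le_total (f i) (f j) with h | h
    · exact Or.inr (hc _ _ h)
    · exact Or.inl (hc _ _ h))
  have hshp : Sharp gs := by
    have h1 := hs i0
    rw [← himg i0 hi0] at h1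
    exact h1.comap (hJ1 i0 hi0).2.1 (hJ1 i0 hi0).1
  refine ⟨{
    y := ⋃ n, (c (f n)).1.y
    hy := hy1
    m := m
    l := l
    gs := gs
    fg := hfg
    φ := fun n => φ (f n)
    ψ := fun n => ψ (f n)
    R := R
    F := F
    fam := ?_
    c := fun n => (c (f n)).ye hy1 (hy2 n)
    cy := fun n => rfl
    cg := fun n => (himg _ (hfJ n)).symm
    full := hfull
    shp := hshp
    k3 := hk3 }, f, kb, kt, hfi, fun n => ⟨Cn.ye_le _ hy1 (hy2 n), rfl, ?_, ?_⟩⟩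
  · exact
      { injφ := fun i => (hJ1 _ (hfJ i)).1
        injψ := fun i => (hJ1 _ (hfJ i)).2.1
        rφ := fun i j => hR _ (hfJ i) _ (hfJ j)
        nφ := fun i j k k' hk h => hfi (hnR _ (hfJ i) _ (hfJ j) k k' hk h)
        rψ := fun i j => hF _ (hfJ i) _ (hfJ j)
        nψ := fun i j k k' hk h => hfi (hnF _ (hfJ i) _ (hfJ j) k k' hk h)
        k1 := hk1
        k2 := hk2 }
  · exact (hJ1 _ (hfJ n)).2.2.2.1
  · exact (hJ1 _ (hfJ n)).2.2.2.2

end SSO
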