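import Pool.Agent.SSO.PShp

/-! # The generic order is a linear order (package P3)

(problem MP_ceadec_lc, project SSO, part P)

* `dec_of_lt`: `mem_Lt` with `q := c`. `lt_pos`: if `c ∈ Lt a b` and `pos` is good for some `c' ≤ c` with `Dec c'.1.g a b` then `Dec.lt`.
* `irr`: `Dec g a a` contradicts `Dec.lt` for a good position of an extension.
* `tr`: `mem_Lt`: for `r ≤ q` choose `r1 ≤ r` with `Dec a b`, `r2 ≤ r1` with `Dec b c` (`Dec.mono`), a good position of `r2`: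
  `pos a < pos b < pos c`; `legal_cuts` gives `r3 ≤ r2` with `Dec a c` (the points are in `pts` by `mem_pts_cut`).
* `tot`: `exists_sharp` with `A = {a, b}`, then `Sharp.pt` and `Dec.mem_Lt`.
* `lt_asymm`: irreflexivity and transitivity.
* `exists_rat`: from `Dec`. -/

set_option autoImplicit false

namespace SSO

theorem dec_of_lt {c : Cn} {a b : Pt} (h : c ∈ Lt a b) : ∃ c' ≤ c, Dec c'.1.g a b :=
  mem_Lt.1 h c le_rfl

private theorem dec_left {g : Set (Atom Lb Pt)} {a b : Pt} (h : Dec g a b) : a ∈ pts g := by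
  obtain ⟨q, h1, _⟩ := h
  exact mem_pts_cut h1

private theorem dec_right {g : Set (Atom Lb Pt)} {a b : Pt} (h : Dec g a b) : b ∈ pts g := by
  obtain ⟨q, _, h1⟩ := h
  exact mem_pts_cut h1

theorem tlo : TLO Lt where
  irr q a h := by
    obtain ⟨r, _, hr⟩ := dec_of_lt h
    obtain ⟨pos, hpos⟩ := r.2.good
    exact lt_irrefl _ (Dec.lt hpos.ok hr)
  tr q a b c hab hbc := by
    rw [mem_Lt]
    intro r hr
    obtain ⟨r1, hr1, h1⟩ := mem_Lt.1 hab r hr
    obtain ⟨r2, hr2, h2⟩ := mem_Lt.1 hbc r1 (hr1.trans hr)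
    obtain ⟨pos, hpos⟩ := r2.2.good
    have h1' : Dec r2.1.g a b := h1.mono hr2.2
    obtain ⟨r3, hr3, _, _, _, _, _, h3⟩ := legal_cuts r2 hpos
    exact ⟨r3, hr3.trans (hr2.trans hr1), h3 a (dec_left h1') c (dec_right h2)
      ((Dec.lt hpos.ok h1').trans (Dec.lt hpos.ok h2))⟩
  tot q a b hab := by
    obtain ⟨r, hr, _, hA, _, hS, _⟩ := exists_sharp q (Set.toFinite {a, b})
    rcases hS.pt a (hA (Or.inl rfl)) b (hA (Or.inr rfl)) hab with h | h
    · exact ⟨r, hr, Or.inl h.mem_Lt⟩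
    · exact ⟨r, hr, Or.inr h.mem_Lt⟩

theorem lt_asymm' {c : Cn} {a b : Pt} (h : c ∈ Lt a b) : c ∉ Lt b a :=
  fun h' => tlo.irr c a (tlo.tr c a b a h h')

/-- a good position of some condition below `c` and the order of two points -/
theorem lt_of_pos {c : Cn} {pos : Pt → ℝ} (h : Good c.1.g pos) {a b : Pt} (ha : a ∈ pts c.1.g)
    (hb : b ∈ pts c.1.g) (hab : pos a < pos b) :
    ∃ c' ≤ c, c'.1.y = c.1.y ∧ Dec c'.1.g a b := by
  obtain ⟨c', hc', hy, _, _, _, _, h3⟩ := legal_cuts c h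
  exact ⟨c', hc', hy, h3 a ha b hb hab⟩

end SSO
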