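import Pool.Agent.SSO.KCov
import Pool.Agent.SSO.PLin

/-! # The countable set `E` (package E1)

(problem MP_ceadec_lc, project SSO, part E)

`cover` with the countable index type `I := (Option ℚ × Option ℚ) ⊕ (Option ℚ ⊕ Unit)` and
* `S (inl (p, p')) c x := c ∈ T x ∧ (∀ r, p = some r → .cut x r false ∈ c.1.g) ∧ (∀ r, p' = some r → .cut x r true ∈ c.1.g)` (`x` is an element of `T`
  between `p` and `p'`),
* `S (inr (inl p)) c x := c ∈ T x ∧ (∀ r, p = some r → .cut x r false ∈ c.1.g) ∧ ∀ c' ≤ c, ∀ x', c' ∈ T x' →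
  (∀ r, p = some r → .cut x' r false ∈ c'.1.g) → c' ∉ Lt x' x` (`x` is the minimum of `T ∩ (p, ∞)`),
* `S (inr (inr ())) c x := c ∈ T x ∧ ∀ c' ≤ c, ∀ x', c' ∈ T x' → c' ∉ Lt x x'` (`x` is the maximum of `T`).
All are downward closed in `c`. We get `r ≤ q`, `C`; `C` is not empty (`hT` at `r`, `S (inl (none, none))`), so `C = Set.range e`
(`Set.Countable.exists_eq_range`). Let `c ≤ r`.

(lo) Let `p : Option ℚ`, `x ∉ C`, `c ∈ T x`, `∀ r, p = some r → .cut x r false ∈ c.1.g`. Then there are `c' ≤ c`, `d ∈ C` with `c' ∈ T d`,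
`∀ r, p = some r → .cut d r false ∈ c'.1.g` and `c' ∈ Lt d x`. Case 1: `S (inr (inl p)) c1 x1` for some `c1 ≤ c`, `x1`. By `cover` there are `c2 ≤ c1`, `d ∈ C` with
`S (inr (inl p)) c2 d`; `d ≠ x`, so by `tlo.tot` some `c3 ≤ c2` is in `Lt d x` or in `Lt x d`; the latter contradicts the last clause of
`S (inr (inl p)) c2 d` for `c3`, `x' = x`. Case 2: otherwise `S (inr (inl p)) c x` is false, so there are `c1 ≤ c`, `x1` with `c1 ∈ T x1`, the cuts for `p`, and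
`c1 ∈ Lt x1 x`. `dec_of_lt`: `c2 ≤ c1` and a rational `s` with `cut x1 s true`, `cut x s false ∈ c2.1.g`. So `S (inl (p, some s)) c2 x1`; by `cover`
there are `c3 ≤ c2`, `d ∈ C` with `S (inl (p, some s)) c3 d`, and `Dec c3.1.g d x` (with `s`), so `c3 ∈ Lt d x` (`Dec.mem_Lt`).

`lo` is (lo) with `p = none`. `bt`: `dec_of_lt` gives `c1 ≤ c` and `s` with `cut x s true`, `cut x' s false ∈ c1.1.g`; (lo) for `p = some s`, `x'`: `d` with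
`c' ∈ Lt d x'` and `cut d s false ∈ c'.1.g`, so `Dec c'.1.g x d`.

`hi`: Case 1: `S (inr (inr ())) c1 x1` for some `c1 ≤ c`, `x1`: `c2 ≤ c1`, `d ∈ C` with `S (inr (inr ())) c2 d`, `d ≠ x`, `tlo.tot`: `c3 ∈ Lt x d` (`c3 ∈ Lt d x` is
impossible). Case 2: `c1 ≤ c`, `x1` with `c1 ∈ T x1`, `c1 ∈ Lt x x1`; `c2 ≤ c1`, `s` with `cut x s true`, `cut x1 s false ∈ c2.1.g`; `S (inl (some s, none)) c2 x1`;
`c3`, `d` with `cut d s false ∈ c3.1.g`, so `Dec c3.1.g x d`. `ne`: `hT` and `S (inl (none, none))`. -/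

set_option autoImplicit false

namespace SSO

open STP

/-- the cut at the lower bound -/
private def eDenLo (p : Option ℚ) (c : Cn) (x : Pt) : Prop :=
  ∀ s, p = some s → .cut x s false ∈ c.1.g

/-- the cut at the upper bound -/
private def eDenUp (p : Option ℚ) (c : Cn) (x : Pt) : Prop :=
  ∀ s, p = some s → .cut x s true ∈ c.1.g

/-- the relations for the cover -/
private def eDenS (T : Pt → RO Cn) :
    (Option ℚ × Option ℚ) ⊕ (Option ℚ ⊕ Unit) → Cn → Pt → Prop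
  | .inl p => fun c x => c ∈ T x ∧ eDenLo p.1 c x ∧ eDenUp p.2 c x
  | .inr (.inl p) => fun c x => c ∈ T x ∧ eDenLo p c x ∧
      ∀ c' ≤ c, ∀ x', c' ∈ T x' → eDenLo p c' x' → c' ∉ Lt x' x
  | .inr (.inr _) => fun c x => c ∈ T x ∧ ∀ c' ≤ c, ∀ x', c' ∈ T x' → c' ∉ Lt x x'

private theorem eDen_down {U : RO Cn} {c c' : Cn} (h : c' ≤ c) (hc : c ∈ U) : c' ∈ U :=
  RO.mem_def.2 (U.down h (RO.mem_def.1 hc))

private theorem eDenLo_mono {p : Option ℚ} {c c' : Cn} {x : Pt} (h : c' ≤ c)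
    (hc : eDenLo p c x) : eDenLo p c' x := fun s hs => h.2 (hc s hs)

private theorem eDenUp_mono {p : Option ℚ} {c c' : Cn} {x : Pt} (h : c' ≤ c)
    (hc : eDenUp p c x) : eDenUp p c' x := fun s hs => h.2 (hc s hs)

private theorem eDenS_mono (T : Pt → RO Cn) (i : (Option ℚ × Option ℚ) ⊕ (Option ℚ ⊕ Unit))
    (c c' : Cn) (x : Pt) (h : c' ≤ c) (hc : eDenS T i c x) : eDenS T i c' x := by
  rcases i with p | p | p
  · exact ⟨eDen_down h hc.1, eDenLo_mono h hc.2.1, eDenUp_mono h hc.2.2⟩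
  · exact ⟨eDen_down h hc.1, eDenLo_mono h hc.2.1, fun c'' h' => hc.2.2 c'' (h'.trans h)⟩
  · exact ⟨eDen_down h hc.1, fun c'' h' => hc.2 c'' (h'.trans h)⟩

theorem exists_den {q : Cn} {T : Pt → RO Cn} (hT : ∀ c ≤ q, ∃ c' ≤ c, ∃ x, c' ∈ T x) :
    ∃ r ≤ q, ∃ e : ℕ → Pt, Den T (Set.range e) r := by
  obtain ⟨r, hr, C, hC, h⟩ := cover (S := eDenS T) (eDenS_mono T) q
  have hA : ∀ p p' : Option ℚ, ∀ r' ≤ r, ∀ x, r' ∈ T x → eDenLo p r' x → eDenUp p' r' x →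
      ∃ r'' ≤ r', ∃ d ∈ C, r'' ∈ T d ∧ eDenLo p r'' d ∧ eDenUp p' r'' d :=
    fun p p' r' h' x h1 h2 h3 => h (.inl (p, p')) r' h' ⟨x, h1, h2, h3⟩
  have hB : ∀ p : Option ℚ, ∀ r' ≤ r, ∀ x, r' ∈ T x → eDenLo p r' x →
      (∀ c' ≤ r', ∀ x', c' ∈ T x' → eDenLo p c' x' → c' ∉ Lt x' x) →
      ∃ r'' ≤ r', ∃ d ∈ C, r'' ∈ T d ∧ eDenLo p r'' d ∧
        ∀ c' ≤ r'', ∀ x', c' ∈ T x' → eDenLo p c' x' → c' ∉ Lt x' d :=
    fun p r' h' x h1 h2 h3 => h (.inr (.inl p)) r' h' ⟨x, h1, h2, h3⟩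
  have hM : ∀ r' ≤ r, ∀ x, r' ∈ T x → (∀ c' ≤ r', ∀ x', c' ∈ T x' → c' ∉ Lt x x') →
      ∃ r'' ≤ r', ∃ d ∈ C, r'' ∈ T d ∧ ∀ c' ≤ r'', ∀ x', c' ∈ T x' → c' ∉ Lt d x' :=
    fun r' h' x h1 h2 => h (.inr (.inr ())) r' h' ⟨x, h1, h2⟩
  have hne : ∀ c ≤ r, ∃ c' ≤ c, ∃ d ∈ C, c' ∈ T d := by
    intro c hc
    obtain ⟨c1, h1, x, h2⟩ := hT c (hc.trans hr)
    obtain ⟨c2, h3, d, h4, h5, -, -⟩ := hA none none c1 (h1.trans hc) x h2
      (fun s hs => by cases hs) (fun s hs => by cases hs)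
    exact ⟨c2, h3.trans h1, d, h4, h5⟩
  have hlo : ∀ c ≤ r, ∀ p : Option ℚ, ∀ x, x ∉ C → c ∈ T x → eDenLo p c x →
      ∃ c' ≤ c, ∃ d ∈ C, c' ∈ T d ∧ eDenLo p c' d ∧ c' ∈ Lt d x := by
    intro c hc p x hx h1 h2
    by_cases h3 : ∃ c1 ≤ c, ∃ x1, c1 ∈ T x1 ∧ eDenLo p c1 x1 ∧
        ∀ c' ≤ c1, ∀ x', c' ∈ T x' → eDenLo p c' x' → c' ∉ Lt x' x1
    · obtain ⟨c1, h4, x1, h5, h6, h7⟩ := h3
      obtain ⟨c2, h8, d, h9, h10, h11, h12⟩ := hB p c1 (h4.trans hc) x1 h5 h6 h7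
      have hdx : d ≠ x := fun e => hx (e ▸ h9)
      obtain ⟨c3, h13, h14 | h14⟩ := tlo.tot c2 d x hdx
      · exact ⟨c3, h13.trans (h8.trans h4), d, h9, eDen_down h13 h10, eDenLo_mono h13 h11, h14⟩
      · have h15 : c3 ≤ c := h13.trans (h8.trans h4)
        exact absurd h14 (h12 c3 h13 x (eDen_down h15 h1) (eDenLo_mono h15 h2))
    · have h4 : ∃ c1 ≤ c, ∃ x1, c1 ∈ T x1 ∧ eDenLo p c1 x1 ∧ c1 ∈ Lt x1 x := by
        by_contra hcon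
        exact h3 ⟨c, le_rfl, x, h1, h2, fun c' hc' x' h5 h6 h7 =>
          hcon ⟨c', hc', x', h5, h6, h7⟩⟩
      obtain ⟨c1, h5, x1, h6, h7, h8⟩ := h4
      obtain ⟨c2, h9, s, h10, h11⟩ := dec_of_lt h8
      have h12 : c2 ≤ r := h9.trans (h5.trans hc)
      obtain ⟨c3, h13, d, h14, h15, h16, h17⟩ := hA p (some s) c2 h12 x1 (eDen_down h9 h6)
        (eDenLo_mono h9 h7) (fun s' hs' => by
          rw [← Option.some.inj hs']
          exact h10)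
      refine ⟨c3, h13.trans (h9.trans h5), d, h14, h15, h16, Dec.mem_Lt ⟨s, h17 s rfl, ?_⟩⟩
      exact h13.2 h11
  obtain ⟨c0, -, d0, hd0, -⟩ := hne r le_rfl
  obtain ⟨e, rfl⟩ := hC.exists_eq_range ⟨d0, hd0⟩
  refine ⟨r, hr, e, ⟨hne, ?_, ?_, ?_⟩⟩
  · intro c hc x hx h1
    obtain ⟨c', h2, d, h3, h4, -, h5⟩ := hlo c hc none x hx h1 (fun s hs => by cases hs)
    exact ⟨c', h2, d, h3, h4, h5⟩
  · intro c hc x hx h1
    by_cases h3 : ∃ c1 ≤ c, ∃ x1, c1 ∈ T x1 ∧ ∀ c' ≤ c1, ∀ x', c' ∈ T x' → c' ∉ Lt x1 x'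
    · obtain ⟨c1, h4, x1, h5, h7⟩ := h3
      obtain ⟨c2, h8, d, h9, h10, h12⟩ := hM c1 (h4.trans hc) x1 h5 h7
      have hdx : x ≠ d := fun e => hx (e ▸ h9)
      obtain ⟨c3, h13, h14 | h14⟩ := tlo.tot c2 x d hdx
      · exact ⟨c3, h13.trans (h8.trans h4), d, h9, eDen_down h13 h10, h14⟩
      · have h15 : c3 ≤ c := h13.trans (h8.trans h4)
        exact absurd h14 (h12 c3 h13 x (eDen_down h15 h1))
    · have h4 : ∃ c1 ≤ c, ∃ x1, c1 ∈ T x1 ∧ c1 ∈ Lt x x1 := by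
        by_contra hcon
        exact h3 ⟨c, le_rfl, x, h1, fun c' hc' x' h5 h7 => hcon ⟨c', hc', x', h5, h7⟩⟩
      obtain ⟨c1, h5, x1, h6, h8⟩ := h4
      obtain ⟨c2, h9, s, h10, h11⟩ := dec_of_lt h8
      have h12 : c2 ≤ r := h9.trans (h5.trans hc)
      obtain ⟨c3, h13, d, h14, h15, h16, -⟩ := hA (some s) none c2 h12 x1 (eDen_down h9 h6)
        (fun s' hs' => by
          rw [← Option.some.inj hs']
          exact h11) (fun s' hs' => by cases hs')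
      refine ⟨c3, h13.trans (h9.trans h5), d, h14, h15, Dec.mem_Lt ⟨s, ?_, h16 s rfl⟩⟩
      exact h13.2 h10
  · intro c hc x x' hx hx' h1 h1' h2
    obtain ⟨c1, h3, s, h4, h5⟩ := dec_of_lt h2
    obtain ⟨c2, h6, d, h7, h8, h9, h10⟩ := hlo c1 (h3.trans hc) (some s) x' hx'
      (eDen_down h3 h1') (fun s' hs' => by
        rw [← Option.some.inj hs']
        exact h5)
    exact ⟨c2, h6.trans h3, d, h7, h8, Dec.mem_Lt ⟨s, h6.2 h4, h9 s rfl⟩, h10⟩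

end SSO
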