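import Pool.Agent.SSO.RBd

/-! # Labels for names (package E2)

(problem MP_ceadec_lc, project SSO, part E)

For every `x : Pt` let `D x` be the small set from `small_name (T x)`.
* The set `{d.1 | d ∈ D x}` is small, so `exists_enum` gives `T' x : K → Option Pre` with `(∃ k, T' x k = some a) ↔ ∃ d ∈ D x, d.1 = a`.
* The set of the ordinals `(dat γ).b` for bits `bit γ _ _ ∈ d.1.g`, `d ∈ D x`, and `(dat ζ).s x'` for pieces `pc ζ _ x' ∈ d.1.g`, `d ∈ D x`, is small (a small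
  union of finite sets), so it has an upper bound `s x` (`k_bdd`).
* The set `L x` of all labels of all `d ∈ D x` is small; enumerate it by `K` (`exists_enum`). So all labels in all `L x`, `x : Pt`, are the values of a function on
  `Pt × K` (use a fixed label for `none`), and `#(Pt × K) ≤ #K` (`mk_pt_le`, `Cardinal.mul_eq_self`); by `lb_bdd` there is `ξ0` with `ξ < ξ0` for all these labels.
* `exists_lb ⟨T', e, s, b⟩ ξ0`: `ξ > ξ0` with `dat ξ = ⟨T', e, s, b⟩`. So `En ξ = Set.range e`, and for `d ∈ D x`, `α ∈ d.1.g`: `Vd ξ x α`, and also the label of `α` is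
  `< ξ`, i.e. `Plt ξ α`.
* `exists_label`: `b := 0`. `Wit ξ x c.1` implies `c ≤ d` for some `d ∈ D x`, so `c ∈ T x` (`(T x).down`). Conversely `c ∈ T x` gives `c' ≤ c`, `d ∈ D x` with `c' ≤ d`, so
  `Wit ξ x c'.1`.
* `exists_beta`: the same `ξ` with `b := s`, `e` anything, `T := B`. -/

set_option autoImplicit false

namespace SSO

open STP

private theorem infK : Cardinal.aleph0 ≤ Cardinal.mk K := by
  have : Infinite K := Infinite.of_injective (fun n : ℕ => (n : Ordinal.{0})) Nat.cast_injective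
  exact Cardinal.aleph0_le_mk K

private theorem mk_ptK : Cardinal.mk (Pt × K) ≤ Cardinal.mk K := by
  rw [← Cardinal.mul_def]
  exact (mul_le_mul_left mk_pt_le _).trans (Cardinal.mul_eq_self infK).le

/-- the bound of an atom -/
private noncomputable def bd : Atom Lb Pt → K
  | .cut _ _ _ => 0
  | .bit γ _ _ => (dat γ).b
  | .pc ζ _ x' => (dat ζ).s x'

/-- the label of an atom -/
private def lb0 (ξ : Lb) : Atom Lb Pt → Lb
  | .cut _ _ _ => ξ
  | .bit γ _ _ => γ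
  | .pc ζ _ _ => ζ

private theorem core (T : Pt → RO Cn) (e : ℕ → Pt) (b : K) :
    ∃ (ξ : Lb) (D : Pt → Set Cn), En ξ = Set.range e ∧ (dat ξ).b = b ∧
      (∀ x, ∀ d ∈ D x, d ∈ T x) ∧ (∀ x, ∀ d ∈ D x, ∀ α ∈ d.1.g, Vd ξ x α) ∧
      (∀ x, ∀ c ∈ T x, ∃ c' ≤ c, ∃ d ∈ D x, c' ≤ d) ∧
      ∀ x p, (∃ k, (dat ξ).T x k = some p) ↔ ∃ d ∈ D x, d.1 = p := by
  choose D hDs hDT hDe using fun x => small_name (T x)
  have h1 : ∀ x, ∃ f : K → Option Pre, ∀ z, (∃ k, f k = some z) ↔ z ∈ Subtype.val '' D x := by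
    intro x
    have := hDs x
    exact exists_enum (small_image _ _)
  choose T' hT' using h1
  have hA : ∀ x, Small.{0} (⋃ d : D x, d.1.1.g) := by
    intro x
    have h2 := hDs x
    have h3 : ∀ d : D x, Small.{0} d.1.1.g := fun d => by
      have := d.1.1.fg.countable.to_subtype
      infer_instance
    exact small_iUnion _
  have h2 : ∀ x, ∃ a : K, ∀ w ∈ bd '' (⋃ d : D x, d.1.1.g), w < a := by
    intro x
    have := hA x
    exact k_bdd (small_image _ _)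
  choose s hs using h2
  choose f hf using fun x => exists_enum (hA x)
  obtain ⟨ξ1, -⟩ := lb_bdd (ι := PEmpty) (by simp) PEmpty.elim
  obtain ⟨ξ0, hξ0⟩ := lb_bdd mk_ptK fun p : Pt × K => ((f p.1 p.2).map (lb0 ξ1)).getD ξ1
  obtain ⟨ξ, hξ, hd⟩ := exists_lb ⟨T', e, s, b⟩ ξ0
  refine ⟨ξ, D, ?_, ?_, hDT, ?_, hDe, ?_⟩
  · unfold En
    rw [hd]
  · rw [hd]
  · intro x d hdx α hα
    have hαA : α ∈ ⋃ d : D x, d.1.1.g := Set.mem_iUnion.2 ⟨⟨d, hdx⟩, hα⟩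
    have e1 : bd α < (dat ξ).s x := by
      rw [hd]
      exact hs x _ ⟨α, hαA, rfl⟩
    obtain ⟨k, hk⟩ := (hf x α).2 hαA
    have e2 : lb0 ξ1 α < ξ := by
      have := hξ0 (x, k)
      simp only [hk, Option.map_some, Option.getD_some] at this
      exact this.trans hξ
    rcases α with ⟨a, q, c⟩ | ⟨γ, x', c⟩ | ⟨ζ, t, x'⟩
    · trivial
    · exact ⟨e2, e1.le⟩
    · exact ⟨e2, e1.le⟩
  · intro x p
    rw [hd]
    exact hT' x p

theorem exists_label (T : Pt → RO Cn) (e : ℕ → Pt) : ∃ ξ, En ξ = Set.range e ∧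
    (∀ x (c : Cn), Wit ξ x c.1 → c ∈ T x) ∧ ∀ x, ∀ c ∈ T x, ∃ c' ≤ c, Wit ξ x c'.1 := by
  obtain ⟨ξ, D, h1, h2, h3, h4, h5, h6⟩ := core T e 0
  refine ⟨ξ, h1, ?_, ?_⟩
  · rintro x c ⟨k, a, ha, hca, -⟩
    obtain ⟨d, hd, rfl⟩ := (h6 x a).1 ⟨k, ha⟩
    exact (T x).down hca (h3 x d hd)
  · intro x c hc
    obtain ⟨c', hc', d, hd, hcd⟩ := h5 x c hc
    obtain ⟨k, hk⟩ := (h6 x d.1).2 ⟨d, hd, rfl⟩
    exact ⟨c', hc', k, d.1, hk, hcd, h4 x d hd⟩

theorem exists_beta (B : Pt → RO Cn) (s : K) : ∃ (β : Lb) (D : Pt → Set Cn), (dat β).b = s ∧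
    (∀ a, ∀ d ∈ D a, d ∈ B a) ∧ (∀ a, ∀ d ∈ D a, ∀ α ∈ d.1.g, Plt β α) ∧
    ∀ a, ∀ c ∈ B a, ∃ c' ≤ c, ∃ d ∈ D a, c' ≤ d := by
  obtain ⟨ξ, D, h1, h2, h3, h4, h5, h6⟩ := core B (fun _ => (0, 0)) s
  refine ⟨ξ, D, h2, h3, ?_, h5⟩
  intro a d hd α hα
  have h7 := h4 a d hd α hα
  rcases α with ⟨a', q, c⟩ | ⟨γ, x', c⟩ | ⟨ζ, t, x'⟩
  · trivial
  · exact h7.1
  · exact h7.1

end SSO
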