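import Pool.Agent.SSO.Gen

/-! # Sharp sets; the functions `Fv` (package G3)

(problem MP_ceadec_lc, project SSO, part G)

* `Sharp.good`: `inc` for the pieces `t ↦ x`, `t' ↦ x'` with the same label: by `h.inc`. In the first case nothing is to be shown. Let
  `ps pos t < ps pos t'`, `pos x < pos x'`. Key: for points `a, b ∈ pts g` with `pos a < pos b` we have `Dec g a b` (`hs.pt`; `Dec g b a`
  contradicts `Dec.lt h.ok`), so `pos' a < pos' b` (`Dec.lt hok`). For a point `a ∈ pts g` and a rational `q` of a piece of `g`: if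
  `pos a < q` then `cut a q true ∈ g` (`hs.rt`, `h.ok.gt`), so `pos' a < q` (`hok.lt`), and similarly if `q < pos a`. So
  `ps pos' t < ps pos' t'` in all four cases (two rational numbers: trivial).
* `fv_un`: `f(a) = x`, `f(a) = y`. Both thin: `Inc` with equal first coordinates gives `x = y` (`lt_irrefl`). Thin `a ↦ x` and
  `q ↦ y`, `q' ↦ y`, `q < pos a < q'`: `Inc` for `(q, y)`, `(a, x)`: not the first case (`inr q ≠ inl a`, and `inl a` is not
  rational), so `pos y < pos x`; `Inc` for `(a, x)`, `(q', y)`: `pos x < pos y`, contradiction. Both fat, `q1 < pos a < q1'`,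
  `q2 < pos a < q2'`: `Inc` for `(q1, x)`, `(q2', y)`, `q1 < q2'`: `x = y` or `pos x < pos y`; `Inc` for `(q2, y)`, `(q1', x)`:
  `x = y` or `pos y < pos x`.
* `fv_mono`: the same with `pos a < pos b`: always there are `t ∈ {inl a, inr q1}` with `ps pos t ≤ pos a` and piece `t ↦ x`, and
  `t' ∈ {inl b, inr q2'}` with `pos b ≤ ps pos t'` and piece `t' ↦ y`; so `ps pos t < ps pos t'`, and `Inc` gives `x = y` or
  `pos x < pos y`. -/

set_option autoImplicit false

namespace SSO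

variable {L X : Type*} {g : Set (Atom L X)} {pos : X → ℝ}

private theorem shp_pt (hs : Sharp g) {pos pos' : X → ℝ} (h : CutOk g pos) (h' : CutOk g pos')
    {a b : X} (ha : a ∈ pts g) (hb : b ∈ pts g) (hab : pos a < pos b) : pos' a < pos' b := by
  have hne : a ≠ b := by
    rintro rfl
    exact lt_irrefl _ hab
  rcases hs.pt a ha b hb hne with h1 | h1
  · exact h1.lt h'
  · exact absurd (h1.lt h) (not_lt.2 hab.le)

private theorem shp_ps (hs : Sharp g) {pos pos' : X → ℝ} (h : CutOk g pos) (h' : CutOk g pos')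
    {l : L} {s s' : X ⊕ ℚ} {y y' : X} (h1 : .pc l s y ∈ g) (h2 : .pc l s' y' ∈ g)
    (hlt : ps pos s < ps pos s') : ps pos' s < ps pos' s' := by
  rcases s with a | q <;> rcases s' with b | q'
  · exact shp_pt hs h h' (mem_pts_thin h1) (mem_pts_thin h2) hlt
  · rcases hs.rt a (mem_pts_thin h1) l q' y' h2 with h3 | h3
    · exact h'.lt a q' h3
    · exact absurd (h.gt a q' h3) (not_lt.2 (le_of_lt hlt))
  · rcases hs.rt b (mem_pts_thin h2) l q y h1 with h3 | h3
    · exact absurd (h.lt b q h3) (not_lt.2 (le_of_lt hlt))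
    · exact h'.gt b q h3
  · exact hlt

private theorem shp_low (h : Good g pos) {l : L} {a x : X} (hx : Fv l g a x) :
    ∃ t, .pc l t x ∈ g ∧ ps pos t ≤ pos a := by
  rcases hx with h1 | ⟨q, q', h1, -, h3, -⟩
  · exact ⟨_, h1, le_refl _⟩
  · exact ⟨_, h1, (h.ok.gt a q h3).le⟩

private theorem shp_up (h : Good g pos) {l : L} {a x : X} (hx : Fv l g a x) :
    ∃ t, .pc l t x ∈ g ∧ pos a ≤ ps pos t := by
  rcases hx with h1 | ⟨q, q', -, h2, -, h4⟩
  · exact ⟨_, h1, le_refl _⟩
  · exact ⟨_, h2, (h.ok.lt a q' h4).le⟩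

private theorem shp_tf (h : Good g pos) {l : L} {a x y : X} (hx : .pc l (.inl a) x ∈ g)
    {q q' : ℚ} (h1 : .pc l (.inr q) y ∈ g) (h2 : .pc l (.inr q') y ∈ g)
    (h3 : .cut a q false ∈ g) (h4 : .cut a q' true ∈ g) : False := by
  have h5 := h.ok.gt a q h3
  have h6 := h.ok.lt a q' h4
  have h7 : pos y < pos x := by
    rcases h.inc _ _ _ _ _ h1 hx with ⟨-, h8 | ⟨-, ⟨r, h8⟩⟩⟩ | h8 | h8
    · exact absurd h8 (by simp)
    · exact absurd h8 (by simp)
    · exact h8.2
    · exact absurd h8.1 (not_lt.2 h5.le)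
  have h9 : pos x < pos y := by
    rcases h.inc _ _ _ _ _ hx h2 with ⟨-, h8 | ⟨⟨r, h8⟩, -⟩⟩ | h8 | h8
    · exact absurd h8 (by simp)
    · exact absurd h8 (by simp)
    · exact h8.2
    · exact absurd h8.1 (not_lt.2 h6.le)
  exact lt_asymm h7 h9

theorem Sharp.good (hs : Sharp g) (h : Good g pos) {pos' : X → ℝ} (hok : CutOk g pos')
    (hinj : Set.InjOn pos' (pts g)) (hirr : ∀ a ∈ pts g, Irrational (pos' a)) : Good g pos' where
  ok := hok
  inj := hinj
  irr := hirr
  inc l t x t' x' h1 h2 := by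
    rcases h.inc l t x t' x' h1 h2 with h3 | h3 | h3
    · exact Or.inl h3
    · exact Or.inr (Or.inl ⟨shp_ps hs h.ok hok h1 h2 h3.1,
        shp_pt hs h.ok hok (mem_pts_pc h1) (mem_pts_pc h2) h3.2⟩)
    · exact Or.inr (Or.inr ⟨shp_ps hs h.ok hok h2 h1 h3.1,
        shp_pt hs h.ok hok (mem_pts_pc h2) (mem_pts_pc h1) h3.2⟩)

theorem fv_un (h : Good g pos) {l : L} {a x y : X} (hx : Fv l g a x) (hy : Fv l g a y) :
    x = y := by
  rcases hx with h1 | ⟨q, q', h1, h2, h3, h4⟩ <;> rcases hy with h5 | ⟨r, r', h5, h6, h7, h8⟩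
  · rcases h.inc _ _ _ _ _ h1 h5 with h9 | h9 | h9
    · exact h9.1
    · exact absurd h9.1 (lt_irrefl _)
    · exact absurd h9.1 (lt_irrefl _)
  · exact (shp_tf h h1 h5 h6 h7 h8).elim
  · exact (shp_tf h h5 h1 h2 h3 h4).elim
  · have e1 := h.ok.gt a q h3
    have e2 := h.ok.lt a q' h4
    have e3 := h.ok.gt a r h7
    have e4 := h.ok.lt a r' h8
    rcases h.inc _ _ _ _ _ h1 h6 with h9 | h9 | h9
    · exact h9.1
    · rcases h.inc _ _ _ _ _ h5 h2 with h10 | h10 | h10
      · exact h10.1.symm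
      · exact absurd h10.2 (not_lt.2 h9.2.le)
      · exact absurd h10.1 (not_lt.2 (e3.trans e2).le)
    · exact absurd h9.1 (not_lt.2 (e1.trans e4).le)

theorem fv_mono (h : Good g pos) {l : L} {a b x y : X} (hx : Fv l g a x) (hy : Fv l g b y)
    (hab : pos a < pos b) : x = y ∨ pos x < pos y := by
  obtain ⟨t, h1, h2⟩ := shp_low h hx
  obtain ⟨t', h3, h4⟩ := shp_up h hy
  rcases h.inc _ _ _ _ _ h1 h3 with h5 | h5 | h5
  · exact Or.inl h5.1
  · exact Or.inr h5.2
  · exact absurd h5.1 (not_lt.2 (by linarith))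

end SSO
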