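import Pool.Agent.SSO.GPos

/-! # The room for a new piece (package G4)

(problem MP_ceadec_lc, project SSO, part G)

* `room`: `Lo := {ps pos t | pc l t x ∈ g, pos x < v}`, `Hi := {ps pos t | pc l t x ∈ g, v < pos x}` are finite (images of subsets of
  the finite set `g`), and every element of `Lo` is `<` every element of `Hi`: `pc l t x`, `pc l t' x' ∈ g`, `pos x < v < pos x'`:
  `Inc` cannot be the first case (`x = x'`) or the third, so `ps pos t < ps pos t'`. So there are `u < w` with `Lo ≤ u`, `w ≤ Hi`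
  (maximum of `Lo` and minimum of `Hi`; if one of them is empty, take a number far away; `Set.Finite.exists_maximal`,
  `Set.exists_max_image` or `Finset.exists_le`-like lemmas, or induction).
* `add_thin`: `v := pos x` and `r ∈ (u, w)` irrational not in `pos '' pts g` (`exists_irr`); `pos' := Function.update pos z r`
  (`Good.congr`). `pts (insert ..) = insert z (pts g)`. `Inc` for the new piece `(z, x)` and an old piece `(t, x1)`: `x1 ≠ x` by
  `hn`, so `pos x1 ≠ pos x` (`h.inj`, `mem_pts_pc`), and by `room` `ps pos t ≤ u < r` or `r < w ≤ ps pos t`. New/new: `Inc.refl`.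
* `add_fat`: `v := pos x`; two rational numbers `q < q'` in `(u, w)` (`exists_rat_btwn` twice). An old piece `(t, x1)`, `x1 ≠ x`: as before;
  `x1 = x`: then `t` is rational by `hn`: `Inc` by its first case. No new points.
* `add_around`: choose `q < pos a < q'` rational such that no `ps pos t ≠ pos a` of a piece of `g` is in `[q, q']` (finitely many `t`;
  `exists_rat_btwn` between the maximum of the `ps pos t < pos a` and `pos a`, etc.). The new pieces `(q, d)`, `(q', d)` and an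
  old piece `(t, x)`: by `hd`; in the second case `ps pos t < q < q'`, in the third `q < q' < ps pos t`. -/

set_option autoImplicit false

namespace SSO

variable {L X : Type*} {g : Set (Atom L X)} {pos : X → ℝ}

private theorem sep_aux {A B : Set ℝ} (hA : A.Finite) (hB : B.Finite)
    (h : ∀ a ∈ A, ∀ b ∈ B, a < b) : ∃ u w : ℝ, u < w ∧ (∀ a ∈ A, a ≤ u) ∧ ∀ b ∈ B, w ≤ b := by
  rcases A.eq_empty_or_nonempty with hA0 | hA0
  · rcases B.eq_empty_or_nonempty with hB0 | hB0
    · refine ⟨0, 1, zero_lt_one, ?_, ?_⟩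
      · intro a ha
        rw [hA0] at ha
        exact ha.elim
      · intro b hb
        rw [hB0] at hb
        exact hb.elim
    · obtain ⟨w, hw, hw'⟩ := Set.exists_min_image B id hB hB0
      refine ⟨w - 1, w, by linarith, ?_, fun b hb => hw' b hb⟩
      intro a ha
      rw [hA0] at ha
      exact ha.elim
  · obtain ⟨u, hu, hu'⟩ := Set.exists_max_image A id hA hA0
    rcases B.eq_empty_or_nonempty with hB0 | hB0
    · refine ⟨u, u + 1, by linarith, fun a ha => hu' a ha, ?_⟩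
      intro b hb
      rw [hB0] at hb
      exact hb.elim
    · obtain ⟨w, hw, hw'⟩ := Set.exists_min_image B id hB hB0
      exact ⟨u, w, h u hu w hw, fun a ha => hu' a ha, fun b hb => hw' b hb⟩

private theorem tset_finite (hf : g.Finite) (pos : X → ℝ) (l : L) (P : X ⊕ ℚ → X → Prop) :
    {s : ℝ | ∃ t x, .pc l t x ∈ g ∧ P t x ∧ s = ps pos t}.Finite := by
  have h1 : {s : ℝ | ∃ t x, .pc l t x ∈ g ∧ P t x ∧ s = ps pos t} ⊆
      (fun α : Atom L X => match α with
        | .cut _ _ _ => (0 : ℝ)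
        | .bit _ _ _ => 0
        | .pc _ t _ => ps pos t) '' g := by
    rintro s ⟨t, x, h, -, rfl⟩
    exact ⟨_, h, rfl⟩
  exact (hf.image _).subset h1

private theorem pts_ins_sub {l : L} {z x : X} (hx : x ∈ pts g) :
    pts (insert (Atom.pc l (.inl z) x) g) ⊆ insert z (pts g) := by
  rintro y ⟨α, hα | hα, hy⟩
  · subst hα
    rcases hy with hy | hy
    · right
      rw [hy]
      exact hx
    · left
      exact (Sum.inl.inj hy).symm
  · exact Or.inr ⟨α, hα, hy⟩

theorem room (hf : g.Finite) (h : Good g pos) (l : L) (v : ℝ) :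
    ∃ u w : ℝ, u < w ∧ ∀ t x, .pc l t x ∈ g →
      (pos x < v → ps pos t ≤ u) ∧ (v < pos x → w ≤ ps pos t) := by
  obtain ⟨u, w, huw, h1, h2⟩ := sep_aux
    (tset_finite hf pos l fun _ x => pos x < v) (tset_finite hf pos l fun _ x => v < pos x) (by
      rintro _ ⟨t, x, hp, hx, rfl⟩ _ ⟨t', x', hp', hx', rfl⟩
      rcases h.inc l t x t' x' hp hp' with ⟨h3, -⟩ | h3 | h3
      · subst h3
        exact absurd hx (not_lt.2 hx'.le)
      · exact h3.1
      · exact absurd (hx.trans hx') (not_lt.2 h3.2.le))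
  exact ⟨u, w, huw, fun t x hp => ⟨fun hx => h1 _ ⟨t, x, hp, hx, rfl⟩,
    fun hx => h2 _ ⟨t, x, hp, hx, rfl⟩⟩⟩


theorem add_thin (hf : g.Finite) (h : Good g pos) {l : L} {z x : X} (hz : z ∉ pts g)
    (hx : x ∈ pts g) (hn : ∀ t, .pc l t x ∉ g) :
    ∃ pos' : X → ℝ, (∀ a ∈ pts g, pos' a = pos a) ∧ Good (insert (.pc l (.inl z) x) g) pos' := by
  classical
  obtain ⟨u, w, huw, hr⟩ := room hf h l (pos x)
  obtain ⟨r, hur, hrw, hri, hrn⟩ := exists_irr huw ((pts_finite hf).image pos)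
  have he : ∀ a ∈ pts g, Function.update pos z r a = pos a := by
    intro a ha
    refine Function.update_of_ne ?_ _ _
    rintro rfl
    exact hz ha
  have hg : Good g (Function.update pos z r) := h.congr he
  have hzz : Function.update pos z r z = r := Function.update_self _ _ _
  have hps : ∀ t x1, .pc l t x1 ∈ g → ps (Function.update pos z r) t = ps pos t := by
    intro t x1 ht
    rcases t with t | t
    · exact he t (mem_pts_thin ht)
    · rfl
  have key : ∀ t x1, .pc l t x1 ∈ g → Inc (Function.update pos z r) (.inl z) x t x1 := by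
    intro t x1 ht
    have hne : x1 ≠ x := by
      rintro rfl
      exact hn t ht
    have hne' : pos x1 ≠ pos x := fun h' => hne (h.inj (mem_pts_pc ht) hx h')
    rcases lt_or_gt_of_ne hne' with h1 | h1
    · refine Or.inr (Or.inr ⟨?_, ?_⟩)
      · rw [hps t x1 ht, ps_inl, hzz]
        exact ((hr t x1 ht).1 h1).trans_lt hur
      · rw [he x1 (mem_pts_pc ht), he x hx]
        exact h1
    · refine Or.inr (Or.inl ⟨?_, ?_⟩)
      · rw [hps t x1 ht, ps_inl, hzz]
        exact hrw.trans_le ((hr t x1 ht).2 h1)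
      · rw [he x1 (mem_pts_pc ht), he x hx]
        exact h1
  refine ⟨Function.update pos z r, he, ⟨⟨?_, ?_⟩, ?_, ?_, ?_⟩⟩
  · rintro a q (ha | ha)
    · exact absurd ha (by simp)
    · exact hg.ok.lt a q ha
  · rintro a q (ha | ha)
    · exact absurd ha (by simp)
    · exact hg.ok.gt a q ha
  · have hi : Set.InjOn (Function.update pos z r) (insert z (pts g)) := by
      rintro a (rfl | ha) b (rfl | hb) hab
      · rfl
      · rw [hzz, he b hb] at hab
        exact absurd ⟨b, hb, hab.symm⟩ hrn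
      · rw [hzz, he a ha] at hab
        exact absurd ⟨a, ha, hab⟩ hrn
      · exact hg.inj ha hb hab
    exact hi.mono (pts_ins_sub hx)
  · intro a ha
    rcases pts_ins_sub hx ha with rfl | ha
    · rw [hzz]
      exact hri
    · exact hg.irr a ha
  · rintro l' t1 x1 t2 x2 (h1 | h1) (h2 | h2)
    · simp only [Atom.pc.injEq] at h1 h2
      obtain ⟨rfl, rfl, rfl⟩ := h1
      obtain ⟨-, rfl, rfl⟩ := h2
      exact Inc.refl _ _ _
    · simp only [Atom.pc.injEq] at h1
      obtain ⟨rfl, rfl, rfl⟩ := h1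
      exact key _ _ h2
    · simp only [Atom.pc.injEq] at h2
      obtain ⟨rfl, rfl, rfl⟩ := h2
      exact (key _ _ h1).symm
    · exact hg.inc l' t1 x1 t2 x2 h1 h2


theorem add_fat (hf : g.Finite) (h : Good g pos) {l : L} {x : X}
    (hx : x ∈ pts g) (hn : ∀ z, .pc l (.inl z) x ∉ g) :
    ∃ q q' : ℚ, q < q' ∧ Good (g ∪ {.pc l (.inr q) x, .pc l (.inr q') x}) pos := by
  obtain ⟨u, w, huw, hr⟩ := room hf h l (pos x)
  obtain ⟨q', hq1, hq2⟩ := exists_rat_btwn huw
  obtain ⟨q, hq3, hq4⟩ := exists_rat_btwn hq1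
  have hqw : ((q : ℚ) : ℝ) < w := hq4.trans hq2
  have huq : u < ((q' : ℚ) : ℝ) := hq1
  have key : ∀ p : ℚ, u < (p : ℝ) → (p : ℝ) < w → ∀ t x1, .pc l t x1 ∈ g →
      Inc pos (.inr p) x t x1 := by
    intro p hp1 hp2 t x1 ht
    by_cases hne : x1 = x
    · subst hne
      rcases t with t | t
      · exact absurd ht (hn t)
      · exact Or.inl ⟨rfl, Or.inr ⟨⟨p, rfl⟩, ⟨t, rfl⟩⟩⟩
    · have hne' : pos x1 ≠ pos x := fun h' => hne (h.inj (mem_pts_pc ht) hx h')
      rcases lt_or_gt_of_ne hne' with h1 | h1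
      · refine Or.inr (Or.inr ⟨?_, h1⟩)
        exact ((hr t x1 ht).1 h1).trans_lt hp1
      · refine Or.inr (Or.inl ⟨?_, h1⟩)
        exact hp2.trans_le ((hr t x1 ht).2 h1)
  have key' : ∀ l' t x1, .pc l' t x1 ∈ ({.pc l (.inr q) x, .pc l (.inr q') x} : Set (Atom L X)) →
      l' = l ∧ x1 = x ∧ ∃ p : ℚ, t = .inr p ∧ u < (p : ℝ) ∧ (p : ℝ) < w := by
    rintro l' t x1 (h1 | h1)
    · simp only [Atom.pc.injEq] at h1
      exact ⟨h1.1, h1.2.2, q, h1.2.1, hq3, hqw⟩
    · simp only [Set.mem_singleton_iff, Atom.pc.injEq] at h1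
      exact ⟨h1.1, h1.2.2, q', h1.2.1, huq, hq2⟩
  have hsub : pts (g ∪ {.pc l (.inr q) x, .pc l (.inr q') x}) ⊆ pts g := by
    rintro y ⟨α, h1 | h1 | h1, hy⟩
    · exact ⟨α, h1, hy⟩
    · subst h1
      rcases hy with hy | hy
      · rw [hy]
        exact hx
      · exact absurd hy (by simp)
    · rw [Set.mem_singleton_iff] at h1
      subst h1
      rcases hy with hy | hy
      · rw [hy]
        exact hx
      · exact absurd hy (by simp)
  refine ⟨q, q', by exact_mod_cast hq4, ⟨⟨?_, ?_⟩, h.inj.mono hsub, fun a ha => h.irr a (hsub ha),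
    ?_⟩⟩
  · rintro a p (ha | ha | ha)
    · exact h.ok.lt a p ha
    · exact absurd ha (by simp)
    · exact absurd ha (by simp)
  · rintro a p (ha | ha | ha)
    · exact h.ok.gt a p ha
    · exact absurd ha (by simp)
    · exact absurd ha (by simp)
  · rintro l' t1 x1 t2 x2 (h1 | h1) (h2 | h2)
    · exact h.inc l' t1 x1 t2 x2 h1 h2
    · obtain ⟨rfl, rfl, p, rfl, hp1, hp2⟩ := key' _ _ _ h2
      exact (key p hp1 hp2 _ _ h1).symm
    · obtain ⟨rfl, rfl, p, rfl, hp1, hp2⟩ := key' _ _ _ h1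
      exact key p hp1 hp2 _ _ h2
    · obtain ⟨rfl, rfl, p, rfl, -, -⟩ := key' _ _ _ h1
      obtain ⟨-, rfl, p', rfl, -, -⟩ := key' _ _ _ h2
      exact Or.inl ⟨rfl, Or.inr ⟨⟨p, rfl⟩, ⟨p', rfl⟩⟩⟩


theorem add_around (hf : g.Finite) (h : Good g pos) {l : L} {a d : X} (ha : a ∈ pts g)
    (hdp : d ∈ pts g)
    (hd : ∀ t x, .pc l t x ∈ g → (x = d ∧ ∃ q, t = .inr q) ∨ (ps pos t < pos a ∧ pos x < pos d) ∨
      (pos a < ps pos t ∧ pos d < pos x)) :
    ∃ q q' : ℚ, Good (g ∪ {.pc l (.inr q) d, .pc l (.inr q') d, .cut a q false, .cut a q' true})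
      pos := by
  obtain ⟨u, w, huw, h1, h2⟩ := sep_aux
    (tset_finite hf pos l fun t _ => ps pos t < pos a) (Set.finite_singleton (pos a)) (by
      rintro _ ⟨t, x, hp, hx, rfl⟩ b hb
      rw [Set.mem_singleton_iff] at hb
      rw [hb]
      exact hx)
  obtain ⟨u', w', huw', h1', h2'⟩ := sep_aux (Set.finite_singleton (pos a))
    (tset_finite hf pos l fun t _ => pos a < ps pos t) (by
      rintro b hb _ ⟨t, x, hp, hx, rfl⟩
      rw [Set.mem_singleton_iff] at hb
      rw [hb]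
      exact hx)
  have h3 : u < pos a := huw.trans_le (h2 _ rfl)
  have h3' : pos a < w' := (h1' _ rfl).trans_lt huw'
  obtain ⟨q, hq1, hq2⟩ := exists_rat_btwn h3
  obtain ⟨q', hq3, hq4⟩ := exists_rat_btwn h3'
  have key : ∀ p : ℚ, u < (p : ℝ) → (p : ℝ) < w' → ∀ t x1, .pc l t x1 ∈ g →
      Inc pos (.inr p) d t x1 := by
    intro p hp1 hp2 t x1 ht
    rcases hd t x1 ht with ⟨h4, q1, h5⟩ | ⟨h4, h5⟩ | ⟨h4, h5⟩
    · exact Or.inl ⟨h4.symm, Or.inr ⟨⟨p, rfl⟩, ⟨q1, h5⟩⟩⟩
    · exact Or.inr (Or.inr ⟨(h1 _ ⟨t, x1, ht, h4, rfl⟩).trans_lt hp1, h5⟩)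
    · exact Or.inr (Or.inl ⟨hp2.trans_le (h2' _ ⟨t, x1, ht, h4, rfl⟩), h5⟩)
  have key' : ∀ l' t x1, .pc l' t x1 ∈ ({.pc l (.inr q) d, .pc l (.inr q') d, .cut a q false,
      .cut a q' true} : Set (Atom L X)) →
      l' = l ∧ x1 = d ∧ ∃ p : ℚ, t = .inr p ∧ u < (p : ℝ) ∧ (p : ℝ) < w' := by
    rintro l' t x1 (h1 | h1 | h1 | h1)
    · simp only [Atom.pc.injEq] at h1
      exact ⟨h1.1, h1.2.2, q, h1.2.1, hq1, hq2.trans h3'⟩
    · simp only [Atom.pc.injEq] at h1
      exact ⟨h1.1, h1.2.2, q', h1.2.1, h3.trans hq3, hq4⟩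
    · exact absurd h1 (by simp)
    · exact absurd h1 (by simp)
  have hsub : pts (g ∪ {.pc l (.inr q) d, .pc l (.inr q') d, .cut a q false, .cut a q' true}) ⊆
      pts g := by
    rintro y ⟨α, h1 | h1 | h1 | h1 | h1, hy⟩
    · exact ⟨α, h1, hy⟩
    · subst h1
      rcases hy with hy | hy
      · rw [hy]
        exact hdp
      · exact absurd hy (by simp)
    · subst h1
      rcases hy with hy | hy
      · rw [hy]
        exact hdp
      · exact absurd hy (by simp)
    · subst h1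
      have hy' : y = a := hy
      rw [hy']
      exact ha
    · rw [Set.mem_singleton_iff] at h1
      subst h1
      have hy' : y = a := hy
      rw [hy']
      exact ha
  refine ⟨q, q', ⟨⟨?_, ?_⟩, h.inj.mono hsub, fun a ha => h.irr a (hsub ha), ?_⟩⟩
  · rintro b p (hb | hb | hb | hb | hb)
    · exact h.ok.lt b p hb
    · exact absurd hb (by simp)
    · exact absurd hb (by simp)
    · exact absurd hb (by simp)
    · simp only [Set.mem_singleton_iff, Atom.cut.injEq, and_true] at hb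
      obtain ⟨rfl, rfl⟩ := hb
      exact hq3
  · rintro b p (hb | hb | hb | hb | hb)
    · exact h.ok.gt b p hb
    · exact absurd hb (by simp)
    · exact absurd hb (by simp)
    · simp only [Atom.cut.injEq, and_true] at hb
      obtain ⟨rfl, rfl⟩ := hb
      exact hq2
    · exact absurd hb (by simp)
  · rintro l' t1 x1 t2 x2 (g1 | g1) (g2 | g2)
    · exact h.inc l' t1 x1 t2 x2 g1 g2
    · obtain ⟨rfl, rfl, p, rfl, hp1, hp2⟩ := key' _ _ _ g2
      exact (key p hp1 hp2 _ _ g1).symm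
    · obtain ⟨rfl, rfl, p, rfl, hp1, hp2⟩ := key' _ _ _ g1
      exact key p hp1 hp2 _ _ g2
    · obtain ⟨rfl, rfl, p, rfl, -, -⟩ := key' _ _ _ g1
      obtain ⟨-, rfl, p', rfl, -, -⟩ := key' _ _ _ g2
      exact Or.inl ⟨rfl, Or.inr ⟨⟨p, rfl⟩, ⟨p', rfl⟩⟩⟩


end SSO
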