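import Pool.Agent.SSO.PShp
import Pool.Agent.SSO.GRoom

/-! # Fat pieces are dense (package P5)

(problem MP_ceadec_lc, project SSO, part P)

Let first `c1 ≤ c` with `x ∈ pts c1.1.g` (`exists_sharp`; `Wit.mono`), `pos` good. There is no thin piece with label `ξ` and value `x`
(`c1.2.thin`, `hx`), so `add_fat` gives `q < q'` with `pos` good for `g2 := c1.1.g ∪ {pc ξ q x, pc ξ q' x}`; `c2 := (c1.1.y, g2)` is legal by
`Leg.mk'`. Let `a` be a point not in `pts g2` (finite; for example `(0, k)` for a suitable `k`), `r` irrational with `q < r < q'`,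
not in `pos '' pts g2` (`exists_irr`), `pos' := Function.update pos a r`, and add the two cuts `cut a q false`, `cut a q' true`
(`Leg.cuts`, `Good.congr` for the old atoms; the new point `a` has a new irrational position). -/

set_option autoImplicit false

namespace SSO

theorem exists_fat (c : Cn) {ξ : Lb} {x : Pt} (hx : x ∈ En ξ) (h : Wit ξ x c.1) :
    ∃ c' ≤ c, ∃ a, Fv ξ c'.1.g a x := by
  classical
  obtain ⟨c1, h1, -, hA, -, -, -⟩ := exists_sharp c (Set.finite_singleton x)
  have hw : Wit ξ x c1.1 := h.mono h1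
  have hxp : x ∈ pts c1.1.g := hA rfl
  obtain ⟨pos, hpos⟩ := c1.2.good
  have hn : ∀ z, .pc ξ (.inl z) x ∉ c1.1.g := fun z hz => (c1.2.thin ξ z x hz).1 hx
  obtain ⟨q, q', hqq, hg2⟩ := add_fat c1.1.fg hpos hxp hn
  have hf2 : (c1.1.g ∪ {.pc ξ (.inr q) x, .pc ξ (.inr q') x}).Finite :=
    c1.1.fg.union (Set.toFinite _)
  have hle2 : (⟨c1.1.y, c1.1.g ∪ {.pc ξ (.inr q) x, .pc ξ (.inr q') x}, c1.1.cy, hf2⟩ : Pre)
      ≤ c1.1 := ⟨YLe.refl _, Set.subset_union_left⟩
  have hleg2 : Leg ⟨c1.1.y, c1.1.g ∪ {.pc ξ (.inr q) x, .pc ξ (.inr q') x}, c1.1.cy, hf2⟩ := by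
    refine c1.2.mk' hle2 c1.2.yg ⟨pos, hg2⟩ ?_ ?_
    · rintro γ x' (hb | hb | hb) hb'
      · rcases hb' with hb' | hb' | hb'
        · exact c1.2.bit γ x' hb hb'
        · cases hb'
        · cases hb'
      · cases hb
      · cases hb
    · rintro ζ t x' (hz | hz | hz)
      · exact Or.inl hz
      · cases hz
        exact Or.inr ⟨hw.mono hle2, fun z hz => (by cases hz), fun _ _ => hx⟩
      · cases hz
        exact Or.inr ⟨hw.mono hle2, fun z hz => (by cases hz), fun _ _ => hx⟩
  revert hleg2 hle2 hg2 hf2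
  generalize hG : (c1.1.g ∪ {.pc ξ (.inr q) x, .pc ξ (.inr q') x} : Set (Atom Lb Pt)) = g2
  intro hg2 hf2 hle2 hleg2
  obtain ⟨a, ha⟩ : ∃ a, a ∉ pts g2 := (pts_finite hf2).exists_notMem
  obtain ⟨r, hr1, hr2, hr3, hr4⟩ := exists_irr (show (q : ℝ) < q' by exact_mod_cast hqq)
    (S := pos '' pts g2) ((pts_finite hf2).image _)
  have hne : ∀ b ∈ pts g2, b ≠ a := by
    rintro b hb rfl
    exact ha hb
  have hup : ∀ b ∈ pts g2, Function.update pos a r b = pos b := fun b hb =>
    Function.update_of_ne (hne b hb) _ _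
  have hua : Function.update pos a r a = r := Function.update_self _ _ _
  have hg2' : Good g2 (Function.update pos a r) := hg2.congr hup
  have hf3 : (g2 ∪ {.cut a q false, .cut a q' true}).Finite := hf2.union (Set.toFinite _)
  have hp3 : ∀ b ∈ pts (g2 ∪ {.cut a q false, .cut a q' true}), b ∈ pts g2 ∨ b = a := by
    rintro b ⟨α, hα | hα | hα, hb⟩
    · exact Or.inl ⟨α, hα, hb⟩
    · subst hα
      exact Or.inr hb
    · subst hα
      exact Or.inr hb
  have hpc : ∀ l t y, .pc l t y ∈ g2 ∪ {.cut a q false, .cut a q' true} → .pc l t y ∈ g2 := by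
    rintro l t y (hy | hy | hy)
    · exact hy
    · cases hy
    · cases hy
  have hg3 : Good (g2 ∪ {.cut a q false, .cut a q' true}) (Function.update pos a r) := by
    refine ⟨⟨?_, ?_⟩, ?_, ?_, ?_⟩
    · rintro b s (hb | hb | hb)
      · exact hg2'.ok.lt b s hb
      · cases hb
      · cases hb
        rw [hua]
        exact hr2
    · rintro b s (hb | hb | hb)
      · exact hg2'.ok.gt b s hb
      · cases hb
        rw [hua]
        exact hr1
      · cases hb
    · intro b hb d hd hbd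
      rcases hp3 b hb with hb' | hb'
      · rcases hp3 d hd with hd' | hd'
        · exact hg2'.inj hb' hd' hbd
        · rw [hd', hua, hup b hb'] at hbd
          exact absurd ⟨b, hb', hbd⟩ hr4
      · rcases hp3 d hd with hd' | hd'
        · rw [hb', hua, hup d hd'] at hbd
          exact absurd ⟨d, hd', hbd.symm⟩ hr4
        · rw [hb', hd']
    · intro b hb
      rcases hp3 b hb with hb' | hb'
      · exact hg2'.irr b hb'
      · rw [hb', hua]
        exact hr3
    · intro l t y t' y' hy hy'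
      exact hg2'.inc l t y t' y' (hpc _ _ _ hy) (hpc _ _ _ hy')
  have hsub : g2 ⊆ g2 ∪ {.cut a q false, .cut a q' true} := Set.subset_union_left
  refine ⟨⟨⟨c1.1.y, g2 ∪ {.cut a q false, .cut a q' true}, c1.1.cy, hf3⟩,
    hleg2.cuts hf3 hsub ?_ ⟨_, hg3⟩⟩, ?_, a, Or.inr ⟨q, q', ?_, ?_, ?_, ?_⟩⟩
  · rintro α (hα | hα | hα)
    · exact Or.inl hα
    · subst hα
      exact Or.inr trivial
    · subst hα
      exact Or.inr trivial
  · refine le_trans ?_ h1
    exact ⟨YLe.refl _, hle2.2.trans hsub⟩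
  · refine Or.inl ?_
    rw [← hG]
    exact Or.inr (Or.inl rfl)
  · refine Or.inl ?_
    rw [← hG]
    exact Or.inr (Or.inr rfl)
  · exact Or.inr (Or.inl rfl)
  · exact Or.inr (Or.inr rfl)

end SSO
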