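import Pool.Agent.SSO.PShp
import Pool.Agent.SSO.GRoom

/-! # Every point gets a value (package P6)

(problem MP_ceadec_lc, project SSO, part P)

(1) Let `c1 ≤ c` be sharp with `a ∈ pts c1.1.g` (`exists_sharp`), `pos` good for `c1.1.g`. If `pc ξ (inl a) x ∈ c1.1.g` for some `x`: done.
Otherwise `ps pos t ≠ pos a` for all pieces `t ↦ x` of `c1` with label `ξ` (thin: `t = inl z`, `z ≠ a`, `inj`; fat: `irr`). Let `Lo`, `Hi` be
the (finite) sets of the pieces `(t, x)` of `c1` with label `ξ` and `ps pos t < pos a`, `pos a < ps pos t`. If `Lo` is not empty let `(tl, xl) ∈ Lo`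
have the largest `ps pos tl`; if `Hi` is not empty let `(th, xh) ∈ Hi` have the smallest `ps pos th` (`Set.exists_max_image`).
Remark: if `ps pos t = ps pos tl`, then `Inc` gives `x = xl` and (`t = tl` or both are rational).

(2) Case A: `Lo` is not empty and `tl` is rational. Put `d := xl` (`d ∈ En ξ` by `c1.2.fat`, `Wit ξ d c1` by `c1.2.wit`, `d ∈ pts`). The
hypothesis `hd` of `add_around` holds for `c1.1.g`: for `(t, x) ∈ Lo`: `Inc` of `(t, x)`, `(tl, xl)`: either `x = xl` and `t` is rational (first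
alternative of `hd`), or `ps pos t < ps pos tl`, `pos x < pos xl` (second alternative); the reverse contradicts the maximality. For
`(t, x) ∈ Hi`: `ps pos tl < pos a < ps pos t`, so `x = xl` and both rational (first alternative), or `pos xl < pos x` (third). So `add_around`
gives `g'`, and `c' := (c1.1.y, g')` is legal by `Leg.mk'`; it has `Fv ξ g' a d`. Case B: `Hi` is not empty and `th` is rational: symmetric.

(3) Case C: otherwise `tl` (if `Lo` is not empty) and `th` (if `Hi` is not empty) are thin, so `xl, xh ∉ En ξ`, `Wit ξ xl c1`, `Wit ξ xh c1`. If both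
exist: `ps pos tl < ps pos th`, so by `Inc` `pos xl < pos xh` (`xl = xh` would give `tl = th` or both rational), so `Dec c1.1.g xl xh` by
sharpness (`Dec.lt` excludes the reverse). By `h.ne`, `h.lo`, `h.hi`, `h.bt` (according to which of `Lo`, `Hi` are empty; `h.hi` if only `Lo` is
not empty, `h.lo` if only `Hi` is not empty) there are `c2 ≤ c1`, `d ∈ En ξ` with `Wit ξ d c2`, `Dec c2.1.g xl d` (if `Lo` is not empty), `Dec c2.1.g d xh`
(if `Hi` is not empty). `restrict` for `c2 ≤ c1` and `Plt.cl ξ`: `c2 ≤ c3 ≤ c1`, `c3.1.g = c1.1.g ∪ {α ∈ c2.1.g | Plt ξ α}`. So `c3` has the same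
pieces with label `ξ` as `c1` (`Plt ξ (pc ξ ..)` is `ξ < ξ`), all cuts of `c2` (so the above `Dec` for `c3`), and `Wit ξ d c3` (the witness `a'` of
`Wit ξ d c2` has only atoms with `Vd ξ d α`, so with `Plt ξ α`: last clause of `restrict`). `exists_sharp` for `c3` and `{d}`: `c4 ≤ c3` with
`d ∈ pts c4.1.g`, only cuts are added. Let `pos4` be good for `c4.1.g`. Since `c1` is sharp: for `z ∈ pts c1.1.g` with `pos z < pos a` we have
`Dec c1.1.g z a`, so `pos4 z < pos4 a` (and similarly for `>`, for two other points, and for `a` and rational numbers of fat pieces by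
`Sharp.rt`). So for the pieces `(t, x)` with label `ξ` (those of `c1`): if `(t, x) ∈ Lo` then `ps pos4 t < pos4 a`, and `Inc` for `pos` gives
(`t = tl`, `x = xl`) or `pos x < pos xl`, in both cases `pos4 x ≤ pos4 xl < pos4 d`: second alternative of `hd` for `c4.1.g`, `pos4`; if
`(t, x) ∈ Hi`: third alternative. Now `add_around` for `c4`, and `Leg.mk'` (`Wit ξ d`, `d ∈ En ξ`). -/

set_option autoImplicit false

namespace SSO

private theorem addv {c : Cn} {ξ : Lb} {a d : Pt} {pos : Pt → ℝ} (h : Good c.1.g pos)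
    (ha : a ∈ pts c.1.g) (hdp : d ∈ pts c.1.g) (hdE : d ∈ En ξ) (hw : Wit ξ d c.1)
    (hd : ∀ t x, .pc ξ t x ∈ c.1.g → (x = d ∧ ∃ q, t = .inr q) ∨
      (ps pos t < pos a ∧ pos x < pos d) ∨ (pos a < ps pos t ∧ pos d < pos x)) :
    ∃ c' ≤ c, ∃ x, Fv ξ c'.1.g a x := by
  obtain ⟨q, q', hg⟩ := add_around c.1.fg h ha hdp hd
  have hfin : (c.1.g ∪ {.pc ξ (.inr q) d, .pc ξ (.inr q') d, .cut a q false, .cut a q' true} :
      Set (Atom Lb Pt)).Finite := c.1.fg.union (Set.toFinite _)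
  have hle : (⟨c.1.y, c.1.g ∪ {.pc ξ (.inr q) d, .pc ξ (.inr q') d, .cut a q false,
      .cut a q' true}, c.1.cy, hfin⟩ : Pre) ≤ c.1 := ⟨YLe.refl _, Set.subset_union_left⟩
  refine ⟨⟨_, c.2.mk' hle c.2.yg ⟨pos, hg⟩ ?_ ?_⟩, hle, d, ?_⟩
  · intro γ x h1 h2
    have key : ∀ b, .bit γ x b ∈ c.1.g ∪ {.pc ξ (.inr q) d, .pc ξ (.inr q') d, .cut a q false,
        .cut a q' true} → .bit γ x b ∈ c.1.g := by
      intro b hb
      rcases hb with hb | hb
      · exact hb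
      · simp at hb
    exact c.2.bit γ x (key _ h1) (key _ h2)
  · intro ζ t x h1
    rcases h1 with h1 | h1
    · exact Or.inl h1
    · right
      have h2 : ζ = ξ ∧ x = d ∧ ∃ q1, t = .inr q1 := by
        simp only [Set.mem_insert_iff, Set.mem_singleton_iff, Atom.pc.injEq, reduceCtorEq,
          or_false] at h1
        rcases h1 with ⟨h1, h2, h3⟩ | ⟨h1, h2, h3⟩
        · exact ⟨h1, h3, _, h2⟩
        · exact ⟨h1, h3, _, h2⟩
      obtain ⟨rfl, rfl, q1, rfl⟩ := h2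
      refine ⟨hw.mono hle, ?_, fun q _ => hdE⟩
      intro z hz
      cases hz
  · right
    refine ⟨q, q', Or.inr ?_, Or.inr ?_, Or.inr ?_, Or.inr ?_⟩ <;> simp

private theorem exLo {g : Set (Atom Lb Pt)} (hf : g.Finite) (pos : Pt → ℝ) (ξ : Lb) (v : ℝ) :
    (∀ t x, .pc ξ t x ∈ g → ¬ ps pos t < v) ∨
      ∃ tl xl, .pc ξ tl xl ∈ g ∧ ps pos tl < v ∧
        ∀ t x, .pc ξ t x ∈ g → ps pos t < v → ps pos t ≤ ps pos tl := by
  classical
  by_cases h : ∃ t x, .pc ξ t x ∈ g ∧ ps pos t < v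
  · right
    have hfin : {p : (Pt ⊕ ℚ) × Pt | Atom.pc ξ p.1 p.2 ∈ g ∧ ps pos p.1 < v}.Finite := by
      have h1 : ((fun p : (Pt ⊕ ℚ) × Pt => Atom.pc ξ p.1 p.2) ⁻¹' g).Finite := by
        refine hf.preimage ?_
        rintro ⟨t, x⟩ _ ⟨t', x'⟩ _ he
        simp only [Atom.pc.injEq, true_and] at he
        exact Prod.ext he.1 he.2
      exact h1.subset fun p hp => hp.1
    obtain ⟨t, x, h1, h2⟩ := h
    obtain ⟨⟨tl, xl⟩, h3, h4⟩ := Set.exists_max_image _ (fun p : (Pt ⊕ ℚ) × Pt => ps pos p.1) hfin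
      ⟨(t, x), h1, h2⟩
    exact ⟨tl, xl, h3.1, h3.2, fun t' x' h5 h6 => h4 (t', x') ⟨h5, h6⟩⟩
  · left
    intro t x h1 h2
    exact h ⟨t, x, h1, h2⟩

private theorem exHi {g : Set (Atom Lb Pt)} (hf : g.Finite) (pos : Pt → ℝ) (ξ : Lb) (v : ℝ) :
    (∀ t x, .pc ξ t x ∈ g → ¬ v < ps pos t) ∨
      ∃ tl xl, .pc ξ tl xl ∈ g ∧ v < ps pos tl ∧
        ∀ t x, .pc ξ t x ∈ g → v < ps pos t → ps pos tl ≤ ps pos t := by
  classical
  by_cases h : ∃ t x, .pc ξ t x ∈ g ∧ v < ps pos t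
  · right
    have hfin : {p : (Pt ⊕ ℚ) × Pt | Atom.pc ξ p.1 p.2 ∈ g ∧ v < ps pos p.1}.Finite := by
      have h1 : ((fun p : (Pt ⊕ ℚ) × Pt => Atom.pc ξ p.1 p.2) ⁻¹' g).Finite := by
        refine hf.preimage ?_
        rintro ⟨t, x⟩ _ ⟨t', x'⟩ _ he
        simp only [Atom.pc.injEq, true_and] at he
        exact Prod.ext he.1 he.2
      exact h1.subset fun p hp => hp.1
    obtain ⟨t, x, h1, h2⟩ := h
    obtain ⟨⟨tl, xl⟩, h3, h4⟩ := Set.exists_min_image _ (fun p : (Pt ⊕ ℚ) × Pt => ps pos p.1) hfin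
      ⟨(t, x), h1, h2⟩
    exact ⟨tl, xl, h3.1, h3.2, fun t' x' h5 h6 => h4 (t', x') ⟨h5, h6⟩⟩
  · left
    intro t x h1 h2
    exact h ⟨t, x, h1, h2⟩

private theorem finishC {c1 c2 : Cn} (h21 : c2 ≤ c1) {ξ : Lb} {a d : Pt} {pos : Pt → ℝ}
    (hs : Sharp c1.1.g) (ha : a ∈ pts c1.1.g) (hpos : Good c1.1.g pos)
    (hne : ∀ t x, .pc ξ t x ∈ c1.1.g → ps pos t ≠ pos a) (hna : ∀ x, .pc ξ (.inl a) x ∉ c1.1.g)
    (hdE : d ∈ En ξ) (hw : Wit ξ d c2.1)
    (hlo : ∀ t x, .pc ξ t x ∈ c1.1.g → ps pos t < pos a →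
      ∃ x', (x = x' ∨ Dec c1.1.g x x') ∧ Dec c2.1.g x' d)
    (hhi : ∀ t x, .pc ξ t x ∈ c1.1.g → pos a < ps pos t →
      ∃ x', (x = x' ∨ Dec c1.1.g x' x) ∧ Dec c2.1.g d x') :
    ∃ c' ≤ c1, ∃ x, Fv ξ c'.1.g a x := by
  obtain ⟨c3, h23, h31, h3y, h3g, h3a⟩ := restrict h21 (Plt.cl ξ)
  have hdec : ∀ u v, Dec c2.1.g u v → Dec c3.1.g u v := by
    rintro u v ⟨q, h1, h2⟩
    refine ⟨q, ?_, ?_⟩
    · rw [h3g]
      exact Or.inr ⟨h1, trivial⟩
    · rw [h3g]
      exact Or.inr ⟨h2, trivial⟩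
  have hw3 : Wit ξ d c3.1 := by
    obtain ⟨k, a', h1, h2, h3⟩ := hw
    refine ⟨k, a', h1, h3a a' h2 ?_, h3⟩
    intro α hα
    have h4 := h3 α hα
    rcases α with ⟨u, q, b⟩ | ⟨γ, x', b⟩ | ⟨ζ, t', x'⟩
    · trivial
    · exact h4.1
    · exact h4.1
  obtain ⟨c4, h43, h4y, h4d, -, h4s, h4c⟩ := exists_sharp c3 (Set.finite_singleton d)
  obtain ⟨pos4, hpos4⟩ := c4.2.good
  have h13 : c1.1.g ⊆ c3.1.g := h31.2
  have h34 : c3.1.g ⊆ c4.1.g := h43.2
  have h14 : c1.1.g ⊆ c4.1.g := h13.trans h34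
  have hpc : ∀ t x, .pc ξ t x ∈ c4.1.g → .pc ξ t x ∈ c1.1.g := by
    intro t x hx
    rcases h4c _ hx with h1 | h1
    · rw [h3g] at h1
      rcases h1 with h1 | ⟨-, h1⟩
      · exact h1
      · exact absurd h1 (lt_irrefl ξ)
    · exact h1.elim
  have hpl : ∀ u v, Dec c1.1.g u v → pos4 u < pos4 v := fun u v hd =>
    (hd.mono h14).lt hpos4.ok
  have hp2 : ∀ u v, Dec c2.1.g u v → pos4 u < pos4 v := fun u v hd =>
    ((hdec u v hd).mono h34).lt hpos4.ok
  obtain ⟨c', hc', x, hx⟩ := addv (c := c4) (ξ := ξ) (a := a) (d := d) hpos4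
    (pts_mono h14 ha) (h4d rfl) hdE (hw3.mono h43) (by
      intro t x hx
      right
      have hx1 := hpc t x hx
      rcases lt_or_gt_of_ne (hne t x hx1) with hlt | hgt
      · left
        constructor
        · rcases t with z | q
          · have hza : z ≠ a := by
              rintro rfl
              exact hna x hx1
            rcases hs.pt z (mem_pts_thin hx1) a ha hza with h1 | h1
            · exact hpl _ _ h1
            · exact absurd (h1.lt hpos.ok) (not_lt.2 (le_of_lt hlt))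
          · rcases hs.rt a ha ξ q x hx1 with h1 | h1
            · exact absurd (hpos.ok.lt _ _ h1) (not_lt.2 (le_of_lt hlt))
            · exact hpos4.ok.gt _ _ (h14 h1)
        · obtain ⟨x', h1, h2⟩ := hlo t x hx1 hlt
          rcases h1 with rfl | h1
          · exact hp2 _ _ h2
          · exact (hpl _ _ h1).trans (hp2 _ _ h2)
      · right
        constructor
        · rcases t with z | q
          · have hza : z ≠ a := by
              rintro rfl
              exact hna x hx1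
            rcases hs.pt z (mem_pts_thin hx1) a ha hza with h1 | h1
            · exact absurd (h1.lt hpos.ok) (not_lt.2 (le_of_lt hgt))
            · exact hpl _ _ h1
          · rcases hs.rt a ha ξ q x hx1 with h1 | h1
            · exact hpos4.ok.lt _ _ (h14 h1)
            · exact absurd (hpos.ok.gt _ _ h1) (not_lt.2 (le_of_lt hgt))
        · obtain ⟨x', h1, h2⟩ := hhi t x hx1 hgt
          rcases h1 with rfl | h1
          · exact hp2 _ _ h2
          · exact (hp2 _ _ h2).trans (hpl _ _ h1))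
  exact ⟨c', hc'.trans (h43.trans h31), x, hx⟩

theorem exists_value {c0 c : Cn} (hc : c ≤ c0) {ξ : Lb} (h : Btw ξ c0) (a : Pt) :
    ∃ c' ≤ c, ∃ x, Fv ξ c'.1.g a x := by
  obtain ⟨c1, h1c, -, h1a, -, hs, -⟩ := exists_sharp c (Set.finite_singleton a)
  have ha : a ∈ pts c1.1.g := h1a rfl
  suffices hmain : ∃ c' ≤ c1, ∃ x, Fv ξ c'.1.g a x by
    obtain ⟨c', hc', x, hx⟩ := hmain
    exact ⟨c', hc'.trans h1c, x, hx⟩
  obtain ⟨pos, hpos⟩ := c1.2.good
  by_cases h0 : ∃ x, .pc ξ (.inl a) x ∈ c1.1.g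
  · obtain ⟨x, hx⟩ := h0
    exact ⟨c1, le_rfl, x, Or.inl hx⟩
  have hna : ∀ x, .pc ξ (.inl a) x ∉ c1.1.g := fun x hx => h0 ⟨x, hx⟩
  have hne : ∀ t x, .pc ξ t x ∈ c1.1.g → ps pos t ≠ pos a := by
    intro t x hx he
    rcases t with z | q
    · have : z = a := hpos.inj (mem_pts_thin hx) ha he
      rw [this] at hx
      exact hna x hx
    · exact hpos.irr a ha ⟨q, he⟩
  have h1c0 : c1 ≤ c0 := h1c.trans hc
  have hdl : ∀ u ∈ pts c1.1.g, ∀ v ∈ pts c1.1.g, pos u < pos v → Dec c1.1.g u v := by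
    intro u hu v hv huv
    have huv' : u ≠ v := by
      rintro rfl
      exact lt_irrefl _ huv
    rcases hs.pt u hu v hv huv' with h2 | h2
    · exact h2
    · exact absurd (h2.lt hpos.ok) (not_lt.2 huv.le)
  -- the maximal lower piece and the minimal upper piece
  have hL := exLo c1.1.fg pos ξ (pos a)
  have hH := exHi c1.1.fg pos ξ (pos a)
  -- Case A
  by_cases hA : ∃ (q : ℚ) (xl : Pt), .pc ξ (.inr q) xl ∈ c1.1.g ∧ (q : ℝ) < pos a ∧
      ∀ t x, .pc ξ t x ∈ c1.1.g → ps pos t < pos a → ps pos t ≤ q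
  · obtain ⟨q, xl, h2, h3, h4⟩ := hA
    refine addv hpos ha (mem_pts_pc h2) (c1.2.fat ξ q xl h2) (c1.2.wit ξ _ xl h2) ?_
    intro t x hx
    rcases lt_or_gt_of_ne (hne t x hx) with hlt | hgt
    · rcases hpos.inc ξ t x (.inr q) xl hx h2 with ⟨h5, h6⟩ | ⟨h5, h6⟩ | ⟨h5, h6⟩
      · left
        refine ⟨h5, ?_⟩
        rcases h6 with h6 | h6
        · exact ⟨q, h6⟩
        · exact h6.1
      · exact Or.inr (Or.inl ⟨hlt, h6⟩)
      · exact absurd (h4 t x hx hlt) (not_le.2 h5)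
    · rcases hpos.inc ξ t x (.inr q) xl hx h2 with ⟨h5, h6⟩ | ⟨h5, h6⟩ | ⟨h5, h6⟩
      · left
        refine ⟨h5, ?_⟩
        rcases h6 with h6 | h6
        · exact ⟨q, h6⟩
        · exact h6.1
      · exact absurd (h5.trans h3) (not_lt.2 hgt.le)
      · exact Or.inr (Or.inr ⟨hgt, h6⟩)
  -- Case B
  by_cases hB : ∃ (q : ℚ) (xl : Pt), .pc ξ (.inr q) xl ∈ c1.1.g ∧ pos a < (q : ℝ) ∧
      ∀ t x, .pc ξ t x ∈ c1.1.g → pos a < ps pos t → (q : ℝ) ≤ ps pos t
  · obtain ⟨q, xl, h2, h3, h4⟩ := hB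
    refine addv hpos ha (mem_pts_pc h2) (c1.2.fat ξ q xl h2) (c1.2.wit ξ _ xl h2) ?_
    intro t x hx
    rcases lt_or_gt_of_ne (hne t x hx) with hlt | hgt
    · rcases hpos.inc ξ t x (.inr q) xl hx h2 with ⟨h5, h6⟩ | ⟨h5, h6⟩ | ⟨h5, h6⟩
      · left
        refine ⟨h5, ?_⟩
        rcases h6 with h6 | h6
        · exact ⟨q, h6⟩
        · exact h6.1
      · exact Or.inr (Or.inl ⟨hlt, h6⟩)
      · exact absurd (h3.trans h5) (not_lt.2 hlt.le)
    · rcases hpos.inc ξ t x (.inr q) xl hx h2 with ⟨h5, h6⟩ | ⟨h5, h6⟩ | ⟨h5, h6⟩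
      · left
        refine ⟨h5, ?_⟩
        rcases h6 with h6 | h6
        · exact ⟨q, h6⟩
        · exact h6.1
      · exact absurd (h4 t x hx hgt) (not_le.2 h5)
      · exact Or.inr (Or.inr ⟨hgt, h6⟩)
  -- Case C
  have hLoV : ∀ zl xl, .pc ξ (.inl zl) xl ∈ c1.1.g →
      (∀ t x, .pc ξ t x ∈ c1.1.g → ps pos t < pos a → ps pos t ≤ pos zl) →
      ∀ t x, .pc ξ t x ∈ c1.1.g → ps pos t < pos a → (x = xl ∨ Dec c1.1.g x xl) := by
    intro zl xl h2 h3 t x hx hlt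
    rcases hpos.inc ξ t x (.inl zl) xl hx h2 with ⟨h5, h6⟩ | ⟨h5, h6⟩ | ⟨h5, h6⟩
    · exact Or.inl h5
    · exact Or.inr (hdl x (mem_pts_pc hx) xl (mem_pts_pc h2) h6)
    · exact absurd (h3 t x hx hlt) (not_le.2 h5)
  have hHiV : ∀ zh xh, .pc ξ (.inl zh) xh ∈ c1.1.g →
      (∀ t x, .pc ξ t x ∈ c1.1.g → pos a < ps pos t → pos zh ≤ ps pos t) →
      ∀ t x, .pc ξ t x ∈ c1.1.g → pos a < ps pos t → (x = xh ∨ Dec c1.1.g xh x) := by
    intro zh xh h2 h3 t x hx hgt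
    rcases hpos.inc ξ t x (.inl zh) xh hx h2 with ⟨h5, h6⟩ | ⟨h5, h6⟩ | ⟨h5, h6⟩
    · exact Or.inl h5
    · exact absurd (h3 t x hx hgt) (not_le.2 h5)
    · exact Or.inr (hdl xh (mem_pts_pc h2) x (mem_pts_pc hx) h6)
  rcases hL with hL | ⟨tl, xl, hl1, hl2, hl3⟩ <;> rcases hH with hH | ⟨th, xh, hh1, hh2, hh3⟩
  · obtain ⟨c2, h21, d, hdE, hdw⟩ := h.ne c1 h1c0
    exact finishC h21 hs ha hpos hne hna hdE hdw (fun t x hx hlt => absurd hlt (hL t x hx))
      fun t x hx hgt => absurd hgt (hH t x hx)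
  · rcases th with zh | q
    · obtain ⟨hx1, -⟩ := c1.2.thin ξ zh xh hh1
      obtain ⟨c2, h21, d, hdE, hdw, hd1⟩ := h.lo c1 h1c0 xh hx1 (c1.2.wit ξ _ xh hh1)
      exact finishC h21 hs ha hpos hne hna hdE hdw (fun t x hx hlt => absurd hlt (hL t x hx))
        fun t x hx hgt => ⟨xh, hHiV zh xh hh1 hh3 t x hx hgt, hd1⟩
    · exact absurd ⟨q, xh, hh1, hh2, hh3⟩ hB
  · rcases tl with zl | q
    · obtain ⟨hx1, -⟩ := c1.2.thin ξ zl xl hl1
      obtain ⟨c2, h21, d, hdE, hdw, hd1⟩ := h.hi c1 h1c0 xl hx1 (c1.2.wit ξ _ xl hl1)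
      exact finishC h21 hs ha hpos hne hna hdE hdw
        (fun t x hx hlt => ⟨xl, hLoV zl xl hl1 hl3 t x hx hlt, hd1⟩)
        fun t x hx hgt => absurd hgt (hH t x hx)
    · exact absurd ⟨q, xl, hl1, hl2, hl3⟩ hA
  · rcases tl with zl | q
    · rcases th with zh | q
      · obtain ⟨hx1, -⟩ := c1.2.thin ξ zl xl hl1
        obtain ⟨hx2, -⟩ := c1.2.thin ξ zh xh hh1
        have hlh : ps pos (.inl zl) < ps pos (.inl zh) := hl2.trans hh2
        have hdlh : Dec c1.1.g xl xh := by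
          rcases hpos.inc ξ (.inl zl) xl (.inl zh) xh hl1 hh1 with ⟨h5, h6⟩ | ⟨h5, h6⟩ | ⟨h5, h6⟩
          · rcases h6 with h6 | ⟨⟨q, h6⟩, -⟩
            · rw [h6] at hlh
              exact absurd hlh (lt_irrefl _)
            · cases h6
          · exact hdl xl (mem_pts_pc hl1) xh (mem_pts_pc hh1) h6
          · exact absurd (hlh.trans h5) (lt_irrefl _)
        obtain ⟨c2, h21, d, hdE, hdw, hd1, hd2⟩ := h.bt c1 h1c0 xl xh hx1 hx2
          (c1.2.wit ξ _ xl hl1) (c1.2.wit ξ _ xh hh1) hdlh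
        exact finishC h21 hs ha hpos hne hna hdE hdw
          (fun t x hx hlt => ⟨xl, hLoV zl xl hl1 hl3 t x hx hlt, hd1⟩)
          fun t x hx hgt => ⟨xh, hHiV zh xh hh1 hh3 t x hx hgt, hd2⟩
      · exact absurd ⟨q, xh, hh1, hh2, hh3⟩ hB
    · exact absurd ⟨q, xl, hl1, hl2, hl3⟩ hA

end SSO
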