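import Pool.Agent.SSO.PThin
import Pool.Agent.SSO.PFat
import Pool.Agent.SSO.PVal
import Pool.Agent.SSO.PLin
import Pool.Agent.SSO.GShp

/-! # The generic function is a monotone surjection (package P7)

(problem MP_ceadec_lc, project SSO, part P)

`mem_Fr`: `p ∈ Fr ξ a x` iff below `p` there are densely many `r` with `Fv ξ r.1.g a x`.
* `dom`: `exists_value`. (`Fv ξ r.1.g a x` implies `r ∈ Fr ξ a x`, `Fv.mono`.)
* `un`: `r' ≤ r` with both `Fv` (use `mem_Fr` twice, `Fv.mono`), a good position of `r'`, `fv_un`.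
* `val`: `(T x).locally`: for `q ≤ r` some `q' ≤ q` has `Fv ξ q'.1.g a x`, so a piece `pc ξ t x ∈ q'.1.g`, so `Wit ξ x q'.1` (`q'.2.wit`), so `q' ∈ T x`.
* `onto`: `hT'` gives `r1 ≤ r` with `Wit ξ x r1.1`; if `x ∈ En ξ`: `exists_fat`; otherwise `exists_thin` (a thin piece `z ↦ x` is `Fv ξ _ z x`).
* `mono`: if `x ≠ y`: to show `r ∈ Lt x y` by `mem_Lt`: for `q ≤ r` choose `q' ≤ q` with `Fv ξ q'.1.g a x`, `Fv ξ q'.1.g b y`, `Dec q'.1.g a b`; a good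
  position `pos` of `q'`: `pos a < pos b` (`Dec.lt`), `fv_mono`: `pos x < pos y`; `lt_of_pos` (`x, y ∈ pts q'.1.g`). -/

set_option autoImplicit false

namespace SSO

open STP

private theorem fv_pc {ξ : Lb} {g : Set (Atom Lb Pt)} {a x : Pt} (h : Fv ξ g a x) :
    ∃ t, .pc ξ t x ∈ g := by
  rcases h with h | ⟨q, _, h, _⟩
  · exact ⟨_, h⟩
  · exact ⟨_, h⟩

private theorem fr_mem {ξ : Lb} {a x : Pt} {r : Cn} (h : Fv ξ r.1.g a x) : r ∈ Fr ξ a x :=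
  mem_Fr.2 fun q hq => ⟨q, le_rfl, h.mono hq.2⟩

theorem tmono_of {c0 : Cn} {ξ : Lb} {T : Pt → RO Cn} (hb : Btw ξ c0)
    (hT : ∀ x (c : Cn), Wit ξ x c.1 → c ∈ T x)
    (hT' : ∀ x, ∀ c ≤ c0, c ∈ T x → ∃ c' ≤ c, Wit ξ x c'.1) :
    TMono Lt c0 (fun _ => ⊤) T (Fr ξ) where
  dom r hr a _ := by
    obtain ⟨c', hc', x, hx⟩ := exists_value hr hb a
    exact ⟨c', hc', x, fr_mem hx⟩
  un r _ a x x' _ hx hx' := by
    obtain ⟨r1, hr1, h1⟩ := mem_Fr.1 hx r le_rfl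
    obtain ⟨r2, hr2, h2⟩ := mem_Fr.1 hx' r1 hr1
    obtain ⟨pos, hpos⟩ := r2.2.good
    exact fv_un hpos (h1.mono hr2.2) h2
  val r _ a x _ hx := by
    refine (T x).locally fun q hq => ?_
    obtain ⟨q', hq', h1⟩ := mem_Fr.1 hx q hq
    obtain ⟨t, ht⟩ := fv_pc h1
    exact ⟨q', hq', hT x q' (q'.2.wit ξ t x ht)⟩
  onto r hr x hx := by
    obtain ⟨r1, hr1, h1⟩ := hT' x r hr hx
    by_cases hE : x ∈ En ξ
    · obtain ⟨c', hc', a, ha⟩ := exists_fat r1 hE h1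
      exact ⟨c', hc'.trans hr1, a, RO.mem_top, fr_mem ha⟩
    · obtain ⟨c', hc', z, hz⟩ := exists_thin r1 hE h1
      exact ⟨c', hc'.trans hr1, z, RO.mem_top, fr_mem (Or.inl hz)⟩
  mono r _ a b x y _ _ hx hy hab := by
    by_cases hxy : x = y
    · exact Or.inl hxy
    right
    rw [mem_Lt]
    intro q hq
    obtain ⟨q1, hq1, h1⟩ := mem_Fr.1 hx q hq
    obtain ⟨q2, hq2, h2⟩ := mem_Fr.1 hy q1 (hq1.trans hq)
    obtain ⟨q3, hq3, h3⟩ := mem_Lt.1 hab q2 ((hq2.trans hq1).trans hq)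
    obtain ⟨pos, hpos⟩ := q3.2.good
    have h1' : Fv ξ q3.1.g a x := h1.mono (hq3.trans hq2).2
    have h2' : Fv ξ q3.1.g b y := h2.mono hq3.2
    obtain ⟨t, ht⟩ := fv_pc h1'
    obtain ⟨t', ht'⟩ := fv_pc h2'
    have h4 : pos x < pos y := (fv_mono hpos h1' h2' (h3.lt hpos.ok)).resolve_left hxy
    obtain ⟨c', hc', _, h5⟩ := lt_of_pos hpos (mem_pts_pc ht) (mem_pts_pc ht') h4
    exact ⟨c', (hc'.trans hq3).trans (hq2.trans hq1), h5⟩

end SSO
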