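import Pool.Agent.SSO.EDen
import Pool.Agent.SSO.ELab
import Pool.Agent.SSO.PMon

/-! # The generic order is strongly surjective (package E3)

(problem MP_ceadec_lc, project SSO, part E)

* `btw_of_den`: for `lo`: `Wit ξ x c.1` gives `c ∈ T x`; `h.lo`: `c1 ≤ c`, `d ∈ E` with `c1 ∈ T d`, `c1 ∈ Lt d x`; `dec_of_lt`: `c2 ≤ c1` with `Dec c2.1.g d x`; `hT'`:
  `c3 ≤ c2` with `Wit ξ d c3.1`. The others are similar (`Dec.mem_Lt` for the hypothesis of `bt`, `Dec.mono`).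
* `tss`: let `q ∈ T x`. `exists_den` (`hT` by `(T x).down`): `r ≤ q`, `e`. `exists_label T e`: `ξ`. `btw_of_den` and `tmono_of` (with `c0 = r`). -/

set_option autoImplicit false

namespace SSO

open STP

theorem btw_of_den {ξ : Lb} {T : Pt → RO Cn} {c0 : Cn} (h : Den T (En ξ) c0)
    (hT : ∀ x (c : Cn), Wit ξ x c.1 → c ∈ T x) (hT' : ∀ x, ∀ c ∈ T x, ∃ c' ≤ c, Wit ξ x c'.1) :
    Btw ξ c0 where
  ne c hc := by
    obtain ⟨c1, h1, d, hd, h2⟩ := h.ne c hc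
    obtain ⟨c2, h3, h4⟩ := hT' d c1 h2
    exact ⟨c2, h3.trans h1, d, hd, h4⟩
  lo c hc x hx hw := by
    obtain ⟨c1, h1, d, hd, h2, h3⟩ := h.lo c hc x hx (hT x c hw)
    obtain ⟨c2, h4, h5⟩ := dec_of_lt h3
    obtain ⟨c3, h6, h7⟩ := hT' d c2 ((T d).down h4 h2)
    exact ⟨c3, h6.trans (h4.trans h1), d, hd, h7, h5.mono h6.2⟩
  hi c hc x hx hw := by
    obtain ⟨c1, h1, d, hd, h2, h3⟩ := h.hi c hc x hx (hT x c hw)
    obtain ⟨c2, h4, h5⟩ := dec_of_lt h3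
    obtain ⟨c3, h6, h7⟩ := hT' d c2 ((T d).down h4 h2)
    exact ⟨c3, h6.trans (h4.trans h1), d, hd, h7, h5.mono h6.2⟩
  bt c hc x x' hx hx' hw hw' hl := by
    obtain ⟨c1, h1, d, hd, h2, h3, h3'⟩ :=
      h.bt c hc x x' hx hx' (hT x c hw) (hT x' c hw') hl.mem_Lt
    obtain ⟨c2, h4, h5⟩ := dec_of_lt h3
    obtain ⟨c3, h6, h7⟩ := dec_of_lt ((Lt d x').down h4 h3')
    obtain ⟨c4, h8, h9⟩ := hT' d c3 ((T d).down (h6.trans h4) h2)
    exact ⟨c4, h8.trans (h6.trans (h4.trans h1)), d, hd, h9, h5.mono (h8.trans h6).2,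
      h7.mono h8.2⟩

theorem tss : TSS Lt := by
  intro q T hq
  obtain ⟨x, hx⟩ := hq
  obtain ⟨r, hr, e, he⟩ := exists_den (q := q) (T := T)
    fun c hc => ⟨c, le_rfl, x, (T x).down hc hx⟩
  obtain ⟨ξ, h1, h2, h3⟩ := exists_label T e
  rw [← h1] at he
  exact ⟨r, hr, Fr ξ, tmono_of (btw_of_den he h2 h3) h2 fun x c _ hc => h3 x c hc⟩

end SSO
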