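import Pool.Agent.SSO.Gen

/-! # Adding true cuts (package G2)

(problem MP_ceadec_lc, project SSO, part G)

For `a, b ∈ A` with `pos a < pos b` choose a rational number between (`exists_rat_btwn`); let `Q'` be the finite set `Q` together
with all these numbers. `D := {cut a q true | a ∈ A, q ∈ Q', pos a < q} ∪ {cut a q false | a ∈ A, q ∈ Q', q < pos a}` is finite
(subset of the image of the finite set `A ×ˢ Q' ×ˢ {true, false}`). `pts (g ∪ D) ⊆ pts g ∪ A` (`pts_union`). There are no new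
pieces, so `Inc` is inherited. -/

set_option autoImplicit false

namespace SSO

theorem exists_cuts {L X : Type*} {g : Set (Atom L X)} {pos : X → ℝ} (h : Good g pos)
    {A : Set X} (hA : A.Finite) {Q : Set ℚ} (hQ : Q.Finite)
    (hinj : Set.InjOn pos (pts g ∪ A)) (hirr : ∀ a ∈ A, Irrational (pos a)) :
    ∃ D : Set (Atom L X), D.Finite ∧ (∀ α ∈ D, ∃ a ∈ A, ∃ q b, α = .cut a q b) ∧
      Good (g ∪ D) pos ∧
      (∀ a ∈ A, ∀ b ∈ A, pos a < pos b → Dec D a b) ∧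
      ∀ a ∈ A, ∀ q ∈ Q, (pos a < q → .cut a q true ∈ D) ∧ ((q : ℝ) < pos a → .cut a q false ∈ D) := by
  classical
  obtain ⟨r, hr⟩ : ∃ r : X → X → ℚ, ∀ a b, pos a < pos b →
      pos a < r a b ∧ (r a b : ℝ) < pos b := by
    refine ⟨fun a b => if h : pos a < pos b then (exists_rat_btwn h).choose else 0,
      fun a b hab => ?_⟩
    simp only [dif_pos hab]
    exact (exists_rat_btwn hab).choose_spec
  obtain ⟨Q', hQ'⟩ : ∃ Q' : Set ℚ, Q' = Q ∪ (fun p : X × X => r p.1 p.2) '' (A ×ˢ A) :=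
    ⟨_, rfl⟩
  have hfin : Q'.Finite := hQ' ▸ hQ.union ((hA.prod hA).image _)
  obtain ⟨D, hD⟩ : ∃ D : Set (Atom L X), ∀ α, α ∈ D ↔ ∃ a ∈ A, ∃ q ∈ Q',
      (pos a < q ∧ α = .cut a q true) ∨ ((q : ℝ) < pos a ∧ α = .cut a q false) :=
    ⟨{α | ∃ a ∈ A, ∃ q ∈ Q',
      (pos a < q ∧ α = .cut a q true) ∨ ((q : ℝ) < pos a ∧ α = .cut a q false)},
      fun _ => Iff.rfl⟩
  have hcut : ∀ α ∈ D, ∃ a ∈ A, ∃ q b, α = .cut a q b := by
    intro α hα
    obtain ⟨a, ha, q, _, h1 | h1⟩ := (hD α).1 hα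
    · exact ⟨a, ha, q, true, h1.2⟩
    · exact ⟨a, ha, q, false, h1.2⟩
  have hpts : pts (g ∪ D) ⊆ pts g ∪ A := by
    rw [pts_union]
    rintro z (hz | ⟨α, hα, hz⟩)
    · exact Or.inl hz
    · obtain ⟨a, ha, q, b, rfl⟩ := hcut α hα
      obtain rfl : z = a := hz
      exact Or.inr ha
  have hnpc : ∀ l t x, .pc l t x ∈ g ∪ D → .pc l t x ∈ g := by
    rintro l t x (h1 | h1)
    · exact h1
    · obtain ⟨a, _, q, b, h2⟩ := hcut _ h1
      cases h2
  have hmt : ∀ a ∈ A, ∀ q ∈ Q', pos a < q → .cut a q true ∈ D :=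
    fun a ha q hq h1 => (hD _).2 ⟨a, ha, q, hq, Or.inl ⟨h1, rfl⟩⟩
  have hmf : ∀ a ∈ A, ∀ q ∈ Q', (q : ℝ) < pos a → .cut a q false ∈ D :=
    fun a ha q hq h1 => (hD _).2 ⟨a, ha, q, hq, Or.inr ⟨h1, rfl⟩⟩
  have hrQ : ∀ a ∈ A, ∀ b ∈ A, r a b ∈ Q' := by
    intro a ha b hb
    rw [hQ']
    exact Or.inr ⟨(a, b), ⟨ha, hb⟩, rfl⟩
  have hQQ : ∀ q ∈ Q, q ∈ Q' := fun q hq => hQ' ▸ Or.inl hq
  refine ⟨D, ?_, hcut, ?_, ?_, ?_⟩
  · refine Set.Finite.subset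
      ((hA.prod (hfin.prod (Set.finite_univ (α := Bool)))).image
        (fun p : X × ℚ × Bool => (Atom.cut p.1 p.2.1 p.2.2 : Atom L X))) ?_
    intro α hα
    obtain ⟨a, ha, q, hq, h1 | h1⟩ := (hD α).1 hα
    · exact ⟨(a, q, true), ⟨ha, hq, trivial⟩, h1.2.symm⟩
    · exact ⟨(a, q, false), ⟨ha, hq, trivial⟩, h1.2.symm⟩
  · refine ⟨⟨?_, ?_⟩, hinj.mono hpts, ?_, ?_⟩
    · rintro a q (h1 | h1)
      · exact h.ok.lt a q h1
      · obtain ⟨a', _, q', _, h2 | h2⟩ := (hD _).1 h1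
        · cases h2.2
          exact h2.1
        · cases h2.2
    · rintro a q (h1 | h1)
      · exact h.ok.gt a q h1
      · obtain ⟨a', _, q', _, h2 | h2⟩ := (hD _).1 h1
        · cases h2.2
        · cases h2.2
          exact h2.1
    · intro a ha
      rcases hpts ha with h1 | h1
      · exact h.irr a h1
      · exact hirr a h1
    · intro l t x t' x' h1 h2
      exact h.inc l t x t' x' (hnpc _ _ _ h1) (hnpc _ _ _ h2)
  · intro a ha b hb hab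
    exact ⟨r a b, hmt a ha _ (hrQ a ha b hb) (hr a b hab).1,
      hmf b hb _ (hrQ a ha b hb) (hr a b hab).2⟩
  · exact fun a ha q hq => ⟨hmt a ha q (hQQ q hq), hmf a ha q (hQQ q hq)⟩

end SSO
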