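import Pool.Agent.SSO.Gen

/-! # New points (package G1)

(problem MP_ceadec_lc, project SSO, part G)

* `exists_irr`: the set of irrational numbers outside of a finite set is the complement of a countable set, so it is dense
  (`Set.Countable.dense_compl ℝ`; the rational numbers: `Set.countable_range ((↑) : ℚ → ℝ)`, `Irrational x` is
  `x ∉ Set.range ((↑) : ℚ → ℝ)`); take an element in the open set `Set.Ioo u w`.
* `exists_newpos`: induction on the finite set `A` (`Set.Finite.induction_on`). Step: let `pos'` be given for `A`, and `a` a new
  element. If `a ∈ pts g ∪ A` take the same `pos'` (for `a ∈ pts g` it is irrational by `Good.irr`). Otherwise take `r` irrational,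
  not in the finite set `pos' '' (pts g ∪ A)` (`pts_finite`), and `Function.update pos' a r`. `Good` by `Good.congr`. -/

set_option autoImplicit false

namespace SSO

theorem exists_irr {u w : ℝ} (h : u < w) {S : Set ℝ} (hS : S.Finite) :
    ∃ r, u < r ∧ r < w ∧ Irrational r ∧ r ∉ S := by
  have hc : (Set.range ((↑) : ℚ → ℝ) ∪ S).Countable :=
    (Set.countable_range _).union hS.countable
  obtain ⟨r, hr, hur, hrw⟩ := (hc.dense_compl ℝ).exists_between h
  refine ⟨r, hur, hrw, ?_, ?_⟩
  · intro hq
    exact hr (Or.inl hq)
  · intro hs
    exact hr (Or.inr hs)

theorem exists_newpos {L X : Type*} {g : Set (Atom L X)} (hf : g.Finite) {pos : X → ℝ}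
    (h : Good g pos) {A : Set X} (hA : A.Finite) :
    ∃ pos' : X → ℝ, (∀ a ∈ pts g, pos' a = pos a) ∧ Good g pos' ∧
      Set.InjOn pos' (pts g ∪ A) ∧ ∀ a ∈ A, Irrational (pos' a) := by
  classical
  induction A, hA using Set.Finite.induction_on with
  | empty =>
    refine ⟨pos, fun a _ => rfl, h, ?_, ?_⟩
    · rw [Set.union_empty]
      exact h.inj
    · intro a ha
      exact absurd ha (Set.notMem_empty a)
  | @insert a A ha hAf ih =>
    obtain ⟨pos', h1, h2, h3, h4⟩ := ih
    by_cases hag : a ∈ pts g
    · refine ⟨pos', h1, h2, ?_, ?_⟩
      · have : pts g ∪ insert a A = pts g ∪ A := by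
          ext z
          constructor
          · rintro (hz | hz | hz)
            · exact Or.inl hz
            · rw [hz]
              exact Or.inl hag
            · exact Or.inr hz
          · rintro (hz | hz)
            · exact Or.inl hz
            · exact Or.inr (Or.inr hz)
        rw [this]
        exact h3
      · rintro b (rfl | hb)
        · exact h2.irr _ hag
        · exact h4 b hb
    · obtain ⟨r, -, -, hr1, hr2⟩ := exists_irr (zero_lt_one' ℝ)
        (S := pos' '' (pts g ∪ A)) (((pts_finite hf).union hAf).image _)
      have hne : ∀ b ∈ pts g ∪ A, b ≠ a := by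
        rintro b (hb | hb) rfl
        · exact hag hb
        · exact ha hb
      have hup : ∀ b ∈ pts g ∪ A, Function.update pos' a r b = pos' b := fun b hb =>
        Function.update_of_ne (hne b hb) _ _
      refine ⟨Function.update pos' a r, ?_, ?_, ?_, ?_⟩
      · intro b hb
        rw [hup b (Or.inl hb), h1 b hb]
      · exact h2.congr fun b hb => hup b (Or.inl hb)
      · have key : ∀ b ∈ pts g ∪ A, Function.update pos' a r b ≠ r := by
          intro b hb hbr
          rw [hup b hb] at hbr
          exact hr2 ⟨b, hb, hbr⟩
        have hmem : ∀ z ∈ pts g ∪ insert a A, z = a ∨ z ∈ pts g ∪ A := by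
          rintro z (hz | hz | hz)
          · exact Or.inr (Or.inl hz)
          · exact Or.inl hz
          · exact Or.inr (Or.inr hz)
        intro x hx y hy hxy
        rcases hmem x hx with rfl | hx'
        · rcases hmem y hy with rfl | hy'
          · rfl
          · rw [Function.update_self] at hxy
            exact absurd hxy.symm (key y hy')
        · rcases hmem y hy with rfl | hy'
          · rw [Function.update_self] at hxy
            exact absurd hxy (key x hx')
          · rw [hup x hx', hup y hy'] at hxy
            exact h3 hx' hy' hxy
      · rintro b (rfl | hb)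
        · rw [Function.update_self]
          exact hr1
        · rw [hup b (Or.inr hb)]
          exact h4 b hb

end SSO
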