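import Pool.Agent.SSO.Pos
import Pool.Agent.SSO.GPos
import Pool.Agent.SSO.GCut

/-! # Sharp extensions of conditions (package P1)

(problem MP_ceadec_lc, project SSO, part P)

* `legal_cuts`: `exists_cuts` with `A := pts c.1.g` (`pts_finite c.1.fg`) and `Q` := the finite set of the rational numbers of fat
  pieces of `c.1.g` (image of a finite set); `c'` has the `y`-part `c.1.y` and `g' := c.1.g ∪ D`; legal by `Leg.cuts`. `Sharp`: pieces of
  `g'` are pieces of `c.1.g`; `pts g' = pts c.1.g`; for different points `a, b` one of `pos a < pos b`, `pos b < pos a` holds (`h.inj`);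
  for `q ∈ Q`: `pos a ≠ q` as `pos a` is irrational.
* `exists_sharp`: let `pos` be good for `c` (`c.2.good`), `pos'` from `exists_newpos` for `A`. Add for every `a ∈ A` a cut `cut a q true` with
  a rational `q > pos' a` (for example `exists_cuts` with `A`, and `Q := {q}` for a rational number `q` larger than all `pos' a`, `a ∈ A`;
  or any finite set of such cuts); the result is a condition `c1 ≤ c` with `pos'` good and `A ⊆ pts c1.1.g ⊆ pts c.1.g ∪ A`. Then
  `legal_cuts`. -/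

set_option autoImplicit false

namespace SSO

private def rq : Atom Lb Pt → ℚ
  | .pc _ (.inr q) _ => q
  | _ => 0

private theorem rq_finite {g : Set (Atom Lb Pt)} (hg : g.Finite) :
    {q : ℚ | ∃ l x, .pc l (.inr q) x ∈ g}.Finite := by
  refine (hg.image rq).subset ?_
  rintro q ⟨l, x, h⟩
  exact ⟨_, h, rfl⟩

theorem legal_cuts (c : Cn) {pos : Pt → ℝ} (h : Good c.1.g pos) :
    ∃ c' ≤ c, c'.1.y = c.1.y ∧ Good c'.1.g pos ∧ pts c'.1.g = pts c.1.g ∧
      (∀ α ∈ c'.1.g, α ∈ c.1.g ∨ α.isCut) ∧ Sharp c'.1.g ∧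
      ∀ a ∈ pts c.1.g, ∀ b ∈ pts c.1.g, pos a < pos b → Dec c'.1.g a b := by
  obtain ⟨D, hDf, hD, hg, hdec, hq⟩ := exists_cuts h (A := pts c.1.g) (pts_finite c.1.fg)
    (rq_finite c.1.fg) (by rw [Set.union_self]; exact h.inj) h.irr
  have hcut : ∀ α ∈ c.1.g ∪ D, α ∈ c.1.g ∨ α.isCut := by
    rintro α (h1 | h1)
    · exact Or.inl h1
    · obtain ⟨a, _, q, b, rfl⟩ := hD α h1
      exact Or.inr trivial
  have hpc : ∀ l t x, .pc l t x ∈ c.1.g ∪ D → .pc l t x ∈ c.1.g := by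
    intro l t x h1
    rcases hcut _ h1 with h2 | h2
    · exact h2
    · exact h2.elim
  have hpts : pts (c.1.g ∪ D) = pts c.1.g := by
    rw [pts_union]
    refine Set.union_eq_left.2 ?_
    rintro z ⟨α, h1, h2⟩
    obtain ⟨a, ha, q, b, rfl⟩ := hD α h1
    obtain rfl : z = a := h2
    exact ha
  have hfin : (c.1.g ∪ D).Finite := c.1.fg.union hDf
  have hl : Leg ⟨c.1.y, c.1.g ∪ D, c.1.cy, hfin⟩ :=
    c.2.cuts hfin Set.subset_union_left hcut ⟨pos, hg⟩
  have hd : ∀ a ∈ pts c.1.g, ∀ b ∈ pts c.1.g, pos a < pos b → Dec (c.1.g ∪ D) a b :=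
    fun a ha b hb hab => (hdec a ha b hb hab).mono Set.subset_union_right
  refine ⟨⟨_, hl⟩, ⟨YLe.refl _, Set.subset_union_left⟩, rfl, hg, hpts, hcut, ⟨?_, ?_⟩, hd⟩
  · intro a ha b hb hab
    rw [hpts] at ha hb
    rcases lt_trichotomy (pos a) (pos b) with h1 | h1 | h1
    · exact Or.inl (hd a ha b hb h1)
    · exact absurd (h.inj ha hb h1) hab
    · exact Or.inr (hd b hb a ha h1)
  · intro a ha l q x hx
    rw [hpts] at ha
    have hx' := hpc _ _ _ hx
    rcases lt_trichotomy (pos a) (q : ℝ) with h1 | h1 | h1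
    · exact Or.inl (Or.inr ((hq a ha q ⟨l, x, hx'⟩).1 h1))
    · exact absurd h1 (by
        have := h.irr a ha
        intro h2
        exact this ⟨q, h2.symm⟩)
    · exact Or.inr (Or.inr ((hq a ha q ⟨l, x, hx'⟩).2 h1))

theorem exists_sharp (c : Cn) {A : Set Pt} (hA : A.Finite) :
    ∃ c' ≤ c, c'.1.y = c.1.y ∧ A ⊆ pts c'.1.g ∧ pts c'.1.g ⊆ pts c.1.g ∪ A ∧ Sharp c'.1.g ∧
      ∀ α ∈ c'.1.g, α ∈ c.1.g ∨ α.isCut := by
  obtain ⟨pos, hpos⟩ := c.2.good
  obtain ⟨pos', -, h2, h3, h4⟩ := exists_newpos c.1.fg hpos hA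
  obtain ⟨M, hM⟩ := (hA.image pos').bddAbove
  obtain ⟨q, hq⟩ := exists_rat_gt M
  obtain ⟨D, hDf, hD, hg, -, hcq⟩ := exists_cuts h2 hA (Set.finite_singleton q) h3 h4
  have hcut : ∀ α ∈ c.1.g ∪ D, α ∈ c.1.g ∨ α.isCut := by
    rintro α (h1 | h1)
    · exact Or.inl h1
    · obtain ⟨a, _, r, b, rfl⟩ := hD α h1
      exact Or.inr trivial
  have hfin : (c.1.g ∪ D).Finite := c.1.fg.union hDf
  have hl : Leg ⟨c.1.y, c.1.g ∪ D, c.1.cy, hfin⟩ :=
    c.2.cuts hfin Set.subset_union_left hcut ⟨pos', hg⟩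
  obtain ⟨c', h5, h6, -, h7, h8, h9, -⟩ := legal_cuts ⟨_, hl⟩ hg
  refine ⟨c', h5.trans ⟨YLe.refl _, Set.subset_union_left⟩, h6, ?_, ?_, h9, ?_⟩
  · rw [h7]
    intro a ha
    exact mem_pts_cut (Or.inr ((hcq a ha q rfl).1
      ((hM (Set.mem_image_of_mem _ ha)).trans_lt hq)))
  · rw [h7]
    change pts (c.1.g ∪ D) ⊆ _
    rw [pts_union]
    refine Set.union_subset_union_right _ ?_
    rintro z ⟨α, h10, h11⟩
    obtain ⟨a, ha, r, b, rfl⟩ := hD α h10
    obtain rfl : z = a := h11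
    exact ha
  · intro α hα
    rcases h8 α hα with h10 | h10
    · exact hcut α h10
    · exact Or.inr h10

end SSO
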