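import Pool.Agent.SSO.FRho
import Pool.Agent.SSO.GShp
import Pool.Agent.SSO.PShp

/-! # Lemma C: amalgamation with a new copy (package F5)

(problem MP_ceadec_lc, project SSO, part F)

Let `pos` be good for `q.1.g` (`q.2.good`), `G := (C.c n).1.g = Atom.map (C.ψ n) (C.φ n) '' C.gs` (`C.cg`). Let `V` be the finite set of all `pos a`, `a ∈ pts q.1.g`, all rational
numbers (as real numbers) in fat pieces of `q.1.g`, and all rational numbers in cuts of `C.gs`. `exists_rho` for `q.1.g`, `P`, `V`, `side` (`hd` by `Dec.lt`): `ρ`. Put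
`pos' x := pos x` for `x ∈ pts q.1.g`, and `pos' (C.φ n k) := ρ k` for `k ∉ C.R` (these points are new by `hn`, and `C.φ n` is injective; choice). For `k ∈ C.R`:
`C.φ n k = C.φ 0 k = C.φ 2 k ∈ pts q.1.g` (`C.fam.rφ`, `C.full`, `pts_map`).

(1) `pos'` is good for `q.1.g` (`Good.congr`). (2) `pos'` satisfies the cuts of `G`: a cut `(k, r, b)` of `C.gs`. If `k ∈ C.R`: the cut of `C.φ 0 k` is in `(C.c 0).1.g ⊆ q.1.g`. If
`k ∉ C.R`, `P k`: the cut of `C.φ 2 k` is in `q.1.g` (`h2`), so `pos (C.φ 2 k) < r` or `r < pos (C.φ 2 k)`; as `r ∈ V` the same holds for `ρ k`. If `¬ P k`: the cuts of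
`C.φ 0 k` and `C.φ 1 k` are in `q.1.g`, and `pos (C.φ 0 k) < ρ k < pos (C.φ 1 k)`. (3) `pos'` is injective and irrational on `pts (q.1.g ∪ G)`. (4) `pos'` is good for `G`:
`Sharp.good` for `C.gs` (`C.shp`) and the position `pos' ∘ C.φ n` (a good position of `C.gs` exists: `Good.comap` for a good position of `C.c n`), then `Good.map`.
(5) `Inc` for a piece `(t, x1)` of `q.1.g` and a piece of `G` with the same label `ξ`: the latter is the image of `pc a s k ∈ C.gs`, `C.ψ n a = ξ ∈ lbs q.1.g`, so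
`a ∈ C.F` by `hnl`, and `ξ = C.ψ 0 a = C.ψ 2 a`. If `k ∈ C.R`: `s` is rational or `s = inl z` with `z ∈ C.R` (`C.fam.k1`), so the piece is equal to its copy in
`(C.c 0).1.g ⊆ q.1.g`: use (1). If `k ∉ C.R`: `s = inl z`, `z ∉ C.R` (`C.fam.k2`, `C.fam.k1`), `pos' (C.φ n z) = ρ z`, `pos' (C.φ n k) = ρ k`, `pos x1 ≠ ρ k` since `pos x1 ∈ V`.
  - `¬ P z`: the last clause of `exists_rho` (`pos x1 < ρ k` or `ρ k < pos x1`).
  - `P z`: `P k` by `h2p`, and `pc ξ (inl (C.φ 2 z)) (C.φ 2 k) ∈ q.1.g`. `Inc` (for `pos`) of `(t, x1)` and this piece: if `x1 = C.φ 2 k`, `t = inl (C.φ 2 z)`: if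
    `side = true` then `ρ z < pos (C.φ 2 z)`, `ρ k < pos (C.φ 2 k)`, if `side = false` the reverse. If `ps pos t < pos (C.φ 2 z)`, `pos x1 < pos (C.φ 2 k)`: since
    `ps pos t ∈ V`, `pos x1 ∈ V`: `ps pos t < ρ z`, `pos x1 < ρ k`. The reverse case is the same.
So `pos'` is good for `q.1.g ∪ G`. `r0 := (q.1.y, q.1.g ∪ G)` is legal: `r0 ≤ q`, `r0 ≤ C.c n` (`YLe q.1.y C.y` by `hq0`, `C.cy`); `thin`, `fat`, `wit` by `q.2`, `(C.c n).2`; `bit`: `bit γ x true` in
one and `bit γ x false` in the other: `γ = C.ψ n a ∈ lbs q.1.g`, so `a ∈ C.F`, `x = C.φ n k ∈ pts q.1.g`, so `k ∈ C.R` (`hn`), so the bit of `G` is also in `(C.c 0).1.g ⊆ q.1.g`, a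
contradiction to `q.2.bit`. `legal_cuts` for `r0` and `pos'`: `r ≤ r0` which decides the order of all points of `pts r0.1.g` as in `pos'`. For `P k`, `k ∉ C.R`:
`side = true`: `ρ k < pos (C.φ 2 k)`; if `Dec q.1.g a (C.φ 2 k)` then `pos a < pos (C.φ 2 k)`, `pos a ∈ V`, so `pos a < ρ k`. `side = false`: the same. -/

set_option autoImplicit false

namespace SSO

/-- the rational number of an atom -/
private noncomputable def ratOf {L X : Type*} : Atom L X → ℝ
  | .cut _ q _ => q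
  | .bit _ _ _ => 0
  | .pc _ (.inr q) _ => q
  | .pc _ (.inl _) _ => 0

private theorem amal_good (C : Cop) {q : Cn} {n : ℕ} {P : Fin C.m → Prop} (hq0 : q ≤ C.c 0)
    (hq1 : q ≤ C.c 1) (h2 : ∀ a r b, .cut a r b ∈ C.gs → .cut (C.φ 2 a) r b ∈ q.1.g)
    (h2p : ∀ a ∈ C.F, ∀ z, P z → ∀ x, .pc a (.inl z) x ∈ C.gs →
      P x ∧ .pc (C.ψ 2 a) (.inl (C.φ 2 z)) (C.φ 2 x) ∈ q.1.g)
    (hd : ∀ k, k ∉ C.R → Dec q.1.g (C.φ 0 k) (C.φ 2 k) ∧ Dec q.1.g (C.φ 2 k) (C.φ 1 k))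
    (hn : ∀ k, k ∉ C.R → C.φ n k ∉ pts q.1.g) (hnl : ∀ k, k ∉ C.F → C.ψ n k ∉ lbs q.1.g)
    (side : Bool) {pos : Pt → ℝ} (hg : Good q.1.g pos) :
    ∃ pos' : Pt → ℝ, Good (q.1.g ∪ (C.c n).1.g) pos' ∧ (∀ x ∈ pts q.1.g, pos' x = pos x) ∧
      ∀ k, P k → k ∉ C.R →
        (∀ a ∈ pts q.1.g, (pos a < pos (C.φ 2 k) → pos a < pos' (C.φ n k)) ∧
          (pos (C.φ 2 k) < pos a → pos' (C.φ n k) < pos a)) ∧
        (side = true → pos' (C.φ n k) < pos (C.φ 2 k)) ∧
        (side = false → pos (C.φ 2 k) < pos' (C.φ n k)) := by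
  classical
  have hG : ∀ i, (C.c i).1.g = Atom.map (C.ψ i) (C.φ i) '' C.gs := C.cg
  have hpt : ∀ i, (C.c i).1.g ⊆ q.1.g → ∀ k, C.φ i k ∈ pts q.1.g := by
    intro i hi k
    refine pts_mono hi ?_
    rw [hG i, pts_map]
    exact ⟨k, by rw [C.full]; trivial, rfl⟩
  have hp0 := hpt 0 hq0.2
  have hp1 := hpt 1 hq1.2
  have hd' : ∀ k, k ∉ C.R → pos (C.φ 0 k) < pos (C.φ 2 k) ∧ pos (C.φ 2 k) < pos (C.φ 1 k) :=
    fun k hk => ⟨(hd k hk).1.lt hg.ok, (hd k hk).2.lt hg.ok⟩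
  obtain ⟨V, hV⟩ : ∃ V : Set ℝ, V = pos '' pts q.1.g ∪ (ratOf '' q.1.g ∪ ratOf '' C.gs) :=
    ⟨_, rfl⟩
  have hVf : V.Finite := by
    rw [hV]
    exact ((pts_finite q.1.fg).image _).union ((q.1.fg.image _).union (C.fg.image _))
  have hVp : ∀ x ∈ pts q.1.g, pos x ∈ V := by
    intro x hx
    rw [hV]
    exact Or.inl ⟨x, hx, rfl⟩
  have hVt : ∀ l t x, .pc l t x ∈ q.1.g → ps pos t ∈ V := by
    rintro l (z | r) x h
    · exact hVp z (mem_pts_thin h)
    · rw [hV]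
      exact Or.inr (Or.inl ⟨_, h, rfl⟩)
  have hVc : ∀ (a : Fin C.m) (r : ℚ) (b : Bool), .cut a r b ∈ C.gs → (r : ℝ) ∈ V := by
    intro a r b h
    rw [hV]
    exact Or.inr (Or.inr ⟨_, h, rfl⟩)
  obtain ⟨ρ, r1, r2, r3, r4, r5⟩ := exists_rho C q.1.fg hg hq0.2 hq1.2 hd' P hVf side
  obtain ⟨pos', hpos'⟩ : ∃ pos' : Pt → ℝ, pos' = fun x => if x ∈ pts q.1.g then pos x else
      if h : ∃ k, k ∉ C.R ∧ C.φ n k = x then ρ h.choose else 0 := ⟨_, rfl⟩
  have e1 : ∀ x ∈ pts q.1.g, pos' x = pos x := by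
    intro x hx
    rw [hpos']
    exact if_pos hx
  have e2 : ∀ k, k ∉ C.R → pos' (C.φ n k) = ρ k := by
    intro k hk
    have h1 : ∃ k', k' ∉ C.R ∧ C.φ n k' = C.φ n k := ⟨k, hk, rfl⟩
    rw [hpos']
    simp only
    rw [if_neg (hn k hk), dif_pos h1, C.fam.injφ n h1.choose_spec.2]
  have e3 : ∀ k, k ∈ C.R → C.φ n k = C.φ 0 k := fun k hk => C.fam.rφ n 0 k hk
  have e4 : ∀ k, k ∈ C.R → pos' (C.φ n k) = pos (C.φ 0 k) := fun k hk => by
    rw [e3 k hk, e1 _ (hp0 k)]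
  -- cuts of the copy
  have hcut : CutOk C.gs (pos' ∘ C.φ n) := by
    constructor
    · intro k r hr
      change pos' (C.φ n k) < r
      by_cases hk : k ∈ C.R
      · rw [e4 k hk]
        refine hg.ok.lt _ _ (hq0.2 ?_)
        rw [hG 0]
        exact ⟨_, hr, rfl⟩
      · rw [e2 k hk]
        by_cases hP : P k
        · exact ((r4 k hP hk).1 _ (hVc k r true hr)).2 (hg.ok.lt _ _ (h2 k r true hr))
        · refine (r3 k hk).2.trans (hg.ok.lt _ _ (hq1.2 ?_))
          rw [hG 1]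
          exact ⟨_, hr, rfl⟩
    · intro k r hr
      change (r : ℝ) < pos' (C.φ n k)
      by_cases hk : k ∈ C.R
      · rw [e4 k hk]
        refine hg.ok.gt _ _ (hq0.2 ?_)
        rw [hG 0]
        exact ⟨_, hr, rfl⟩
      · rw [e2 k hk]
        by_cases hP : P k
        · exact ((r4 k hP hk).1 _ (hVc k r false hr)).1 (hg.ok.gt _ _ (h2 k r false hr))
        · refine lt_trans (hg.ok.gt _ _ (hq0.2 ?_)) (r3 k hk).1
          rw [hG 0]
          exact ⟨_, hr, rfl⟩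
  -- points of the union
  have hun : ∀ x ∈ pts (q.1.g ∪ (C.c n).1.g), x ∈ pts q.1.g ∨ ∃ k, k ∉ C.R ∧ C.φ n k = x := by
    intro x hx
    rw [pts_union] at hx
    rcases hx with hx | hx
    · exact Or.inl hx
    · rw [hG n, pts_map] at hx
      obtain ⟨k, -, rfl⟩ := hx
      by_cases hk : k ∈ C.R
      · rw [e3 k hk]
        exact Or.inl (hp0 k)
      · exact Or.inr ⟨k, hk, rfl⟩
  have hinj : Set.InjOn pos' (pts (q.1.g ∪ (C.c n).1.g)) := by
    intro x hx y hy hxy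
    rcases hun x hx with h1 | ⟨k, hk, rfl⟩ <;> rcases hun y hy with h3 | ⟨k', hk', rfl⟩
    · rw [e1 x h1, e1 y h3] at hxy
      exact hg.inj h1 h3 hxy
    · rw [e1 x h1, e2 k' hk'] at hxy
      exact absurd (hxy ▸ hVp x h1) (r1 k' hk').2
    · rw [e1 y h3, e2 k hk] at hxy
      exact absurd (hxy ▸ hVp y h3) (r1 k hk).2
    · rw [e2 k hk, e2 k' hk'] at hxy
      rw [r2 k k' hk hk' hxy]
  have hirr : ∀ x ∈ pts (q.1.g ∪ (C.c n).1.g), Irrational (pos' x) := by
    intro x hx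
    rcases hun x hx with h1 | ⟨k, hk, rfl⟩
    · rw [e1 x h1]
      exact hg.irr x h1
    · rw [e2 k hk]
      exact (r1 k hk).1
  have hmem : ∀ k, C.φ n k ∈ pts (q.1.g ∪ (C.c n).1.g) := by
    intro k
    rw [pts_union, hG n, pts_map]
    exact Or.inr ⟨k, by rw [C.full]; trivial, rfl⟩
  have hgood1 : Good q.1.g pos' := hg.congr e1
  have hgood2 : Good (C.c n).1.g pos' := by
    obtain ⟨pos0, h0⟩ := (C.c n).2.good
    rw [hG n] at h0 ⊢
    refine Good.map (C.fam.injψ n) (C.shp.good (h0.comap (C.fam.injφ n)) hcut ?_ ?_)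
    · intro a _ b _ hab
      exact C.fam.injφ n (hinj (hmem a) (hmem b) hab)
    · intro a _
      exact hirr _ (hmem a)
  have hpst : ∀ l t x, .pc l t x ∈ q.1.g → ps pos' t = ps pos t := by
    rintro l (z | r) x h
    · exact e1 z (mem_pts_thin h)
    · rfl
  -- the pieces
  have hinc : ∀ l t x t' x', .pc l t x ∈ q.1.g → .pc l t' x' ∈ (C.c n).1.g →
      Inc pos' t x t' x' := by
    intro l t x t' x' h1 h3
    have h3' := h3
    rw [hG n, map_pc] at h3'
    obtain ⟨a, s, k, rfl, rfl, rfl, h4⟩ := h3'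
    have haF : a ∈ C.F := by
      by_contra ha
      exact hnl a ha (mem_lbs_pc h1)
    have hψ : C.ψ n a = C.ψ 0 a := C.fam.rψ n 0 a haF
    by_cases hk : k ∈ C.R
    · refine hgood1.inc _ _ _ _ _ h1 (hq0.2 ?_)
      rw [hG 0, map_pc]
      refine ⟨a, s, k, hψ.symm, ?_, (e3 k hk).symm, h4⟩
      rcases s with z | r
      · have hz : z ∈ C.R := (C.fam.k1 a haF z k h4).2 hk
        change Sum.inl (C.φ 0 z) = Sum.inl (C.φ n z)
        rw [e3 z hz]
      · rfl
    · rcases s with z | r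
      · have hz : z ∉ C.R := fun hz => hk ((C.fam.k1 a haF z k h4).1 hz)
        have hne : pos x ≠ ρ k := fun he => (r1 k hk).2 (he ▸ hVp x (mem_pts_pc h1))
        have f1 : ps pos' (Sum.map (C.φ n) id (Sum.inl z)) = ρ z := e2 z hz
        have f2 := e2 k hk
        have f3 := hpst _ _ _ h1
        have f4 := e1 x (mem_pts_pc h1)
        by_cases hP : P z
        · obtain ⟨hPk, h5⟩ := h2p a haF z hP k h4
          have hψ2 : C.ψ n a = C.ψ 2 a := C.fam.rψ n 2 a haF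
          rw [← hψ2] at h5
          have g1 := r4 z hP hz
          have g2 := r4 k hPk hk
          rcases hg.inc _ _ _ _ _ h1 h5 with ⟨h6, h7⟩ | ⟨h6, h7⟩ | ⟨h6, h7⟩
          · have h8 : t = .inl (C.φ 2 z) := by
              rcases h7 with h7 | ⟨-, ⟨r, h7⟩⟩
              · exact h7
              · exact absurd h7 (by simp)
            have f3' : ps pos' t = pos (C.φ 2 z) := by rw [f3, h8]; rfl
            have f4' : pos' x = pos (C.φ 2 k) := by rw [f4, h6]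
            rcases side with _ | _
            · refine Or.inr (Or.inl ⟨?_, ?_⟩)
              · rw [f1, f3']
                exact g1.2.2 rfl
              · rw [f2, f4']
                exact g2.2.2 rfl
            · refine Or.inr (Or.inr ⟨?_, ?_⟩)
              · rw [f1, f3']
                exact g1.2.1 rfl
              · rw [f2, f4']
                exact g2.2.1 rfl
          · refine Or.inr (Or.inl ⟨?_, ?_⟩)
            · rw [f1, f3]
              exact (g1.1 _ (hVt _ _ _ h1)).1 h6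
            · rw [f2, f4]
              exact (g2.1 _ (hVp _ (mem_pts_pc h1))).1 h7
          · refine Or.inr (Or.inr ⟨?_, ?_⟩)
            · rw [f1, f3]
              exact (g1.1 _ (hVt _ _ _ h1)).2 h6
            · rw [f2, f4]
              exact (g2.1 _ (hVp _ (mem_pts_pc h1))).2 h7
        · rw [hψ] at h1
          have g1 := r5 z hP hz a haF k h4 t x h1
          rcases lt_or_gt_of_ne hne with h6 | h6
          · refine Or.inr (Or.inl ⟨?_, ?_⟩)
            · rw [f1, f3]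
              exact g1.1 h6
            · rw [f2, f4]
              exact h6
          · refine Or.inr (Or.inr ⟨?_, ?_⟩)
            · rw [f1, f3]
              exact g1.2 h6
            · rw [f2, f4]
              exact h6
      · exact absurd (C.fam.k2 a haF r k h4) hk
  refine ⟨pos', ⟨⟨?_, ?_⟩, hinj, hirr, ?_⟩, e1, ?_⟩
  · rintro a r (h | h)
    · exact hgood1.ok.lt a r h
    · exact hgood2.ok.lt a r h
  · rintro a r (h | h)
    · exact hgood1.ok.gt a r h
    · exact hgood2.ok.gt a r h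
  · rintro l t x t' x' (h | h) (h' | h')
    · exact hgood1.inc _ _ _ _ _ h h'
    · exact hinc _ _ _ _ _ h h'
    · exact (hinc _ _ _ _ _ h' h).symm
    · exact hgood2.inc _ _ _ _ _ h h'
  · intro k hP hk
    have g1 := r4 k hP hk
    rw [e2 k hk]
    exact ⟨fun a ha => g1.1 _ (hVp a ha), g1.2⟩

theorem amal (C : Cop) {q : Cn} {n : ℕ} {P : Fin C.m → Prop} (hq0 : q ≤ C.c 0)
    (hq1 : q ≤ C.c 1) (h2 : ∀ a r b, .cut a r b ∈ C.gs → .cut (C.φ 2 a) r b ∈ q.1.g)
    (h2p : ∀ a ∈ C.F, ∀ z, P z → ∀ x, .pc a (.inl z) x ∈ C.gs →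
      P x ∧ .pc (C.ψ 2 a) (.inl (C.φ 2 z)) (C.φ 2 x) ∈ q.1.g)
    (hd : ∀ k, k ∉ C.R → Dec q.1.g (C.φ 0 k) (C.φ 2 k) ∧ Dec q.1.g (C.φ 2 k) (C.φ 1 k))
    (hn : ∀ k, k ∉ C.R → C.φ n k ∉ pts q.1.g) (hnl : ∀ k, k ∉ C.F → C.ψ n k ∉ lbs q.1.g)
    (side : Bool) :
    ∃ r : Cn, r ≤ q ∧ r ≤ C.c n ∧ ∀ k, P k → k ∉ C.R →
      (side = true → Dec r.1.g (C.φ n k) (C.φ 2 k) ∧
        ∀ a, Dec q.1.g a (C.φ 2 k) → Dec r.1.g a (C.φ n k)) ∧
      (side = false → Dec r.1.g (C.φ 2 k) (C.φ n k) ∧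
        ∀ a, Dec q.1.g (C.φ 2 k) a → Dec r.1.g (C.φ n k) a) := by
  obtain ⟨pos, hg⟩ := q.2.good
  obtain ⟨pos', hgood, e1, e5⟩ := amal_good C hq0 hq1 h2 h2p hd hn hnl side hg
  have hyl : YLe q.1.y (C.c n).1.y := by
    have h1 := hq0.1
    rw [C.cy 0] at h1
    rw [C.cy n]
    exact h1
  obtain ⟨p0, hp0⟩ : ∃ p0 : Pre, p0 =
      ⟨q.1.y, q.1.g ∪ (C.c n).1.g, q.1.cy, q.1.fg.union (C.c n).1.fg⟩ := ⟨_, rfl⟩
  have hy : p0.y = q.1.y := by rw [hp0]
  have hgg : p0.g = q.1.g ∪ (C.c n).1.g := by rw [hp0]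
  have hle1 : p0 ≤ q.1 := by
    refine ⟨?_, ?_⟩
    · rw [hy]
      exact YLe.refl _
    · rw [hgg]
      exact Set.subset_union_left
  have hle2 : p0 ≤ (C.c n).1 := by
    refine ⟨?_, ?_⟩
    · rw [hy]
      exact hyl
    · rw [hgg]
      exact Set.subset_union_right
  have hbit : ∀ γ x b, .bit γ x b ∈ (C.c n).1.g → γ ∈ lbs q.1.g → x ∈ pts q.1.g →
      .bit γ x b ∈ q.1.g := by
    intro γ x b h h3 h4
    rw [C.cg n, map_bit] at h
    obtain ⟨a, k, rfl, rfl, h5⟩ := h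
    have haF : a ∈ C.F := by
      by_contra ha
      exact hnl a ha h3
    have hkR : k ∈ C.R := by
      by_contra hk
      exact hn k hk h4
    refine hq0.2 ?_
    rw [C.cg 0, map_bit]
    exact ⟨a, k, C.fam.rψ 0 n a haF, C.fam.rφ 0 n k hkR, h5⟩
  have hleg : Leg p0 :=
    { yg := by
        rw [hy]
        exact q.2.yg
      thin := by
        intro ξ z x h
        rw [hgg] at h
        rw [hy]
        rcases h with h | h
        · exact q.2.thin ξ z x h
        · have h1 := (C.c n).2.thin ξ z x h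
          exact ⟨h1.1, hyl.1 h1.2⟩
      fat := by
        intro ξ r x h
        rw [hgg] at h
        rcases h with h | h
        · exact q.2.fat ξ r x h
        · exact (C.c n).2.fat ξ r x h
      wit := by
        intro ξ t x h
        rw [hgg] at h
        rcases h with h | h
        · exact (q.2.wit ξ t x h).mono hle1
        · exact ((C.c n).2.wit ξ t x h).mono hle2
      bit := by
        intro γ x h h'
        rw [hgg] at h h'
        rcases h with h | h <;> rcases h' with h' | h'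
        · exact q.2.bit γ x h h'
        · exact q.2.bit γ x h (hbit γ x false h' (mem_lbs_bit h) (mem_pts_bit h))
        · exact q.2.bit γ x (hbit γ x true h (mem_lbs_bit h') (mem_pts_bit h')) h'
        · exact (C.c n).2.bit γ x h h'
      good := ⟨pos', by rw [hgg]; exact hgood⟩ }
  obtain ⟨r, hr, -, -, -, -, -, hdec⟩ := legal_cuts ⟨p0, hleg⟩ (pos := pos')
    (by change Good p0.g pos'; rw [hgg]; exact hgood)
  have hpts1 : ∀ a ∈ pts q.1.g, a ∈ pts p0.g := by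
    intro a ha
    rw [hgg, pts_union]
    exact Or.inl ha
  have hpts2 : ∀ k, C.φ n k ∈ pts p0.g := by
    intro k
    rw [hgg, pts_union, C.cg n, pts_map]
    exact Or.inr ⟨k, by rw [C.full]; trivial, rfl⟩
  refine ⟨r, hr.trans hle1, hr.trans hle2, ?_⟩
  intro k hP hk
  obtain ⟨g1, g2, g3⟩ := e5 k hP hk
  have hk2 : C.φ 2 k ∈ pts q.1.g := by
    obtain ⟨u, -, hu⟩ := (hd k hk).1
    exact mem_pts_cut hu
  constructor
  · intro hs
    refine ⟨hdec _ (hpts2 k) _ (hpts1 _ hk2) ?_, ?_⟩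
    · rw [e1 _ hk2]
      exact g2 hs
    · intro a ha
      have ha1 : a ∈ pts q.1.g := by
        obtain ⟨u, hu, -⟩ := ha
        exact mem_pts_cut hu
      refine hdec _ (hpts1 _ ha1) _ (hpts2 k) ?_
      rw [e1 _ ha1]
      exact (g1 a ha1).1 (ha.lt hg.ok)
  · intro hs
    refine ⟨hdec _ (hpts1 _ hk2) _ (hpts2 k) ?_, ?_⟩
    · rw [e1 _ hk2]
      exact g3 hs
    · intro a ha
      have ha1 : a ∈ pts q.1.g := by
        obtain ⟨u, -, hu⟩ := ha
        exact mem_pts_cut hu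
      refine hdec _ (hpts2 k) _ (hpts1 _ ha1) ?_
      rw [e1 _ ha1]
      exact (g1 a ha1).2 (ha.lt hg.ok)

end SSO
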