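import Pool.Agent.SSO.Pos

/-! # The situation of the final argument (definitions)

(problem MP_ceadec_lc, project SSO; no sorry in this file)

`Sett q B T f β D`: `q` forces that `B` is uncountable and bounded by `b_β`, and that `f` is a weakly monotone function from `B` onto the
generic subset `T = {a ∈ B | bit β a true}`; `D a` is a set of conditions with labels `< β` which is predense below `B a`.

`Pth C kb kt`: the set of all points (indices) which can be reached from `kb` or `kt` by thin pieces with labels in the root. -/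

set_option autoImplicit false

namespace SSO

open STP

/-- the truth value of `a ∈ B` and `bit β a true` -/
def Tn (B : Pt → RO Cn) (β : Lb) (a : Pt) : RO Cn := B a ⊓ RO.cl {c | .bit β a true ∈ c.1.g}

theorem mem_Tn {B : Pt → RO Cn} {β : Lb} {a : Pt} {c : Cn} :
    c ∈ Tn B β a ↔ c ∈ B a ∧ ∀ c' ≤ c, ∃ c'' ≤ c', .bit β a true ∈ c''.1.g := by
  unfold Tn
  rw [RO.mem_inf, RO.mem_cl]
  · rfl
  · intro p q hq hp
    exact hq.2 hp

/-- the situation of the final argument -/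
structure Sett (q : Cn) (B : Pt → RO Cn) (f : Pt → Pt → RO Cn) (β : Lb) (D : Pt → Set Cn) :
    Prop where
  d0 : ∀ a, ∀ d ∈ D a, d ∈ B a
  d1 : ∀ a, ∀ d ∈ D a, ∀ α ∈ d.1.g, Plt β α
  d2 : ∀ a, ∀ c ∈ B a, ∃ c' ≤ c, ∃ d ∈ D a, c' ≤ d
  bd : ∀ r ≤ q, ∀ a, r ∈ B a → a.1 < (dat β).b
  unc : ∀ r ≤ q, ∀ C : Set Pt, C.Countable → ∃ r' ≤ r, ∃ a, a ∉ C ∧ r' ∈ B a
  mono : TMono Lt q B (Tn B β) f

/-- the copies of the final argument -/
structure CopOk (q : Cn) (f : Pt → Pt → RO Cn) (β : Lb) (D : Pt → Set Cn) (C : Cop)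
    (kb kt : Fin C.m) : Prop where
  nr : kt ∉ C.R
  le : ∀ n, C.c n ≤ q
  val : ∀ n, C.c n ∈ f (C.φ n kb) (C.φ n kt)
  db : ∀ n, ∃ d ∈ D (C.φ n kb), C.c n ≤ d
  dt : ∀ n, ∃ d ∈ D (C.φ n kt), C.c n ≤ d
  bit : ∀ n, .bit β (C.φ n kt) true ∈ (C.c n).1.g

/-- the points which can be reached from `kb` or `kt` -/
inductive Pth (C : Cop) (kb kt : Fin C.m) : Fin C.m → Prop
  | b : Pth C kb kt kb
  | t : Pth C kb kt kt
  | step (a : Fin C.l) (z x : Fin C.m) (ha : a ∈ C.F) (h : .pc a (.inl z) x ∈ C.gs)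
      (hz : Pth C kb kt z) : Pth C kb kt x

end SSO
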