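import Pool.Agent.SSO.Gen

/-! # Amalgamation of finitely many copies (package G5)

(problem MP_ceadec_lc, project SSO, part G; the key lemma)

Let `Q` be the finite set of all rational numbers `q` in cuts or fat pieces of `gs`. Choose a rational `ε > 0` with `π k + ε < π k'`
for all `k, k'` with `π k < π k'`, and `π k + ε < q` for all `k`, `q ∈ Q` with `π k < q` (finitely many positive numbers; `Fin m` is finite).
Put `p i k := π k` for `k ∈ R` and `p i k := π k + ε * τ i` for `k ∉ R`; `π k ≤ p i k ≤ π k + ε`. So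
(1) `π k < π k'` implies `p i k < p j k'`; (2) for `q ∈ Q`: `π k < q` implies `p i k < q`, `q < π k` implies `q < p i k`.
`pos x := p i k` if `x = φ i k` for some `i`, `k` (choice; well defined: `Fam.eqφ`: if `φ i k = φ j k'` then `k = k'` and `k ∈ R` or
`i = j`, so `p i k = p j k'`), and `0` otherwise. So `pos (φ i k) = p i k`.

* The order statement: `ε * τ i < ε * τ j`.
* `Good` for `⋃ i, Atom.map (ψ i) (φ i) '' gs` (`map_cut`, `map_pc`, `pts_map`): cuts by (2). `inj`: points `φ i k`, `φ j k'` with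
  `k, k' ∈ pts gs` and `p i k = p j k'`: if `k ≠ k'` then `π k ≠ π k'` (`hπ.inj`), contradiction to (1); if `k = k'`, `k ∈ R`:
  the same point (`rφ`); if `k ∉ R`: `ε * τ i = ε * τ j`, so `i = j`. `irr`: irrational plus rational
  (`Irrational.add_ratCast`, ...).
* `inc` for the images of `(a, s, k)` under `i` and `(a', s', k')` under `j` (`s : Fin m ⊕ ℚ`), with `ψ i a = ψ j a'`. So `a = a'`, and
  `a ∈ F` or `i = j` (`Fam.eqψ`). Apply `hπ.inc` to the two abstract pieces.
  - `ps π s < ps π s'` and `π k < π k'` (or the reverse): by (1), (2) the same holds for the positions (`s`, `s'` both rational: trivial).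
  - `k = k'` and `s`, `s'` both rational: if `a ∈ F` then `k ∈ R` by `k2`, so the points are equal; if `i = j` as well. First case of `Inc`.
  - `k = k'` and `s = s'`: if `i = j`: `Inc.refl`. Let `i ≠ j`, so `a ∈ F`. If `k ∈ R`: `s` is rational or `s = inl z` with `z ∈ R` (`k1`), so the
    two pieces are equal (`rφ`). If `k ∉ R`: `s = inl z` by `k2`, `z ∉ R` by `k1`, and `p i z < p j z`, `p i k < p j k` if `τ i < τ j`, and
    the reverse if `τ j < τ i` (`hτ`). -/

set_option autoImplicit false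

namespace SSO

variable {L X : Type*}

private theorem exists_eps {D : Set ℝ} (hD : D.Finite) (hpos : ∀ d ∈ D, 0 < d) :
    ∃ ε : ℚ, 0 < ε ∧ ∀ d ∈ D, (ε : ℝ) < d := by
  induction D, hD using Set.Finite.induction_on with
  | empty => exact ⟨1, one_pos, fun d hd => absurd hd (Set.notMem_empty d)⟩
  | @insert a s _ _ ih =>
    obtain ⟨ε, h1, h2⟩ := ih fun d hd => hpos d (Set.mem_insert_of_mem _ hd)
    have h3 : (0 : ℝ) < min (ε : ℝ) a :=
      lt_min (by exact_mod_cast h1) (hpos a (Set.mem_insert _ _))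
    obtain ⟨δ, h4, h5⟩ := exists_rat_btwn h3
    refine ⟨δ, by exact_mod_cast h4, fun d hd => ?_⟩
    rcases hd with rfl | hd
    · exact h5.trans_le (min_le_right _ _)
    · exact (h5.trans_le (min_le_left _ _)).trans (h2 d hd)

/-- the rational numbers of an atom -/
private def rats : Atom L X → Set ℚ
  | .cut _ q _ => {q}
  | .bit _ _ _ => ∅
  | .pc _ t _ => {q | t = .inr q}

private theorem rats_finite (α : Atom L X) : (rats α).Finite := by
  rcases α with ⟨a, q, b⟩ | ⟨l, x, b⟩ | ⟨l, t | q, x⟩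
  · exact Set.finite_singleton q
  · exact Set.finite_empty
  · refine Set.finite_empty.subset ?_
    intro z hz
    cases hz
  · refine (Set.finite_singleton q).subset ?_
    intro z hz
    exact (Sum.inr.inj hz).symm

theorem amalgam {ι : Type*} [Finite ι] {m l : ℕ} {gs : Set (Atom (Fin l) (Fin m))}
    {φ : ι → Fin m → X} {ψ : ι → Fin l → L} {R : Set (Fin m)} {F : Set (Fin l)}
    (h : Fam gs φ ψ R F) (hgs : gs.Finite) {π : Fin m → ℝ} (hπ : Good gs π) {τ : ι → ℚ}
    (hτ : Function.Injective τ) (h0 : ∀ i, 0 ≤ τ i) (h1 : ∀ i, τ i ≤ 1) :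
    ∃ pos : X → ℝ, Good (⋃ i, Atom.map (ψ i) (φ i) '' gs) pos ∧
      ∀ i j, ∀ k, k ∉ R → τ i < τ j → pos (φ i k) < pos (φ j k) := by
  classical
  let Q : Set ℚ := ⋃ α ∈ gs, rats α
  have hQ : Q.Finite := hgs.biUnion fun α _ => rats_finite α
  let D : Set ℝ := {d | 0 < d ∧ d ∈ (Set.range fun kk : Fin m × Fin m => π kk.2 - π kk.1) ∪
    Set.image2 (fun (q : ℚ) (k : Fin m) => (q : ℝ) - π k) Q Set.univ}
  have hD : D.Finite := by
    refine ((Set.finite_range (fun kk : Fin m × Fin m => π kk.2 - π kk.1)).union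
      (Set.Finite.image2 (fun (q : ℚ) (k : Fin m) => (q : ℝ) - π k) hQ Set.finite_univ)).subset ?_
    rintro d ⟨_, hd⟩
    exact hd
  obtain ⟨ε, hε, hεD⟩ := exists_eps hD fun d hd => hd.1
  have hε' : (0 : ℝ) < ε := by exact_mod_cast hε
  let p : ι → Fin m → ℝ := fun i k => if k ∈ R then π k else π k + ((ε * τ i : ℚ) : ℝ)
  have hpR : ∀ i k, k ∈ R → p i k = π k := fun i k hk => if_pos hk
  have hpN : ∀ i k, k ∉ R → p i k = π k + ε * τ i := by
    intro i k hk
    have h2 : p i k = π k + ((ε * τ i : ℚ) : ℝ) := if_neg hk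
    rw [h2, Rat.cast_mul]
  have h0' : ∀ i, (0 : ℝ) ≤ τ i := fun i => by exact_mod_cast h0 i
  have h1' : ∀ i, (τ i : ℝ) ≤ 1 := fun i => by exact_mod_cast h1 i
  have hlo : ∀ i k, π k ≤ p i k := by
    intro i k
    by_cases hk : k ∈ R
    · rw [hpR i k hk]
    · rw [hpN i k hk]
      have h2 := mul_nonneg hε'.le (h0' i)
      linarith
  have hhi : ∀ i k, p i k ≤ π k + ε := by
    intro i k
    by_cases hk : k ∈ R
    · rw [hpR i k hk]
      linarith
    · rw [hpN i k hk]
      have h2 := mul_le_mul_of_nonneg_left (h1' i) hε'.le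
      linarith
  have c1 : ∀ i j k k', π k < π k' → p i k < p j k' := by
    intro i j k k' hk
    have h2 : (ε : ℝ) < π k' - π k := by
      refine hεD _ ⟨by linarith, Or.inl ⟨(k, k'), rfl⟩⟩
    have h3 := hhi i k
    have h4 := hlo j k'
    linarith
  have c2 : ∀ i k, ∀ q ∈ Q, π k < (q : ℝ) → p i k < q := by
    intro i k q hq hk
    have h2 : (ε : ℝ) < (q : ℝ) - π k := by
      refine hεD _ ⟨by linarith, Or.inr ⟨q, hq, k, Set.mem_univ k, rfl⟩⟩
    have h3 := hhi i k
    linarith
  have c3 : ∀ i k, ∀ q : ℚ, (q : ℝ) < π k → (q : ℝ) < p i k :=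
    fun i k q hk => hk.trans_le (hlo i k)
  have hmono : ∀ i j, ∀ s s' : Fin m ⊕ ℚ, (∀ q, s = .inr q → q ∈ Q) → (∀ q, s' = .inr q → q ∈ Q) →
      ps π s < ps π s' → ps (p i) s < ps (p j) s' := by
    rintro i j (z | q) (z' | q') hs hs' hlt
    · exact c1 i j z z' hlt
    · exact c2 i z q' (hs' q' rfl) hlt
    · exact c3 j z' q hlt
    · exact hlt
  let pos : X → ℝ := fun x => if hx : ∃ i k, φ i k = x then p hx.choose hx.choose_spec.choose else 0
  have hpos : ∀ i k, pos (φ i k) = p i k := by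
    intro i k
    have hx : ∃ i' k', φ i' k' = φ i k := ⟨i, k, rfl⟩
    have h2 : pos (φ i k) = p hx.choose hx.choose_spec.choose := dif_pos hx
    rw [h2]
    obtain ⟨h3, h4⟩ := h.eqφ hx.choose_spec.choose_spec
    rw [h3] at h4 ⊢
    rcases h4 with h4 | h4
    · rw [hpR _ _ h4, hpR _ _ h4]
    · rw [h4]
  have hps : ∀ i, ∀ s : Fin m ⊕ ℚ, ps pos (Sum.map (φ i) id s) = ps (p i) s := by
    rintro i (z | q)
    · exact hpos i z
    · rfl
  have hord : ∀ i j, ∀ k, k ∉ R → τ i < τ j → p i k < p j k := by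
    intro i j k hk hij
    rw [hpN i k hk, hpN j k hk]
    have h2 : (τ i : ℝ) < τ j := by exact_mod_cast hij
    have h3 := mul_lt_mul_of_pos_left h2 hε'
    linarith
  have hpts : ∀ z ∈ pts (⋃ i, Atom.map (ψ i) (φ i) '' gs), ∃ i, ∃ k ∈ pts gs, φ i k = z := by
    rintro z ⟨α, hα, hz⟩
    obtain ⟨i, hi⟩ := Set.mem_iUnion.1 hα
    have h2 : z ∈ pts (Atom.map (ψ i) (φ i) '' gs) := ⟨α, hi, hz⟩
    rw [pts_map] at h2
    obtain ⟨k, hk, rfl⟩ := h2
    exact ⟨i, k, hk, rfl⟩
  refine ⟨pos, ⟨⟨?_, ?_⟩, ?_, ?_, ?_⟩, ?_⟩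
  · intro a q ha
    obtain ⟨i, hi⟩ := Set.mem_iUnion.1 ha
    obtain ⟨k, rfl, hk⟩ := map_cut.1 hi
    rw [hpos]
    exact c2 i k q (Set.mem_biUnion hk rfl) (hπ.ok.lt k q hk)
  · intro a q ha
    obtain ⟨i, hi⟩ := Set.mem_iUnion.1 ha
    obtain ⟨k, rfl, hk⟩ := map_cut.1 hi
    rw [hpos]
    exact c3 i k q (hπ.ok.gt k q hk)
  · intro x hx y hy hxy
    obtain ⟨i, k, hk, rfl⟩ := hpts x hx
    obtain ⟨j, k', hk', rfl⟩ := hpts y hy
    rw [hpos, hpos] at hxy
    by_cases hkk : k = k'
    · subst hkk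
      by_cases hR : k ∈ R
      · exact h.rφ i j k hR
      · rw [hpN i k hR, hpN j k hR] at hxy
        have h2 : (ε : ℝ) * τ i = ε * τ j := by linarith
        have h3 : (τ i : ℝ) = τ j := mul_left_cancel₀ hε'.ne' h2
        have h4 : τ i = τ j := by exact_mod_cast h3
        rw [hτ h4]
    · exfalso
      have h2 : π k ≠ π k' := fun h3 => hkk (hπ.inj hk hk' h3)
      rcases lt_or_gt_of_ne h2 with h3 | h3
      · exact absurd hxy (c1 i j k k' h3).ne
      · exact absurd hxy (c1 j i k' k h3).ne'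
  · intro x hx
    obtain ⟨i, k, hk, rfl⟩ := hpts x hx
    rw [hpos]
    have h2 := hπ.irr k hk
    by_cases hR : k ∈ R
    · rw [hpR i k hR]
      exact h2
    · have h3 : p i k = π k + ((ε * τ i : ℚ) : ℝ) := if_neg hR
      rw [h3]
      exact h2.add_ratCast (ε * τ i)
  · intro l' t x t' x' hx hx'
    obtain ⟨i, hi⟩ := Set.mem_iUnion.1 hx
    obtain ⟨j, hj⟩ := Set.mem_iUnion.1 hx'
    obtain ⟨a, s, k, rfl, rfl, rfl, hg⟩ := map_pc.1 hi
    obtain ⟨a', s', k', ha, rfl, rfl, hg'⟩ := map_pc.1 hj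
    obtain ⟨haa, hF⟩ := h.eqψ ha.symm
    subst haa
    have hQs : ∀ q, s = .inr q → q ∈ Q := fun q hq => Set.mem_biUnion hg hq
    have hQs' : ∀ q, s' = .inr q → q ∈ Q := fun q hq => Set.mem_biUnion hg' hq
    rcases hπ.inc a s k s' k' hg hg' with ⟨hk, hs⟩ | ⟨h2, h3⟩ | ⟨h2, h3⟩
    · subst hk
      rcases hs with hs | ⟨⟨q, hq⟩, q', hq'⟩
      · subst hs
        rcases hF with hF | hF
        · by_cases hR : k ∈ R
          · refine Or.inl ⟨h.rφ i j k hR, Or.inl ?_⟩
            rcases s with z | q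
            · have hz : z ∈ R := (h.k1 a hF z k hg).2 hR
              change (Sum.inl (φ i z) : X ⊕ ℚ) = .inl (φ j z)
              rw [h.rφ i j z hz]
            · rfl
          · rcases s with z | q
            · have hz : z ∉ R := fun hz => hR ((h.k1 a hF z k hg).1 hz)
              by_cases hij : i = j
              · subst hij
                exact Inc.refl _ _ _
              · have h2 : τ i ≠ τ j := fun h3 => hij (hτ h3)
                rcases lt_or_gt_of_ne h2 with h3 | h3
                · refine Or.inr (Or.inl ⟨?_, ?_⟩)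
                  · rw [hps, hps]
                    exact hord i j z hz h3
                  · rw [hpos, hpos]
                    exact hord i j k hR h3
                · refine Or.inr (Or.inr ⟨?_, ?_⟩)
                  · rw [hps, hps]
                    exact hord j i z hz h3
                  · rw [hpos, hpos]
                    exact hord j i k hR h3
            · exact absurd (h.k2 a hF q k hg) hR
        · subst hF
          exact Inc.refl _ _ _
      · subst hq hq'
        have hφ : φ i k = φ j k := by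
          rcases hF with hF | hF
          · exact h.rφ i j k (h.k2 a hF q k hg)
          · rw [hF]
        exact Or.inl ⟨hφ, Or.inr ⟨⟨q, rfl⟩, ⟨q', rfl⟩⟩⟩
    · refine Or.inr (Or.inl ⟨?_, ?_⟩)
      · rw [hps, hps]
        exact hmono i j s s' hQs hQs' h2
      · rw [hpos, hpos]
        exact c1 i j k k' h3
    · refine Or.inr (Or.inr ⟨?_, ?_⟩)
      · rw [hps, hps]
        exact hmono j i s' s hQs' hQs h2
      · rw [hpos, hpos]
        exact c1 j i k' k h3
  · intro i j k hk hij
    rw [hpos, hpos]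
    exact hord i j k hk hij

end SSO
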