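import Pool.Agent.SSO.Pos
import Pool.Agent.SSO.GAm
import Pool.Agent.SSO.GCut

/-! # Lemma B: three copies (package K4)

(problem MP_ceadec_lc, project SSO, part K)

Let `G i := Atom.map (C.ψ i) (C.φ i) '' C.gs = (C.c i).1.g` for `i = 0, 1, 2`. A good position of `C.c 0` gives a good position `π` of `C.gs`
(`Good.comap`). `amalgam` for `ι := Fin 3` (`Fam.comp` with the inclusion `Fin 3 → ℕ`) and `τ := ![0, 1, 1/2]` (injective, between 0 and 1) gives a
position `pos` which is good for `G := G 0 ∪ G 1 ∪ G 2` with `pos (φ 0 k) < pos (φ 2 k) < pos (φ 1 k)` for `k ∉ R`. Let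
`g1 := G 0 ∪ G 1 ∪ {α ∈ G 2 | Φ α}`, `A := pts G` (finite; every `C.φ i k`, `i ≤ 2`, is in `A` since `C.full`), `D` from `exists_cuts` for `g1`
(`Good.mono`), `A`, `Q := ∅`. `q := (C.y, g1 ∪ D)`. The order statement: `D` decides the order of all points of `A`.
* `q` is legal: `yg`: `C.hy`. `thin`, `fat`: a piece is in some `G i` (not in `D`, a set of cuts), use `(C.c i).2`, the `y`-part is `C.y`
  (`C.cy`). `wit`: for a piece in `G 0`: `Wit ξ x (C.c 0).1` and `q ≤ C.c 0` (the same `y`-part, more atoms); the same for `G 1`. For a piece in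
  `{α ∈ G 2 | Φ α}`: `restrict` for `C.c 2 ≤ one` (`le_one`) gives `c2' : Cn` with `c2'.1.y = C.y`, `c2'.1.g = ∅ ∪ {α ∈ G 2 | Φ α}`; so `q ≤ c2'`, and use
  `c2'.2.wit`. The last clause of `restrict` gives the clause of the theorem about `a : Pre`. `bit`: suppose `bit γ x true`, `bit γ x false` are in
  the union of the `G i` (not in `D`): by `map_bit` `γ = ψ i a = ψ j a'`, `x = φ i k = φ j k'`, so `a = a'`, `k = k'` (`Fam.eqψ`, `Fam.eqφ`), so `gs` contains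
  `bit a k true` and `bit a k false`, a contradiction to `(C.c 0).2.bit`. `good`: `pos`. -/

set_option autoImplicit false

namespace SSO

theorem three (C : Cop) {Φ : Atom Lb Pt → Prop} (hΦ : Cl Φ) :
    ∃ q : Cn, q ≤ C.c 0 ∧ q ≤ C.c 1 ∧ q.1.y = C.y ∧
      (∀ α ∈ (C.c 2).1.g, Φ α → α ∈ q.1.g) ∧
      (∀ α ∈ q.1.g, α ∈ (C.c 0).1.g ∨ α ∈ (C.c 1).1.g ∨ (α ∈ (C.c 2).1.g ∧ Φ α) ∨ α.isCut) ∧
      (∀ a : Pre, (C.c 2).1 ≤ a → (∀ α ∈ a.g, Φ α) → q.1 ≤ a) ∧
      ∀ k, k ∉ C.R → Dec q.1.g (C.φ 0 k) (C.φ 2 k) ∧ Dec q.1.g (C.φ 2 k) (C.φ 1 k) := by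
  classical
  obtain ⟨π0, hπ0⟩ := (C.c 0).2.good
  rw [C.cg 0] at hπ0
  have hπ : Good C.gs (π0 ∘ C.φ 0) := hπ0.comap (C.fam.injφ 0)
  let f : Fin 3 → ℕ := fun i => i.1
  have hf : Function.Injective f := fun i j h => Fin.ext h
  let τ : Fin 3 → ℚ := ![0, 1, 1 / 2]
  have t0 : τ 0 = 0 := rfl
  have t1 : τ 1 = 1 := rfl
  have t2 : τ 2 = 1 / 2 := rfl
  have hall : ∀ {P : Fin 3 → Prop}, P 0 → P 1 → P 2 → ∀ i, P i := by
    intro P h0 h1 h2 i
    fin_cases i
    · exact h0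
    · exact h1
    · exact h2
  have hτ : Function.Injective τ := by
    intro i
    refine hall (P := fun i => ∀ ⦃j⦄, τ i = τ j → i = j) ?_ ?_ ?_ i
    · intro j
      refine hall (P := fun j => τ 0 = τ j → 0 = j) ?_ ?_ ?_ j <;> norm_num [t0, t1, t2]
    · intro j
      refine hall (P := fun j => τ 1 = τ j → 1 = j) ?_ ?_ ?_ j <;> norm_num [t0, t1, t2]
    · intro j
      refine hall (P := fun j => τ 2 = τ j → 2 = j) ?_ ?_ ?_ j <;> norm_num [t0, t1, t2]
  have hτ0 : ∀ i, 0 ≤ τ i := hall (by rw [t0]) (by rw [t1]; norm_num) (by rw [t2]; norm_num)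
  have hτ1 : ∀ i, τ i ≤ 1 := hall (by rw [t0]; norm_num) (by rw [t1]) (by rw [t2]; norm_num)
  obtain ⟨pos, hgood, hord⟩ := amalgam (C.fam.comp hf) C.fg hπ hτ hτ0 hτ1
  obtain ⟨GU, hGU⟩ : ∃ GU : Set (Atom Lb Pt),
      GU = ⋃ i : Fin 3, Atom.map (C.ψ (f i)) (C.φ (f i)) '' C.gs := ⟨_, rfl⟩
  rw [← hGU] at hgood
  have hG : ∀ i : Fin 3, (C.c (f i)).1.g ⊆ GU := by
    intro i
    rw [C.cg, hGU]
    exact Set.subset_iUnion (fun i : Fin 3 => Atom.map (C.ψ (f i)) (C.φ (f i)) '' C.gs) i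
  have hG0 : (C.c 0).1.g ⊆ GU := hG 0
  have hG1 : (C.c 1).1.g ⊆ GU := hG 1
  have hG2 : (C.c 2).1.g ⊆ GU := hG 2
  have hGfin : GU.Finite := by
    rw [hGU]
    exact Set.finite_iUnion fun i => C.fg.image _
  obtain ⟨g1, hg1⟩ : ∃ g1 : Set (Atom Lb Pt),
      g1 = ((C.c 0).1.g ∪ (C.c 1).1.g) ∪ {α | α ∈ (C.c 2).1.g ∧ Φ α} := ⟨_, rfl⟩
  have hg1U : g1 ⊆ GU := by
    rw [hg1]
    exact Set.union_subset (Set.union_subset hG0 hG1) fun α hα => hG2 hα.1
  have hA : (pts GU).Finite := pts_finite hGfin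
  have hinj : Set.InjOn pos (pts g1 ∪ pts GU) := by
    rw [Set.union_eq_self_of_subset_left (pts_mono hg1U)]
    exact hgood.inj
  obtain ⟨D, hDf, hDc, hDg, hDd, -⟩ := exists_cuts (hgood.mono hg1U) hA
    (Set.finite_empty (α := ℚ)) hinj hgood.irr
  have hfin : (g1 ∪ D).Finite := (hGfin.subset hg1U).union hDf
  have hnc : ∀ α : Atom Lb Pt, ¬ α.isCut → α ∈ g1 ∪ D → α ∈ g1 := by
    rintro α hα (h | h)
    · exact h
    · obtain ⟨a, -, q, b, rfl⟩ := hDc α h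
      exact absurd trivial hα
  have hcase : ∀ α : Atom Lb Pt, ¬ α.isCut → α ∈ g1 ∪ D →
      α ∈ (C.c 0).1.g ∨ α ∈ (C.c 1).1.g ∨ (α ∈ (C.c 2).1.g ∧ Φ α) := by
    intro α hα h
    have h1 := hnc α hα h
    rw [hg1] at h1
    rcases h1 with (h1 | h1) | h1
    · exact Or.inl h1
    · exact Or.inr (Or.inl h1)
    · exact Or.inr (Or.inr h1)
  have s0 : (C.c 0).1.g ⊆ g1 ∪ D := fun α hα => Or.inl (by rw [hg1]; exact Or.inl (Or.inl hα))
  have s1 : (C.c 1).1.g ⊆ g1 ∪ D := fun α hα => Or.inl (by rw [hg1]; exact Or.inl (Or.inr hα))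
  have s2 : {α | α ∈ (C.c 2).1.g ∧ Φ α} ⊆ g1 ∪ D :=
    fun α hα => Or.inl (by rw [hg1]; exact Or.inr hα)
  let q : Pre := ⟨C.y, g1 ∪ D, C.hy.cnt, hfin⟩
  have q0 : q ≤ (C.c 0).1 := ⟨by rw [C.cy 0]; exact YLe.refl _, s0⟩
  have q1 : q ≤ (C.c 1).1 := ⟨by rw [C.cy 1]; exact YLe.refl _, s1⟩
  obtain ⟨c', -, -, hy', hg', hle'⟩ := restrict (c := C.c 2) (c0 := one) (le_one _) hΦ
  have q2 : q ≤ c'.1 := by
    refine ⟨by rw [hy', C.cy 2]; exact YLe.refl _, ?_⟩
    rw [hg']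
    refine Set.union_subset (fun α hα => ?_) s2
    exact absurd hα (Set.notMem_empty α)
  have hleg : Leg q :=
    { yg := C.hy
      thin := by
        intro ξ z x hz
        rcases hcase (.pc ξ (.inl z) x) (fun h => h) hz with h | h | ⟨h, -⟩
        · have h1 := (C.c 0).2.thin ξ z x h
          rw [C.cy 0] at h1
          exact h1
        · have h1 := (C.c 1).2.thin ξ z x h
          rw [C.cy 1] at h1
          exact h1
        · have h1 := (C.c 2).2.thin ξ z x h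
          rw [C.cy 2] at h1
          exact h1
      fat := by
        intro ξ r x hz
        rcases hcase (.pc ξ (.inr r) x) (fun h => h) hz with h | h | ⟨h, -⟩
        · exact (C.c 0).2.fat ξ r x h
        · exact (C.c 1).2.fat ξ r x h
        · exact (C.c 2).2.fat ξ r x h
      wit := by
        intro ξ t x hz
        rcases hcase (.pc ξ t x) (fun h => h) hz with h | h | h
        · exact ((C.c 0).2.wit ξ t x h).mono q0
        · exact ((C.c 1).2.wit ξ t x h).mono q1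
        · refine (c'.2.wit ξ t x ?_).mono q2
          rw [hg']
          exact Or.inr h
      bit := by
        intro γ x h1 h2
        have e1 := hg1U (hnc (.bit γ x true) (fun h => h) h1)
        have e2 := hg1U (hnc (.bit γ x false) (fun h => h) h2)
        rw [hGU] at e1 e2
        obtain ⟨i, hi⟩ := Set.mem_iUnion.1 e1
        obtain ⟨j, hj⟩ := Set.mem_iUnion.1 e2
        obtain ⟨a, k, ha, hk, hm⟩ := map_bit.1 hi
        obtain ⟨a', k', ha', hk', hm'⟩ := map_bit.1 hj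
        have haa : a = a' := (C.fam.eqψ (ha.trans ha'.symm)).1
        have hkk : k = k' := (C.fam.eqφ (hk.trans hk'.symm)).1
        subst haa hkk
        refine (C.c 0).2.bit (C.ψ 0 a) (C.φ 0 k) ?_ ?_
        · rw [C.cg 0]
          exact map_bit.2 ⟨a, k, rfl, rfl, hm⟩
        · rw [C.cg 0]
          exact map_bit.2 ⟨a, k, rfl, rfl, hm'⟩
      good := ⟨pos, hDg⟩ }
  have hmem : ∀ (i : Fin 3) (k : Fin C.m), C.φ (f i) k ∈ pts GU := by
    intro i k
    refine pts_mono (hG i) ?_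
    rw [C.cg, pts_map, C.full]
    exact ⟨k, Set.mem_univ k, rfl⟩
  refine ⟨⟨q, hleg⟩, q0, q1, rfl, fun α hα hΦα => s2 ⟨hα, hΦα⟩, fun α hα => ?_,
    fun a ha hΦa => q2.trans (hle' a ha hΦa), fun k hk => ⟨?_, ?_⟩⟩
  · by_cases hc : α.isCut
    · exact Or.inr (Or.inr (Or.inr hc))
    · rcases hcase α hc hα with h | h | h
      · exact Or.inl h
      · exact Or.inr (Or.inl h)
      · exact Or.inr (Or.inr (Or.inl h))
  · have h1 : Dec D (C.φ 0 k) (C.φ 2 k) := hDd _ (hmem 0 k) _ (hmem 2 k)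
      (hord 0 2 k hk (by rw [t0, t2]; norm_num))
    exact h1.mono Set.subset_union_right
  · have h1 : Dec D (C.φ 2 k) (C.φ 1 k) := hDd _ (hmem 2 k) _ (hmem 1 k)
      (hord 2 1 k hk (by rw [t1, t2]; norm_num))
    exact h1.mono Set.subset_union_right

end SSO
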