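import Pool.Agent.SSO.PShp

/-! # Adding a bit (package P2)

(problem MP_ceadec_lc, project SSO, part P)

`pos` good for `c`, `pos'` from `exists_newpos` for `A = {x}`. `g' := insert (.bit γ x b) c.1.g`, `pts g' = pts c.1.g ∪ {x}`; `pos'` is
good for `g'` (no new cuts, no new pieces). Legal by `Leg.mk'`; the bits are consistent by the hypothesis `h`. -/

set_option autoImplicit false

namespace SSO

theorem add_bit (c : Cn) (γ : Lb) (x : Pt) (b : Bool) (h : .bit γ x (!b) ∉ c.1.g) :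
    ∃ c' ≤ c, c'.1.y = c.1.y ∧ .bit γ x b ∈ c'.1.g ∧
      ∀ α ∈ c'.1.g, α ∈ c.1.g ∨ α = .bit γ x b := by
  obtain ⟨pos, hpos⟩ := c.2.good
  obtain ⟨pos', -, h2, h3, h4⟩ := exists_newpos c.1.fg hpos (Set.finite_singleton x)
  have hcut : ∀ a q b', Atom.cut a q b' ∈ insert (Atom.bit γ x b) c.1.g →
      Atom.cut a q b' ∈ c.1.g := by
    rintro a q b' (h1 | h1)
    · cases h1
    · exact h1
  have hpc : ∀ l t y, Atom.pc l t y ∈ insert (Atom.bit γ x b) c.1.g →
      Atom.pc l t y ∈ c.1.g := by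
    rintro l t y (h1 | h1)
    · cases h1
    · exact h1
  have hpts : pts (insert (Atom.bit γ x b) c.1.g) ⊆ pts c.1.g ∪ {x} := by
    rintro z ⟨α, rfl | hα, hz⟩
    · exact Or.inr hz
    · exact Or.inl ⟨α, hα, hz⟩
  have hgood : Good (insert (Atom.bit γ x b) c.1.g) pos' :=
    { ok := ⟨fun a q ha => h2.ok.lt a q (hcut _ _ _ ha),
        fun a q ha => h2.ok.gt a q (hcut _ _ _ ha)⟩
      inj := h3.mono hpts
      irr := by
        intro a ha
        rcases hpts ha with h5 | h5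
        · exact h2.irr a h5
        · exact h4 a h5
      inc := fun l t y t' y' h5 h6 => h2.inc l t y t' y' (hpc _ _ _ h5) (hpc _ _ _ h6) }
  have hle : (⟨c.1.y, insert (Atom.bit γ x b) c.1.g, c.1.cy, c.1.fg.insert _⟩ : Pre) ≤ c.1 :=
    ⟨YLe.refl _, Set.subset_insert _ _⟩
  refine ⟨⟨⟨c.1.y, insert (Atom.bit γ x b) c.1.g, c.1.cy, c.1.fg.insert _⟩,
    c.2.mk' hle c.2.yg ⟨pos', hgood⟩ ?_ fun ξ t y h5 => Or.inl (hpc _ _ _ h5)⟩, hle, rfl,
    Or.inl rfl, ?_⟩
  · rintro γ' x' (h5 | h5) (h6 | h6)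
    · cases h5
      cases h6
    · cases h5
      exact h h6
    · cases h6
      exact h h5
    · exact c.2.bit γ' x' h5 h6
  · rintro α (h5 | h5)
    · exact Or.inr h5
    · exact Or.inl h5

end SSO
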