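import Pool.Agent.SSO.FDef
import Pool.Agent.SSO.LThree
import Pool.Agent.SSO.PBit

/-! # The condition `q1`, and the paths (package F3)

(problem MP_ceadec_lc, project SSO, part F)

* `exists_q1`: `three C (PW.cl β)` gives `q0`. `q0` is below the conditions `d ∈ D (C.φ 2 kb)`, `D (C.φ 2 kt)` above `C.c 2` by the clause about `a : Pre`
  (`h.d1`, `Plt.pw`). `bit β (C.φ 2 kt) true ∉ q0.1.g`: by the list of the atoms of `q0` it would be in `(C.c 0).1.g` or `(C.c 1).1.g` (then `C.φ 2 kt = C.φ 0 k` for some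
  `k` by `C.cg`, `map_bit`, a contradiction to `C.fam.nφ` and `hC.nr`; the same for 1), or in `(C.c 2).1.g` with `PW β` (`PW.no_bit`), or a cut. So `add_bit`
  (with `b = false`) gives `q1 ≤ q0`.
* `pth_bd`: induction on `Pth`. For `kb`, `kt`: `C.c n ∈ B (C.φ n kb)` by `hC.db`, `h.d0`, `(B _).down`, so `h.bd` with `hC.le`. Step: `pc a (inl z) x ∈ C.gs`:
  `(C.c n).2.thin` (with `C.cg`, `map_thin_mem`) and `yg.w`: `(C.φ n z).1 ∈ W (C.ψ n a) (C.φ n x)`, so `(C.φ n x).1 < (C.φ n z).1` by `wok.gi`.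
* `pth_pw`: the same fact and `wok.gs`: `(dat (C.ψ n a)).s (C.φ n x) < (C.φ n z).1 < (dat β).b`. -/

set_option autoImplicit false

namespace SSO

open STP

variable {q : Cn} {B : Pt → RO Cn} {f : Pt → Pt → RO Cn} {β : Lb} {D : Pt → Set Cn} {C : Cop}
  {kb kt : Fin C.m}

theorem exists_q1 (h : Sett q B f β D) (hC : CopOk q f β D C kb kt) :
    ∃ q1 : Cn, q1 ≤ C.c 0 ∧ q1 ≤ C.c 1 ∧ (∀ α ∈ (C.c 2).1.g, PW β α → α ∈ q1.1.g) ∧
      (∃ d ∈ D (C.φ 2 kb), q1 ≤ d) ∧ (∃ d ∈ D (C.φ 2 kt), q1 ≤ d) ∧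
      .bit β (C.φ 2 kt) false ∈ q1.1.g ∧
      ∀ k, k ∉ C.R → Dec q1.1.g (C.φ 0 k) (C.φ 2 k) ∧ Dec q1.1.g (C.φ 2 k) (C.φ 1 k) := by
  obtain ⟨q0, h0, h1, -, h2, h3, h4, h5⟩ := three C (PW.cl β)
  have hd : ∀ a, (∃ d ∈ D a, C.c 2 ≤ d) → ∃ d ∈ D a, q0 ≤ d := by
    rintro a ⟨d, hd, hle⟩
    exact ⟨d, hd, h4 d.1 hle fun α hα => Plt.pw (h.d1 a d hd α hα)⟩
  have hn : ∀ n, n ≠ 2 → .bit β (C.φ 2 kt) true ∉ (C.c n).1.g := by
    intro n hn2 hb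
    rw [C.cg n] at hb
    obtain ⟨l, x, -, hx, -⟩ := map_bit.1 hb
    exact hn2 (C.fam.nφ 2 n kt x hC.nr hx.symm).symm
  have hbit : .bit β (C.φ 2 kt) (!false) ∉ q0.1.g := by
    intro hb
    rcases h3 _ hb with h6 | h6 | h6 | h6
    · exact hn 0 (by norm_num) h6
    · exact hn 1 (by norm_num) h6
    · exact PW.no_bit h6.2
    · exact h6
  obtain ⟨q1, hq, -, hb, -⟩ := add_bit q0 β (C.φ 2 kt) false hbit
  have hsub : q0.1.g ⊆ q1.1.g := hq.2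
  refine ⟨q1, hq.trans h0, hq.trans h1, fun α hα hp => hsub (h2 α hα hp), ?_, ?_, hb,
    fun k hk => ⟨(h5 k hk).1.mono hsub, (h5 k hk).2.mono hsub⟩⟩
  · obtain ⟨d, hd1, hd2⟩ := hd _ (hC.db 2)
    exact ⟨d, hd1, hq.trans hd2⟩
  · obtain ⟨d, hd1, hd2⟩ := hd _ (hC.dt 2)
    exact ⟨d, hd1, hq.trans hd2⟩

private theorem fq_mem (C : Cop) {a : Fin C.l} {z x : Fin C.m} (hx : .pc a (.inl z) x ∈ C.gs)
    (n : ℕ) : (C.φ n z).1 ∈ W (C.ψ n a) (C.φ n x) := by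
  have h1 : .pc (C.ψ n a) (.inl (C.φ n z)) (C.φ n x) ∈ (C.c n).1.g := by
    rw [C.cg n]
    exact ⟨_, hx, rfl⟩
  exact (C.c n).2.yg.w _ _ _ ((C.c n).2.thin _ _ _ h1).2

theorem pth_bd (h : Sett q B f β D) (hC : CopOk q f β D C kb kt) {z : Fin C.m}
    (hz : Pth C kb kt z) (n : ℕ) : (C.φ n z).1 < (dat β).b := by
  have key : ∀ a, (∃ d ∈ D a, C.c n ≤ d) → a.1 < (dat β).b := by
    rintro a ⟨d, hd, hle⟩
    exact h.bd (C.c n) (hC.le n) a ((B a).down hle (h.d0 a d hd))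
  induction hz with
  | b => exact key _ (hC.db n)
  | t => exact key _ (hC.dt n)
  | step a z x ha hx hz ih => exact (wok.gi _ _ _ (fq_mem C hx n)).trans ih

theorem pth_pw (h : Sett q B f β D) (hC : CopOk q f β D C kb kt) {z : Fin C.m}
    (hz : Pth C kb kt z) {a : Fin C.l} (ha : a ∈ C.F) {x : Fin C.m}
    (hx : .pc a (.inl z) x ∈ C.gs) (n : ℕ) :
    PW β (.pc (C.ψ n a) (.inl (C.φ n z)) (C.φ n x)) :=
  Or.inr ((wok.gs _ _ _ (fq_mem C hx n)).trans (pth_bd h hC hz n))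

end SSO
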