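import Pool.Agent.SSO.FSeq
import Pool.Agent.SSO.FQ
import Pool.Agent.SSO.FAm
import Pool.Agent.SSO.PLin

/-! # The final contradiction (package F6)

(problem MP_ceadec_lc, project SSO, part F)

`exists_copOk h`: `C`, `kb`, `kt`, `hC`. `exists_q1 h hC`: `q1`. Let `b n := C.φ n kb`, `t n := C.φ n kt`. `q1 ∈ B (b 2)`, `q1 ∈ B (t 2)` (`h.d0`, `RO.down`), `q1 ≤ q` (by `C.c 0`, `hC.le`).
`h.mono.dom`: `q2 ≤ q1`, `t'` with `q2 ∈ f (b 2) t'`. `h.mono.val`: `q2 ∈ Tn B β t'`. `t' ≠ t 2`: `q2 ∈ Tn B β (t 2)` would give (`mem_Tn`) a condition `q' ≤ q2` with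
`bit β (t 2) true ∈ q'.1.g`, but `bit β (t 2) false ∈ q1.1.g ⊆ q'.1.g` (`q'.2.bit`). `tlo.tot` and `dec_of_lt`: `q3 ≤ q2` with `Dec q3.1.g t' (t 2)` or `Dec q3.1.g (t 2) t'`.
New copy: there is `n` with `C.φ n k ∉ pts q3.1.g` for all `k ∉ C.R` and `C.ψ n k ∉ lbs q3.1.g` for all `k ∉ C.F`: for each `k` the function `n ↦ C.φ n k` is injective
(`C.fam.nφ`), and `pts q3.1.g` is finite, so only finitely many `n` are bad for `k`; there are finitely many `k` (and the same for labels).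
`amal` for `q3`, `n`, `P := Pth C kb kt`, `side`: hypotheses: `hq0`, `hq1`, `hd` from `q1` (`Dec.mono`); `h2`: cuts satisfy `PW β`, `(C.c 2).1.g = Atom.map .. '' C.gs`; `h2p`: `Pth.step`
and `pth_pw` (the piece is in `(C.c 2).1.g` and `PW β`, so in `q1.1.g`).
Case `Dec q3.1.g t' (t 2)`, `side = true`: `r ≤ q3`, `r ≤ C.c n`, `Dec r.1.g t' (t n)` (`kt ∉ C.R`, `Pth.t`). `r ∈ f (b n) (t n)` (`hC.val`), `r ∈ f (b 2) t'`, `r ∈ B (b n)`, `r ∈ B (b 2)`. If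
`kb ∈ C.R` then `b n = b 2` (`C.fam.rφ`), and `h.mono.un` gives `t n = t'`, a contradiction to `Dec r.1.g t' (t n)` (`tlo.irr`, `Dec.mem_Lt`). Otherwise `Dec r.1.g (b n) (b 2)`
(`Pth.b`), and `h.mono.mono` gives `t n = t'` or `r ∈ Lt (t n) t'`, both contradict `r ∈ Lt t' (t n)` (`lt_asymm'`).
Case `Dec q3.1.g (t 2) t'`, `side = false`: `Dec r.1.g (t n) t'`, and `b n = b 2` or `Dec r.1.g (b 2) (b n)`, `h.mono.mono`: `t' = t n` or `r ∈ Lt t' (t n)`: contradiction.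

`neg_KS`: let `q`, `B`, `f0` be given with the three hypotheses. `bdd_image`: `s`. `exists_beta B s`: `β`, `D`. `T := Tn B β`. `T a ≤ B a`: `inf_le_left`. There are `r ≤ q`, `x` with `r ∈ T x`:
`exists_new` for `q`, `C = ∅` (`mem_Tn`). If `r' ≤ r` and `TMono Lt r' B T F` then `Sett r' B F β D` (`bd` by `bdd_image`), a contradiction to `no_sett`. -/

set_option autoImplicit false

namespace SSO

open STP

private theorem exists_copy (C : Cop) (g : Set (Atom Lb Pt)) (hg : g.Finite) :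
    ∃ n, (∀ k, k ∉ C.R → C.φ n k ∉ pts g) ∧ ∀ k, k ∉ C.F → C.ψ n k ∉ lbs g := by
  have h1 : {n : ℕ | ∃ k, k ∉ C.R ∧ C.φ n k ∈ pts g}.Finite := by
    have : {n : ℕ | ∃ k, k ∉ C.R ∧ C.φ n k ∈ pts g} =
        ⋃ k : Fin C.m, {n | k ∉ C.R ∧ C.φ n k ∈ pts g} := by
      ext n
      simp
    rw [this]
    refine Set.finite_iUnion fun k => ?_
    by_cases hk : k ∈ C.R
    · refine Set.Finite.subset Set.finite_empty ?_
      rintro n ⟨h, -⟩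
      exact (h hk).elim
    · refine Set.Finite.subset (s := (fun n => C.φ n k) ⁻¹' pts g) ?_ fun n h => h.2
      exact (pts_finite hg).preimage fun m _ n _ hmn => C.fam.nφ m n k k hk hmn
  have h2 : {n : ℕ | ∃ k, k ∉ C.F ∧ C.ψ n k ∈ lbs g}.Finite := by
    have : {n : ℕ | ∃ k, k ∉ C.F ∧ C.ψ n k ∈ lbs g} =
        ⋃ k : Fin C.l, {n | k ∉ C.F ∧ C.ψ n k ∈ lbs g} := by
      ext n
      simp
    rw [this]
    refine Set.finite_iUnion fun k => ?_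
    by_cases hk : k ∈ C.F
    · refine Set.Finite.subset Set.finite_empty ?_
      rintro n ⟨h, -⟩
      exact (h hk).elim
    · refine Set.Finite.subset (s := (fun n => C.ψ n k) ⁻¹' lbs g) ?_ fun n h => h.2
      exact (lbs_finite hg).preimage fun m _ n _ hmn => C.fam.nψ m n k k hk hmn
  obtain ⟨n, hn⟩ := (h1.union h2).infinite_compl.nonempty
  exact ⟨n, fun k hk h => hn (Or.inl ⟨k, hk, h⟩), fun k hk h => hn (Or.inr ⟨k, hk, h⟩)⟩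

theorem no_sett {q : Cn} {B : Pt → RO Cn} {f : Pt → Pt → RO Cn} {β : Lb} {D : Pt → Set Cn} :
    ¬ Sett q B f β D := by
  intro h
  obtain ⟨C, kb, kt, hC⟩ := exists_copOk h
  obtain ⟨q1, h10, h11, hpw, ⟨db, hdb, hqb⟩, ⟨dt, hdt, hqt⟩, hbit, hdec⟩ := exists_q1 h hC
  have hq1 : q1 ≤ q := h10.trans (hC.le 0)
  have hb2 : q1 ∈ B (C.φ 2 kb) := (B _).down hqb (h.d0 _ _ hdb)
  obtain ⟨q2, h21, t', ht'⟩ := h.mono.dom q1 hq1 _ hb2
  have hq2 : q2 ≤ q := h21.trans hq1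
  have hb2' : q2 ∈ B (C.φ 2 kb) := (B _).down h21 hb2
  have htn : q2 ∈ Tn B β t' := h.mono.val q2 hq2 _ _ hb2' ht'
  have hne : t' ≠ C.φ 2 kt := by
    rintro rfl
    obtain ⟨q', hq', hbt⟩ := (mem_Tn.1 htn).2 q2 le_rfl
    exact q'.2.bit _ _ hbt ((hq'.trans h21).2 hbit)
  obtain ⟨q3, h32, hside⟩ : ∃ q3 ≤ q2, Dec q3.1.g t' (C.φ 2 kt) ∨ Dec q3.1.g (C.φ 2 kt) t' := by
    obtain ⟨r, hr, h1 | h1⟩ := tlo.tot q2 _ _ hne
    · obtain ⟨r', hr', h2⟩ := dec_of_lt h1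
      exact ⟨r', hr'.trans hr, Or.inl h2⟩
    · obtain ⟨r', hr', h2⟩ := dec_of_lt h1
      exact ⟨r', hr'.trans hr, Or.inr h2⟩
  have h31 : q3 ≤ q1 := h32.trans h21
  obtain ⟨n, hn, hnl⟩ := exists_copy C q3.1.g q3.1.fg
  have hmem : ∀ α ∈ C.gs, Atom.map (C.ψ 2) (C.φ 2) α ∈ (C.c 2).1.g := by
    intro α hα
    rw [C.cg 2]
    exact ⟨α, hα, rfl⟩
  have h2 : ∀ a r b, .cut a r b ∈ C.gs → .cut (C.φ 2 a) r b ∈ q3.1.g :=
    fun a r b hα => h31.2 (hpw _ (hmem _ hα) trivial)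
  have h2p : ∀ a ∈ C.F, ∀ z, Pth C kb kt z → ∀ x, .pc a (.inl z) x ∈ C.gs →
      Pth C kb kt x ∧ .pc (C.ψ 2 a) (.inl (C.φ 2 z)) (C.φ 2 x) ∈ q3.1.g :=
    fun a ha z hz x hx => ⟨Pth.step a z x ha hx hz, h31.2 (hpw _ (hmem _ hx) (pth_pw h hC hz ha hx 2))⟩
  have hd : ∀ k, k ∉ C.R → Dec q3.1.g (C.φ 0 k) (C.φ 2 k) ∧ Dec q3.1.g (C.φ 2 k) (C.φ 1 k) :=
    fun k hk => ⟨(hdec k hk).1.mono h31.2, (hdec k hk).2.mono h31.2⟩
  have key : ∀ side : Bool, ∃ r : Cn, r ≤ q3 ∧ r ≤ C.c n ∧ ∀ k, Pth C kb kt k → k ∉ C.R →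
      (side = true → Dec r.1.g (C.φ n k) (C.φ 2 k) ∧
        ∀ a, Dec q3.1.g a (C.φ 2 k) → Dec r.1.g a (C.φ n k)) ∧
      (side = false → Dec r.1.g (C.φ 2 k) (C.φ n k) ∧
        ∀ a, Dec q3.1.g (C.φ 2 k) a → Dec r.1.g (C.φ n k) a) :=
    fun side => amal C (h31.trans h10) (h31.trans h11) h2 h2p hd hn hnl side
  have hcn : ∀ r : Cn, r ≤ q3 → r ≤ C.c n → r ≤ q ∧ r ∈ B (C.φ n kb) ∧ r ∈ B (C.φ 2 kb) ∧
      r ∈ f (C.φ n kb) (C.φ n kt) ∧ r ∈ f (C.φ 2 kb) t' := by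
    intro r hr hrn
    obtain ⟨d, hd1, hd2⟩ := hC.db n
    exact ⟨hr.trans (h32.trans hq2), (B _).down (hrn.trans hd2) (h.d0 _ _ hd1),
      (B _).down (hr.trans h32) hb2', (f _ _).down hrn (hC.val n),
      (f _ _).down (hr.trans h32) ht'⟩
  rcases hside with hs | hs
  · obtain ⟨r, hr, hrn, hk⟩ := key true
    obtain ⟨hrq, hB1, hB2, hf1, hf2⟩ := hcn r hr hrn
    have hlt : r ∈ Lt t' (C.φ n kt) := (((hk kt Pth.t hC.nr).1 rfl).2 _ hs).mem_Lt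
    by_cases hb : kb ∈ C.R
    · rw [C.fam.rφ n 2 kb hb] at hf1
      have := h.mono.un r hrq _ _ _ hB2 hf1 hf2
      rw [this] at hlt
      exact tlo.irr _ _ hlt
    · have hlb : r ∈ Lt (C.φ n kb) (C.φ 2 kb) := ((hk kb Pth.b hb).1 rfl).1.mem_Lt
      rcases h.mono.mono r hrq _ _ _ _ hB1 hB2 hf1 hf2 hlb with h5 | h5
      · rw [h5] at hlt
        exact tlo.irr _ _ hlt
      · exact lt_asymm' h5 hlt
  · obtain ⟨r, hr, hrn, hk⟩ := key false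
    obtain ⟨hrq, hB1, hB2, hf1, hf2⟩ := hcn r hr hrn
    have hlt : r ∈ Lt (C.φ n kt) t' := (((hk kt Pth.t hC.nr).2 rfl).2 _ hs).mem_Lt
    by_cases hb : kb ∈ C.R
    · rw [C.fam.rφ n 2 kb hb] at hf1
      have := h.mono.un r hrq _ _ _ hB2 hf1 hf2
      rw [this] at hlt
      exact tlo.irr _ _ hlt
    · have hlb : r ∈ Lt (C.φ 2 kb) (C.φ n kb) := ((hk kb Pth.b hb).2 rfl).1.mem_Lt
      rcases h.mono.mono r hrq _ _ _ _ hB2 hB1 hf2 hf1 hlb with h5 | h5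
      · rw [h5] at hlt
        exact tlo.irr _ _ hlt
      · exact lt_asymm' h5 hlt

end SSO
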