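import Pool.Agent.SSO.FFin
import Pool.Agent.SSO.ELab

/-! # No uncountable image of `KS` is strongly surjective (package F7)

(problem MP_ceadec_lc, project SSO, part F)

Let `q`, `B`, `f0` be given with the three hypotheses of `TNeg`. `bdd_image` (file `RBd`): `s` with `a.1 < s` whenever `r ≤ q`, `r ∈ B a`. `exists_beta B s`: `β`, `D`. `T := Tn B β`.
`T a ≤ B a`: `inf_le_left` (unfold `Tn`). There are `r ≤ q`, `x` with `r ∈ T x`: `exists_new` for `q`, `C = ∅`: `r ≤ q`, `a`, `d ∈ D a` with `r ≤ d`, `bit β a true ∈ r.1.g`; `r ∈ B a`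
by `d ∈ B a`, and `mem_Tn`. If `r' ≤ r` and `TMono Lt r' B T F` then `Sett r' B F β D` (all clauses for conditions below `q` hold below `r'`), a contradiction to `no_sett`. -/

set_option autoImplicit false

namespace SSO

open STP

theorem neg_KS : TNeg Lt KS := by
  intro q B f0 hunc hun honto
  obtain ⟨s, hs⟩ := bdd_image hun honto
  obtain ⟨β, D, hb, d0, d1, d2⟩ := exists_beta B s
  obtain ⟨r, hr, a, -, ⟨d, hd, hrd⟩, hbit⟩ := exists_new d1 d2 hunc (le_refl q)
    (C := ∅) Set.countable_empty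
  have hra : r ∈ B a := (B a).down hrd (d0 a d hd)
  refine ⟨r, hr, Tn B β, fun a => inf_le_left, ⟨a, mem_Tn.2 ⟨hra, fun c' hc' =>
    ⟨c', le_rfl, hc'.2 hbit⟩⟩⟩, fun r' hr' F hF => ?_⟩
  have hq : r' ≤ q := hr'.trans hr
  exact no_sett
    { d0 := d0
      d1 := d1
      d2 := d2
      bd := fun r1 h1 a h2 => hb ▸ hs r1 (h1.trans hq) a h2
      unc := fun r1 h1 => hunc r1 (h1.trans hq)
      mono := hF }

end SSO
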