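import Pool.Agent.SSO.FDef
import Pool.Agent.SSO.PBit

/-! # New elements of the generic subset (package F1)

(problem MP_ceadec_lc, project SSO, part F)

Let `r ≤ q`, `C` countable. `h.unc` for `r` and `C ∪ pts r.1.g` (`pts_finite`): `r1 ≤ r`, `a ∉ C`, `a ∉ pts r.1.g`, `r1 ∈ B a`. `h.d2`: `r2 ≤ r1`, `d ∈ D a` with
`r2 ≤ d`. `restrict` for `r2 ≤ r` and `Plt.cl β`: `r3 ≤ r` with `r3.1.g = r.1.g ∪ {α ∈ r2.1.g | Plt β α}`, and `r3 ≤ d` by its last clause and `h.d1`.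
`bit β a false ∉ r3.1.g`: not in `r.1.g` since `a ∉ pts r.1.g` (`mem_pts_bit`), and `¬ Plt β (bit β a false)` (`Plt.no_bit`). `add_bit` gives `r' ≤ r3` with
`bit β a true ∈ r'.1.g`. -/

set_option autoImplicit false

namespace SSO

open STP

theorem exists_new {q : Cn} {B : Pt → RO Cn} {β : Lb} {D : Pt → Set Cn}
    (d1 : ∀ a, ∀ d ∈ D a, ∀ α ∈ d.1.g, Plt β α)
    (d2 : ∀ a, ∀ c ∈ B a, ∃ c' ≤ c, ∃ d ∈ D a, c' ≤ d)
    (unc : ∀ r ≤ q, ∀ C : Set Pt, C.Countable → ∃ r' ≤ r, ∃ a, a ∉ C ∧ r' ∈ B a)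
    {r : Cn} (hr : r ≤ q) {C : Set Pt} (hC : C.Countable) :
    ∃ r' ≤ r, ∃ a, a ∉ C ∧ (∃ d ∈ D a, r' ≤ d) ∧ .bit β a true ∈ r'.1.g := by
  obtain ⟨r1, h1, a, ha, hB⟩ := unc r hr (C ∪ pts r.1.g)
    (hC.union (pts_finite r.1.fg).countable)
  have haC : a ∉ C := fun h => ha (Or.inl h)
  have hag : a ∉ pts r.1.g := fun h => ha (Or.inr h)
  obtain ⟨r2, h2, d, hd, h2d⟩ := d2 a r1 hB
  obtain ⟨r3, h23, h3r, h3y, h3g, h3a⟩ := restrict (le_trans h2 h1) (Plt.cl β)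
  have h3d : r3 ≤ d := h3a d.1 h2d (d1 a d hd)
  have hbit : Atom.bit β a (!true) ∉ r3.1.g := by
    rw [h3g]
    rintro (h | h)
    · exact hag (mem_pts_bit h)
    · exact Plt.no_bit h.2
  obtain ⟨r', h', hy, hb, hα⟩ := add_bit r3 β a true hbit
  exact ⟨r', le_trans h' h3r, a, haC, ⟨d, hd, le_trans h' h3d⟩, hb⟩

end SSO
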