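import Pool.Agent.SSO.Pos
import Pool.Agent.SSO.GRoom

/-! # The positions of the new copy (package F4)

(problem MP_ceadec_lc, project SSO, part F)

* `near`: let `w` be the distance of `v` to the nearest element of the finite set `V \ {v}` (or `1`); take an irrational `r ∉ S` in `(v - w, v)` or in `(v, v + w)`
  (`exists_irr`).
* Uniqueness of the out-edge: for `k ∉ C.R`, `a, a' ∈ C.F`, `pc a (inl k) x`, `pc a' (inl k) x' ∈ C.gs`: `a = a'` by `C.k3`, and `x = x'`: a good position `π` of `C.gs`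
  exists (`(C.c 0).2.good`, `C.cg`, `Good.comap`), and `Inc π (inl k) x (inl k) x'` gives `x = x'` (the other cases have `π k < π k`). By `C.fam.k1` `x ∉ C.R`.
  The rank `rk k := (C.φ 0 k).1` decreases: `rk x < rk k` (`(C.c 0).2.thin`, `yg.w`, `wok.gi`).
* `exists_rho`: prove by induction on the cardinality of a finite set `S ⊆ C.Rᶜ` of indices which is closed under out-edges (`k ∈ S`, `a ∈ C.F`, `pc a (inl k) x ∈ C.gs` imply
  `x ∈ S`): there is `ρ` with all properties for `k, k' ∈ S`. Step: let `k ∈ S` have maximal rank; `S \ {k}` is closed (its out-edges end in points of smaller rank than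
  some element, so not in `k`). Let `ρ` be given for `S \ {k}`; define `ρ k := r`, where `r ∉ V ∪ ρ '' (S \ {k})` is irrational and
  - if `k ∈ P`: `r` near `v = pos (C.φ 2 k)` for the finite set `V ∪ {pos (C.φ 0 k), pos (C.φ 1 k)}`, on the given side (`near`); so also
    `pos (C.φ 0 k) < r < pos (C.φ 1 k)` by `hd`;
  - if `k ∉ P` has the out-edge `(a, x)`: `room hf hg (C.ψ 0 a) (ρ x)` gives `u < w`; take `r` in `(u, w)` (`exists_irr`). The pieces of the copies 0 and 1: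
    `pc (C.ψ 0 a) (inl (C.φ 0 k)) (C.φ 0 x) ∈ g` and `pos (C.φ 0 x) < ρ x`, so `pos (C.φ 0 k) ≤ u < r`; `pc (C.ψ 1 a) (inl (C.φ 1 k)) (C.φ 1 x) ∈ g`, `C.ψ 1 a = C.ψ 0 a`
    (`C.fam.rψ`), `ρ x < pos (C.φ 1 x)`, so `r < w ≤ pos (C.φ 1 k)`. For `pc (C.ψ 0 a) t x1 ∈ g`: `pos x1 < ρ x` implies `ps pos t ≤ u < r`, etc. By uniqueness this is
    the last clause for `k`;
  - if `k ∉ P` has no out-edge: any such `r` in `(pos (C.φ 0 k), pos (C.φ 1 k))`.
  For `S = C.Rᶜ` (closed by `C.fam.k1`) this is the theorem. -/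

set_option autoImplicit false

namespace SSO

private theorem lo_aux {A : Set ℝ} (hA : A.Finite) {v : ℝ} (h : ∀ a ∈ A, a < v) :
    ∃ u, u < v ∧ ∀ a ∈ A, a ≤ u := by
  rcases A.eq_empty_or_nonempty with h0 | h0
  · refine ⟨v - 1, by linarith, fun a ha => ?_⟩
    rw [h0] at ha
    exact ha.elim
  · obtain ⟨u, hu, hu'⟩ := Set.exists_max_image A id hA h0
    exact ⟨u, h u hu, fun a ha => hu' a ha⟩

private theorem hi_aux {A : Set ℝ} (hA : A.Finite) {v : ℝ} (h : ∀ a ∈ A, v < a) :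
    ∃ u, v < u ∧ ∀ a ∈ A, u ≤ a := by
  rcases A.eq_empty_or_nonempty with h0 | h0
  · refine ⟨v + 1, by linarith, fun a ha => ?_⟩
    rw [h0] at ha
    exact ha.elim
  · obtain ⟨u, hu, hu'⟩ := Set.exists_min_image A id hA h0
    exact ⟨u, h u hu, fun a ha => hu' a ha⟩

theorem near (v : ℝ) {V S : Set ℝ} (hV : V.Finite) (hS : S.Finite) (side : Bool) :
    ∃ r, Irrational r ∧ r ∉ S ∧ (∀ u ∈ V, (u < v → u < r) ∧ (v < u → r < u)) ∧
      (side = true → r < v) ∧ (side = false → v < r) := by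
  cases side with
  | true =>
    obtain ⟨u, hu, hu'⟩ := lo_aux (A := {u | u ∈ V ∧ u < v}) (hV.subset fun u hu => hu.1)
      (fun u hu => hu.2)
    obtain ⟨r, h1, h2, h3, h4⟩ := exists_irr hu hS
    refine ⟨r, h3, h4, fun x hx => ⟨fun hxv => (hu' x ⟨hx, hxv⟩).trans_lt h1,
      fun hxv => h2.trans hxv⟩, fun _ => h2, fun h => ?_⟩
    exact absurd h (by decide)
  | false =>
    obtain ⟨u, hu, hu'⟩ := hi_aux (A := {u | u ∈ V ∧ v < u}) (hV.subset fun u hu => hu.1)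
      (fun u hu => hu.2)
    obtain ⟨r, h1, h2, h3, h4⟩ := exists_irr hu hS
    refine ⟨r, h3, h4, fun x hx => ⟨fun hxv => hxv.trans h1,
      fun hxv => h2.trans_le (hu' x ⟨hx, hxv⟩)⟩, fun h => ?_, fun _ => h1⟩
    exact absurd h (by decide)

private theorem fr_rank (C : Cop) {k x : Fin C.m} {a : Fin C.l}
    (h : .pc a (.inl k) x ∈ C.gs) : (C.φ 0 x).1 < (C.φ 0 k).1 := by
  have h1 : Atom.pc (C.ψ 0 a) (.inl (C.φ 0 k)) (C.φ 0 x) ∈ (C.c 0).1.g := by
    rw [C.cg 0]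
    exact (map_thin_mem (C.fam.injψ 0) (C.fam.injφ 0)).2 h
  have h2 := (C.c 0).2.thin _ _ _ h1
  exact wok.gi _ _ _ ((C.c 0).2.yg.w _ _ _ h2.2)

private theorem fr_uniq (C : Cop) {k x x' : Fin C.m} {a a' : Fin C.l} (hk : k ∉ C.R)
    (ha : a ∈ C.F) (ha' : a' ∈ C.F) (h : .pc a (.inl k) x ∈ C.gs)
    (h' : .pc a' (.inl k) x' ∈ C.gs) : a = a' ∧ x = x' := by
  have haa := C.k3 a ha a' ha' k x x' hk h h'
  subst haa
  obtain ⟨π0, hπ0⟩ := (C.c 0).2.good
  rw [C.cg 0] at hπ0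
  have hπ := hπ0.comap (C.fam.injφ 0)
  rcases hπ.inc a (.inl k) x (.inl k) x' h h' with ⟨h1, -⟩ | ⟨h1, -⟩ | ⟨h1, -⟩
  · exact ⟨rfl, h1⟩
  · exact absurd h1 (lt_irrefl _)
  · exact absurd h1 (lt_irrefl _)


theorem exists_rho (C : Cop) {g : Set (Atom Lb Pt)} (hf : g.Finite) {pos : Pt → ℝ}
    (hg : Good g pos) (h0 : (C.c 0).1.g ⊆ g) (h1 : (C.c 1).1.g ⊆ g)
    (hd : ∀ k, k ∉ C.R → pos (C.φ 0 k) < pos (C.φ 2 k) ∧ pos (C.φ 2 k) < pos (C.φ 1 k))
    (P : Fin C.m → Prop) {V : Set ℝ} (hV : V.Finite) (side : Bool) :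
    ∃ ρ : Fin C.m → ℝ,
      (∀ k, k ∉ C.R → Irrational (ρ k) ∧ ρ k ∉ V) ∧
      (∀ k k', k ∉ C.R → k' ∉ C.R → ρ k = ρ k' → k = k') ∧
      (∀ k, k ∉ C.R → pos (C.φ 0 k) < ρ k ∧ ρ k < pos (C.φ 1 k)) ∧
      (∀ k, P k → k ∉ C.R →
        (∀ u ∈ V, (u < pos (C.φ 2 k) → u < ρ k) ∧ (pos (C.φ 2 k) < u → ρ k < u)) ∧
        (side = true → ρ k < pos (C.φ 2 k)) ∧ (side = false → pos (C.φ 2 k) < ρ k)) ∧
      ∀ k, ¬ P k → k ∉ C.R → ∀ a ∈ C.F, ∀ x, .pc a (.inl k) x ∈ C.gs →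
        ∀ t x1, .pc (C.ψ 0 a) t x1 ∈ g →
          (pos x1 < ρ x → ps pos t < ρ k) ∧ (ρ x < pos x1 → ρ k < ps pos t) := by
  classical
  have hin : ∀ (i : ℕ) {k x : Fin C.m} {a : Fin C.l}, .pc a (.inl k) x ∈ C.gs →
      Atom.pc (C.ψ i a) (.inl (C.φ i k)) (C.φ i x) ∈ (C.c i).1.g := by
    intro i k x a h
    rw [C.cg i]
    exact (map_thin_mem (C.fam.injψ i) (C.fam.injφ i)).2 h
  have key : ∀ S : Finset (Fin C.m),
      (∀ k ∈ S, ∀ a ∈ C.F, ∀ x, .pc a (.inl k) x ∈ C.gs → x ∈ S) → (∀ k ∈ S, k ∉ C.R) →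
      ∃ ρ : Fin C.m → ℝ,
        (∀ k ∈ S, Irrational (ρ k) ∧ ρ k ∉ V) ∧
        (∀ k ∈ S, ∀ k' ∈ S, ρ k = ρ k' → k = k') ∧
        (∀ k ∈ S, pos (C.φ 0 k) < ρ k ∧ ρ k < pos (C.φ 1 k)) ∧
        (∀ k ∈ S, P k →
          (∀ u ∈ V, (u < pos (C.φ 2 k) → u < ρ k) ∧ (pos (C.φ 2 k) < u → ρ k < u)) ∧
          (side = true → ρ k < pos (C.φ 2 k)) ∧ (side = false → pos (C.φ 2 k) < ρ k)) ∧
        ∀ k ∈ S, ¬ P k → ∀ a ∈ C.F, ∀ x, .pc a (.inl k) x ∈ C.gs →
          ∀ t x1, .pc (C.ψ 0 a) t x1 ∈ g →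
            (pos x1 < ρ x → ps pos t < ρ k) ∧ (ρ x < pos x1 → ρ k < ps pos t) := by
    intro S
    refine Finset.induction_on_max_value (fun k : Fin C.m => (C.φ 0 k).1)
      (motive := fun S : Finset (Fin C.m) =>
        (∀ k ∈ S, ∀ a ∈ C.F, ∀ x, .pc a (.inl k) x ∈ C.gs → x ∈ S) → (∀ k ∈ S, k ∉ C.R) →
      ∃ ρ : Fin C.m → ℝ,
        (∀ k ∈ S, Irrational (ρ k) ∧ ρ k ∉ V) ∧
        (∀ k ∈ S, ∀ k' ∈ S, ρ k = ρ k' → k = k') ∧
        (∀ k ∈ S, pos (C.φ 0 k) < ρ k ∧ ρ k < pos (C.φ 1 k)) ∧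
        (∀ k ∈ S, P k →
          (∀ u ∈ V, (u < pos (C.φ 2 k) → u < ρ k) ∧ (pos (C.φ 2 k) < u → ρ k < u)) ∧
          (side = true → ρ k < pos (C.φ 2 k)) ∧ (side = false → pos (C.φ 2 k) < ρ k)) ∧
        ∀ k ∈ S, ¬ P k → ∀ a ∈ C.F, ∀ x, .pc a (.inl k) x ∈ C.gs →
          ∀ t x1, .pc (C.ψ 0 a) t x1 ∈ g →
            (pos x1 < ρ x → ps pos t < ρ k) ∧ (ρ x < pos x1 → ρ k < ps pos t)) S ?_ ?_
    · intro _ _
      refine ⟨fun _ => 0, ?_, ?_, ?_, ?_, ?_⟩ <;>
        (intro k hk; exact absurd hk (Finset.notMem_empty k))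
    · intro e s hes hmax ih hcl hR
      have hcl' : ∀ k ∈ s, ∀ a ∈ C.F, ∀ x, .pc a (.inl k) x ∈ C.gs → x ∈ s := by
        intro k hk a ha x hx
        rcases Finset.mem_insert.1 (hcl k (Finset.mem_insert_of_mem hk) a ha x hx) with h2 | h2
        · exfalso
          rw [h2] at hx
          exact absurd (fr_rank C hx) (not_lt.2 (hmax k hk))
        · exact h2
      have hR' : ∀ k ∈ s, k ∉ C.R := fun k hk => hR k (Finset.mem_insert_of_mem hk)
      obtain ⟨ρ, r1, r2, r3, r4, r5⟩ := ih hcl' hR'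
      have heR : e ∉ C.R := hR e (Finset.mem_insert_self e s)
      have hcle : ∀ a ∈ C.F, ∀ x, .pc a (.inl e) x ∈ C.gs → x ∈ s := by
        intro a ha x hx
        rcases Finset.mem_insert.1 (hcl e (Finset.mem_insert_self e s) a ha x hx) with h2 | h2
        · exfalso
          rw [h2] at hx
          exact absurd (fr_rank C hx) (lt_irrefl _)
        · exact h2
      have hSf : (V ∪ ρ '' (s : Set (Fin C.m))).Finite :=
        hV.union (s.finite_toSet.image ρ)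
      obtain ⟨hd1, hd2⟩ := hd e heR
      have hex : ∃ r, Irrational r ∧ r ∉ V ∪ ρ '' (s : Set (Fin C.m)) ∧ pos (C.φ 0 e) < r ∧
          r < pos (C.φ 1 e) ∧
          (P e → (∀ u ∈ V, (u < pos (C.φ 2 e) → u < r) ∧ (pos (C.φ 2 e) < u → r < u)) ∧
            (side = true → r < pos (C.φ 2 e)) ∧ (side = false → pos (C.φ 2 e) < r)) ∧
          (¬ P e → ∀ a ∈ C.F, ∀ x, .pc a (.inl e) x ∈ C.gs →
            ∀ t x1, .pc (C.ψ 0 a) t x1 ∈ g →
              (pos x1 < ρ x → ps pos t < r) ∧ (ρ x < pos x1 → r < ps pos t)) := by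
        by_cases hP : P e
        · obtain ⟨r, n1, n2, n3, n4, n5⟩ := near (pos (C.φ 2 e))
            (V := V ∪ {pos (C.φ 0 e), pos (C.φ 1 e)}) (hV.union (Set.toFinite _)) hSf side
          refine ⟨r, n1, n2, (n3 _ (Or.inr (Or.inl rfl))).1 hd1,
            (n3 _ (Or.inr (Or.inr rfl))).2 hd2, fun _ => ⟨fun u hu => n3 u (Or.inl hu), n4, n5⟩,
            fun h => absurd hP h⟩
        · by_cases hout : ∃ a ∈ C.F, ∃ x, .pc a (.inl e) x ∈ C.gs
          · obtain ⟨a, ha, x, hx⟩ := hout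
            have hxs : x ∈ s := hcle a ha x hx
            obtain ⟨u, w, huw, hr⟩ := room hf hg (C.ψ 0 a) (ρ x)
            obtain ⟨r, hur, hrw, hri, hrn⟩ := exists_irr huw hSf
            have g0 : Atom.pc (C.ψ 0 a) (.inl (C.φ 0 e)) (C.φ 0 x) ∈ g := h0 (hin 0 hx)
            have g1 : Atom.pc (C.ψ 0 a) (.inl (C.φ 1 e)) (C.φ 1 x) ∈ g := by
              have h3 := h1 (hin 1 hx)
              rw [C.fam.rψ 1 0 a ha] at h3
              exact h3
            have b0 : pos (C.φ 0 e) ≤ u := (hr _ _ g0).1 (r3 x hxs).1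
            have b1 : w ≤ pos (C.φ 1 e) := (hr _ _ g1).2 (r3 x hxs).2
            refine ⟨r, hri, hrn, b0.trans_lt hur, hrw.trans_le b1, fun h => absurd h hP,
              fun _ a' ha' x' hx' t x1 ht => ?_⟩
            obtain ⟨rfl, rfl⟩ := fr_uniq C heR ha ha' hx hx'
            exact ⟨fun h3 => ((hr t x1 ht).1 h3).trans_lt hur,
              fun h3 => hrw.trans_le ((hr t x1 ht).2 h3)⟩
          · obtain ⟨r, hur, hrw, hri, hrn⟩ := exists_irr (hd1.trans hd2) hSf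
            exact ⟨r, hri, hrn, hur, hrw, fun h => absurd h hP,
              fun _ a ha x hx => absurd ⟨a, ha, x, hx⟩ hout⟩
      obtain ⟨r, hri, hrn, hr0, hr1, hrP, hrN⟩ := hex
      have hup : ∀ k ∈ s, Function.update ρ e r k = ρ k := by
        intro k hk
        refine Function.update_of_ne ?_ _ _
        rintro rfl
        exact hes hk
      have hue : Function.update ρ e r e = r := Function.update_self _ _ _
      have hcases : ∀ k ∈ insert e s, k = e ∨ k ∈ s := fun k hk => Finset.mem_insert.1 hk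
      refine ⟨Function.update ρ e r, ?_, ?_, ?_, ?_, ?_⟩
      · intro k hk
        rcases hcases k hk with rfl | hk
        · rw [hue]
          exact ⟨hri, fun h => hrn (Or.inl h)⟩
        · rw [hup k hk]
          exact r1 k hk
      · intro k hk k' hk' heq
        rcases hcases k hk with rfl | hks
        · rcases hcases k' hk' with rfl | hks'
          · rfl
          · rw [hue, hup k' hks'] at heq
            exact absurd (Or.inr ⟨k', hks', heq.symm⟩) hrn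
        · rcases hcases k' hk' with rfl | hks'
          · rw [hue, hup k hks] at heq
            exact absurd (Or.inr ⟨k, hks, heq⟩) hrn
          · rw [hup k hks, hup k' hks'] at heq
            exact r2 k hks k' hks' heq
      · intro k hk
        rcases hcases k hk with rfl | hk
        · rw [hue]
          exact ⟨hr0, hr1⟩
        · rw [hup k hk]
          exact r3 k hk
      · intro k hk hPk
        rcases hcases k hk with rfl | hk
        · rw [hue]
          exact hrP hPk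
        · rw [hup k hk]
          exact r4 k hk hPk
      · intro k hk hPk a ha x hx t x1 ht
        rcases hcases k hk with rfl | hk
        · rw [hue, hup x (hcle a ha x hx)]
          exact hrN hPk a ha x hx t x1 ht
        · rw [hup k hk, hup x (hcl' k hk a ha x hx)]
          exact r5 k hk hPk a ha x hx t x1 ht
  obtain ⟨ρ, r1, r2, r3, r4, r5⟩ := key (Finset.univ.filter fun k => k ∉ C.R)
    (fun k hk a ha x hx => by
      rw [Finset.mem_filter] at hk ⊢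
      exact ⟨Finset.mem_univ x, fun h => hk.2 ((C.fam.k1 a ha k x hx).2 h)⟩)
    (fun k hk => (Finset.mem_filter.1 hk).2)
  have hm : ∀ k, k ∉ C.R → k ∈ Finset.univ.filter fun k => k ∉ C.R := fun k hk =>
    Finset.mem_filter.2 ⟨Finset.mem_univ k, hk⟩
  exact ⟨ρ, fun k hk => r1 k (hm k hk), fun k k' hk hk' => r2 k (hm k hk) k' (hm k' hk'),
    fun k hk => r3 k (hm k hk), fun k hP hk => r4 k (hm k hk) hP,
    fun k hP hk => r5 k (hm k hk) hP⟩

end SSO
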