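import Pool.Agent.SSO.FNew
import Pool.Agent.SSO.DCopB
import Pool.Agent.SSO.PShp

/-! # The sequence of conditions and its copies (package F2)

(problem MP_ceadec_lc, project SSO, part F)

`exists_ychain` with `y0 := q.1.y`, `X := Cn × Pt × Pt` and `R s y' (c, b, t) :=` `c.1.y = y'`, `c ≤ q`, `Sharp c.1.g`, `b, t ∈ pts c.1.g`, `c ∈ f b t`,
`∃ d ∈ D b, c ≤ d`, `∃ d ∈ D t, c ≤ d`, `bit β t true ∈ c.1.g`, and `t ≠ z.2.2.2` for all `z ∈ s`.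
Step: let `s` be countable, `y` legal, `YLe y q.1.y`; `r := q.ye _ _ ≤ q` (with `r.1.y = y`). `exists_new` (from `h.d1`, `h.d2`, `h.unc`) for `r` and the
countable set `C := {z.2.2.2 | z ∈ s}`: `r' ≤ r`, `t ∉ C`, `d ∈ D t`, `r' ≤ d`, `bit β t true ∈ r'.1.g`. So `r' ∈ Tn B β t` (`mem_Tn`; `r' ∈ B t` by `h.d0` and
`(B t).down`). `h.mono.onto`: `r1 ≤ r'`, `b` with `r1 ∈ B b`, `r1 ∈ f b t`. `h.d2`: `r2 ≤ r1`, `d' ∈ D b`, `r2 ≤ d'`. `exists_sharp` for `r2`, `{b, t}`: `r3 ≤ r2` sharp with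
`b, t ∈ pts r3.1.g`. `y' := r3.1.y`, `x := (r3, b, t)`; `YLe y' y` as `r3 ≤ r`.
The result: `Y`, `x : W1 → Cn × Pt × Pt` with `(x i).1.1.y = Y i`. `exists_cop` for `c i := (x i).1`, `b i`, `t i`: `C`, `f'`, `kb`, `kt`; `C.c n ≤ c (f' n)`, so all
properties of `c (f' n)` which are downward closed hold for `C.c n` (`(f b t).down`; atoms: `C.c n ≤ c (f' n)`), `C.φ n kb = b (f' n)`, `C.φ n kt = t (f' n)`.
`kt ∉ C.R`: otherwise `C.φ 0 kt = C.φ 1 kt` (`C.fam.rφ`), so `t (f' 0) = t (f' 1)`; but `t` is injective (`t i ≠ t j` for `j < i` by `R`) and `f'` is injective. -/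

set_option autoImplicit false

namespace SSO

open STP

theorem exists_copOk {q : Cn} {B : Pt → RO Cn} {f : Pt → Pt → RO Cn} {β : Lb} {D : Pt → Set Cn}
    (h : Sett q B f β D) : ∃ (C : Cop) (kb kt : Fin C.m), CopOk q f β D C kb kt := by
  obtain ⟨Y, x, hY, hY0, hYch, hR⟩ := exists_ychain (X := Cn × Pt × Pt) q.2.yg
    (fun s y' c => c.1.1.y = y' ∧ c.1 ≤ q ∧ Sharp c.1.1.g ∧ c.2.1 ∈ pts c.1.1.g ∧
      c.2.2 ∈ pts c.1.1.g ∧ c.1 ∈ f c.2.1 c.2.2 ∧ (∃ d ∈ D c.2.1, c.1 ≤ d) ∧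
      (∃ d ∈ D c.2.2, c.1 ≤ d) ∧ .bit β c.2.2 true ∈ c.1.1.g ∧ ∀ z ∈ s, c.2.2 ≠ z.2.2.2) (by
    intro s hs y hy hle
    have hrq : q.ye hy hle ≤ q := Cn.ye_le q hy hle
    have hC : ((fun z : Ys × Cn × Pt × Pt => z.2.2.2) '' s).Countable := hs.image _
    obtain ⟨r', hr', t, htC, ⟨d, hd, hrd⟩, hbit⟩ := exists_new h.d1 h.d2 h.unc hrq hC
    have hBt : r' ∈ B t := (B t).down hrd (h.d0 t d hd)
    have hT : r' ∈ Tn B β t := mem_Tn.2 ⟨hBt, fun c' hc' => ⟨c', le_rfl, hc'.2 hbit⟩⟩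
    obtain ⟨r1, hr1, b, hb1, hf1⟩ := h.mono.onto r' (hr'.trans hrq) t hT
    obtain ⟨r2, hr2, d', hd', hrd'⟩ := h.d2 b r1 hb1
    obtain ⟨r3, hr3, hy3, hA, -, hsh, -⟩ := exists_sharp r2 (A := {b, t}) (by simp)
    have h31 : r3 ≤ r1 := hr3.trans hr2
    have h3' : r3 ≤ r' := h31.trans hr1
    have h3r : r3 ≤ q.ye hy hle := h3'.trans hr'
    refine ⟨r3.1.y, (r3, b, t), r3.2.yg, h3r.1, rfl, h3r.trans hrq, hsh, hA (by simp),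
      hA (by simp), (f b t).down h31 hf1, ⟨d', hd', hr3.trans hrd'⟩, ⟨d, hd, h3'.trans hrd⟩,
      h3'.2 hbit, ?_⟩
    rintro z hz rfl
    exact htC ⟨z, hz, rfl⟩)
  obtain ⟨C, f', kb, kt, hf', hC⟩ := exists_cop (c := fun i => (x i).1) (b := fun i => (x i).2.1)
    (t := fun i => (x i).2.2) (fun i => (hR i).2.2.1)
    (fun i j hij => by
      rw [(hR i).1, (hR j).1]
      exact hYch i j hij) (fun i => (hR i).2.2.2.1) (fun i => (hR i).2.2.2.2.1)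
  refine ⟨C, kb, kt, ?_, ?_, ?_, ?_, ?_, ?_⟩
  · intro hk
    have h1 := C.fam.rφ 0 1 kt hk
    rw [(hC 0).2.2.2, (hC 1).2.2.2] at h1
    have h2 : f' 0 ≠ f' 1 := fun he => absurd (hf' he) (by decide)
    rcases lt_or_gt_of_ne h2 with h3 | h3
    · exact (hR (f' 1)).2.2.2.2.2.2.2.2.2 _ ⟨f' 0, h3, rfl⟩ h1.symm
    · exact (hR (f' 0)).2.2.2.2.2.2.2.2.2 _ ⟨f' 1, h3, rfl⟩ h1
  · intro n
    exact (hC n).1.trans (hR (f' n)).2.1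
  · intro n
    rw [(hC n).2.2.1, (hC n).2.2.2]
    exact (f _ _).down (hC n).1 (hR (f' n)).2.2.2.2.2.1
  · intro n
    rw [(hC n).2.2.1]
    obtain ⟨d, hd, hle⟩ := (hR (f' n)).2.2.2.2.2.2.1
    exact ⟨d, hd, (hC n).1.trans hle⟩
  · intro n
    rw [(hC n).2.2.2]
    obtain ⟨d, hd, hle⟩ := (hR (f' n)).2.2.2.2.2.2.2.1
    exact ⟨d, hd, (hC n).1.trans hle⟩
  · intro n
    rw [(hC n).2.2.2]
    exact (hC n).1.2 (hR (f' n)).2.2.2.2.2.2.2.2.1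

end SSO
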