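import Pool.Agent.SSO.KCov

/-! # `KS` is uncountable in the extension (package K6)

(problem MP_ceadec_lc, project SSO, part K)

* `ks_unc`: `w ↦ (w, 0)` maps `Set.Iio (ℵ_ 1).ord` injectively into `KS`; `Set.Iio (ℵ_ 1).ord` is not countable: its cardinality is (the lift of)
  `(ℵ_ 1).ord.card = ℵ_ 1 > ℵ₀` (`Ordinal.mk_Iio_ordinal`/`Cardinal.mk_Iio_ordinal`, `Cardinal.card_ord`, `Cardinal.aleph0_lt_aleph_one`).
* `unc_KS`: `cover` with `I := ℕ`, `X := Pt`, `S n c a := c ≤ q ∧ c ∈ f n a` gives `r ≤ q`, `C`. Take `a ∈ KS` not in `C` (`ks_unc`). For `r' ≤ r` and `n`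
  suppose `r' ∈ f n a`; then there are `r'' ≤ r'`, `x ∈ C` with `r'' ∈ f n x`, `r'' ∈ f n a`, so `a = x` by the hypothesis, a contradiction. -/

set_option autoImplicit false

namespace SSO

open STP Cardinal

theorem ks_unc : ¬ KS.Countable := by
  intro h
  have h1 : (Set.Iio (ℵ_ 1).ord : Set Ordinal.{0}).Countable := by
    have h2 : ((fun w : K => ((w, 0) : Pt)) ⁻¹' KS).Countable :=
      h.preimage fun w w' hw => (Prod.mk.inj hw).1
    exact h2
  have h3 : #(Set.Iio (ℵ_ 1).ord : Set Ordinal.{0}) ≤ ℵ₀ := Cardinal.le_aleph0_iff_set_countable.2 h1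
  rw [Cardinal.mk_Iio_ordinal, Cardinal.card_ord, ← Cardinal.lift_aleph0.{1, 0},
    Cardinal.lift_le] at h3
  exact absurd h3 (not_le.2 Cardinal.aleph0_lt_aleph_one)

theorem unc_KS : TUnc Cn KS := by
  intro q f hf
  obtain ⟨r, hr, C, hC, hcov⟩ := cover (I := ℕ) (X := Pt)
    (S := fun n c a => c ≤ q ∧ c ∈ f n a)
    (fun n c c' a hc h => ⟨hc.trans h.1, (f n a).down hc h.2⟩) q
  obtain ⟨a, ha, haC⟩ : ∃ a ∈ KS, a ∉ C := by
    by_contra hcon
    push Not at hcon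
    exact ks_unc (hC.mono hcon)
  refine ⟨r, hr, a, ha, fun r' hr' n hn => ?_⟩
  obtain ⟨r'', hr'', x, hx, h1, h2⟩ := hcov n r' hr' ⟨a, hr'.trans hr, hn⟩
  have h3 : a = x := hf r'' h1 n a x ((f n a).down hr'' hn) h2
  exact haC (h3 ▸ hx)

end SSO
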