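import Pool.Agent.SSO.Main
import Pool.Agent.SSO.ETss
import Pool.Agent.SSO.FNeg
import Pool.Agent.SSO.KUn

/-! # The main theorem

(problem MP_ceadec_lc, project SSO) -/

set_option autoImplicit false

namespace SSO

open STP STP.BSet CPI

theorem tdat : TDat Lt KS where
  lo := tlo
  ss := tss
  unc := unc_KS
  non := non_KS
  neg := neg_KS

/-- There is a model `(N, E)` of `ZFC` in which there are a strongly surjective linear order `L` and an
uncountable subset `K` of `L` with `|K| < |L|` such that no uncountable suborder `B` of `L` with
`|B| ≤ |K|` is strongly surjective. -/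
theorem main : ∃ (N : Type 2) (E : N → N → Prop), ZFC E ∧ NegSS E :=
  haveI : Nonempty Cn := ⟨one⟩
  model_of tdat

end SSO
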