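import Pool.Agent.SSO.Gr

/-! # Strict upper bounds for families of labels; small sets of ordinals (package S2)

(problem MP_ceadec_lc, project SSO, part S)

* `lb_bdd`: Koenig's theorem `Cardinal.lt_cof_power : ℵ₀ ≤ a → 1 < b → a < (b ^ a).ord.cof`; here
`#(Set K) = 2 ^ #K`
  (`Cardinal.mk_set`). A family `f : ι → Lb` with `#ι ≤ #K` is not cofinal in `Lb` (the order type
of `Lb` is
  `(#(Set K)).ord`, `Ordinal.type_toType`; see the API of `Ordinal.cof`, for example
`Ordinal.lt_cof_type`, or
  `Ordinal.iSup_lt_ord` for the ordinals `Ordinal.typein (· < ·) (f i)`), so there is `ξ` with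
`f i < ξ` for all `i`
  (`Lb` has no maximum as `(#(Set K)).ord` is a limit ordinal).
* `k_bdd`: a small set of ordinals of `Type 0` is bounded: `Ordinal.bddAbove_of_small` (`BddAbove`
of a `Small.{0}` set).
* `small_of_bdd`: conversely `Set.Iic a` is small: `Ordinal.small_Iic` (`small_subset`). -/

set_option autoImplicit false

namespace SSO

open Cardinal

private theorem inf_K : ℵ₀ ≤ #K := by
  have : Infinite K := Infinite.of_injective (fun n : ℕ => (n : Ordinal.{0})) Nat.cast_injective
  exact Cardinal.aleph0_le_mk K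

theorem lb_bdd {ι : Type 1} (hι : #ι ≤ #K) (f : ι → Lb) : ∃ ξ : Lb, ∀ i, f i < ξ := by
  have h1 : #ι < (#(Set K)).ord.cof := by
    rw [Cardinal.mk_set]
    exact hι.trans_lt (lt_cof_ord_power inf_K (by norm_num))
  by_contra hcon
  push Not at hcon
  have h2 : IsCofinal (Set.range f) := fun ξ =>
    let ⟨i, hi⟩ := hcon ξ
    ⟨f i, ⟨i, rfl⟩, hi⟩
  have h3 := Order.cof_le h2
  rw [Ordinal.cof_toType] at h3
  exact absurd (h1.trans_le (h3.trans mk_range_le)) (lt_irrefl _)

theorem k_bdd {s : Set K} (h : Small.{0} s) : ∃ a : K, ∀ w ∈ s, w < a := by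
  obtain ⟨a, ha⟩ := Ordinal.bddAbove_iff_small.2 h
  exact ⟨Order.succ a, fun w hw => Order.lt_succ_of_le (ha hw)⟩

theorem small_of_bdd {s : Set K} (h : BddAbove s) : Small.{0} s :=
  Ordinal.bddAbove_iff_small.1 h

/-- there are at most `#K` points -/
theorem mk_pt_le : #Pt ≤ #K := by
  have h : #Pt = #K * ℵ₀ := by simp [Cardinal.mk_prod]
  rw [h, Cardinal.mul_aleph0_eq inf_K]

/-- a small set can be enumerated by `K` -/
theorem exists_enum {Z : Type 1} {s : Set Z} (h : Small.{0} s) :
    ∃ f : K → Option Z, ∀ z, (∃ k, f k = some z) ↔ z ∈ s := by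
  classical
  let g : s → K := fun z => Ordinal.typein (WellOrderingRel (α := Shrink.{0} s)) (equivShrink s z)
  have hg : Function.Injective g := fun z z' h =>
    (equivShrink s).injective (Ordinal.typein_injective _ h)
  refine ⟨fun k => if h : ∃ z : s, g z = k then some (h.choose : Z) else none, fun z => ?_⟩
  constructor
  · rintro ⟨k, hk⟩
    by_cases h : ∃ z : s, g z = k
    · simp only [h, dif_pos, Option.some.injEq] at hk
      rw [← hk]
      exact h.choose.2
    · simp only [h, dif_neg, not_false_eq_true, reduceCtorEq] at hk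
  · intro hz
    have h : ∃ y : s, g y = g ⟨z, hz⟩ := ⟨_, rfl⟩
    refine ⟨g ⟨z, hz⟩, ?_⟩
    beta_reduce
    rw [dif_pos h]
    exact congrArg some (congrArg Subtype.val (hg h.choose_spec))

end SSO
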