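import Pool.Agent.SSO.Gr

/-! # Enumeration of the data by the labels (package S1)

(problem MP_ceadec_lc, project SSO, part S)

Let `c := #(Set K) = 2 ^ #K` (`Cardinal.mk_set`), `#Lb = c` (`Cardinal.mk_ord_toType`), `ℵ₀ ≤ #K`.
* `c ^ #K = c`: `(2 ^ #K) ^ #K = 2 ^ (#K * #K) = 2 ^ #K` (`Cardinal.power_mul`, `Cardinal.mul_eq_self`), so also `c ^ ℵ₀ = c`
  (between `c` and `c ^ #K`; `Cardinal.power_le_power_left`) and `c * c = c`. `#K ≤ c` (`Cardinal.cantor`).
* `#Pre ≤ c`: the map `c ↦ (c.y, c.g)` is injective; a countable set of elements of a type `Z` is empty or the range of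
  a function `ℕ → Z` (`Set.Countable.exists_eq_range`), so there are at most `1 + #Z ^ ℵ₀` of them; `Z = Lb × Pt × K`, and
  finite sets of elements of `Atom Lb Pt` are countable sets. `#(Atom Lb Pt) ≤ c`: inject it in
  `(Pt × ℚ × Bool) ⊕ (Lb × Pt × Bool) ⊕ (Lb × (Pt ⊕ ℚ) × Pt)`. (`Cardinal.mk_prod`, `Cardinal.mk_sum`, `lift`s.)
* `#Dat ≤ c`: `Dat` is in bijection with `(Pt → K → Option Pre) × (ℕ → Pt) × (Pt → K) × K`; `#(Pt → K → Option Pre) ≤
  (c ^ #K) ^ #K = c` etc.
* So `#(Lb × Dat) = c = #Lb` (`Dat` is not empty); take a bijection `e : Lb ≃ Lb × Dat` and `dat := Prod.snd ∘ e`. For a datum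
  `d` the set `{ζ | dat ζ = d}` has the cardinality `c` (injection `η ↦ e.symm (η, d)`); the initial segment `Set.Iic ξ` has a
  cardinality `< c` (`Cardinal.mk_Iio_ord_toType` or `Ordinal.mk_Iio_ord_toType`; `Set.Iic ξ = insert ξ (Set.Iio ξ)`, `c` is
  infinite), so some `ζ` with `dat ζ = d` is not in `Set.Iic ξ`. -/

set_option autoImplicit false

namespace SSO

open Cardinal

private theorem hK0 : ℵ₀ ≤ #K := by
  have h : Infinite K := Infinite.of_injective (fun n : ℕ => (n : Ordinal.{0})) Nat.cast_injective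
  exact Cardinal.aleph0_le_mk K

private theorem hKc : #K ≤ #(Set K) := by
  rw [Cardinal.mk_set]
  exact (Cardinal.cantor _).le

private theorem hc0 : ℵ₀ ≤ #(Set K) := hK0.trans hKc

private theorem hcK : #(Set K) ^ #K = #(Set K) := by
  rw [Cardinal.mk_set, ← Cardinal.power_mul, Cardinal.mul_eq_self hK0]

private theorem hcω : #(Set K) ^ (ℵ₀ : Cardinal.{1}) ≤ #(Set K) := by
  have h1 : #(Set K) ^ (ℵ₀ : Cardinal.{1}) ≤ #(Set K) ^ #K :=
    Cardinal.power_le_power_left (Cardinal.aleph0_pos.trans_le hc0).ne' hK0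
  rwa [hcK] at h1

private theorem hprod {A B : Type 1} (hA : #A ≤ #(Set K)) (hB : #B ≤ #(Set K)) :
    #(A × B) ≤ #(Set K) := by
  rw [← Cardinal.mul_def]
  exact Cardinal.mul_le_of_le hc0 hA hB

private theorem hsum {A B : Type 1} (hA : #A ≤ #(Set K)) (hB : #B ≤ #(Set K)) :
    #(A ⊕ B) ≤ #(Set K) := by
  rw [← Cardinal.add_def]
  exact Cardinal.add_le_of_le hc0 hA hB

private theorem hcnt {Z : Type 1} (hZ : #Z ≤ #(Set K)) :
    #{s : Set Z // #s ≤ ℵ₀} ≤ #(Set K) := by
  refine (Cardinal.mk_bounded_set_le Z ℵ₀).trans ?_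
  refine le_trans (Cardinal.power_le_power_right (max_le hZ hc0)) hcω

private theorem hfun {A B : Type 1} (hA : #A ≤ #K) (hB : #B ≤ #(Set K)) :
    #(A → B) ≤ #(Set K) := by
  rw [← Cardinal.power_def]
  refine (Cardinal.power_le_power_right hB).trans ?_
  refine (Cardinal.power_le_power_left (Cardinal.aleph0_pos.trans_le hc0).ne' hA).trans ?_
  rw [hcK]

private theorem hLb : #Lb = #(Set K) := Cardinal.mk_ord_toType _

private theorem hPt : #Pt ≤ #K := by
  rw [Cardinal.mk_prod, Cardinal.mk_nat, Cardinal.lift_aleph0, Cardinal.lift_id',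
    Cardinal.mul_aleph0_eq hK0]

private def encQ (q : ℚ) : K := ((Encodable.encode q : ℕ) : Ordinal.{0})

private theorem encQ_inj : Function.Injective encQ := fun _ _ h =>
  Encodable.encode_injective (Nat.cast_injective h)

private def encB (q : Bool) : K := ((Encodable.encode q : ℕ) : Ordinal.{0})

private theorem encB_inj : Function.Injective encB := fun _ _ h =>
  Encodable.encode_injective (Nat.cast_injective h)

private def encA : Atom Lb Pt → (Pt × K × K) ⊕ (Lb × Pt × K) ⊕ (Lb × (Pt ⊕ K) × Pt)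
  | .cut a q b => .inl (a, encQ q, encB b)
  | .bit l x b => .inr (.inl (l, x, encB b))
  | .pc l t x => .inr (.inr (l, Sum.map id encQ t, x))

private theorem encA_inj : Function.Injective encA := by
  intro α β h
  rcases α with ⟨a, q, b⟩ | ⟨l, x, b⟩ | ⟨l, t, x⟩ <;>
    rcases β with ⟨a', q', b'⟩ | ⟨l', x', b'⟩ | ⟨l', t', x'⟩ <;>
    simp only [encA, Sum.inl.injEq, Sum.inr.injEq, Prod.mk.injEq, reduceCtorEq] at h
  · obtain ⟨h1, h2, h3⟩ := h
    rw [h1, encQ_inj h2, encB_inj h3]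
  · obtain ⟨h1, h2, h3⟩ := h
    rw [h1, h2, encB_inj h3]
  · obtain ⟨h1, h2, h3⟩ := h
    rw [h1, h3, (Function.injective_id.sumMap encQ_inj) h2]

private theorem hAtom : #(Atom Lb Pt) ≤ #(Set K) := by
  have hP : #Pt ≤ #(Set K) := hPt.trans hKc
  refine (Cardinal.mk_le_of_injective encA_inj).trans ?_
  exact hsum (hprod hP (hprod hKc hKc)) (hsum (hprod hLb.le (hprod hP hKc))
    (hprod hLb.le (hprod (hsum hP hKc) hP)))

private theorem hPre : #Pre ≤ #(Set K) := by
  have hP : #Pt ≤ #(Set K) := hPt.trans hKc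
  let f : Pre → {s : Set (Lb × Pt × K) // #s ≤ ℵ₀} × {s : Set (Atom Lb Pt) // #s ≤ ℵ₀} :=
    fun p => (⟨p.y, Cardinal.le_aleph0_iff_set_countable.2 p.cy⟩,
      ⟨p.g, Cardinal.le_aleph0_iff_set_countable.2 p.fg.countable⟩)
  have hf : Function.Injective f := by
    intro p q h
    have h1 := congrArg (fun z => z.1.1) h
    have h2 := congrArg (fun z => z.2.1) h
    exact Pre.ext h1 h2
  refine (Cardinal.mk_le_of_injective hf).trans ?_
  exact hprod (hcnt (hprod hLb.le (hprod hP hKc))) (hcnt hAtom)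

private theorem hDat : #Dat ≤ #(Set K) := by
  have hP : #Pt ≤ #(Set K) := hPt.trans hKc
  let f : Dat → (Pt → K → Option Pre) × (ℕ → Pt) × (Pt → K) × K := fun d => (d.T, d.e, d.s, d.b)
  have hf : Function.Injective f := by
    rintro ⟨T, e, s, b⟩ ⟨T', e', s', b'⟩ h
    simp only [f, Prod.mk.injEq] at h
    obtain ⟨rfl, rfl, rfl, rfl⟩ := h
    rfl
  refine (Cardinal.mk_le_of_injective hf).trans ?_
  have hO : #(Option Pre) ≤ #(Set K) := by
    rw [Cardinal.mk_option]
    exact Cardinal.add_le_of_le hc0 hPre (Cardinal.one_le_aleph0.trans hc0)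
  have hN : #(ℕ → Pt) ≤ #(Set K) := by
    rw [Cardinal.mk_arrow, Cardinal.mk_nat, Cardinal.lift_aleph0, Cardinal.lift_id']
    exact (Cardinal.power_le_power_right hP).trans hcω
  exact hprod (hfun hPt (hfun le_rfl hO)) (hprod hN (hprod (hfun hPt hKc) hKc))

theorem exists_dat : ∃ dat : Lb → Dat, ∀ (d : Dat) (ξ : Lb), ∃ ζ, ξ < ζ ∧ dat ζ = d := by
  have hne : Nonempty Dat := ⟨⟨fun _ _ => none, fun _ => (0, 0), fun _ => 0, 0⟩⟩
  have hcard : #Lb = #(Lb × Dat) := by
    apply le_antisymm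
    · obtain ⟨d⟩ := hne
      exact Cardinal.mk_le_of_injective (f := fun l : Lb => (l, d)) fun _ _ h =>
        congrArg Prod.fst h
    · exact (hprod hLb.le hDat).trans hLb.ge
  obtain ⟨e⟩ := Cardinal.eq.1 hcard
  refine ⟨fun l => (e l).2, fun d ξ => ?_⟩
  by_contra hcon
  push Not at hcon
  have h1 : #Lb ≤ #(Set.Iic ξ) := by
    refine Cardinal.mk_le_of_injective (f := fun η : Lb => (⟨e.symm (η, d), ?_⟩ : Set.Iic ξ)) ?_
    · by_contra h
      exact hcon _ (not_le.1 h) (by rw [e.apply_symm_apply])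
    · intro η η' h
      have h2 := congrArg Subtype.val h
      have h3 := e.symm.injective h2
      exact congrArg Prod.fst h3
  have h2 : #(Set.Iic ξ) < #(Set K) := by
    rw [← Set.Iio_insert]
    refine (Cardinal.mk_insert_le).trans_lt ?_
    exact Cardinal.add_lt_of_lt hc0 (Cardinal.mk_Iio_toType_ord_lt ξ)
      (Cardinal.one_lt_aleph0.trans_le hc0)
  rw [hLb] at h1
  exact absurd h1 (not_le.2 h2)

end SSO
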