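import Pool.Agent.SSO.Gr

/-! # The almost disjoint sets `W ξ x` (package S3)

(problem MP_ceadec_lc, project SSO, part S)

* `h : Lb → Set K` injective exists: `#Lb = #(Set K)` (`Cardinal.mk_ord_toType`).
* `ι : Pt → K` injective exists: `#Pt = #K * ℵ₀ = #K`.
* An injective code `cd : (Set K) × K × Pt × (ℕ → Bool) → K` on the quadruples `(s, α, x, i)` with `s ⊆ Set.Iio α` exists: for
  fixed `α` there are at most `#(Set (Set.Iio α))` such `s`, and `Set.Iio α` is small, so this number is `< #K`: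
  `#K = Cardinal.univ.{0, 1}` is a strong limit cardinal (`Cardinal.mk_ordinal`/`Cardinal.univ` facts; a cardinal of the form
  `lift c`, `c : Cardinal.{0}`, is `< univ`: `Cardinal.lift_lt_univ`; `#(Set (Set.Iio α))` is such a cardinal as
  `Set.Iio α` is `Small.{0}`). So there are at most `#K * #K * #K * 2^ℵ₀ = #K` quadruples. (One may
  also inject the quadruples in `K` in any other way, for example via lists or well-orders of small types; it is only needed
  that the set `Q` of these quadruples has `#Q ≤ #K`.)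
* For `ξ`, `x` there is `α ≥ ι x` such that `cd (h ξ ∩ Set.Iio α, α, x, i) > max (s ξ x) x.1` for all `i : ℕ → Bool`: `cd` is
  injective, so the set of the `α` for which this fails (for some `i`) injects in `Set.Iic (max (s ξ x) x.1)`, so it is small,
  hence bounded above (`Ordinal.bddAbove_of_small`); choose such an `α(ξ, x)` (choice).
* `W ξ x := {cd (h ξ ∩ Set.Iio α, α, x, i) | i : ℕ → Bool}` with `α = α(ξ, x)`. It is the injective image of `ℕ → Bool`, so uncountable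
  (`Set.Countable` would give `Countable (ℕ → Bool)`; `Cardinal.mk_le_aleph0_iff`, `Cardinal.cantor`) and small, so bounded.
  `gs`, `gi` by the choice of `α`. `dis`: `x` can be decoded.
* `ad`: let `ξ ≠ ζ`; `h ξ ≠ h ζ`, so there is `δ` in exactly one of `h ξ`, `h ζ`. If `w = cd (h ξ ∩ Iio α, α, x, i) =
  cd (h ζ ∩ Iio α', α', x', i')` then `α = α'`, `x = x'`, `h ξ ∩ Iio α = h ζ ∩ Iio α`, so `α ≤ δ`, so `ι x ≤ α ≤ δ`. The set of
  all `x` with `ι x ≤ δ` is small (`ι` is injective), and `W ξ x` is small for each `x`, so the set in question is a subset of a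
  small union of small sets, hence bounded. -/

set_option autoImplicit false

namespace SSO

open Cardinal

private theorem aleph0_le_K : ℵ₀ ≤ #K := by
  rw [mk_ordinal]
  exact aleph0_lt_univ.le

private theorem mk_le_of_small (A : Type 1) [Small.{0} A] : #A ≤ #K := by
  rw [← lift_mk_shrink''.{1, 0} A, mk_ordinal]
  exact (lift_lt_univ _).le

private theorem mk_Pt_le : #Pt ≤ #K := by
  have h1 : lift.{1, 0} #ℕ ≤ #K := by
    rw [mk_ordinal]
    exact (lift_lt_univ _).le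
  rw [mk_prod, lift_uzero]
  exact mul_le_of_le aleph0_le_K le_rfl h1

private theorem mk_pairs_le : #(Σ α : K, 𝒫 (Set.Iio α)) ≤ #K := by
  rw [mk_sigma]
  have h1 : (sum fun α : K => #(𝒫 (Set.Iio α))) ≤ sum fun _ : K => #K :=
    sum_le_sum _ _ fun α => mk_le_of_small _
  refine h1.trans ?_
  rw [sum_const']
  exact mul_le_of_le aleph0_le_K le_rfl le_rfl

private theorem exists_cd : ∃ cd : (Σ α : K, 𝒫 (Set.Iio α)) × Pt × (ℕ → Bool) → K,
    Function.Injective cd := by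
  have h1 : lift.{1, 0} #(ℕ → Bool) ≤ #K := by
    rw [mk_ordinal]
    exact (lift_lt_univ _).le
  have h2 : #((Σ α : K, 𝒫 (Set.Iio α)) × Pt × (ℕ → Bool)) ≤ #K := by
    rw [mk_prod, mk_prod, lift_id, lift_uzero, lift_id]
    exact mul_le_of_le aleph0_le_K mk_pairs_le (mul_le_of_le aleph0_le_K mk_Pt_le h1)
  obtain ⟨f⟩ := h2
  exact ⟨f, f.injective⟩

theorem exists_W (s : Lb → Pt → K) : ∃ W : Lb → Pt → Set K, WOk s W := by
  obtain ⟨h⟩ : Nonempty (Lb ≃ Set K) := Cardinal.eq.1 (mk_ord_toType _)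
  obtain ⟨ι⟩ : Nonempty (Pt ↪ K) := mk_Pt_le
  obtain ⟨cd, hcd⟩ := exists_cd
  let c : Lb → K → Pt → (ℕ → Bool) → K := fun ξ α x i =>
    cd (⟨α, ⟨h ξ ∩ Set.Iio α, Set.inter_subset_right⟩⟩, x, i)
  have dec : ∀ ξ α x i ζ α' x' i', c ξ α x i = c ζ α' x' i' →
      h ξ ∩ Set.Iio α = h ζ ∩ Set.Iio α' ∧ α = α' ∧ x = x' ∧ i = i' := by
    intro ξ α x i ζ α' x' i' e
    have e1 := hcd e
    exact ⟨congrArg (fun p : (Σ α : K, 𝒫 (Set.Iio α)) × Pt × (ℕ → Bool) =>
        (p.1.2 : Set K)) e1, congrArg (fun p : (Σ α : K, 𝒫 (Set.Iio α)) × Pt × (ℕ → Bool) =>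
        p.1.1) e1, congrArg (fun p : (Σ α : K, 𝒫 (Set.Iio α)) × Pt × (ℕ → Bool) =>
        p.2.1) e1, congrArg (fun p : (Σ α : K, 𝒫 (Set.Iio α)) × Pt × (ℕ → Bool) =>
        p.2.2) e1⟩
  have ex : ∀ ξ x, ∃ α, ι x ≤ α ∧ ∀ i, max (s ξ x) x.1 < c ξ α x i := by
    intro ξ x
    by_contra hcon
    push Not at hcon
    choose! i hi using hcon
    obtain ⟨m, hm⟩ : ∃ m, m = max (s ξ x) x.1 := ⟨_, rfl⟩
    have hsm : Small.{0} (Set.Ici (ι x)) := by
      refine small_of_injective (f := fun α : Set.Ici (ι x) =>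
        (⟨c ξ α x (i α), hi α α.2⟩ : Set.Iic (max (s ξ x) x.1))) ?_
      intro α β e
      exact Subtype.ext (dec _ _ _ _ _ _ _ _ (congrArg Subtype.val e)).2.1
    obtain ⟨b, hb⟩ := Ordinal.bddAbove_of_small (s := Set.Ici (ι x))
    have h1 : Order.succ (max b (ι x)) ∈ Set.Ici (ι x) :=
      Set.mem_Ici.2 ((le_max_right _ _).trans (Order.le_succ _))
    exact absurd ((le_max_left b (ι x)).trans_lt (Order.lt_succ _)) (not_lt.2 (hb h1))
  choose α hα hc using ex
  refine ⟨fun ξ x => Set.range (c ξ (α ξ x) x), ?_, ?_, ?_, ?_, ?_, ?_⟩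
  · intro ξ x hcount
    have hinj : Function.Injective (c ξ (α ξ x) x) := fun i j e => (dec _ _ _ _ _ _ _ _ e).2.2.2
    have h1 : (c ξ (α ξ x) x ⁻¹' Set.range (c ξ (α ξ x) x)).Countable :=
      hcount.preimage_of_injOn hinj.injOn
    rw [Set.preimage_range, Set.countable_univ_iff, ← mk_le_aleph0_iff] at h1
    have h2 : #(ℕ → Bool) = 2 ^ ℵ₀ := by simp
    rw [h2] at h1
    exact absurd (cantor ℵ₀) (not_lt.2 h1)
  · intro ξ x
    exact Ordinal.bddAbove_of_small
  · rintro ξ x w ⟨i, rfl⟩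
    exact (le_max_left _ _).trans_lt (hc ξ x i)
  · rintro ξ x w ⟨i, rfl⟩
    exact (le_max_right _ _).trans_lt (hc ξ x i)
  · rintro ξ x x' w ⟨i, rfl⟩ ⟨j, e⟩
    exact (dec _ _ _ _ _ _ _ _ e).2.2.1.symm
  · intro ξ ζ hne
    have hne' : h ξ ≠ h ζ := fun e => hne (h.injective e)
    obtain ⟨δ, hδ⟩ : ∃ δ, ¬ (δ ∈ h ξ ↔ δ ∈ h ζ) := by
      by_contra hcon
      push Not at hcon
      exact hne' (Set.ext hcon)
    have hs1 : Small.{0} {x : Pt | ι x ≤ δ} := by
      refine small_of_injective (f := fun x : {x : Pt | ι x ≤ δ} =>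
        (⟨ι x, x.2⟩ : Set.Iic δ)) ?_
      intro x y e
      exact Subtype.ext (ι.injective (congrArg Subtype.val e))
    have hsub : {w | (∃ x, w ∈ Set.range (c ξ (α ξ x) x)) ∧
        ∃ x, w ∈ Set.range (c ζ (α ζ x) x)} ⊆
        ⋃ x ∈ {x : Pt | ι x ≤ δ}, Set.range (c ξ (α ξ x) x) := by
      rintro w ⟨⟨x, i, rfl⟩, ⟨x', j, e⟩⟩
      obtain ⟨e1, e2, e3, -⟩ := dec _ _ _ _ _ _ _ _ e
      refine Set.mem_biUnion (x := x) ?_ ⟨i, rfl⟩
      change ι x ≤ δ
      by_contra hlt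
      rw [not_le] at hlt
      have h1 : δ < α ξ x := hlt.trans_le (hα ξ x)
      have h2 : δ < α ζ x' := by
        rw [e2]
        exact h1
      apply hδ
      constructor
      · intro hd
        have h3 : δ ∈ h ξ ∩ Set.Iio (α ξ x) := ⟨hd, h1⟩
        rw [← e1] at h3
        exact h3.1
      · intro hd
        have h3 : δ ∈ h ζ ∩ Set.Iio (α ζ x') := ⟨hd, h2⟩
        rw [e1] at h3
        exact h3.1
    have hs2 : Small.{0} (⋃ x ∈ {x : Pt | ι x ≤ δ}, Set.range (c ξ (α ξ x) x) : Set K) :=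
      small_biUnion _ _
    exact (Ordinal.bddAbove_of_small (s := ⋃ x ∈ {x : Pt | ι x ≤ δ},
      Set.range (c ξ (α ξ x) x))).mono hsub

end SSO
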