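import Mathlib

/-! # Finite sets of atoms, positions

(problem MP_ceadec_lc, project SSO; definitions and simple rules, no sorry in this file)

`X` is the type of points, `L` the type of labels. Atoms:
* `cut a q true` means `c_a < q`, `cut a q false` means `q < c_a` (`c_a` the real number of the point `a`),
* `bit l x b`: the value of the `l`-th Cohen function at `x` is `b`,
* `pc l t x`: the `l`-th monotone function maps `t` to `x`; `t` is a point or a rational number. The atom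
  (piece) is called thin if `t` is a point, fat if `t` is a rational number.

`pts g`, `lbs g`: the points, labels which occur in the set `g` of atoms. A position is a function
`pos : X → ℝ`; `ps pos t` is its extension to `X ⊕ ℚ`. `Good g pos`: the cuts of `g` are true, `pos` is injective
and irrational on `pts g`, and any two pieces with the same label are `Inc`. `Dec g a b`: the cuts of `g` decide
`a < b`. `Sharp g`: all cuts between points of `g`, and between points of `g` and rational numbers of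
pieces of `g` are decided. -/

set_option autoImplicit false

namespace SSO

/-- atoms -/
inductive Atom (L X : Type*)
  | cut (a : X) (q : ℚ) (b : Bool)
  | bit (l : L) (x : X) (b : Bool)
  | pc (l : L) (t : X ⊕ ℚ) (x : X)

section

variable {L X L' X' L'' X'' : Type*}

/-- the image of an atom -/
def Atom.map (ψ : L → L') (φ : X → X') : Atom L X → Atom L' X'
  | .cut a q b => .cut (φ a) q b
  | .bit l x b => .bit (ψ l) (φ x) b
  | .pc l t x => .pc (ψ l) (Sum.map φ id t) (φ x)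

/-- the points of an atom -/
def Atom.pts : Atom L X → Set X
  | .cut a _ _ => {a}
  | .bit _ x _ => {x}
  | .pc _ t x => {z | z = x ∨ t = .inl z}

/-- the label of an atom -/
def Atom.lbs : Atom L X → Set L
  | .cut _ _ _ => ∅
  | .bit l _ _ => {l}
  | .pc l _ _ => {l}

/-- the atom is a cut -/
def Atom.isCut : Atom L X → Prop
  | .cut _ _ _ => True
  | .bit _ _ _ => False
  | .pc _ _ _ => False

/-- the points which occur in `g` -/
def pts (g : Set (Atom L X)) : Set X := {z | ∃ α ∈ g, z ∈ α.pts}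

/-- the labels which occur in `g` -/
def lbs (g : Set (Atom L X)) : Set L := {l | ∃ α ∈ g, l ∈ α.lbs}

/-- the extension of a position to the rational numbers -/
def ps (pos : X → ℝ) : X ⊕ ℚ → ℝ := Sum.elim pos fun q => (q : ℝ)

@[simp] theorem ps_inl (pos : X → ℝ) (z : X) : ps pos (.inl z) = pos z := rfl

@[simp] theorem ps_inr (pos : X → ℝ) (q : ℚ) : ps pos (.inr q) = (q : ℝ) := rfl

/-- the pieces `t ↦ x`, `t' ↦ x'` are compatible -/
def Inc (pos : X → ℝ) (t : X ⊕ ℚ) (x : X) (t' : X ⊕ ℚ) (x' : X) : Prop :=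
  (x = x' ∧ (t = t' ∨ ((∃ q, t = .inr q) ∧ ∃ q, t' = .inr q))) ∨
  (ps pos t < ps pos t' ∧ pos x < pos x') ∨ (ps pos t' < ps pos t ∧ pos x' < pos x)

theorem Inc.symm {pos : X → ℝ} {t t' : X ⊕ ℚ} {x x' : X} (h : Inc pos t x t' x') :
    Inc pos t' x' t x := by
  rcases h with ⟨h1, h2⟩ | h | h
  · refine Or.inl ⟨h1.symm, ?_⟩
    rcases h2 with h2 | ⟨h2, h3⟩
    · exact Or.inl h2.symm
    · exact Or.inr ⟨h3, h2⟩
  · exact Or.inr (Or.inr h)
  · exact Or.inr (Or.inl h)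

theorem Inc.refl (pos : X → ℝ) (t : X ⊕ ℚ) (x : X) : Inc pos t x t x := Or.inl ⟨rfl, Or.inl rfl⟩

/-- the cuts of `g` are true -/
structure CutOk (g : Set (Atom L X)) (pos : X → ℝ) : Prop where
  lt : ∀ (a : X) (q : ℚ), .cut a q true ∈ g → pos a < q
  gt : ∀ (a : X) (q : ℚ), .cut a q false ∈ g → (q : ℝ) < pos a

/-- the position `pos` is good for `g` -/
structure Good (g : Set (Atom L X)) (pos : X → ℝ) : Prop where
  ok : CutOk g pos
  inj : Set.InjOn pos (pts g)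
  irr : ∀ a ∈ pts g, Irrational (pos a)
  inc : ∀ l t x t' x', .pc l t x ∈ g → .pc l t' x' ∈ g → Inc pos t x t' x'

/-- the cuts of `g` decide `a < b` -/
def Dec (g : Set (Atom L X)) (a b : X) : Prop := ∃ q, .cut a q true ∈ g ∧ .cut b q false ∈ g

/-- all relevant cuts are decided -/
structure Sharp (g : Set (Atom L X)) : Prop where
  pt : ∀ a ∈ pts g, ∀ b ∈ pts g, a ≠ b → Dec g a b ∨ Dec g b a
  rt : ∀ a ∈ pts g, ∀ l q x, .pc l (.inr q) x ∈ g → .cut a q true ∈ g ∨ .cut a q false ∈ g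

theorem Atom.map_map (ψ : L → L') (φ : X → X') (ψ' : L' → L'') (φ' : X' → X'')
    (α : Atom L X) : (α.map ψ φ).map ψ' φ' = α.map (ψ' ∘ ψ) (φ' ∘ φ) := by
  rcases α with _ | _ | ⟨l, t | q, x⟩ <;> rfl

theorem Atom.map_id (α : Atom L X) : α.map id id = α := by
  rcases α with _ | _ | ⟨l, t | q, x⟩ <;> rfl

theorem Atom.map_inj {ψ : L → L'} {φ : X → X'} (hψ : Function.Injective ψ)
    (hφ : Function.Injective φ) : Function.Injective (Atom.map ψ φ) := by
  intro α β h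
  rcases α with ⟨a, q, b⟩ | ⟨l, x, b⟩ | ⟨l, t | q, x⟩ <;> rcases β with ⟨a', q', b'⟩ | ⟨l', x', b'⟩ | ⟨l', t' | q', x'⟩ <;>
    simp only [Atom.map, Atom.cut.injEq, Atom.bit.injEq, Atom.pc.injEq, Sum.map_inl, Sum.map_inr,
      Sum.inl.injEq, Sum.inr.injEq, id_eq, reduceCtorEq, and_false, false_and, hψ.eq_iff, hφ.eq_iff] at h ⊢ <;>
    exact h

@[simp] theorem map_cut_mem {ψ : L → L'} {φ : X → X'} (hψ : Function.Injective ψ)
    (hφ : Function.Injective φ) {g : Set (Atom L X)} {a : X} {q : ℚ} {b : Bool} :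
    Atom.cut (φ a) q b ∈ Atom.map ψ φ '' g ↔ .cut a q b ∈ g :=
  (Atom.map_inj hψ hφ).mem_set_image (a := Atom.cut a q b)

@[simp] theorem map_bit_mem {ψ : L → L'} {φ : X → X'} (hψ : Function.Injective ψ)
    (hφ : Function.Injective φ) {g : Set (Atom L X)} {l : L} {x : X} {b : Bool} :
    Atom.bit (ψ l) (φ x) b ∈ Atom.map ψ φ '' g ↔ .bit l x b ∈ g :=
  (Atom.map_inj hψ hφ).mem_set_image (a := Atom.bit l x b)

@[simp] theorem map_thin_mem {ψ : L → L'} {φ : X → X'} (hψ : Function.Injective ψ)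
    (hφ : Function.Injective φ) {g : Set (Atom L X)} {l : L} {z x : X} :
    Atom.pc (ψ l) (.inl (φ z)) (φ x) ∈ Atom.map ψ φ '' g ↔ .pc l (.inl z) x ∈ g :=
  (Atom.map_inj hψ hφ).mem_set_image (a := Atom.pc l (.inl z) x)

@[simp] theorem map_fat_mem {ψ : L → L'} {φ : X → X'} (hψ : Function.Injective ψ)
    (hφ : Function.Injective φ) {g : Set (Atom L X)} {l : L} {q : ℚ} {x : X} :
    Atom.pc (ψ l) (.inr q) (φ x) ∈ Atom.map ψ φ '' g ↔ .pc l (.inr q) x ∈ g :=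
  (Atom.map_inj hψ hφ).mem_set_image (a := Atom.pc l (.inr q) x)

theorem map_cut {ψ : L → L'} {φ : X → X'} {g : Set (Atom L X)} {a' : X'} {q : ℚ} {b : Bool} :
    Atom.cut a' q b ∈ Atom.map ψ φ '' g ↔ ∃ a, φ a = a' ∧ .cut a q b ∈ g := by
  constructor
  · rintro ⟨α, hα, h⟩
    rcases α with ⟨a, q', b'⟩ | ⟨l, x, b⟩ | ⟨l, t, x⟩ <;> simp only [Atom.map, Atom.cut.injEq, reduceCtorEq] at h
    obtain ⟨rfl, rfl, rfl⟩ := h
    exact ⟨a, rfl, hα⟩
  · rintro ⟨a, rfl, h⟩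
    exact ⟨_, h, rfl⟩

theorem map_bit {ψ : L → L'} {φ : X → X'} {g : Set (Atom L X)} {l' : L'} {x' : X'} {b : Bool} :
    Atom.bit l' x' b ∈ Atom.map ψ φ '' g ↔ ∃ l x, ψ l = l' ∧ φ x = x' ∧ .bit l x b ∈ g := by
  constructor
  · rintro ⟨α, hα, h⟩
    rcases α with ⟨a, q', b'⟩ | ⟨l, x, b⟩ | ⟨l, t, x⟩ <;> simp only [Atom.map, Atom.bit.injEq, reduceCtorEq] at h
    obtain ⟨rfl, rfl, rfl⟩ := h
    exact ⟨l, x, rfl, rfl, hα⟩
  · rintro ⟨l, x, rfl, rfl, h⟩
    exact ⟨_, h, rfl⟩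

theorem map_pc {ψ : L → L'} {φ : X → X'} {g : Set (Atom L X)} {l' : L'} {t' : X' ⊕ ℚ} {x' : X'} :
    Atom.pc l' t' x' ∈ Atom.map ψ φ '' g ↔
      ∃ l t x, ψ l = l' ∧ Sum.map φ id t = t' ∧ φ x = x' ∧ .pc l t x ∈ g := by
  constructor
  · rintro ⟨α, hα, h⟩
    rcases α with ⟨a, q', b'⟩ | ⟨l, x, b⟩ | ⟨l, t, x⟩ <;> simp only [Atom.map, Atom.pc.injEq, reduceCtorEq] at h
    obtain ⟨rfl, rfl, rfl⟩ := h
    exact ⟨l, t, x, rfl, rfl, rfl, hα⟩
  · rintro ⟨l, t, x, rfl, rfl, rfl, h⟩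
    exact ⟨_, h, rfl⟩

theorem mem_pts_cut {g : Set (Atom L X)} {a : X} {q : ℚ} {b : Bool} (h : .cut a q b ∈ g) :
    a ∈ pts g := ⟨_, h, rfl⟩

theorem mem_pts_bit {g : Set (Atom L X)} {l : L} {x : X} {b : Bool} (h : .bit l x b ∈ g) :
    x ∈ pts g := ⟨_, h, rfl⟩

theorem mem_pts_pc {g : Set (Atom L X)} {l : L} {t : X ⊕ ℚ} {x : X} (h : .pc l t x ∈ g) :
    x ∈ pts g := ⟨_, h, Or.inl rfl⟩

theorem mem_pts_thin {g : Set (Atom L X)} {l : L} {z x : X} (h : .pc l (.inl z) x ∈ g) :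
    z ∈ pts g := ⟨_, h, Or.inr rfl⟩

theorem mem_lbs_bit {g : Set (Atom L X)} {l : L} {x : X} {b : Bool} (h : .bit l x b ∈ g) :
    l ∈ lbs g := ⟨_, h, rfl⟩

theorem mem_lbs_pc {g : Set (Atom L X)} {l : L} {t : X ⊕ ℚ} {x : X} (h : .pc l t x ∈ g) :
    l ∈ lbs g := ⟨_, h, rfl⟩

theorem pts_mono {g g' : Set (Atom L X)} (h : g ⊆ g') : pts g ⊆ pts g' :=
  fun _ ⟨α, hα, hz⟩ => ⟨α, h hα, hz⟩

theorem lbs_mono {g g' : Set (Atom L X)} (h : g ⊆ g') : lbs g ⊆ lbs g' :=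
  fun _ ⟨α, hα, hz⟩ => ⟨α, h hα, hz⟩

theorem pts_union {g g' : Set (Atom L X)} : pts (g ∪ g') = pts g ∪ pts g' := by
  ext z
  constructor
  · rintro ⟨α, h | h, hz⟩
    · exact Or.inl ⟨α, h, hz⟩
    · exact Or.inr ⟨α, h, hz⟩
  · rintro (⟨α, h, hz⟩ | ⟨α, h, hz⟩)
    · exact ⟨α, Or.inl h, hz⟩
    · exact ⟨α, Or.inr h, hz⟩

theorem lbs_union {g g' : Set (Atom L X)} : lbs (g ∪ g') = lbs g ∪ lbs g' := by
  ext z
  constructor
  · rintro ⟨α, h | h, hz⟩
    · exact Or.inl ⟨α, h, hz⟩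
    · exact Or.inr ⟨α, h, hz⟩
  · rintro (⟨α, h, hz⟩ | ⟨α, h, hz⟩)
    · exact ⟨α, Or.inl h, hz⟩
    · exact ⟨α, Or.inr h, hz⟩

theorem Atom.pts_map (ψ : L → L') (φ : X → X') (α : Atom L X) : (α.map ψ φ).pts = φ '' α.pts := by
  rcases α with ⟨a, q', b'⟩ | ⟨l, x, b⟩ | ⟨l, t | q, x⟩
  · simp [Atom.map, Atom.pts]
  · simp [Atom.map, Atom.pts]
  · ext z
    simp only [Atom.map, Atom.pts, Sum.map_inl, Sum.inl.injEq, Set.mem_ofPred_eq, Set.mem_image]
    constructor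
    · rintro (rfl | rfl)
      · exact ⟨x, Or.inl rfl, rfl⟩
      · exact ⟨t, Or.inr rfl, rfl⟩
    · rintro ⟨y, rfl | rfl, rfl⟩
      · exact Or.inl rfl
      · exact Or.inr rfl
  · ext z
    simp only [Atom.map, Atom.pts, Sum.map_inr, reduceCtorEq, or_false, Set.mem_ofPred_eq,
      Set.mem_image, exists_eq_left]
    exact eq_comm

theorem pts_map (ψ : L → L') (φ : X → X') (g : Set (Atom L X)) :
    pts (Atom.map ψ φ '' g) = φ '' pts g := by
  ext z
  constructor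
  · rintro ⟨_, ⟨α, hα, rfl⟩, hz⟩
    rw [Atom.pts_map] at hz
    obtain ⟨y, hy, rfl⟩ := hz
    exact ⟨y, ⟨α, hα, hy⟩, rfl⟩
  · rintro ⟨y, ⟨α, hα, hy⟩, rfl⟩
    refine ⟨_, ⟨α, hα, rfl⟩, ?_⟩
    rw [Atom.pts_map]
    exact ⟨y, hy, rfl⟩

theorem lbs_map (ψ : L → L') (φ : X → X') (g : Set (Atom L X)) :
    lbs (Atom.map ψ φ '' g) = ψ '' lbs g := by
  ext z
  constructor
  · rintro ⟨_, ⟨α, hα, rfl⟩, hz⟩
    rcases α with ⟨a, q', b'⟩ | ⟨l, x, b⟩ | ⟨l, t, x⟩
    · exact hz.elim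
    · obtain rfl : z = ψ l := hz
      exact ⟨l, ⟨_, hα, rfl⟩, rfl⟩
    · obtain rfl : z = ψ l := hz
      exact ⟨l, ⟨_, hα, rfl⟩, rfl⟩
  · rintro ⟨y, ⟨α, hα, hy⟩, rfl⟩
    refine ⟨_, ⟨α, hα, rfl⟩, ?_⟩
    rcases α with ⟨a, q', b'⟩ | ⟨l, x, b⟩ | ⟨l, t, x⟩
    · exact hy.elim
    · obtain rfl : y = l := hy
      rfl
    · obtain rfl : y = l := hy
      rfl

theorem Atom.pts_finite (α : Atom L X) : α.pts.Finite := by
  rcases α with ⟨a, q', b'⟩ | ⟨l, x, b⟩ | ⟨l, t | q, x⟩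
  · exact Set.finite_singleton _
  · exact Set.finite_singleton _
  · refine (Set.toFinite {x, t}).subset ?_
    rintro z (h | h)
    · exact Or.inl h
    · exact Or.inr (Sum.inl.inj h).symm
  · refine (Set.finite_singleton x).subset ?_
    rintro z (h | h)
    · exact h
    · cases h

theorem pts_finite {g : Set (Atom L X)} (h : g.Finite) : (pts g).Finite := by
  have : pts g = ⋃ α ∈ g, α.pts := by
    ext z
    simp [pts]
  rw [this]
  exact h.biUnion fun α _ => α.pts_finite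

theorem lbs_finite {g : Set (Atom L X)} (h : g.Finite) : (lbs g).Finite := by
  have : lbs g = ⋃ α ∈ g, α.lbs := by
    ext z
    simp [lbs]
  rw [this]
  refine h.biUnion fun α _ => ?_
  rcases α with _ | _ | _
  · exact Set.finite_empty
  · exact Set.finite_singleton _
  · exact Set.finite_singleton _

theorem CutOk.mono {g g' : Set (Atom L X)} {pos : X → ℝ} (h : CutOk g' pos) (hg : g ⊆ g') :
    CutOk g pos := ⟨fun a q ha => h.lt a q (hg ha), fun a q ha => h.gt a q (hg ha)⟩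

theorem Good.mono {g g' : Set (Atom L X)} {pos : X → ℝ} (h : Good g' pos) (hg : g ⊆ g') :
    Good g pos where
  ok := h.ok.mono hg
  inj := h.inj.mono (pts_mono hg)
  irr a ha := h.irr a (pts_mono hg ha)
  inc l t x t' x' h1 h2 := h.inc l t x t' x' (hg h1) (hg h2)

theorem Dec.mono {g g' : Set (Atom L X)} (hg : g ⊆ g') {a b : X} (h : Dec g a b) : Dec g' a b :=
  h.imp fun _ h => ⟨hg h.1, hg h.2⟩

theorem Dec.lt {g : Set (Atom L X)} {pos : X → ℝ} (hg : CutOk g pos) {a b : X} (h : Dec g a b) :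
    pos a < pos b := by
  obtain ⟨q, h1, h2⟩ := h
  exact (hg.lt a q h1).trans (hg.gt b q h2)

/-- a good position of the image -/
theorem Good.comap {ψ : L → L'} {φ : X → X'} (hφ : Function.Injective φ) {g : Set (Atom L X)}
    {pos : X' → ℝ} (h : Good (Atom.map ψ φ '' g) pos) : Good g (pos ∘ φ) where
  ok := ⟨fun a q ha => h.ok.lt _ _ ⟨_, ha, rfl⟩, fun a q ha => h.ok.gt _ _ ⟨_, ha, rfl⟩⟩
  inj := by
    intro a ha b hb hab
    refine hφ (h.inj ?_ ?_ hab)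
    · rw [pts_map]
      exact ⟨a, ha, rfl⟩
    · rw [pts_map]
      exact ⟨b, hb, rfl⟩
  irr a ha := h.irr _ (by
    rw [pts_map]
    exact ⟨a, ha, rfl⟩)
  inc l t x t' x' h1 h2 := by
    have h3 := h.inc (ψ l) _ _ _ _ ⟨_, h1, rfl⟩ ⟨_, h2, rfl⟩
    have key : ∀ s : X ⊕ ℚ, ps pos (Sum.map φ id s) = ps (pos ∘ φ) s := by
      rintro (s | s) <;> rfl
    unfold Inc at h3 ⊢
    rw [key, key] at h3
    rcases h3 with ⟨h3, h4⟩ | h3
    · refine Or.inl ⟨hφ h3, ?_⟩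
      rcases h4 with h4 | ⟨⟨q, h4⟩, ⟨q', h5⟩⟩
      · left
        rcases t with t | t <;> rcases t' with t' | t' <;> simp at h4
        · rw [hφ h4]
        · rw [h4]
      · right
        rcases t with t | t <;> rcases t' with t' | t' <;> simp at h4 h5
        exact ⟨⟨_, rfl⟩, ⟨_, rfl⟩⟩
    · exact Or.inr h3

/-- a good position of a set of atoms gives a good position of its image -/
theorem Good.map {ψ : L → L'} {φ : X → X'} (hψ : Function.Injective ψ) {g : Set (Atom L X)}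
    {pos : X' → ℝ} (h : Good g (pos ∘ φ)) : Good (Atom.map ψ φ '' g) pos where
  ok := by
    constructor
    · intro a' q h1
      obtain ⟨a, rfl, h2⟩ := map_cut.1 h1
      exact h.ok.lt a q h2
    · intro a' q h1
      obtain ⟨a, rfl, h2⟩ := map_cut.1 h1
      exact h.ok.gt a q h2
  inj := by
    rw [pts_map]
    rintro _ ⟨a, ha, rfl⟩ _ ⟨b, hb, rfl⟩ hab
    rw [h.inj ha hb hab]
  irr := by
    rw [pts_map]
    rintro _ ⟨a, ha, rfl⟩
    exact h.irr a ha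
  inc l' t1 x1 t2 x2 h1 h2 := by
    obtain ⟨l, s1, y1, rfl, rfl, rfl, h3⟩ := map_pc.1 h1
    obtain ⟨l2, s2, y2, h4, rfl, rfl, h5⟩ := map_pc.1 h2
    have h6 := hψ h4
    subst h6
    have h7 := h.inc _ _ _ _ _ h3 h5
    have key : ∀ s : X ⊕ ℚ, ps pos (Sum.map φ id s) = ps (pos ∘ φ) s := by
      rintro (s | s) <;> rfl
    unfold Inc at h7 ⊢
    rw [key, key]
    rcases h7 with ⟨h7, h8⟩ | h7
    · refine Or.inl ⟨by rw [h7], ?_⟩
      rcases h8 with h8 | ⟨⟨q, rfl⟩, ⟨q', rfl⟩⟩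
      · exact Or.inl (by rw [h8])
      · exact Or.inr ⟨⟨q, rfl⟩, ⟨q', rfl⟩⟩
    · exact Or.inr h7

theorem Sharp.comap {ψ : L → L'} {φ : X → X'} (hψ : Function.Injective ψ)
    (hφ : Function.Injective φ) {g : Set (Atom L X)} (h : Sharp (Atom.map ψ φ '' g)) :
    Sharp g where
  pt a ha b hb hab := by
    have h1 : φ a ∈ pts (Atom.map ψ φ '' g) := by
      rw [pts_map]
      exact ⟨a, ha, rfl⟩
    have h2 : φ b ∈ pts (Atom.map ψ φ '' g) := by
      rw [pts_map]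
      exact ⟨b, hb, rfl⟩
    have key : ∀ a b, Dec (Atom.map ψ φ '' g) (φ a) (φ b) → Dec g a b := by
      rintro a b ⟨q, h3, h4⟩
      exact ⟨q, (map_cut_mem hψ hφ).1 h3, (map_cut_mem hψ hφ).1 h4⟩
    rcases h.pt _ h1 _ h2 (hφ.ne hab) with h3 | h3
    · exact Or.inl (key _ _ h3)
    · exact Or.inr (key _ _ h3)
  rt a ha l q x hx := by
    have h1 : φ a ∈ pts (Atom.map ψ φ '' g) := by
      rw [pts_map]
      exact ⟨a, ha, rfl⟩
    rcases h.rt _ h1 (ψ l) q (φ x) ((map_fat_mem hψ hφ).2 hx) with h3 | h3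
    · exact Or.inl ((map_cut_mem hψ hφ).1 h3)
    · exact Or.inr ((map_cut_mem hψ hφ).1 h3)

/-- `f_l(a) = x`: a thin piece `a ↦ x`, or two fat pieces `q ↦ x`, `q' ↦ x` with `q < c_a < q'` -/
def Fv (l : L) (g : Set (Atom L X)) (a x : X) : Prop :=
  .pc l (.inl a) x ∈ g ∨ ∃ q q', .pc l (.inr q) x ∈ g ∧ .pc l (.inr q') x ∈ g ∧
    .cut a q false ∈ g ∧ .cut a q' true ∈ g

theorem Fv.mono {l : L} {g g' : Set (Atom L X)} (hg : g ⊆ g') {a x : X} (h : Fv l g a x) :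
    Fv l g' a x := by
  rcases h with h | ⟨q, q', h1, h2, h3, h4⟩
  · exact Or.inl (hg h)
  · exact Or.inr ⟨q, q', hg h1, hg h2, hg h3, hg h4⟩

/-- a family of copies (indexed by `ι`) of a finite set `gs` of atoms over `Fin m`, `Fin l`. `R` is the root
for the points, `F` the root for the labels. -/
structure Fam {ι : Type*} {m l : ℕ} (gs : Set (Atom (Fin l) (Fin m))) (φ : ι → Fin m → X)
    (ψ : ι → Fin l → L) (R : Set (Fin m)) (F : Set (Fin l)) : Prop where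
  injφ : ∀ i, Function.Injective (φ i)
  injψ : ∀ i, Function.Injective (ψ i)
  rφ : ∀ i j, ∀ k ∈ R, φ i k = φ j k
  nφ : ∀ i j k k', k ∉ R → φ i k = φ j k' → i = j
  rψ : ∀ i j, ∀ k ∈ F, ψ i k = ψ j k
  nψ : ∀ i j k k', k ∉ F → ψ i k = ψ j k' → i = j
  k1 : ∀ a ∈ F, ∀ z x, .pc a (.inl z) x ∈ gs → (z ∈ R ↔ x ∈ R)
  k2 : ∀ a ∈ F, ∀ q x, .pc a (.inr q) x ∈ gs → x ∈ R

section

variable {ι : Type*} {m l : ℕ} {gs : Set (Atom (Fin l) (Fin m))} {φ : ι → Fin m → X}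
    {ψ : ι → Fin l → L} {R : Set (Fin m)} {F : Set (Fin l)}

theorem Fam.eqφ (h : Fam gs φ ψ R F) {i j : ι} {k k' : Fin m} (he : φ i k = φ j k') :
    k = k' ∧ (k ∈ R ∨ i = j) := by
  by_cases hk : k ∈ R
  · rw [h.rφ i j k hk] at he
    exact ⟨h.injφ j he, Or.inl hk⟩
  · obtain rfl := h.nφ i j k k' hk he
    exact ⟨h.injφ i he, Or.inr rfl⟩

theorem Fam.eqψ (h : Fam gs φ ψ R F) {i j : ι} {k k' : Fin l} (he : ψ i k = ψ j k') :
    k = k' ∧ (k ∈ F ∨ i = j) := by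
  by_cases hk : k ∈ F
  · rw [h.rψ i j k hk] at he
    exact ⟨h.injψ j he, Or.inl hk⟩
  · obtain rfl := h.nψ i j k k' hk he
    exact ⟨h.injψ i he, Or.inr rfl⟩

theorem Fam.comp (h : Fam gs φ ψ R F) {κ : Type*} {f : κ → ι} (hf : Function.Injective f) :
    Fam gs (fun i => φ (f i)) (fun i => ψ (f i)) R F where
  injφ i := h.injφ _
  injψ i := h.injψ _
  rφ i j := h.rφ _ _
  nφ i j k k' hk he := hf (h.nφ _ _ k k' hk he)
  rψ i j := h.rψ _ _
  nψ i j k k' hk he := hf (h.nψ _ _ k k' hk he)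
  k1 := h.k1
  k2 := h.k2

end

theorem Good.congr {g : Set (Atom L X)} {pos pos' : X → ℝ} (h : Good g pos)
    (he : ∀ a ∈ pts g, pos' a = pos a) : Good g pos' where
  ok := ⟨fun a q ha => by
    rw [he a (mem_pts_cut ha)]
    exact h.ok.lt a q ha, fun a q ha => by
    rw [he a (mem_pts_cut ha)]
    exact h.ok.gt a q ha⟩
  inj := by
    intro a ha b hb hab
    rw [he a ha, he b hb] at hab
    exact h.inj ha hb hab
  irr a ha := by
    rw [he a ha]
    exact h.irr a ha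
  inc l t x t' x' h1 h2 := by
    have key : ∀ s y, .pc l s y ∈ g → ps pos' s = ps pos s := by
      rintro (s | s) y hs
      · exact he s (mem_pts_thin hs)
      · rfl
    have h3 := h.inc l t x t' x' h1 h2
    unfold Inc at h3 ⊢
    rw [key t x h1, key t' x' h2, he x (mem_pts_pc h1), he x' (mem_pts_pc h2)]
    exact h3

end

end SSO
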