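import Pool.Agent.SSO.Gen

/-! # The ground model objects: points, labels, pre-conditions, data

(problem MP_ceadec_lc, project SSO; definitions, no sorry in this file)

* `K` = the class of ordinals of `Type 0` (an inaccessible cardinal `κ` of `Type 1`); small sets = sets of size
  `< κ` = subsets of `K` which are bounded (`BddAbove`), `Small.{0}`.
* `Pt = K × ℕ` points; `(w, k)` is a point of the block `w`.
* `Lb`: labels, a well-order of the initial order type `#(Set K) = 2^κ`.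
* `Pre`: pre-conditions `(y, g)`: `y` is a countable set of triples `(ξ, x, w)`, `g` a finite set of atoms.
  `rg y ξ` is the set of all `w` and `dm y` the set of all `ξ` of the triples of `y`.
* `YLe y' y`: `y'` extends `y`, and keeps the promise: for different `ξ, ζ ∈ dm y` the common elements of `rg y' ξ`,
  `rg y' ζ` are the common elements of `rg y ξ`, `rg y ζ`.
* `q ≤ p` for pre-conditions: `YLe q.y p.y` and `p.g ⊆ q.g`.
* `Dat`: the data of a label: `T` (a name of a subset of `Pt`: `T x` is an enumeration of pre-conditions), `e` (an enumeration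
  of a countable subset of `Pt`), `s` (bounds), `b` (a bound). -/

set_option autoImplicit false

namespace SSO

open Cardinal

/-- the indices of the blocks -/
abbrev K : Type 1 := Ordinal.{0}

/-- points -/
abbrev Pt : Type 1 := K × ℕ

/-- labels -/
abbrev Lb : Type 1 := (#(Set K)).ord.ToType

/-- the values of the triples with label `ξ` -/
def rg (y : Set (Lb × Pt × K)) (ξ : Lb) : Set K := {w | ∃ x, (ξ, x, w) ∈ y}

/-- the labels of the triples -/
def dm (y : Set (Lb × Pt × K)) : Set Lb := {ξ | ∃ x w, (ξ, x, w) ∈ y}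

/-- `y'` extends `y` and keeps the promise -/
def YLe (y' y : Set (Lb × Pt × K)) : Prop :=
  y ⊆ y' ∧ ∀ ξ ∈ dm y, ∀ ζ ∈ dm y, ξ ≠ ζ → ∀ w, w ∈ rg y' ξ → w ∈ rg y' ζ →
    w ∈ rg y ξ ∧ w ∈ rg y ζ

theorem YLe.refl (y : Set (Lb × Pt × K)) : YLe y y :=
  ⟨subset_rfl, fun _ _ _ _ _ _ h h' => ⟨h, h'⟩⟩

theorem rg_mono {y y' : Set (Lb × Pt × K)} (h : y ⊆ y') (ξ : Lb) : rg y ξ ⊆ rg y' ξ :=
  fun _ ⟨x, hx⟩ => ⟨x, h hx⟩

theorem dm_mono {y y' : Set (Lb × Pt × K)} (h : y ⊆ y') : dm y ⊆ dm y' :=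
  fun _ ⟨x, w, hx⟩ => ⟨x, w, h hx⟩

theorem YLe.trans {y y' y'' : Set (Lb × Pt × K)} (h' : YLe y'' y') (h : YLe y' y) : YLe y'' y :=
  ⟨h.1.trans h'.1, fun ξ hξ ζ hζ hn w hw hw' => by
    obtain ⟨h1, h2⟩ := h'.2 ξ (dm_mono h.1 hξ) ζ (dm_mono h.1 hζ) hn w hw hw'
    exact h.2 ξ hξ ζ hζ hn w h1 h2⟩

theorem YLe.antisymm {y y' : Set (Lb × Pt × K)} (h : YLe y' y) (h' : YLe y y') : y = y' :=
  h.1.antisymm h'.1

/-- pre-conditions -/
@[ext]
structure Pre : Type 1 where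
  y : Set (Lb × Pt × K)
  g : Set (Atom Lb Pt)
  cy : y.Countable
  fg : g.Finite

instance : PartialOrder Pre where
  le q p := YLe q.y p.y ∧ p.g ⊆ q.g
  le_refl _ := ⟨YLe.refl _, subset_rfl⟩
  le_trans _ _ _ h h' := ⟨h.1.trans h'.1, h'.2.trans h.2⟩
  le_antisymm _ _ h h' := Pre.ext (h'.1.antisymm h.1) (h'.2.antisymm h.2)

theorem Pre.le_def {q p : Pre} : q ≤ p ↔ YLe q.y p.y ∧ p.g ⊆ q.g := Iff.rfl

/-- the data of a label -/
structure Dat : Type 1 where
  T : Pt → K → Option Pre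
  e : ℕ → Pt
  s : Pt → K
  b : K

/-- the properties of the sets `W ξ x` -/
structure WOk (s : Lb → Pt → K) (W : Lb → Pt → Set K) : Prop where
  unc : ∀ ξ x, ¬ (W ξ x).Countable
  bdd : ∀ ξ x, BddAbove (W ξ x)
  gs : ∀ ξ x w, w ∈ W ξ x → s ξ x < w
  gi : ∀ ξ x w, w ∈ W ξ x → x.1 < w
  dis : ∀ ξ x x' w, w ∈ W ξ x → w ∈ W ξ x' → x = x'
  ad : ∀ ξ ζ, ξ ≠ ζ → BddAbove {w | (∃ x, w ∈ W ξ x) ∧ ∃ x, w ∈ W ζ x}

end SSO
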