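import Pool.Agent.SSO.DCopB
import Pool.Agent.SSO.LThree
import Pool.Agent.SSO.PShp

/-! # Covering countable sets by countable ground model sets (package K5)

(problem MP_ceadec_lc, project SSO, part K)

* `compat`: for every `i` let `c' i ≤ c i` be sharp with the same `y`-part and `(0, 0) ∈ pts (c' i).1.g` (`exists_sharp` with `{(0, 0)}`). `exists_cop` with
  `b = t = (0, 0)`: `C`, `f`. `three C` with `Φ := fun _ => True` (closed): `q ≤ C.c 0 ≤ c' (f 0) ≤ c (f 0)`, `q ≤ C.c 1 ≤ c' (f 1) ≤ c (f 1)`, and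
  `f 0 ≠ f 1`.
* `cover1` (one relation): suppose not: for every legal `y` with `YLe y q.1.y` and every countable set `s ⊆ Ys × (Cn × X)` there is `c : Cn` with `YLe c.1.y y`,
  `q.1.g ⊆ c.1.g`, `x` with `S c x`, such that `c` is incompatible with all `c''` with `(_, c'', x'') ∈ s`, `S c'' x''` for some `x''`. (Namely, if this fails for
  `y`, `s`, then `r := q.ye _ _ = (y, q.1.g)` and `C := {x'' | ∃ y'' c'', (y'', c'', x'') ∈ s}` are as required in `cover1`: let `r' ≤ r` and `S r' x`; then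
  `r'` is compatible with some `c''` with `(_, c'', x'') ∈ s`, `S c'' x''`; a common extension `r''` has `S r'' x''` by `hS`.) So `exists_ychain` (with
  `R s y' (c, x) := c.1.y = y' ∧ q.1.g ⊆ c.1.g ∧ S c x ∧ ∀ z ∈ s, S z.2.1 z.2.2 → ¬ ∃ r : Cn, r ≤ c ∧ r ≤ z.2.1`) gives `c : W1 → Cn` with descending `y`-parts
  which are pairwise incompatible (for `j < i`: `c i` is incompatible with `c j`), a contradiction to `compat`.
* `cover`: enumerate `I` (`exists_surjective_nat`, the case `I` empty is trivial: `C = ∅`, `r = q`). Build `r 0 = q`, `r (n+1) ≤ r n` with the same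
  `g`, and `C n` by `cover1` (recursion with choice on pairs). `y := ⋃ n, (r n).1.y` (`yg_union`), `r := (y, q.1.g) ≤ r n` for all `n`
  (`Cn.ye`), `C := ⋃ n, C n`. -/

set_option autoImplicit false

namespace SSO

theorem compat {c : W1 → Cn} (hc : ∀ i j, j ≤ i → YLe (c i).1.y (c j).1.y) :
    ∃ i j, i ≠ j ∧ ∃ r : Cn, r ≤ c i ∧ r ≤ c j := by
  have h1 : ∀ i, ∃ c' ≤ c i, c'.1.y = (c i).1.y ∧ ({((0 : K), (0 : ℕ))} : Set Pt) ⊆ pts c'.1.g ∧
      Sharp c'.1.g := fun i => by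
    obtain ⟨c', h1, h2, h3, -, h4, -⟩ := exists_sharp (c i) (Set.finite_singleton ((0 : K), (0 : ℕ)))
    exact ⟨c', h1, h2, h3, h4⟩
  choose c' h2 h3 h4 h5 using h1
  obtain ⟨C, f, kb, kt, hf, h6⟩ := exists_cop (c := c') h5
    (fun i j hij => by rw [h3, h3]; exact hc i j hij)
    (b := fun _ => ((0 : K), (0 : ℕ))) (t := fun _ => ((0 : K), (0 : ℕ)))
    (fun i => h4 i rfl) (fun i => h4 i rfl)
  obtain ⟨q, hq0, hq1, -⟩ := three C (Φ := fun _ => True)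
    ⟨fun _ _ _ => trivial, fun _ _ _ _ _ _ => trivial⟩
  exact ⟨f 0, f 1, hf.ne (by norm_num), q, hq0.trans ((h6 0).1.trans (h2 _)),
    hq1.trans ((h6 1).1.trans (h2 _))⟩

theorem cover1 {X : Type 1} {S : Cn → X → Prop} (hS : ∀ c c' x, c' ≤ c → S c x → S c' x)
    (q : Cn) : ∃ r ≤ q, r.1.g = q.1.g ∧ ∃ C : Set X, C.Countable ∧
      ∀ r' ≤ r, (∃ x, S r' x) → ∃ r'' ≤ r', ∃ x ∈ C, S r'' x := by
  by_contra hcon
  have key : ∀ s : Set (Ys × (Cn × X)), s.Countable → ∀ y, Yg y → YLe y q.1.y →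
      ∃ y' cx, Yg y' ∧ YLe y' y ∧ ((cx : Cn × X).1.1.y = y' ∧ q.1.g ⊆ cx.1.1.g ∧ S cx.1 cx.2 ∧
        ∀ z ∈ s, S z.2.1 z.2.2 → ¬ ∃ r : Cn, r ≤ cx.1 ∧ r ≤ z.2.1) := by
    intro s hs y hy hyq
    by_contra hno
    apply hcon
    refine ⟨q.ye hy hyq, q.ye_le hy hyq, rfl, (fun z : Ys × (Cn × X) => z.2.2) '' s,
      hs.image _, ?_⟩
    rintro r' hr' ⟨x, hx⟩
    by_contra hno2
    apply hno
    refine ⟨r'.1.y, (r', x), r'.2.yg, hr'.1, rfl, hr'.2, hx, ?_⟩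
    rintro z hz hSz ⟨r, h1, h2⟩
    apply hno2
    exact ⟨r, h1, z.2.2, ⟨z, hz, rfl⟩, hS _ _ _ h2 hSz⟩
  obtain ⟨Y, cx, -, -, hY, hR⟩ := exists_ychain q.2.yg (X := Cn × X)
    (fun s y' cx => cx.1.1.y = y' ∧ q.1.g ⊆ cx.1.1.g ∧ S cx.1 cx.2 ∧
      ∀ z ∈ s, S z.2.1 z.2.2 → ¬ ∃ r : Cn, r ≤ cx.1 ∧ r ≤ z.2.1) key
  obtain ⟨i, j, hij, r, hi, hj⟩ := compat (c := fun i => (cx i).1) (fun i j hij => by
    rw [(hR i).1, (hR j).1]
    exact hY i j hij)
  rcases lt_or_gt_of_ne hij with h | h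
  · exact (hR j).2.2.2 (Y i, cx i) ⟨i, h, rfl⟩ (hR i).2.2.1 ⟨r, hj, hi⟩
  · exact (hR i).2.2.2 (Y j, cx j) ⟨j, h, rfl⟩ (hR j).2.2.1 ⟨r, hi, hj⟩

theorem cover {I : Type} [Countable I] {X : Type 1} {S : I → Cn → X → Prop}
    (hS : ∀ i c c' x, c' ≤ c → S i c x → S i c' x) (q : Cn) :
    ∃ r ≤ q, ∃ C : Set X, C.Countable ∧
      ∀ i, ∀ r' ≤ r, (∃ x, S i r' x) → ∃ r'' ≤ r', ∃ x ∈ C, S i r'' x := by
  rcases isEmpty_or_nonempty I with hI | hI
  · exact ⟨q, le_rfl, ∅, Set.countable_empty, fun i => (hI.false i).elim⟩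
  obtain ⟨e, he⟩ := exists_surjective_nat I
  choose F hF1 hF2 CF hCF hF3 using fun (i : I) (q : Cn) => cover1 (hS i) q
  let r : ℕ → Cn := fun n => Nat.rec q (fun n r => F (e n) r) n
  have hr : ∀ n, r (n + 1) ≤ r n := fun n => hF1 (e n) (r n)
  have hrg : ∀ n, (r n).1.g = q.1.g := by
    intro n
    induction n with
    | zero => rfl
    | succ n ih => exact (hF2 (e n) (r n)).trans ih
  have hanti : Antitone r := antitone_nat_of_succ_le hr
  have hU := yg_union (y := fun n => (r n).1.y) (fun n => (r n).2.yg) (fun i j => by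
    rcases le_total i j with h | h
    · exact Or.inr (hanti h).1
    · exact Or.inl (hanti h).1)
  have hq : YLe (⋃ n, (r n).1.y) q.1.y := hU.2 0
  have hr' : ∀ n, q.ye hU.1 hq ≤ r n := fun n => ⟨hU.2 n, by
    rw [hrg n]
    exact subset_rfl⟩
  refine ⟨q.ye hU.1 hq, q.ye_le _ _, ⋃ n, CF (e n) (r n),
    Set.countable_iUnion fun n => hCF _ _, ?_⟩
  intro i s hs hx
  obtain ⟨n, rfl⟩ := he i
  obtain ⟨s', h1, x, h2, h3⟩ := hF3 (e n) (r n) s (hs.trans (hr' (n + 1))) hx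
  exact ⟨s', h1, x, Set.mem_iUnion.2 ⟨n, h2⟩, h3⟩

end SSO
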