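import Pool.Agent.SSO.GDat
import Pool.Agent.SSO.GW
import Pool.Agent.SSO.Typed

/-! # The poset

(problem MP_ceadec_lc, project SSO; no sorry in this file)

* `dat : Lb → Dat`: every datum occurs cofinally often (`exists_lb`). `W ξ x`: the sets from `exists_W`.
* `En ξ`: the countable set `E_ξ`.
* `Vd ξ x α`: the atom `α` is admissible for `(ξ, x)`. `Wit ξ x c`: some `a ∈ T_ξ(x)` is above `c`, and all its atoms
  are admissible for `(ξ, x)`.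
* `Yg y`: the `y`-part is legal. `Leg c`: the pre-condition `c` is legal. `Cn`: the poset of conditions (legal
  pre-conditions).
* `Lt a b`: the truth value of `a < b`. `KS`: the set of all points `(w, k)` with `w < ω₁`.
* `Cl Φ`: `Φ` is a closed class of atoms; `Plt β`: all labels are `< β`; `PW β`: for bits `γ`: `γ < β` or `b_γ < b_β`; for pieces `ζ`
  with value `x`: `ζ < β` or `s_ζ(x) < b_β`. -/

set_option autoImplicit false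

namespace SSO

open Cardinal STP

/-- the data of the labels -/
noncomputable def dat : Lb → Dat := exists_dat.choose

theorem exists_lb (d : Dat) (ξ : Lb) : ∃ ζ, ξ < ζ ∧ dat ζ = d := exists_dat.choose_spec d ξ

/-- the sets of possible blocks -/
noncomputable def W : Lb → Pt → Set K := (exists_W fun ξ x => (dat ξ).s x).choose

theorem wok : WOk (fun ξ x => (dat ξ).s x) W := (exists_W fun ξ x => (dat ξ).s x).choose_spec

/-- the countable set `E_ξ` -/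
def En (ξ : Lb) : Set Pt := Set.range (dat ξ).e

/-- the atom is admissible for `(ξ, x)` -/
def Vd (ξ : Lb) (x : Pt) : Atom Lb Pt → Prop
  | .cut _ _ _ => True
  | .bit γ _ _ => γ < ξ ∧ (dat γ).b ≤ (dat ξ).s x
  | .pc ζ _ x' => ζ < ξ ∧ (dat ζ).s x' ≤ (dat ξ).s x

/-- `c` is below a witness for `x ∈ T_ξ` -/
def Wit (ξ : Lb) (x : Pt) (c : Pre) : Prop :=
  ∃ k a, (dat ξ).T x k = some a ∧ c ≤ a ∧ ∀ α ∈ a.g, Vd ξ x α

theorem Wit.mono {ξ : Lb} {x : Pt} {c c' : Pre} (h : Wit ξ x c) (hc : c' ≤ c) : Wit ξ x c' := by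
  obtain ⟨k, a, h1, h2, h3⟩ := h
  exact ⟨k, a, h1, hc.trans h2, h3⟩

/-- legal `y`-parts -/
structure Yg (y : Set (Lb × Pt × K)) : Prop where
  cnt : y.Countable
  w : ∀ ξ x w, (ξ, x, w) ∈ y → w ∈ W ξ x
  fn : ∀ ξ x w w', (ξ, x, w) ∈ y → (ξ, x, w') ∈ y → w = w'

/-- legal pre-conditions -/
structure Leg (c : Pre) : Prop where
  yg : Yg c.y
  thin : ∀ ξ z x, .pc ξ (.inl z) x ∈ c.g → x ∉ En ξ ∧ (ξ, x, z.1) ∈ c.y
  fat : ∀ ξ q x, .pc ξ (.inr q) x ∈ c.g → x ∈ En ξ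
  wit : ∀ ξ t x, .pc ξ t x ∈ c.g → Wit ξ x c
  bit : ∀ γ x, .bit γ x true ∈ c.g → .bit γ x false ∉ c.g
  good : ∃ pos, Good c.g pos

/-- conditions -/
abbrev Cn : Type 1 := {c : Pre // Leg c}

/-- the truth value of `a < b` -/
def Lt (a b : Pt) : RO Cn := RO.cl {p | Dec p.1.g a b}

theorem mem_Lt {a b : Pt} {p : Cn} : p ∈ Lt a b ↔ ∀ q ≤ p, ∃ r ≤ q, Dec r.1.g a b := by
  unfold Lt
  rw [RO.mem_cl]
  · rfl
  · intro p q hq hp
    exact Dec.mono hq.2 hp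

theorem Dec.mem_Lt {a b : Pt} {p : Cn} (h : Dec p.1.g a b) : p ∈ Lt a b :=
  SSO.mem_Lt.2 fun q hq => ⟨q, le_rfl, h.mono hq.2⟩

/-- the uncountable set `K` of the theorem -/
def KS : Set Pt := {a | a.1 < (ℵ_ 1).ord}

/-- a closed class of atoms -/
structure Cl (Φ : Atom Lb Pt → Prop) : Prop where
  cut : ∀ a q b, Φ (.cut a q b)
  cl : ∀ ξ t x, Φ (.pc ξ t x) → ∀ α, Vd ξ x α → Φ α

/-- all labels are `< β` -/
def Plt (β : Lb) : Atom Lb Pt → Prop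
  | .cut _ _ _ => True
  | .bit γ _ _ => γ < β
  | .pc ζ _ _ => ζ < β

/-- the class `Φ_W` for the label `β` -/
def PW (β : Lb) : Atom Lb Pt → Prop
  | .cut _ _ _ => True
  | .bit γ _ _ => γ < β ∨ (dat γ).b < (dat β).b
  | .pc ζ _ x => ζ < β ∨ (dat ζ).s x < (dat β).b

theorem Plt.cl (β : Lb) : Cl (Plt β) where
  cut _ _ _ := trivial
  cl ξ t x h α hα := by
    rcases α with ⟨a, q, b⟩ | ⟨γ, x', b⟩ | ⟨ζ, t', x'⟩
    · trivial
    · exact hα.1.trans h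
    · exact hα.1.trans h

theorem PW.cl (β : Lb) : Cl (PW β) where
  cut _ _ _ := trivial
  cl ξ t x h α hα := by
    rcases α with ⟨a, q, b⟩ | ⟨γ, x', b⟩ | ⟨ζ, t', x'⟩
    · trivial
    · rcases h with h | h
      · exact Or.inl (hα.1.trans h)
      · exact Or.inr (hα.2.trans_lt h)
    · rcases h with h | h
      · exact Or.inl (hα.1.trans h)
      · exact Or.inr (hα.2.trans_lt h)

theorem PW.no_bit {β : Lb} {x : Pt} {b : Bool} : ¬ PW β (.bit β x b) := by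
  rintro (h | h)
  · exact lt_irrefl _ h
  · exact lt_irrefl _ h

theorem Plt.no_bit {β : Lb} {x : Pt} {b : Bool} : ¬ Plt β (.bit β x b) := fun h => lt_irrefl _ h

theorem Plt.pw {β : Lb} {α : Atom Lb Pt} (h : Plt β α) : PW β α := by
  rcases α with ⟨a, q, b⟩ | ⟨γ, x', b⟩ | ⟨ζ, t', x'⟩
  · trivial
  · exact Or.inl h
  · exact Or.inl h

/-- a legal `y`-part below the `y`-part of a condition -/
theorem Leg.yext {c : Pre} (h : Leg c) {y : Set (Lb × Pt × K)} (hy : Yg y) (hle : YLe y c.y) :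
    Leg ⟨y, c.g, hy.cnt, c.fg⟩ where
  yg := hy
  thin ξ z x hz := ⟨(h.thin ξ z x hz).1, hle.1 (h.thin ξ z x hz).2⟩
  fat := h.fat
  wit ξ t x hz := (h.wit ξ t x hz).mono ⟨hle, subset_rfl⟩
  bit := h.bit
  good := h.good

/-- the condition `(y, c.g)` -/
def Cn.ye (c : Cn) {y : Set (Lb × Pt × K)} (hy : Yg y) (hle : YLe y c.1.y) : Cn :=
  ⟨⟨y, c.1.g, hy.cnt, c.1.fg⟩, c.2.yext hy hle⟩

theorem Cn.ye_le (c : Cn) {y : Set (Lb × Pt × K)} (hy : Yg y) (hle : YLe y c.1.y) :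
    c.ye hy hle ≤ c := ⟨hle, subset_rfl⟩

/-- the empty condition -/
def one : Cn := ⟨⟨∅, ∅, Set.countable_empty, Set.finite_empty⟩, {
  yg := ⟨Set.countable_empty, by simp, by simp⟩
  thin := by simp
  fat := by simp
  wit := by simp
  bit := by simp
  good := ⟨fun _ => 0, ⟨by simp, by simp⟩, by simp [pts], by simp [pts], by simp⟩ }⟩

theorem le_one (c : Cn) : c ≤ one := ⟨⟨Set.empty_subset _, by
  rintro ξ ⟨x, w, h⟩
  exact h.elim⟩, Set.empty_subset _⟩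

/-- restriction of a condition `c ≤ c0` to `c0` and the atoms in a closed class -/
theorem restrict {c c0 : Cn} (h : c ≤ c0) {Φ : Atom Lb Pt → Prop} (hΦ : Cl Φ) :
    ∃ c' : Cn, c ≤ c' ∧ c' ≤ c0 ∧ c'.1.y = c.1.y ∧ c'.1.g = c0.1.g ∪ {α | α ∈ c.1.g ∧ Φ α} ∧
      ∀ a : Pre, c.1 ≤ a → (∀ α ∈ a.g, Φ α) → c'.1 ≤ a := by
  have hsub : c0.1.g ∪ {α | α ∈ c.1.g ∧ Φ α} ⊆ c.1.g :=
    Set.union_subset h.2 fun _ h => h.1
  have hle : ∀ a : Pre, c.1 ≤ a → (∀ α ∈ a.g, Φ α) →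
      (⟨c.1.y, c0.1.g ∪ {α | α ∈ c.1.g ∧ Φ α}, c.1.cy, c.1.fg.subset hsub⟩ : Pre) ≤ a :=
    fun a ha h1 => ⟨ha.1, fun α hα => Or.inr ⟨ha.2 hα, h1 α hα⟩⟩
  have hc0 : (⟨c.1.y, c0.1.g ∪ {α | α ∈ c.1.g ∧ Φ α}, c.1.cy, c.1.fg.subset hsub⟩ : Pre) ≤ c0.1 :=
    ⟨h.1, Set.subset_union_left⟩
  refine ⟨⟨⟨c.1.y, c0.1.g ∪ {α | α ∈ c.1.g ∧ Φ α}, c.1.cy, c.1.fg.subset hsub⟩, ?_⟩,
    ⟨YLe.refl _, hsub⟩, hc0, rfl, rfl, hle⟩
  exact
    { yg := c.2.yg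
      thin := fun ξ z x hz => c.2.thin ξ z x (hsub hz)
      fat := fun ξ q x hz => c.2.fat ξ q x (hsub hz)
      wit := by
        rintro ξ t x (hz | hz)
        · exact (c0.2.wit ξ t x hz).mono hc0
        · obtain ⟨k, a, h1, h2, h3⟩ := c.2.wit ξ t x hz.1
          exact ⟨k, a, h1, hle a h2 fun α hα => hΦ.cl ξ t x hz.2 α (h3 α hα), h3⟩
      bit := fun γ x h1 h2 => c.2.bit γ x (hsub h1) (hsub h2)
      good := by
        obtain ⟨pos, hpos⟩ := c.2.good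
        exact ⟨pos, hpos.mono hsub⟩ }

/-- extending a condition: only the new pieces must be checked -/
theorem Leg.mk' {c : Pre} (h : Leg c) {c' : Pre} (hle : c' ≤ c) (hy : Yg c'.y)
    (hpos : ∃ pos, Good c'.g pos) (hbit : ∀ γ x, .bit γ x true ∈ c'.g → .bit γ x false ∉ c'.g)
    (hnew : ∀ ξ t x, .pc ξ t x ∈ c'.g → .pc ξ t x ∈ c.g ∨ (Wit ξ x c' ∧
      (∀ z, t = .inl z → x ∉ En ξ ∧ (ξ, x, z.1) ∈ c'.y) ∧ ∀ q, t = .inr q → x ∈ En ξ)) : Leg c' where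
  yg := hy
  thin ξ z x hz := by
    rcases hnew ξ _ x hz with h1 | h1
    · exact ⟨(h.thin ξ z x h1).1, hle.1.1 (h.thin ξ z x h1).2⟩
    · exact h1.2.1 z rfl
  fat ξ q x hz := by
    rcases hnew ξ _ x hz with h1 | h1
    · exact h.fat ξ q x h1
    · exact h1.2.2 q rfl
  wit ξ t x hz := by
    rcases hnew ξ _ x hz with h1 | h1
    · exact (h.wit ξ t x h1).mono hle
    · exact h1.1
  bit := hbit
  good := hpos

/-- adding cuts to a condition -/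
theorem Leg.cuts {c : Pre} (h : Leg c) {g : Set (Atom Lb Pt)} (hg : g.Finite) (hs : c.g ⊆ g)
    (hcut : ∀ α ∈ g, α ∈ c.g ∨ α.isCut) (hpos : ∃ pos, Good g pos) :
    Leg ⟨c.y, g, c.cy, hg⟩ :=
  h.mk' (c' := ⟨c.y, g, c.cy, hg⟩) ⟨YLe.refl _, hs⟩ h.yg hpos
    (fun γ x h1 h2 => by
      rcases hcut _ h1 with h3 | h3
      · rcases hcut _ h2 with h4 | h4
        · exact h.bit γ x h3 h4
        · exact h4
      · exact h3)
    fun ξ t x h1 => Or.inl ((hcut _ h1).resolve_right fun h2 => h2)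

/-- the truth value of `f_ξ(a) = x` -/
def Fr (ξ : Lb) (a x : Pt) : RO Cn := RO.cl {p | Fv ξ p.1.g a x}

theorem mem_Fr {ξ : Lb} {a x : Pt} {p : Cn} :
    p ∈ Fr ξ a x ↔ ∀ q ≤ p, ∃ r ≤ q, Fv ξ r.1.g a x := by
  unfold Fr
  rw [RO.mem_cl]
  · rfl
  · intro p q hq hp
    exact Fv.mono hq.2 hp

/-- below `c0` there are enough elements of `T_ξ` in `E_ξ` -/
structure Btw (ξ : Lb) (c0 : Cn) : Prop where
  ne : ∀ c ≤ c0, ∃ c' ≤ c, ∃ d ∈ En ξ, Wit ξ d c'.1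
  lo : ∀ c ≤ c0, ∀ x, x ∉ En ξ → Wit ξ x c.1 →
    ∃ c' ≤ c, ∃ d ∈ En ξ, Wit ξ d c'.1 ∧ Dec c'.1.g d x
  hi : ∀ c ≤ c0, ∀ x, x ∉ En ξ → Wit ξ x c.1 →
    ∃ c' ≤ c, ∃ d ∈ En ξ, Wit ξ d c'.1 ∧ Dec c'.1.g x d
  bt : ∀ c ≤ c0, ∀ x x', x ∉ En ξ → x' ∉ En ξ → Wit ξ x c.1 → Wit ξ x' c.1 → Dec c.1.g x x' →
    ∃ c' ≤ c, ∃ d ∈ En ξ, Wit ξ d c'.1 ∧ Dec c'.1.g x d ∧ Dec c'.1.g d x'

/-- the same, for a name `T` and a ground model set `E` -/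
structure Den (T : Pt → RO Cn) (E : Set Pt) (c0 : Cn) : Prop where
  ne : ∀ c ≤ c0, ∃ c' ≤ c, ∃ d ∈ E, c' ∈ T d
  lo : ∀ c ≤ c0, ∀ x, x ∉ E → c ∈ T x → ∃ c' ≤ c, ∃ d ∈ E, c' ∈ T d ∧ c' ∈ Lt d x
  hi : ∀ c ≤ c0, ∀ x, x ∉ E → c ∈ T x → ∃ c' ≤ c, ∃ d ∈ E, c' ∈ T d ∧ c' ∈ Lt x d
  bt : ∀ c ≤ c0, ∀ x x', x ∉ E → x' ∉ E → c ∈ T x → c ∈ T x' → c ∈ Lt x x' →
    ∃ c' ≤ c, ∃ d ∈ E, c' ∈ T d ∧ c' ∈ Lt x d ∧ c' ∈ Lt d x'

/-- `Y`-parts -/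
abbrev Ys : Type 1 := Set (Lb × Pt × K)

/-- countably many copies of a condition, with the same `y`-part -/
structure Cop where
  y : Ys
  hy : Yg y
  m : ℕ
  l : ℕ
  gs : Set (Atom (Fin l) (Fin m))
  fg : gs.Finite
  φ : ℕ → Fin m → Pt
  ψ : ℕ → Fin l → Lb
  R : Set (Fin m)
  F : Set (Fin l)
  fam : Fam gs φ ψ R F
  c : ℕ → Cn
  cy : ∀ n, (c n).1.y = y
  cg : ∀ n, (c n).1.g = Atom.map (ψ n) (φ n) '' gs
  full : pts gs = Set.univ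
  shp : Sharp gs
  k3 : ∀ a ∈ F, ∀ a' ∈ F, ∀ z x x', z ∉ R → .pc a (.inl z) x ∈ gs → .pc a' (.inl z) x' ∈ gs →
    a = a'

end SSO
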