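import Pool.Agent.SSO.BLO
import Pool.Agent.SSO.BSS
import Pool.Agent.SSO.BUnc
import Pool.Agent.SSO.BNeg
import Pool.Agent.SSO.Pos

/-! # The model, from the typed statements

(problem MP_ceadec_lc, project SSO) -/

set_option autoImplicit false

universe u

namespace SSO

open STP STP.BSet CPI

/-- the typed statements give a model -/
theorem model_of {P : Type u} [PartialOrder P] [Nonempty P] {A : Type u} {lt : A → A → RO P}
    {S : Set A} (h : TDat lt S) : ∃ (N : Type (u + 1)) (E : N → N → Prop), ZFC E ∧ NegSS E := by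
  obtain ⟨G, -⟩ := Ult.exists_mem (B := RO P) (b := ⊤) (by
    intro h
    obtain ⟨p⟩ := (inferInstance : Nonempty P)
    have h1 : p ∈ (⊤ : RO P) := RO.mem_top
    rw [h] at h1
    exact RO.not_mem_bot h1)
  exact ⟨NG G, EG G, NG_zfc G, _, _, _, br_lo h.lo G, br_ss h.ss G, br_sub S G, br_unc h.unc G,
    br_non h.non G, br_neg h.neg G⟩

end SSO
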