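import Pool.Agent.SSO.PShp
import Pool.Agent.SSO.GRoom

/-! # Thin pieces are dense (package P4)

(problem MP_ceadec_lc, project SSO, part P)

* `exists_block`: if there is `w` with `(ξ, x, w) ∈ y` take `y' = y`. Otherwise the set `W ξ x` is uncountable (`wok.unc`), and
  `⋃ ζ, rg y ζ` (the image of `y` under the last coordinate) is countable, so there is `w ∈ W ξ x` which is not in any `rg y ζ`; `y' :=
  insert (ξ, x, w) y`. `Yg`: `fn` as there is no triple `(ξ, x, _)` in `y`. `YLe y' y`: let `ζ ≠ ζ'` be in `dm y`, `w' ∈ rg y' ζ ∩ rg y' ζ'`.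
  If both triples are in `y`: fine. If one of them is the new triple then `w' = w`, and the other one has a different label, so
  it is in `y`, a contradiction to the choice of `w`.
* `exists_thin`: let first `c1 ≤ c` with `x ∈ pts c1.1.g` (`exists_sharp`; `Wit.mono`). If `pc ξ t x ∈ c1.1.g` for some `t`, then `t` is not
  rational (`c1.2.fat`, `hx`), so it is a thin piece: done. Otherwise let `y'`, `w` from `exists_block` for `c1.1.y`, `z := (w, k)` with
  `z ∉ pts c1.1.g` (finite; infinitely many `k`), `add_thin`: a position `pos'` which is good for `g' := insert (.pc ξ (.inl z) x) c1.1.g`.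
  `c' := (y', g')`, legal by `Leg.mk'` (with `Wit ξ x` by `Wit.mono`, `x ∉ En ξ`, `(ξ, x, w) ∈ y'`). -/

set_option autoImplicit false

namespace SSO

theorem exists_block {y : Ys} (hy : Yg y) (ξ : Lb) (x : Pt) :
    ∃ y' w, Yg y' ∧ YLe y' y ∧ (ξ, x, w) ∈ y' := by
  by_cases hex : ∃ w, (ξ, x, w) ∈ y
  · obtain ⟨w, hw⟩ := hex
    exact ⟨y, w, hy, YLe.refl y, hw⟩
  · have hc : ((fun t : Lb × Pt × K => t.2.2) '' y).Countable := hy.cnt.image _
    have hne : ∃ w ∈ W ξ x, w ∉ (fun t : Lb × Pt × K => t.2.2) '' y := by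
      by_contra hcon
      push Not at hcon
      exact wok.unc ξ x (hc.mono hcon)
    obtain ⟨w, hw, hwn⟩ := hne
    have hwn' : ∀ ζ x', (ζ, x', w) ∉ y := fun ζ x' h => hwn ⟨_, h, rfl⟩
    have key : ∀ ζ x' w', (ζ, x', w') ∈ insert (ξ, x, w) y →
        (ζ = ξ ∧ x' = x ∧ w' = w) ∨ (ζ, x', w') ∈ y := by
      rintro ζ x' w' (h | h)
      · left
        simpa only [Prod.mk.injEq] using h
      · exact Or.inr h
    refine ⟨insert (ξ, x, w) y, w, ⟨hy.cnt.insert _, ?_, ?_⟩, ⟨Set.subset_insert _ _, ?_⟩,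
      Set.mem_insert _ _⟩
    · intro ζ x' w' h
      rcases key ζ x' w' h with ⟨rfl, rfl, rfl⟩ | h
      · exact hw
      · exact hy.w _ _ _ h
    · intro ζ x' w1 w2 h1 h2
      rcases key ζ x' w1 h1 with ⟨h3, h4, h5⟩ | h1
      · rcases key ζ x' w2 h2 with ⟨_, _, h6⟩ | h2
        · rw [h5, h6]
        · rw [h3, h4] at h2
          exact absurd ⟨_, h2⟩ hex
      · rcases key ζ x' w2 h2 with ⟨h3, h4, _⟩ | h2
        · rw [h3, h4] at h1
          exact absurd ⟨_, h1⟩ hex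
        · exact hy.fn _ _ _ _ h1 h2
    · rintro ξ1 _ ζ1 _ hne w' ⟨x1, h1⟩ ⟨x2, h2⟩
      rcases key ξ1 x1 w' h1 with ⟨h3, _, h5⟩ | h1
      · rcases key ζ1 x2 w' h2 with ⟨h6, _, _⟩ | h2
        · exact absurd (h3.trans h6.symm) hne
        · rw [h5] at h2
          exact absurd h2 (hwn' _ _)
      · rcases key ζ1 x2 w' h2 with ⟨_, _, h5⟩ | h2
        · rw [h5] at h1
          exact absurd h1 (hwn' _ _)
        · exact ⟨⟨x1, h1⟩, ⟨x2, h2⟩⟩

theorem exists_thin (c : Cn) {ξ : Lb} {x : Pt} (hx : x ∉ En ξ) (h : Wit ξ x c.1) :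
    ∃ c' ≤ c, ∃ z, .pc ξ (.inl z) x ∈ c'.1.g := by
  obtain ⟨c1, hc1, hy1, hA, -, -, -⟩ := exists_sharp c (Set.finite_singleton x)
  have hx1 : x ∈ pts c1.1.g := hA rfl
  have h1 : Wit ξ x c1.1 := h.mono hc1
  by_cases hex : ∃ t, .pc ξ t x ∈ c1.1.g
  · obtain ⟨t, ht⟩ := hex
    rcases t with z | q
    · exact ⟨c1, hc1, z, ht⟩
    · exact absurd (c1.2.fat ξ q x ht) hx
  · have hn : ∀ t, .pc ξ t x ∉ c1.1.g := fun t ht => hex ⟨t, ht⟩
    obtain ⟨y', w, hy', hle, hw⟩ := exists_block c1.2.yg ξ x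
    have hfin : (pts c1.1.g).Finite := pts_finite c1.1.fg
    obtain ⟨z, hzw, hz⟩ : ∃ z : Pt, z.1 = w ∧ z ∉ pts c1.1.g := by
      have hinf : (Set.range fun k : ℕ => ((w, k) : Pt)).Infinite :=
        Set.infinite_range_of_injective fun k k' hk => (Prod.mk.inj hk).2
      obtain ⟨_, ⟨k, rfl⟩, hk⟩ := hinf.exists_notMem_finite hfin
      exact ⟨(w, k), rfl, hk⟩
    obtain ⟨pos, hpos⟩ := c1.2.good
    obtain ⟨pos', -, hpos'⟩ := add_thin c1.1.fg hpos hz hx1 hn
    have hle' : (⟨y', insert (.pc ξ (.inl z) x) c1.1.g, hy'.cnt, c1.1.fg.insert _⟩ : Pre) ≤ c1.1 :=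
      ⟨hle, Set.subset_insert _ _⟩
    refine ⟨⟨⟨y', insert (.pc ξ (.inl z) x) c1.1.g, hy'.cnt, c1.1.fg.insert _⟩,
      c1.2.mk' hle' hy' ⟨pos', hpos'⟩ ?_ ?_⟩, le_trans ?_ hc1, z, Set.mem_insert _ _⟩
    · rintro γ x' (h2 | h2) (h3 | h3)
      · cases h2
      · cases h2
      · cases h3
      · exact c1.2.bit γ x' h2 h3
    · rintro ζ t x' (h2 | h2)
      · right
        cases h2
        refine ⟨h1.mono hle', ?_, ?_⟩
        · intro z' hz'
          cases hz'
          rw [← hzw] at hw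
          exact ⟨hx, hw⟩
        · intro q hq
          cases hq
      · exact Or.inl h2
    · exact hle'

end SSO
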