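import Pool.Agent.SSO.RRef
import Pool.Agent.SSO.GBd

/-! # Consequences of the chain condition (package R6)

(problem MP_ceadec_lc, project SSO, part R)

* `small_values`: `reflection` for `D := {c | ∃ x, S c x}`: `D'`. For every `c' ∈ D'` choose `x` with `S c' x`, let `C` be the set of these `x` (the image of a small
  set, `small_image`/`small_range`). If `S c x` then `c ∈ D`, there are `c' ∈ D'` and `r ≤ c`, `r ≤ c'`, and `S r x'` for the chosen `x' ∈ C` by `hS`.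
* `small_name`: `reflection` for `D := {c | c ∈ U}`.
* `non_KS`: for every `k ∈ KS` let `C k` be the small set from `small_values` for `S c a := c ≤ q ∧ c ∈ f k a`. `KS` is small (a subset of
  `Set.Iio (ℵ_ 1).ord ×ˢ univ`, `small_of_bdd`), so `C := ⋃ k ∈ KS, C k` is small. `Pt` is not small (`K` is not small: `not_small_ordinal`), so there is a point
  `a ∉ C`; `r := q`. If `r' ≤ q`, `k ∈ KS`, `r' ∈ f k a`: there are `r'' ≤ r'`, `x ∈ C k` with `r'' ∈ f k x`, and `r'' ∈ f k a`, so `a = x ∈ C`, a contradiction.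
* `bdd_image`: with the same `C`: if `r ≤ q`, `r ∈ B a` then by `ho` there are `r' ≤ r`, `k ∈ KS` with `r' ∈ f k a`, and as before `a ∈ C`. `C` is small, so the
  set of all `a.1`, `a ∈ C`, is small and bounded by some `s` (`k_bdd`). -/

set_option autoImplicit false

namespace SSO

open STP

theorem small_values {X : Type 1} {S : Cn → X → Prop} (hS : ∀ c c' x, c' ≤ c → S c x → S c' x) :
    ∃ C : Set X, Small.{0} C ∧ ∀ c, (∃ x, S c x) → ∃ c' ≤ c, ∃ x ∈ C, S c' x := by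
  obtain ⟨D', hD, hs, h⟩ := reflection {c | ∃ x, S c x}
  refine ⟨Set.range fun c : D' => (hD c.2).choose, small_range _, fun c hc => ?_⟩
  obtain ⟨c', hc', r, hr, hr'⟩ := h c hc
  exact ⟨r, hr, _, ⟨⟨c', hc'⟩, rfl⟩, hS c' r _ hr' (hD hc').choose_spec⟩

theorem small_name (U : RO Cn) : ∃ D : Set Cn, Small.{0} D ∧ (∀ c ∈ D, c ∈ U) ∧
    ∀ c ∈ U, ∃ c' ≤ c, ∃ d ∈ D, c' ≤ d := by
  obtain ⟨D', hD, hs, h⟩ := reflection {c | c ∈ U}
  refine ⟨D', hs, fun c hc => hD hc, fun c hc => ?_⟩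
  obtain ⟨c', hc', r, hr, hr'⟩ := h c hc
  exact ⟨r, hr, c', hc', hr'⟩

private theorem small_KS : Small.{0} KS := by
  have h1 : Small.{0} (Set.Iio (Cardinal.aleph 1).ord : Set K) := small_of_bdd bddAbove_Iio
  have h2 : KS ⊆ Set.range fun z : (Set.Iio (Cardinal.aleph 1).ord : Set K) × ℕ =>
      ((z.1 : K), z.2) := fun a ha => ⟨(⟨a.1, ha⟩, a.2), rfl⟩
  exact small_subset h2

private theorem exists_C {q : Cn} {f : Pt → Pt → RO Cn}
    (hf : ∀ r ≤ q, ∀ k ∈ KS, ∀ a a', r ∈ f k a → r ∈ f k a' → a = a') :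
    ∃ C : Set Pt, Small.{0} C ∧ ∀ r ≤ q, ∀ k ∈ KS, ∀ a, r ∈ f k a → a ∈ C := by
  have h1 : ∀ k : Pt, ∃ C : Set Pt, Small.{0} C ∧ ∀ c, (∃ x, c ≤ q ∧ c ∈ f k x) →
      ∃ c' ≤ c, ∃ x ∈ C, c' ≤ q ∧ c' ∈ f k x := fun k =>
    small_values (S := fun c x => c ≤ q ∧ c ∈ f k x)
      fun c c' x hc h => ⟨hc.trans h.1, (f k x).down hc h.2⟩
  choose C hCs hC using h1
  have h2 : Small.{0} KS := small_KS
  have h3 : ∀ k : KS, Small.{0} (C k) := fun k => hCs k
  refine ⟨⋃ k : KS, C k, small_iUnion _, fun r hr k hk a ha => ?_⟩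
  obtain ⟨c', hc', x, hx, h4, h5⟩ := hC k r ⟨a, hr, ha⟩
  have h6 : a = x := hf c' h4 k hk a x ((f k a).down hc' ha) h5
  rw [h6]
  exact Set.mem_iUnion.2 ⟨⟨k, hk⟩, hx⟩

theorem non_KS : TNon Cn KS := by
  intro q f hf
  obtain ⟨C, hCs, hC⟩ := exists_C hf
  have h1 : ∃ a, a ∉ C := by
    by_contra hcon
    push Not at hcon
    have h2 : Function.Injective fun w : K => (⟨(w, 0), hcon _⟩ : C) := by
      intro w w' h
      have h3 := congrArg Subtype.val h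
      exact congrArg Prod.fst h3
    exact not_small_ordinal.{0, 0} (small_of_injective h2)
  obtain ⟨a, ha⟩ := h1
  exact ⟨q, le_rfl, a, fun r' hr' k hk h => ha (hC r' hr' k hk a h)⟩

theorem bdd_image {q : Cn} {B : Pt → RO Cn} {f : Pt → Pt → RO Cn}
    (hf : ∀ r ≤ q, ∀ k ∈ KS, ∀ a a', r ∈ f k a → r ∈ f k a' → a = a')
    (ho : ∀ r ≤ q, ∀ a, r ∈ B a → ∃ r' ≤ r, ∃ k ∈ KS, r' ∈ f k a) :
    ∃ s : K, ∀ r ≤ q, ∀ a, r ∈ B a → a.1 < s := by
  obtain ⟨C, hCs, hC⟩ := exists_C hf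
  obtain ⟨s, hs⟩ := k_bdd (s := Prod.fst '' C) (small_image _ _)
  refine ⟨s, fun r hr a ha => ?_⟩
  obtain ⟨r', hr', k, hk, h⟩ := ho r hr a ha
  exact hs _ ⟨a, hC r' (hr'.trans hr) k hk a h, rfl⟩

end SSO
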