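import Mathlib

/-! # Closing off (package R1)

(problem MP_ceadec_lc, project SSO, part R; pure)

A small set closed under operations of countable arity. (Compare `DLN/CClose.lean`, where the same is proved with `2^ω` in place of small.)

Proof 1 (iteration of length `ω₁`): let `W` be a well-ordered set of type `ω₁` in `Type 0`. By well-founded recursion
`N i := ⋃ j < i, (N j ∪ ⋃ t ∈ {t | sp t ⊆ N j}, op t)` is small for all `i` (induction; `small_iUnion`, `small_biUnion`-like lemmas: a
small union of small sets is small; for `t` ranging over the small set `{t | sp t ⊆ N j}`), and increasing. Let `M := ⋃ i, N i`, small. If `sp t ⊆ M`: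
`sp t` is countable, so `sp t ⊆ N j` for some `j < ω₁` (a countable set of indices is bounded in `W`), so `op t ⊆ N i ⊆ M` for `j < i`.

Proof 2 (trees, as in `DLN/CClose.lean`): let `M` be the smallest set with the closure property (intersection of all such sets). Every element of `M` is the value of a well-founded tree of a `WType` in `Type 0`: choose for each small set `S` an enumeration
of the small set `{t | sp t ⊆ S}` and for each `t` an enumeration of the small set `op t`... (the first proof is simpler). -/

set_option autoImplicit false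

namespace SSO

/-- the stages of the closing off -/
private noncomputable def stage {T X : Type 1} (sp op : T → Set X) (i : Ordinal.{0}) : Set X :=
  ⋃ j : Set.Iio i, (stage sp op j.1 ∪ ⋃ t ∈ {t | sp t ⊆ stage sp op j.1}, op t)
termination_by i
decreasing_by exact j.2

private theorem mem_stage {T X : Type 1} {sp op : T → Set X} {i : Ordinal.{0}} {x : X} :
    x ∈ stage sp op i ↔ ∃ j < i, x ∈ stage sp op j ∨ ∃ t, sp t ⊆ stage sp op j ∧ x ∈ op t := by
  rw [stage]
  simp only [Set.mem_iUnion, Set.mem_union, Set.mem_ofPred_eq, exists_prop, Subtype.exists,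
    Set.mem_Iio]

private theorem stage_mono {T X : Type 1} {sp op : T → Set X} {i j : Ordinal.{0}} (h : i ≤ j) :
    stage sp op i ⊆ stage sp op j := by
  intro x hx
  rw [mem_stage] at hx ⊢
  obtain ⟨k, hk, hx⟩ := hx
  exact ⟨k, hk.trans_le h, hx⟩

private theorem stage_small {T X : Type 1} {sp op : T → Set X}
    (hs : ∀ M : Set X, Small.{0} M → Small.{0} {t | sp t ⊆ M}) (ho : ∀ t, Small.{0} (op t))
    (i : Ordinal.{0}) : Small.{0} (stage sp op i) := by
  induction i using WellFoundedLT.induction with
  | ind i ih =>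
    rw [stage]
    haveI : ∀ j : Set.Iio i, Small.{0} (stage sp op j.1) := fun j => ih j.1 j.2
    haveI : ∀ j : Set.Iio i, Small.{0} {t | sp t ⊆ stage sp op j.1} := fun j => hs _ (ih j.1 j.2)
    haveI : ∀ t, Small.{0} (op t) := ho
    haveI : ∀ j : Set.Iio i, Small.{0} (↑(⋃ t ∈ {t | sp t ⊆ stage sp op j.1}, op t) : Set X) :=
      fun j => small_biUnion _ _
    infer_instance

theorem close {T X : Type 1} (sp : T → Set X) (hc : ∀ t, (sp t).Countable)
    (hs : ∀ M : Set X, Small.{0} M → Small.{0} {t | sp t ⊆ M}) (op : T → Set X)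
    (ho : ∀ t, Small.{0} (op t)) :
    ∃ M : Set X, Small.{0} M ∧ ∀ t, sp t ⊆ M → op t ⊆ M := by
  refine ⟨stage sp op (Ordinal.omega 1), stage_small hs ho _, ?_⟩
  intro t ht x hx
  have h1 : ∀ y : sp t, ∃ j < Ordinal.omega 1, y.1 ∈ stage sp op j := by
    intro y
    obtain ⟨j, hj, h⟩ := mem_stage.1 (ht y.2)
    exact ⟨Order.succ j, (Cardinal.isSuccLimit_omega 1).succ_lt hj,
      mem_stage.2 ⟨j, Order.lt_succ j, h⟩⟩
  choose g hg1 hg2 using h1
  haveI : Countable (sp t) := hc t
  have h2 : (⨆ y, g y) < Ordinal.omega 1 := Ordinal.iSup_lt_omega_one hg1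
  rw [mem_stage]
  refine ⟨_, h2, Or.inr ⟨t, ?_, hx⟩⟩
  intro y hy
  exact stage_mono (Ordinal.le_iSup g ⟨y, hy⟩) (hg2 ⟨y, hy⟩)

end SSO
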