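import Pool.Agent.SSO.RTr
import Pool.Agent.SSO.GAm

/-! # A condition and a condition in the model which extends its trace are compatible (package R4)

(problem MP_ceadec_lc, project SSO, part R)

Let `φ, ψ` be from `ht.rep`, `φ', ψ'` from `hf.rep`. Facts: `mP M (φ' k)` for all `k` (`pts_map`, `t.fp`: `φ' k ∈ pts c'.1.g`, `hs`), `mL M (ψ' k)`. Let
`R := {k | mP M (φ k)}`, `F := {k | mL M (ψ k)}`; for `k ∈ R`: `t.φ k = some (φ k)`, so `φ' k = φ k`; for `k ∈ F`: `ψ' k = ψ k`.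
* Supports: `(ξ, x, w) ∈ c'.1.y` implies `mL M ξ`, `mP M x`, `mK M w` (`hs`). (*) `(ξ, x, w) ∈ c.1.y` with `mL M ξ`, `mK M w` is in `t.τ ⊆ c'.1.y`: `w ∈ W ξ x`
  (`c.2.yg.w`), so `mP M x` by `hM.c4`; `ht.τ`, `hf.τ`.
* `yu`: let `y := c.1.y ∪ c'.1.y`. `Yg y`: `cnt`, `w` clear; `fn`: `(ξ, x, w) ∈ c.1.y`, `(ξ, x, w') ∈ c'.1.y`: `mL M ξ`, `mP M x`, so `mK M w` by `hM.c1`, so
  `(ξ, x, w) ∈ c'.1.y` by (*), and `w = w'`.
  `YLe y c.1.y`: let `ξ ≠ ζ ∈ dm c.1.y`, `w ∈ rg y ξ ∩ rg y ζ`. Both triples in `c.1.y`: clear. Both in `c'.1.y`: `mL M ξ`, `mL M ζ`, so `ξ, ζ ∈ t.d`, and `hf.dd`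
  gives `w ∈ rg t.τ ξ ∩ rg t.τ ζ`, `t.τ ⊆ c.1.y` (`ht.τ`). `(ξ, x, w) ∈ c.1.y`, `(ζ, x', w) ∈ c'.1.y`: `ζ ∈ t.d`, `mK M w`, so `w ∈ t.v`, and by `hf.dv`
  `w ∈ rg t.τ ζ ⊆ rg c.1.y ζ`. The fourth case is symmetric.
  `YLe y c'.1.y`: let `ξ ≠ ζ ∈ dm c'.1.y` (so `mL M ξ`, `mL M ζ`), `w ∈ rg y ξ ∩ rg y ζ`: `w ∈ W ξ x`, `w ∈ W ζ x'` (`Yg y`), so `mK M w` by `hM.c2`; by (*) both triples
  are in `c'.1.y`.
* Position: `amalgam` for `ι := Bool`, `φ false = φ`, `φ true = φ'`, `τ false = 0`, `τ true = 1` and `π := pos ∘ φ` (`Good.comap` for a good position `pos` of `c`). `Fam`: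
  `nφ`: `k ∉ R` and `φ k = φ' k'`: `mP M (φ k)`, a contradiction; `φ' k = φ k'` with `k ∉ R`: `mP M (φ k')`, so `k' ∈ R`, `φ' k' = φ k' = φ' k`, `k' = k`, a
  contradiction. `nψ` in the same way. `k1`: `a ∈ F`, `pc a (inl z) x ∈ t.gs`: `(ψ a, φ x, (φ z).1) ∈ c.1.y` (`c.2.thin`), `(φ z).1 ∈ W (ψ a) (φ x)`: if
  `x ∈ R` then `mK M (φ z).1` by `hM.c1`, so `z ∈ R` by `hM.c5`; if `z ∈ R` then `mK M (φ z).1` by `hM.c5`, so `x ∈ R` by `hM.c4`. `k2`: `hM.c3`, `c.2.fat`.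
* `r := (y, c.1.g ∪ c'.1.g)`, legal: `thin`, `fat`, `wit` from `c.2`, `c'.2` (`r ≤ c`, `r ≤ c'`). `bit`: `bit γ x true ∈ c.1.g`, `bit γ x false ∈ c'.1.g`: by
  `map_bit`, `Fam.eqψ`, `Fam.eqφ` the same abstract atoms `bit a k true`, `bit a k false ∈ t.gs`, a contradiction to `c.2.bit`. `good`: from `amalgam`. -/

set_option autoImplicit false

namespace SSO

theorem compat_of_fits {M : Set Z} (hM : Closed M) {c c' : Cn} {t : Tr} (ht : IsTr M c.1 t)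
    (hf : Fits t c'.1) (hs : sp c'.1 ⊆ M) : ∃ r : Cn, r ≤ c ∧ r ≤ c' := by
  obtain ⟨φ, ψ, hφ, hψ, hg, hφt, hψt⟩ := ht.rep
  obtain ⟨φ', ψ', hφ', hψ', hg', hφt', hψt'⟩ := hf.rep
  have hMp : ∀ k, mP M (φ' k) := fun k => hs (Or.inl (by
    rw [← hg', pts_map, t.fp]
    exact ⟨k, Set.mem_univ k, rfl⟩) : Sum.inr (Sum.inl (φ' k)) ∈ sp c'.1)
  have hMl : ∀ k, mL M (ψ' k) := fun k => hs (Or.inl (by
    rw [← hg', lbs_map, t.fl]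
    exact ⟨k, Set.mem_univ k, rfl⟩) : Sum.inl (ψ' k) ∈ sp c'.1)
  have hR : ∀ k, mP M (φ k) → φ' k = φ k := fun k hk => hφt' k (φ k) ((hφt k (φ k)).2 ⟨rfl, hk⟩)
  have hF : ∀ k, mL M (ψ k) → ψ' k = ψ k := fun k hk => hψt' k (ψ k) ((hψt k (ψ k)).2 ⟨rfl, hk⟩)
  have hy' : ∀ ξ x w, (ξ, x, w) ∈ c'.1.y → mL M ξ ∧ mP M x ∧ mK M w := fun ξ x w h =>
    ⟨hs (Or.inr ⟨x, w, h⟩ : Sum.inl ξ ∈ sp c'.1),
      hs (Or.inr ⟨ξ, w, h⟩ : Sum.inr (Sum.inl x) ∈ sp c'.1),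
      hs (⟨ξ, x, h⟩ : Sum.inr (Sum.inr w) ∈ sp c'.1)⟩
  have star : ∀ ξ x w, (ξ, x, w) ∈ c.1.y → mL M ξ → mK M w → (ξ, x, w) ∈ c'.1.y :=
    fun ξ x w h h1 h2 => hf.τ ((ht.τ ξ x w).2
      ⟨h, h1, hM.c4 ξ w x h1 h2 (c.2.yg.w ξ x w h), h2⟩)
  have hτc : t.τ ⊆ c.1.y := fun z hz => ((ht.τ z.1 z.2.1 z.2.2).1 hz).1
  -- the `y`-part
  have hY : Yg (c.1.y ∪ c'.1.y) := by
    refine ⟨c.1.cy.union c'.1.cy, ?_, ?_⟩
    · rintro ξ x w (h | h)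
      · exact c.2.yg.w ξ x w h
      · exact c'.2.yg.w ξ x w h
    · have key : ∀ ξ x w w', (ξ, x, w) ∈ c.1.y → (ξ, x, w') ∈ c'.1.y → w = w' := by
        intro ξ x w w' h h'
        obtain ⟨h1, h2, -⟩ := hy' ξ x w' h'
        exact c'.2.yg.fn ξ x w w'
          (star ξ x w h h1 (hM.c1 ξ x h1 h2 w (c.2.yg.w ξ x w h))) h'
      rintro ξ x w w' (h | h) (h' | h')
      · exact c.2.yg.fn ξ x w w' h h'
      · exact key ξ x w w' h h'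
      · exact (key ξ x w' w h' h).symm
      · exact c'.2.yg.fn ξ x w w' h h'
  have hY1 : YLe (c.1.y ∪ c'.1.y) c.1.y := by
    refine ⟨Set.subset_union_left, ?_⟩
    have key : ∀ ξ ζ x x' w, ζ ∈ dm c.1.y → (ξ, x, w) ∈ c.1.y → (ζ, x', w) ∈ c'.1.y →
        w ∈ rg c.1.y ζ := by
      intro ξ ζ x x' w hζ h h'
      obtain ⟨h1, -, h2⟩ := hy' ζ x' w h'
      exact rg_mono hτc ζ (hf.dv ζ ((ht.d ζ).2 ⟨hζ, h1⟩) w ((ht.v w).2 ⟨⟨ξ, x, h⟩, h2⟩)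
        ⟨x', h'⟩)
    rintro ξ hξ ζ hζ hn w ⟨x, h | h⟩ ⟨x', h' | h'⟩
    · exact ⟨⟨x, h⟩, ⟨x', h'⟩⟩
    · exact ⟨⟨x, h⟩, key ξ ζ x x' w hζ h h'⟩
    · exact ⟨key ζ ξ x' x w hξ h' h, ⟨x', h'⟩⟩
    · obtain ⟨h1, h2⟩ := hf.dd ξ ((ht.d ξ).2 ⟨hξ, (hy' ξ x w h).1⟩) ζ
        ((ht.d ζ).2 ⟨hζ, (hy' ζ x' w h').1⟩) hn w ⟨x, h⟩ ⟨x', h'⟩
      exact ⟨rg_mono hτc ξ h1, rg_mono hτc ζ h2⟩
  have hY2 : YLe (c.1.y ∪ c'.1.y) c'.1.y := by
    refine ⟨Set.subset_union_right, ?_⟩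
    rintro ξ ⟨x1, w1, h1⟩ ζ ⟨x2, w2, h2⟩ hn w ⟨x, h⟩ ⟨x', h'⟩
    have hξ := (hy' ξ x1 w1 h1).1
    have hζ := (hy' ζ x2 w2 h2).1
    have hw : mK M w := hM.c2 ξ ζ hn hξ hζ w ⟨x, hY.w ξ x w h⟩ ⟨x', hY.w ζ x' w h'⟩
    exact ⟨⟨x, h.elim (fun h => star ξ x w h hξ hw) id⟩,
      ⟨x', h'.elim (fun h' => star ζ x' w h' hζ hw) id⟩⟩
  -- the family of the two copies
  let Φ : Bool → Fin t.m → Pt := fun i => if i then φ' else φ
  let Ψ : Bool → Fin t.l → Lb := fun i => if i then ψ' else ψ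
  have hΦ1 : Φ true = φ' := rfl
  have hΦ0 : Φ false = φ := rfl
  have hΨ1 : Ψ true = ψ' := rfl
  have hΨ0 : Ψ false = ψ := rfl
  have fam : Fam t.gs Φ Ψ {k | mP M (φ k)} {k | mL M (ψ k)} := by
    refine ⟨?_, ?_, ?_, ?_, ?_, ?_, ?_, ?_⟩
    · rintro (_ | _)
      · exact hφ
      · exact hφ'
    · rintro (_ | _)
      · exact hψ
      · exact hψ'
    · rintro (_ | _) (_ | _) k hk
      · rfl
      · exact (hR k hk).symm
      · exact hR k hk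
      · rfl
    · rintro (_ | _) (_ | _) k k' hk he
      · rfl
      · have h1 : φ k = φ' k' := he
        exact absurd (show mP M (φ k) from h1 ▸ hMp k') hk
      · have h1 : φ' k = φ k' := he
        have h2 : mP M (φ k') := h1 ▸ hMp k
        have h3 : k = k' := hφ' (h1.trans (hR k' h2).symm)
        exact absurd (show mP M (φ k) from h3 ▸ h2) hk
      · rfl
    · rintro (_ | _) (_ | _) k hk
      · rfl
      · exact (hF k hk).symm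
      · exact hF k hk
      · rfl
    · rintro (_ | _) (_ | _) k k' hk he
      · rfl
      · have h1 : ψ k = ψ' k' := he
        exact absurd (show mL M (ψ k) from h1 ▸ hMl k') hk
      · have h1 : ψ' k = ψ k' := he
        have h2 : mL M (ψ k') := h1 ▸ hMl k
        have h3 : k = k' := hψ' (h1.trans (hF k' h2).symm)
        exact absurd (show mL M (ψ k) from h3 ▸ h2) hk
      · rfl
    · intro a ha z x h
      have h1 : .pc (ψ a) (.inl (φ z)) (φ x) ∈ c.1.g := hg ▸ ⟨_, h, rfl⟩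
      have h2 : (φ z).1 ∈ W (ψ a) (φ x) := c.2.yg.w _ _ _ (c.2.thin _ _ _ h1).2
      constructor
      · intro hz
        exact hM.c4 (ψ a) (φ z).1 (φ x) ha ((hM.c5 (φ z).1 (φ z).2).2 hz) h2
      · intro hx
        exact (hM.c5 (φ z).1 (φ z).2).1 (hM.c1 (ψ a) (φ x) ha hx _ h2)
    · intro a ha q x h
      have h1 : .pc (ψ a) (.inr q) (φ x) ∈ c.1.g := hg ▸ ⟨_, h, rfl⟩
      exact hM.c3 (ψ a) ha (φ x) (c.2.fat _ _ _ h1)
  have hgood : ∃ pos, Good (c.1.g ∪ c'.1.g) pos := by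
    obtain ⟨pos, hpos⟩ := c.2.good
    rw [← hg] at hpos
    obtain ⟨pos', hpos', -⟩ := amalgam fam t.fg (Good.comap hφ hpos)
      (τ := fun i => if i then 1 else 0) (by
        rintro (_ | _) (_ | _) h
        · rfl
        · simp at h
        · simp at h
        · rfl) (by
        rintro (_ | _)
        · simp
        · simp) (by
        rintro (_ | _)
        · simp
        · simp)
    refine ⟨pos', hpos'.mono (Set.union_subset ?_ ?_)⟩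
    · rw [← hg]
      exact Set.subset_iUnion (fun i => Atom.map (Ψ i) (Φ i) '' t.gs) false
    · rw [← hg']
      exact Set.subset_iUnion (fun i => Atom.map (Ψ i) (Φ i) '' t.gs) true
  have hle1 : (⟨c.1.y ∪ c'.1.y, c.1.g ∪ c'.1.g, hY.cnt, c.1.fg.union c'.1.fg⟩ : Pre) ≤ c.1 :=
    ⟨hY1, Set.subset_union_left⟩
  have hle2 : (⟨c.1.y ∪ c'.1.y, c.1.g ∪ c'.1.g, hY.cnt, c.1.fg.union c'.1.fg⟩ : Pre) ≤ c'.1 :=
    ⟨hY2, Set.subset_union_right⟩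
  refine ⟨⟨⟨c.1.y ∪ c'.1.y, c.1.g ∪ c'.1.g, hY.cnt, c.1.fg.union c'.1.fg⟩, ?_⟩, hle1, hle2⟩
  refine ⟨hY, ?_, ?_, ?_, ?_, hgood⟩
  · rintro ξ z x (h | h)
    · exact ⟨(c.2.thin ξ z x h).1, Or.inl (c.2.thin ξ z x h).2⟩
    · exact ⟨(c'.2.thin ξ z x h).1, Or.inr (c'.2.thin ξ z x h).2⟩
  · rintro ξ q x (h | h)
    · exact c.2.fat ξ q x h
    · exact c'.2.fat ξ q x h
  · rintro ξ s x (h | h)
    · exact (c.2.wit ξ s x h).mono hle1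
    · exact (c'.2.wit ξ s x h).mono hle2
  · have key : ∀ γ x b b', .bit γ x b ∈ c.1.g → .bit γ x b' ∈ c'.1.g → .bit γ x b' ∈ c.1.g := by
      intro γ x b b' h h'
      rw [← hg] at h
      rw [← hg'] at h'
      obtain ⟨a, k, rfl, rfl, h1⟩ := map_bit.1 h
      obtain ⟨a', k', ha, hk, h2⟩ := map_bit.1 h'
      have h3 : a' = a := (fam.eqψ (i := true) (j := false) ha).1
      have h4 : k' = k := (fam.eqφ (i := true) (j := false) hk).1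
      subst h3 h4
      exact hg ▸ ⟨_, h2, rfl⟩
    rintro γ x (h | h) (h' | h')
    · exact c.2.bit γ x h h'
    · exact c.2.bit γ x h (key γ x _ _ h h')
    · exact c.2.bit γ x (key γ x _ _ h' h) h'
    · exact c'.2.bit γ x h h'

end SSO
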