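import Pool.Agent.SSO.RTr
import Pool.Agent.SSO.GBd

/-! # There are few traces in a small model (package R2)

(problem MP_ceadec_lc, project SSO, part R)

* `sp_countable`: `sp c` is countable (a countable union of countable sets: `c.cy`, `pts_finite`,
  `lbs_finite`); `spT_countable`: as well.
* `small_tr`: for `t` with `spT t ⊆ M` the components `τ`, `d`, `v`, `φ`, `ψ` are determined by
  the set of all `(a, b, c) : M × M × M` with `a = inl ξ`, `b = inr (inl x)`, `c = inr (inr w)`,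
  `(ξ, x, w) ∈ t.τ`, the sets `{a : M | a = inl ξ, ξ ∈ t.d}`, `{a : M | a = inr (inr w), w ∈ t.v}`,
  and functions `Fin m → Set M`, `Fin l → Set M`. So there is an injection of `{t | spT t ⊆ M}`
  in a type which is small (`Small` instances: `small_set`, products, sigma types, functions from
  small types; the type `M` is small by hypothesis; `small_of_injective`). -/

set_option autoImplicit false

namespace SSO

private theorem pr_countable {y : Ys} (hy : y.Countable) :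
    (dm y).Countable ∧ {x : Pt | ∃ ξ w, (ξ, x, w) ∈ y}.Countable ∧
      {w : K | ∃ ξ, w ∈ rg y ξ}.Countable := by
  refine ⟨?_, ?_, ?_⟩
  · refine (hy.image fun p => p.1).mono ?_
    rintro ξ ⟨x, w, h⟩
    exact ⟨_, h, rfl⟩
  · refine (hy.image fun p => p.2.1).mono ?_
    rintro x ⟨ξ, w, h⟩
    exact ⟨_, h, rfl⟩
  · refine (hy.image fun p => p.2.2).mono ?_
    rintro w ⟨ξ, x, h⟩
    exact ⟨_, h, rfl⟩

private theorem un_countable {A : Set Lb} {B : Set Pt} {C : Set K} (hA : A.Countable)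
    (hB : B.Countable) (hC : C.Countable) {S : Set Z} (h1 : ∀ ξ, Sum.inl ξ ∈ S → ξ ∈ A)
    (h2 : ∀ x, Sum.inr (Sum.inl x) ∈ S → x ∈ B) (h3 : ∀ w, Sum.inr (Sum.inr w) ∈ S → w ∈ C) :
    S.Countable := by
  have h : (Sum.inl '' A ∪ ((fun x => Sum.inr (Sum.inl x)) '' B ∪
      (fun w => Sum.inr (Sum.inr w)) '' C) : Set Z).Countable :=
    (hA.image _).union ((hB.image _).union (hC.image _))
  refine h.mono ?_
  rintro (ξ | x | w) hz
  · exact Or.inl ⟨ξ, h1 ξ hz, rfl⟩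
  · exact Or.inr (Or.inl ⟨x, h2 x hz, rfl⟩)
  · exact Or.inr (Or.inr ⟨w, h3 w hz, rfl⟩)

theorem sp_countable (c : Pre) : (sp c).Countable := by
  obtain ⟨h1, h2, h3⟩ := pr_countable c.cy
  exact un_countable ((lbs_finite c.fg).countable.union h1)
    ((pts_finite c.fg).countable.union h2) h3 (fun _ h => h) (fun _ h => h) (fun _ h => h)

private theorem ps_countable {m : ℕ} {X : Type 1} (φ : Fin m → Option X) :
    {x : X | ∃ k, φ k = some x}.Countable := by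
  have h : (Set.range φ).Countable := Set.countable_range φ
  exact h.preimage (Option.some_injective X)

theorem spT_countable (t : Tr) : (spT t).Countable := by
  obtain ⟨h1, h2, h3⟩ := pr_countable t.cτ
  exact un_countable (h1.union (t.cd.union (ps_countable t.ψ)))
    (h2.union (ps_countable t.φ)) (h3.union t.cv) (fun _ h => h) (fun _ h => h) (fun _ h => h)

private abbrev Cod (M : Set Z) : Type 1 :=
  Set (M × M × M) × Set M × Set M × (Σ p : ℕ × ℕ,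
    Set (Atom (Fin p.2) (Fin p.1)) × (Fin p.1 → Set M) × (Fin p.2 → Set M))

private def cod (M : Set Z) (t : Tr) : Cod M :=
  ({p | ∃ ξ x w, p.1.1 = Sum.inl ξ ∧ p.2.1.1 = Sum.inr (Sum.inl x) ∧
      p.2.2.1 = Sum.inr (Sum.inr w) ∧ (ξ, x, w) ∈ t.τ},
    {p | ∃ ξ, p.1 = Sum.inl ξ ∧ ξ ∈ t.d},
    {p | ∃ w, p.1 = Sum.inr (Sum.inr w) ∧ w ∈ t.v},
    ⟨(t.m, t.l), t.gs, fun k => {p | ∃ a, p.1 = Sum.inr (Sum.inl a) ∧ t.φ k = some a},
      fun k => {p | ∃ ξ, p.1 = Sum.inl ξ ∧ t.ψ k = some ξ}⟩)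

private theorem cod_τ {M : Set Z} {t t' : Tr} (ht : spT t ⊆ M)
    (h : (cod M t).1 = (cod M t').1) : t.τ ⊆ t'.τ := by
  rintro ⟨ξ, x, w⟩ hx
  have m1 : (Sum.inl ξ : Z) ∈ M := ht (Or.inl ⟨x, w, hx⟩)
  have m2 : (Sum.inr (Sum.inl x) : Z) ∈ M := ht (Or.inl ⟨ξ, w, hx⟩)
  have m3 : (Sum.inr (Sum.inr w) : Z) ∈ M := ht (Or.inl ⟨ξ, x, hx⟩)
  have h1 : ((⟨_, m1⟩, ⟨_, m2⟩, ⟨_, m3⟩) : M × M × M) ∈ (cod M t).1 :=
    ⟨ξ, x, w, rfl, rfl, rfl, hx⟩
  rw [h] at h1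
  obtain ⟨ξ', x', w', e1, e2, e3, h2⟩ := h1
  cases e1
  cases e2
  cases e3
  exact h2

private theorem cod_d {M : Set Z} {t t' : Tr} (ht : spT t ⊆ M)
    (h : (cod M t).2.1 = (cod M t').2.1) : t.d ⊆ t'.d := by
  intro ξ hx
  have m1 : (Sum.inl ξ : Z) ∈ M := ht (Or.inr (Or.inl hx))
  have h1 : (⟨_, m1⟩ : M) ∈ (cod M t).2.1 := ⟨ξ, rfl, hx⟩
  rw [h] at h1
  obtain ⟨ξ', e1, h2⟩ := h1
  cases e1
  exact h2

private theorem cod_v {M : Set Z} {t t' : Tr} (ht : spT t ⊆ M)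
    (h : (cod M t).2.2.1 = (cod M t').2.2.1) : t.v ⊆ t'.v := by
  intro w hx
  have m1 : (Sum.inr (Sum.inr w) : Z) ∈ M := ht (Or.inr hx)
  have h1 : (⟨_, m1⟩ : M) ∈ (cod M t).2.2.1 := ⟨w, rfl, hx⟩
  rw [h] at h1
  obtain ⟨w', e1, h2⟩ := h1
  cases e1
  exact h2

private theorem cod_f {M : Set Z} {m : ℕ} {X : Type 1} {j : X → Z} (hj : Function.Injective j)
    {φ φ' : Fin m → Option X} (h1 : ∀ k a, φ k = some a → j a ∈ M)
    (h2 : ∀ k a, φ' k = some a → j a ∈ M)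
    (h : (fun k => {p : M | ∃ a, p.1 = j a ∧ φ k = some a}) =
      fun k => {p : M | ∃ a, p.1 = j a ∧ φ' k = some a}) : φ = φ' := by
  funext k
  have hk := congrFun h k
  apply Option.ext
  intro a
  constructor
  · intro ha
    have h3 : (⟨j a, h1 k a ha⟩ : M) ∈ {p : M | ∃ a, p.1 = j a ∧ φ k = some a} := ⟨a, rfl, ha⟩
    rw [hk] at h3
    obtain ⟨a', e, h4⟩ := h3
    rw [hj e]
    exact h4
  · intro ha
    have h3 : (⟨j a, h2 k a ha⟩ : M) ∈ {p : M | ∃ a, p.1 = j a ∧ φ' k = some a} := ⟨a, rfl, ha⟩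
    rw [← hk] at h3
    obtain ⟨a', e, h4⟩ := h3
    rw [hj e]
    exact h4

private theorem cod_inj {M : Set Z} {t t' : Tr} (ht : spT t ⊆ M) (ht' : spT t' ⊆ M)
    (h : cod M t = cod M t') : t = t' := by
  have e1 : t.τ = t'.τ := (cod_τ ht (by rw [h])).antisymm (cod_τ ht' (by rw [h]))
  have e2 : t.d = t'.d := (cod_d ht (by rw [h])).antisymm (cod_d ht' (by rw [h]))
  have e3 : t.v = t'.v := (cod_v ht (by rw [h])).antisymm (cod_v ht' (by rw [h]))
  have p1 : ∀ k a, t.φ k = some a → (Sum.inr (Sum.inl a) : Z) ∈ M :=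
    fun k a hk => ht (Or.inr ⟨k, hk⟩)
  have p2 : ∀ k a, t'.φ k = some a → (Sum.inr (Sum.inl a) : Z) ∈ M :=
    fun k a hk => ht' (Or.inr ⟨k, hk⟩)
  have q1 : ∀ k a, t.ψ k = some a → (Sum.inl a : Z) ∈ M :=
    fun k a hk => ht (Or.inr (Or.inr ⟨k, hk⟩))
  have q2 : ∀ k a, t'.ψ k = some a → (Sum.inl a : Z) ∈ M :=
    fun k a hk => ht' (Or.inr (Or.inr ⟨k, hk⟩))
  have h4 : (cod M t).2.2.2 = (cod M t').2.2.2 := by rw [h]
  clear h ht ht'
  obtain ⟨τ, d, v, m, l, gs, φ, ψ, cτ, cd, cv, fg, fp, fl⟩ := t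
  obtain ⟨τ', d', v', m', l', gs', φ', ψ', cτ', cd', cv', fg', fp', fl'⟩ := t'
  simp only at e1 e2 e3
  subst e1 e2 e3
  simp only [cod, Sigma.mk.injEq, Prod.mk.injEq] at h4
  obtain ⟨⟨rfl, rfl⟩, h5⟩ := h4
  simp only [heq_eq_eq, Prod.mk.injEq] at h5
  obtain ⟨rfl, h6, h7⟩ := h5
  have e4 : φ = φ' := cod_f (j := fun a : Pt => (Sum.inr (Sum.inl a) : Z))
    (Sum.inr_injective.comp Sum.inl_injective) p1 p2 h6
  have e5 : ψ = ψ' := cod_f (j := fun a : Lb => (Sum.inl a : Z)) Sum.inl_injective q1 q2 h7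
  subst e4 e5
  rfl

theorem small_tr {M : Set Z} (hM : Small.{0} M) : Small.{0} {t | spT t ⊆ M} := by
  have hC : Small.{0} (Cod M) := inferInstance
  exact small_of_injective (f := fun t : {t | spT t ⊆ M} => cod M t.1)
    fun t t' h => Subtype.ext (cod_inj t.2 t'.2 h)

end SSO
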