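import Pool.Agent.SSO.RTr
import Pool.Agent.SSO.DRep

/-! # The trace of a condition (package R3)

(problem MP_ceadec_lc, project SSO, part R)

`exists_rep c.1.fg` (file `DRep`) gives `m, l, gs, φ, ψ` with `Atom.map ψ φ '' gs = c.1.g`, `pts gs = univ`, `lbs gs = univ`. Put
`τ := {(ξ, x, w) ∈ c.y | mL M ξ, mP M x, mK M w}`, `d := {ξ ∈ dm c.y | mL M ξ}`, `v := {w | mK M w, ∃ ξ, w ∈ rg c.y ξ}` (countable, as `c.y` is countable: images of
subsets), `t.φ k := if mP M (φ k) then some (φ k) else none`, `t.ψ` in the same way. `IsTr M c t` and `spT t ⊆ M` are clear. `Fits t c`: `dv`: let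
`ξ ∈ d`, `w ∈ v`, `(ξ, x, w) ∈ c.y`; then `w ∈ W ξ x` (`c.2.yg.w`), so `mP M x` by `hM.c4`; so `(ξ, x, w) ∈ τ`. `dd`: `ξ ≠ ζ` in `d`,
`(ξ, x, w)`, `(ζ, x', w) ∈ c.y`: `mK M w` by `hM.c2`, then `mP M x`, `mP M x'` by `hM.c4`. -/

set_option autoImplicit false

namespace SSO

private theorem ite_some {A : Type*} {p : A → Prop} [DecidablePred p] {x a : A} :
    (if p x then some x else none) = some a ↔ x = a ∧ p a := by
  by_cases h : p x
  · rw [if_pos h, Option.some.injEq]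
    exact ⟨fun h1 => ⟨h1, h1 ▸ h⟩, fun h1 => h1.1⟩
  · rw [if_neg h]
    constructor
    · intro h1
      cases h1
    · rintro ⟨rfl, h2⟩
      exact absurd h2 h

theorem exists_trace {M : Set Z} (hM : Closed M) (c : Cn) :
    ∃ t : Tr, IsTr M c.1 t ∧ Fits t c.1 ∧ spT t ⊆ M := by
  classical
  obtain ⟨m, l, gs, φ, ψ, hfg, hφ, hψ, hrep, hfp, hfl⟩ := exists_rep c.1.fg
  have hcd : {ξ | ξ ∈ dm c.1.y ∧ mL M ξ}.Countable := by
    refine (c.1.cy.image fun z => z.1).mono ?_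
    rintro ξ ⟨⟨x, w, h⟩, _⟩
    exact ⟨_, h, rfl⟩
  have hcv : {w | (∃ ξ, w ∈ rg c.1.y ξ) ∧ mK M w}.Countable := by
    refine (c.1.cy.image fun z => z.2.2).mono ?_
    rintro w ⟨⟨ξ, x, h⟩, _⟩
    exact ⟨_, h, rfl⟩
  refine ⟨{ τ := {z | z ∈ c.1.y ∧ mL M z.1 ∧ mP M z.2.1 ∧ mK M z.2.2}
            d := {ξ | ξ ∈ dm c.1.y ∧ mL M ξ}
            v := {w | (∃ ξ, w ∈ rg c.1.y ξ) ∧ mK M w}
            m := m
            l := l
            gs := gs
            φ := fun k => if mP M (φ k) then some (φ k) else none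
            ψ := fun k => if mL M (ψ k) then some (ψ k) else none
            cτ := c.1.cy.mono fun _ h => h.1
            cd := hcd
            cv := hcv
            fg := hfg
            fp := hfp
            fl := hfl }, ?_, ?_, ?_⟩
  · exact
      { τ := fun ξ x w => Iff.rfl
        d := fun ξ => Iff.rfl
        v := fun w => Iff.rfl
        rep := ⟨φ, ψ, hφ, hψ, hrep, fun k a => ite_some (p := mP M),
          fun k ξ => ite_some (p := mL M)⟩ }
  · exact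
      { rep := ⟨φ, ψ, hφ, hψ, hrep, fun k a h => ((ite_some (p := mP M)).1 h).1,
          fun k ξ h => ((ite_some (p := mL M)).1 h).1⟩
        τ := fun _ h => h.1
        dv := by
          rintro ξ ⟨_, hξ⟩ w ⟨_, hw⟩ ⟨x, hx⟩
          exact ⟨x, hx, hξ, hM.c4 ξ w x hξ hw (c.2.yg.w ξ x w hx), hw⟩
        dd := by
          rintro ξ ⟨_, hξ⟩ ζ ⟨_, hζ⟩ hne w ⟨x, hx⟩ ⟨x', hx'⟩
          have h1 := c.2.yg.w ξ x w hx
          have h2 := c.2.yg.w ζ x' w hx'
          have hw : mK M w := hM.c2 ξ ζ hne hξ hζ w ⟨x, h1⟩ ⟨x', h2⟩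
          exact ⟨⟨x, hx, hξ, hM.c4 ξ w x hξ hw h1, hw⟩, ⟨x', hx', hζ, hM.c4 ζ w x' hζ hw h2, hw⟩⟩ }
  · rintro (ξ | x | w) h
    · rcases h with ⟨x, w, h⟩ | h | ⟨k, h⟩
      · exact h.2.1
      · exact h.2
      · exact ((ite_some (p := mL M)).1 h).2
    · rcases h with ⟨ξ, w, h⟩ | ⟨k, h⟩
      · exact h.2.2.1
      · exact ((ite_some (p := mP M)).1 h).2
    · rcases h with ⟨ξ, x, h⟩ | h
      · exact h.2.2.2
      · exact h.2

end SSO
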