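import Pool.Agent.SSO.RClo
import Pool.Agent.SSO.RSml
import Pool.Agent.SSO.RTrc
import Pool.Agent.SSO.RCmp

/-! # Reflection: the chain condition (package R5)

(problem MP_ceadec_lc, project SSO, part R)

For every trace `t` choose `rep t : Option Cn`: some `c ∈ D` with `Fits t c.1` if there is one, otherwise `none`.

`close` for `T := Tr ⊕ (Z × Z)`, `X := Z`: the support of `inl t` is `spT t`, of `inr (z, z')` is `{z, z'}`; the operation: `op (inl t) := sp c.1` if `rep t = some c`,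
`∅` otherwise; `op (inr (z, z'))` is the set of all
`inr (inr w)`, `w ∈ W ξ x` if `z = inl ξ`, `z' = inr (inl x)`;
`inr (inr w)` with `w` in some `W ξ x` and some `W ζ x'`, if `z = inl ξ`, `z' = inl ζ`, `ξ ≠ ζ`; `inr (inl x)`, `x ∈ En ξ` if `z = z' = inl ξ`;
`inr (inl x)` with `w ∈ W ξ x` if `z = inl ξ`, `z' = inr (inr w)` (at most one such `x`: `wok.dis`);
`inr (inl (w, k))`, `k : ℕ`, if `z = z' = inr (inr w)`; `inr (inr x.1)` if `z = z' = inr (inl x)`.
All these sets are small (`wok.bdd`, `wok.ad`, `small_of_bdd`; countable sets: `sp_countable`, `Set.countable_range`; images of small sets: `small_image`).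
The sets `{t | support ⊆ M}` are small for small `M` (`small_tr`, products). So there is a small `M`, closed under the operations: `Closed M`, and
`sp c.1 ⊆ M` for `rep t = some c`, `spT t ⊆ M`.

`D' := {c | ∃ t, spT t ⊆ M ∧ rep t = some c}`, the image of a small set, so small; `D' ⊆ D`. Let `c ∈ D`; `exists_trace hM c`: a trace `t` with `spT t ⊆ M`,
`Fits t c.1`; so `rep t = some c'`, `c' ∈ D'`, `Fits t c'.1`, `sp c'.1 ⊆ M`; `compat_of_fits`. -/

set_option autoImplicit false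

namespace SSO

/-- the operations for the pairs -/
private def rRefOp : Z → Z → Set Z
  | .inl ξ, .inl ζ => {u | ξ ≠ ζ ∧ ∃ w, (∃ x, w ∈ W ξ x) ∧ (∃ x, w ∈ W ζ x) ∧
      u = Sum.inr (Sum.inr w)} ∪ {u | ξ = ζ ∧ ∃ x ∈ En ξ, u = Sum.inr (Sum.inl x)}
  | .inl ξ, .inr (.inl x) => {u | ∃ w ∈ W ξ x, u = Sum.inr (Sum.inr w)}
  | .inl ξ, .inr (.inr w) => {u | ∃ x, w ∈ W ξ x ∧ u = Sum.inr (Sum.inl x)}
  | .inr (.inl x), _ => {u | u = Sum.inr (Sum.inr x.1)}
  | .inr (.inr w), _ => {u | ∃ k : ℕ, u = Sum.inr (Sum.inl (w, k))}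

private theorem rRef_small_countable {A : Type 1} {s : Set A} (h : s.Countable) :
    Small.{0} s := by
  have := h.to_subtype
  exact Countable.toSmall _

private theorem rRef_small_img {A B : Type 1} {s : Set A} (h : Small.{0} s) (f : A → B)
    {t : Set B} (ht : t ⊆ f '' s) : Small.{0} t := by
  have h1 : Small.{0} (f '' s) := inferInstance
  exact small_subset ht

private theorem rRef_small_un {A : Type 1} {s t : Set A} (h : Small.{0} s) (h' : Small.{0} t) :
    Small.{0} (s ∪ t : Set A) := inferInstance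

private theorem rRefOp_small (z z' : Z) : Small.{0} (rRefOp z z') := by
  rcases z with ξ | x | w
  · rcases z' with ζ | x | w
    · refine rRef_small_un ?_ ?_
      · by_cases h : ξ = ζ
        · refine rRef_small_countable (Set.countable_empty.mono ?_)
          rintro u ⟨h1, -⟩
          exact absurd h h1
        · refine rRef_small_img (small_of_bdd (wok.ad ξ ζ h))
            (fun w : K => (Sum.inr (Sum.inr w) : Z)) ?_
          rintro u ⟨-, w, h1, h2, rfl⟩
          exact ⟨w, ⟨h1, h2⟩, rfl⟩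
      · refine rRef_small_img (rRef_small_countable (Set.countable_range (dat ξ).e))
          (fun x : Pt => (Sum.inr (Sum.inl x) : Z)) ?_
        rintro u ⟨-, x, h1, rfl⟩
        exact ⟨x, h1, rfl⟩
    · refine rRef_small_img (small_of_bdd (wok.bdd ξ x))
        (fun w : K => (Sum.inr (Sum.inr w) : Z)) ?_
      rintro u ⟨w, h1, rfl⟩
      exact ⟨w, h1, rfl⟩
    · have hc : {x | w ∈ W ξ x}.Subsingleton := fun x hx x' hx' => wok.dis ξ x x' w hx hx'
      refine rRef_small_img (rRef_small_countable hc.countable)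
        (fun x : Pt => (Sum.inr (Sum.inl x) : Z)) ?_
      rintro u ⟨x, h1, rfl⟩
      exact ⟨x, h1, rfl⟩
  · exact rRef_small_countable (Set.countable_singleton (Sum.inr (Sum.inr x.1) : Z))
  · refine rRef_small_countable ((Set.countable_range fun k : ℕ =>
      (Sum.inr (Sum.inl (w, k)) : Z)).mono ?_)
    rintro u ⟨k, rfl⟩
    exact ⟨k, rfl⟩

/-- the supports -/
private def rRefSp : Tr ⊕ (Z × Z) → Set Z
  | .inl t => spT t
  | .inr p => {p.1, p.2}

/-- the operations -/
private def rRefAll (rep : Tr → Option Cn) : Tr ⊕ (Z × Z) → Set Z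
  | .inl t => {z | ∃ c, rep t = some c ∧ z ∈ sp c.1}
  | .inr p => rRefOp p.1 p.2

private theorem rRef_close (rep : Tr → Option Cn) : ∃ M : Set Z, Small.{0} M ∧
    (∀ t, spT t ⊆ M → ∀ c, rep t = some c → sp c.1 ⊆ M) ∧
    ∀ z z', z ∈ M → z' ∈ M → rRefOp z z' ⊆ M := by
  have hc : ∀ t, (rRefSp t).Countable := by
    rintro (t | p)
    · exact spT_countable t
    · exact (Set.countable_singleton p.2).insert p.1
  have hs : ∀ M : Set Z, Small.{0} M → Small.{0} {t | rRefSp t ⊆ M} := by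
    intro M hM
    have h1 : Small.{0} (Sum.inl '' {t | spT t ⊆ M} : Set (Tr ⊕ (Z × Z))) :=
      rRef_small_img (small_tr hM) Sum.inl subset_rfl
    have h2 : Small.{0} (Set.range fun p : M × M =>
        (Sum.inr (p.1.1, p.2.1) : Tr ⊕ (Z × Z))) := inferInstance
    have h3 := rRef_small_un h1 h2
    have h4 : {t | rRefSp t ⊆ M} ⊆ (Sum.inl '' {t | spT t ⊆ M} ∪ Set.range fun p : M × M =>
        (Sum.inr (p.1.1, p.2.1) : Tr ⊕ (Z × Z)) : Set (Tr ⊕ (Z × Z))) := ?_
    · exact small_subset h4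
    rintro (t | p) h
    · exact Or.inl ⟨t, h, rfl⟩
    · exact Or.inr ⟨(⟨p.1, h (Or.inl rfl)⟩, ⟨p.2, h (Or.inr rfl)⟩), rfl⟩
  have ho : ∀ t, Small.{0} (rRefAll rep t) := by
    rintro (t | p)
    · by_cases h : ∃ c, rep t = some c
      · obtain ⟨c, hc⟩ := h
        refine rRef_small_countable ((sp_countable c.1).mono ?_)
        rintro z ⟨c', hc', hz⟩
        rw [hc] at hc'
        rw [Option.some.inj hc']
        exact hz
      · refine rRef_small_countable (Set.countable_empty.mono ?_)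
        rintro z ⟨c', hc', -⟩
        exact h ⟨c', hc'⟩
    · exact rRefOp_small p.1 p.2
  obtain ⟨M, hM, h⟩ := close rRefSp hc hs (rRefAll rep) ho
  refine ⟨M, hM, fun t ht c hc z hz => h (.inl t) ht ⟨c, hc, hz⟩, fun z z' hz hz' =>
    h (.inr (z, z')) ?_⟩
  rintro u (rfl | hu)
  · exact hz
  · rw [hu]
    exact hz'

private theorem rRef_closed {M : Set Z} (h : ∀ z z', z ∈ M → z' ∈ M → rRefOp z z' ⊆ M) :
    Closed M where
  c1 ξ x h1 h2 w hw := h (.inl ξ) (.inr (.inl x)) h1 h2 ⟨w, hw, rfl⟩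
  c2 ξ ζ hne h1 h2 w hw hw' := h (.inl ξ) (.inl ζ) h1 h2 (Or.inl ⟨hne, w, hw, hw', rfl⟩)
  c3 ξ h1 x hx := h (.inl ξ) (.inl ξ) h1 h1 (Or.inr ⟨rfl, x, hx, rfl⟩)
  c4 ξ w x h1 h2 hw := h (.inl ξ) (.inr (.inr w)) h1 h2 ⟨x, hw, rfl⟩
  c5 w k := ⟨fun h1 => h (.inr (.inr w)) (.inr (.inr w)) h1 h1 ⟨k, rfl⟩,
    fun h1 => h (.inr (.inl (w, k))) (.inr (.inl (w, k))) h1 h1 rfl⟩

theorem reflection (D : Set Cn) : ∃ D' ⊆ D, Small.{0} D' ∧
    ∀ c ∈ D, ∃ c' ∈ D', ∃ r : Cn, r ≤ c ∧ r ≤ c' := by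
  classical
  obtain ⟨rep, h1, h2⟩ : ∃ rep : Tr → Option Cn,
      (∀ t c, rep t = some c → c ∈ D ∧ Fits t c.1) ∧
      ∀ t, (∃ c ∈ D, Fits t c.1) → ∃ c, rep t = some c := by
    refine ⟨fun t => if h : ∃ c ∈ D, Fits t c.1 then some h.choose else none,
      fun t c hc => ?_, fun t ht => ?_⟩
    · beta_reduce at hc
      by_cases h : ∃ c ∈ D, Fits t c.1
      · rw [dif_pos h] at hc
        rw [← Option.some.inj hc]
        exact h.choose_spec
      · rw [dif_neg h] at hc
        cases hc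
    · exact ⟨ht.choose, dif_pos ht⟩
  obtain ⟨M, hM, h3, h4⟩ := rRef_close rep
  have hcl := rRef_closed h4
  refine ⟨{c | ∃ t, spT t ⊆ M ∧ rep t = some c}, ?_, ?_, ?_⟩
  · rintro c ⟨t, -, ht⟩
    exact (h1 t c ht).1
  · have hi : Small.{0} (rep '' {t | spT t ⊆ M}) := rRef_small_img (small_tr hM) rep subset_rfl
    refine small_of_injective (f := fun c : {c | ∃ t, spT t ⊆ M ∧ rep t = some c} =>
      (⟨some c.1, c.2.choose, c.2.choose_spec.1, c.2.choose_spec.2⟩ :
        (rep '' {t | spT t ⊆ M} : Set (Option Cn)))) ?_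
    intro c c' h
    exact Subtype.ext (Option.some.inj (congrArg Subtype.val h))
  · intro c hc
    obtain ⟨t, ht, hf, hs⟩ := exists_trace hcl c
    obtain ⟨c', hc'⟩ := h2 t ⟨c, hc, hf⟩
    exact ⟨c', ⟨t, hs, hc'⟩, compat_of_fits hcl ht (h1 t c' hc').2 (h3 t hs c' hc')⟩

end SSO
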