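import Pool.Agent.SSO.Pos

/-! # Small models and traces (definitions)

(problem MP_ceadec_lc, project SSO; no sorry in this file)

A small elementary submodel is replaced by a set `M : Set Z` of labels, points and values, `Z = Lb ⊕ Pt ⊕ K`: `mL M ξ`, `mP M x`, `mK M w`
mean that the label, point, value is in `M`. `sp c`: the (countable) support of a pre-condition. `Closed M`: the closure properties.

`Tr`: traces (possible restrictions of conditions to a model): `τ` (a part of the `y`-part), `d` (labels), `v` (values), an abstract finite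
set of atoms `gs` over `Fin m`, `Fin l` and partial functions `φ`, `ψ`. `spT t`: the support. `IsTr M c t`: `t` is the trace of `c` on `M`.
`Fits t c`: `c` extends the trace. -/

set_option autoImplicit false

namespace SSO

/-- the elements of models -/
abbrev Z : Type 1 := Lb ⊕ (Pt ⊕ K)

/-- the label is in `M` -/
def mL (M : Set Z) (ξ : Lb) : Prop := Sum.inl ξ ∈ M

/-- the point is in `M` -/
def mP (M : Set Z) (x : Pt) : Prop := Sum.inr (Sum.inl x) ∈ M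

/-- the value is in `M` -/
def mK (M : Set Z) (w : K) : Prop := Sum.inr (Sum.inr w) ∈ M

/-- the support of a pre-condition -/
def sp (c : Pre) : Set Z := {z | match z with
  | .inl ξ => ξ ∈ lbs c.g ∨ ξ ∈ dm c.y
  | .inr (.inl x) => x ∈ pts c.g ∨ ∃ ξ w, (ξ, x, w) ∈ c.y
  | .inr (.inr w) => ∃ ξ, w ∈ rg c.y ξ}

/-- closure properties of the model `M` -/
structure Closed (M : Set Z) : Prop where
  c1 : ∀ ξ x, mL M ξ → mP M x → ∀ w ∈ W ξ x, mK M w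
  c2 : ∀ ξ ζ, ξ ≠ ζ → mL M ξ → mL M ζ → ∀ w, (∃ x, w ∈ W ξ x) → (∃ x, w ∈ W ζ x) → mK M w
  c3 : ∀ ξ, mL M ξ → ∀ x ∈ En ξ, mP M x
  c4 : ∀ ξ w x, mL M ξ → mK M w → w ∈ W ξ x → mP M x
  c5 : ∀ w k, mK M w ↔ mP M (w, k)

/-- traces -/
structure Tr : Type 1 where
  τ : Ys
  d : Set Lb
  v : Set K
  m : ℕ
  l : ℕ
  gs : Set (Atom (Fin l) (Fin m))
  φ : Fin m → Option Pt
  ψ : Fin l → Option Lb
  cτ : τ.Countable
  cd : d.Countable
  cv : v.Countable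
  fg : gs.Finite
  fp : pts gs = Set.univ
  fl : lbs gs = Set.univ

/-- the support of a trace -/
def spT (t : Tr) : Set Z := {z | match z with
  | .inl ξ => ξ ∈ dm t.τ ∨ ξ ∈ t.d ∨ ∃ k, t.ψ k = some ξ
  | .inr (.inl x) => (∃ ξ w, (ξ, x, w) ∈ t.τ) ∨ ∃ k, t.φ k = some x
  | .inr (.inr w) => (∃ ξ, w ∈ rg t.τ ξ) ∨ w ∈ t.v}

/-- `t` is the trace of `c` on `M` -/
structure IsTr (M : Set Z) (c : Pre) (t : Tr) : Prop where
  τ : ∀ ξ x w, (ξ, x, w) ∈ t.τ ↔ (ξ, x, w) ∈ c.y ∧ mL M ξ ∧ mP M x ∧ mK M w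
  d : ∀ ξ, ξ ∈ t.d ↔ ξ ∈ dm c.y ∧ mL M ξ
  v : ∀ w, w ∈ t.v ↔ (∃ ξ, w ∈ rg c.y ξ) ∧ mK M w
  rep : ∃ (φ : Fin t.m → Pt) (ψ : Fin t.l → Lb), Function.Injective φ ∧ Function.Injective ψ ∧
    Atom.map ψ φ '' t.gs = c.g ∧ (∀ k a, t.φ k = some a ↔ φ k = a ∧ mP M a) ∧
    ∀ k ξ, t.ψ k = some ξ ↔ ψ k = ξ ∧ mL M ξ

/-- `c` extends the trace `t` -/
structure Fits (t : Tr) (c : Pre) : Prop where
  rep : ∃ (φ : Fin t.m → Pt) (ψ : Fin t.l → Lb), Function.Injective φ ∧ Function.Injective ψ ∧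
    Atom.map ψ φ '' t.gs = c.g ∧ (∀ k a, t.φ k = some a → φ k = a) ∧
    ∀ k ξ, t.ψ k = some ξ → ψ k = ξ
  τ : t.τ ⊆ c.y
  dv : ∀ ξ ∈ t.d, ∀ w ∈ t.v, w ∈ rg c.y ξ → w ∈ rg t.τ ξ
  dd : ∀ ξ ∈ t.d, ∀ ζ ∈ t.d, ξ ≠ ζ → ∀ w, w ∈ rg c.y ξ → w ∈ rg c.y ζ →
    w ∈ rg t.τ ξ ∧ w ∈ rg t.τ ζ

end SSO
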